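import Pool.Agent.Helper10.EN.Defs

/-! ENT-A1: squares of trigonometric polynomials and autocorrelations.

`normsq_expand`: `‖z‖^2` with `z = ∑ f t * ee (t x)` is the real part of `z * conj z =
∑_{t,s} f t f s ee ((t - s) x)` (`ee_neg`, `ee_add` in Helper10/Circ); split the square `range n × range n` into
the diagonal and the two triangles `t = s + k`, `s = t + k`, `1 ≤ k < n`; each triangle gives
`∑_k acf f n k * ee (± k x)` and `ee y + ee (-y) = 2 cos (2 π y)` (`ee_cos` in P4/Psi). An induction on `n`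
is also possible: adding the term `n` adds `f n ^ 2 + 2 ∑_{t<n} f t f n cos (2 π (n - t) x)`.
`ac_eq`: `dotL P Q = ∑ t in range n, P.getD t 0 * Q.getD t 0` when one of the lengths is `≤ n` (induction on the
lists), `(P.drop k).getD t 0 = P.getD (t + k) 0`; the terms with `t ≥ n - k` vanish since `P.getD` is `0` beyond
the length.
`phiL_expand`: from `phiL_eq` and `ee_cos`: `2 cos (2 π k x) = ee (k x) + ee (- k x)`; reindex `range 161` as
`k = 80`, `k = 80 + j`, `k = 80 - j` (`1 ≤ j ≤ 80`). `bco_sum`: the same reindexing of the absolute values gives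
`(|ac P 0| + 2 sumAc P 80) / 2^60`. -/

namespace Pool.Agent.Helper10.EN

open Finset Pool.Agent.Helper10 Pool.Agent.Helper10.P5 Pool.Agent.Helper10.P4

private lemma ee_re_aux (y : ℝ) : (ee y).re = Real.cos (2 * Real.pi * y) := by
  unfold ee
  rw [mul_comm, Complex.exp_ofReal_mul_I_re]

private lemma acf_succ (f : ℕ → ℝ) (n k : ℕ) (hk : k ≤ n) :
    acf f (n + 1) k = acf f n k + f (n - k) * f n := by
  unfold acf
  have h : n + 1 - k = (n - k) + 1 := by omega
  rw [h, Finset.sum_range_succ]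
  have h2 : n - k + k = n := by omega
  rw [h2]

private lemma norm_ee_aux (y : ℝ) : ‖ee y‖ = 1 := by
  unfold ee
  rw [mul_comm]
  exact Complex.norm_exp_ofReal_mul_I _

lemma normsq_expand (f : ℕ → ℝ) (n : ℕ) (x : ℝ) :
    ‖∑ t ∈ range n, ((f t : ℝ) : ℂ) * ee ((t : ℝ) * x)‖ ^ 2 =
      acf f n 0 + 2 * ∑ k ∈ Ico 1 n, acf f n k * Real.cos (2 * Real.pi * ((k : ℝ) * x)) := by
  induction n with
  | zero => simp [acf]
  | succ n ih =>
    rw [Finset.sum_range_succ, ← Complex.normSq_eq_norm_sq, Complex.normSq_add,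
      Complex.normSq_eq_norm_sq, Complex.normSq_eq_norm_sq, ih]
    have hw : ‖((f n : ℝ) : ℂ) * ee ((n : ℝ) * x)‖ ^ 2 = f n ^ 2 := by
      rw [norm_mul, norm_ee_aux, mul_one, Complex.norm_real, Real.norm_eq_abs, sq_abs]
    have hcross : ((∑ t ∈ range n, ((f t : ℝ) : ℂ) * ee ((t : ℝ) * x)) *
        (starRingEnd ℂ) (((f n : ℝ) : ℂ) * ee ((n : ℝ) * x))).re =
        ∑ t ∈ range n, f t * f n * Real.cos (2 * Real.pi * (((n - t : ℕ) : ℝ) * x)) := by
      rw [map_mul, Complex.conj_ofReal, ← ee_neg, Finset.sum_mul, Complex.re_sum]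
      refine Finset.sum_congr rfl fun t ht => ?_
      have ht' : t < n := Finset.mem_range.1 ht
      have e1 : ((f t : ℝ) : ℂ) * ee ((t : ℝ) * x) * (((f n : ℝ) : ℂ) * ee (-((n : ℝ) * x))) =
          ((f t * f n : ℝ) : ℂ) * ee ((t : ℝ) * x + -((n : ℝ) * x)) := by
        rw [ee_add]
        push_cast
        ring
      rw [e1, Complex.re_ofReal_mul, ee_re_aux]
      congr 1
      rw [Nat.cast_sub ht'.le, ← Real.cos_neg]
      congr 1
      ring
    have hrefl : ∑ t ∈ range n, f t * f n * Real.cos (2 * Real.pi * (((n - t : ℕ) : ℝ) * x)) =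
        ∑ k ∈ Ico 1 (n + 1), f (n - k) * f n * Real.cos (2 * Real.pi * ((k : ℝ) * x)) := by
      rw [Finset.sum_Ico_eq_sum_range, ← Finset.sum_range_reflect]
      have e : n + 1 - 1 = n := by omega
      rw [e]
      refine Finset.sum_congr rfl fun t ht => ?_
      have ht' : t < n := Finset.mem_range.1 ht
      have e1 : n - 1 - t = n - (1 + t) := by omega
      have e2 : n - (n - 1 - t) = 1 + t := by omega
      rw [e2, e1]
    have hacf0 : acf f (n + 1) 0 = acf f n 0 + f n ^ 2 := by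
      rw [acf_succ f n 0 (Nat.zero_le n), Nat.sub_zero, sq]
    have hsum : ∑ k ∈ Ico 1 (n + 1), acf f (n + 1) k * Real.cos (2 * Real.pi * ((k : ℝ) * x)) =
        (∑ k ∈ Ico 1 n, acf f n k * Real.cos (2 * Real.pi * ((k : ℝ) * x))) +
        ∑ k ∈ Ico 1 (n + 1), f (n - k) * f n * Real.cos (2 * Real.pi * ((k : ℝ) * x)) := by
      have h1 : ∑ k ∈ Ico 1 (n + 1), acf f (n + 1) k * Real.cos (2 * Real.pi * ((k : ℝ) * x)) =
          ∑ k ∈ Ico 1 (n + 1), (acf f n k * Real.cos (2 * Real.pi * ((k : ℝ) * x)) +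
            f (n - k) * f n * Real.cos (2 * Real.pi * ((k : ℝ) * x))) := by
        refine Finset.sum_congr rfl fun k hk => ?_
        have hk' := Finset.mem_Ico.1 hk
        rw [acf_succ f n k (by omega)]
        ring
      rw [h1, Finset.sum_add_distrib]
      congr 1
      rcases Nat.eq_zero_or_pos n with h0 | h0
      · subst h0
        simp
      · rw [Finset.sum_Ico_succ_top h0]
        have : acf f n n = 0 := by simp [acf]
        rw [this, zero_mul, add_zero]
    rw [hw, hcross, hrefl, hacf0, hsum]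
    ring

private lemma dotL_nil_left (Q : List ℤ) : dotL [] Q = 0 := by
  unfold dotL
  rfl

private lemma dotL_nil_right (P : List ℤ) : dotL P [] = 0 := by
  cases P <;> rfl

private lemma dotL_eq (P : List ℤ) : ∀ (Q : List ℤ) (n : ℕ), P.length ≤ n →
    dotL P Q = ∑ t ∈ range n, P.getD t 0 * Q.getD t 0 := by
  induction P with
  | nil =>
    intro Q n _
    rw [dotL_nil_left]
    simp
  | cons a as ih =>
    intro Q n hn
    cases Q with
    | nil =>
      rw [dotL_nil_right]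
      simp
    | cons b bs =>
      rw [List.length_cons] at hn
      obtain ⟨m, rfl⟩ : ∃ m, n = m + 1 := ⟨n - 1, by omega⟩
      rw [Finset.sum_range_succ']
      simp only [List.getD_cons_succ, List.getD_cons_zero]
      rw [← ih bs m (by omega)]
      change a * b + dotL as bs = _
      ring

lemma ac_eq (P : List ℤ) (n : ℕ) (h : P.length ≤ n) (k : ℕ) :
    ((ac P k : ℤ) : ℝ) = acf (rl P) n k := by
  have hd : ∀ t, (P.drop k).getD t 0 = P.getD (t + k) 0 := by
    intro t
    rw [List.getD_eq_getElem?_getD, List.getD_eq_getElem?_getD, List.getElem?_drop, add_comm]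
  have hz : ∀ t, n ≤ t → P.getD t 0 = 0 := by
    intro t ht
    rw [List.getD_eq_default]
    omega
  unfold ac acf rl
  rw [dotL_eq P (P.drop k) n h]
  push_cast
  have hsub : range (n - k) ⊆ range n := by
    intro t ht
    rw [Finset.mem_range] at ht ⊢
    omega
  rw [← Finset.sum_subset hsub]
  · refine Finset.sum_congr rfl fun t _ => ?_
    rw [hd]
  · intro t ht ht2
    rw [Finset.mem_range] at ht ht2
    rw [hd, hz (t + k) (by omega)]
    simp

lemma phiL_eq (P : List ℤ) (h : P.length ≤ 81) (x : ℝ) :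
    phiL P x = (((ac P 0 : ℤ) : ℝ) + 2 * ∑ k ∈ Ico 1 81, ((ac P k : ℤ) : ℝ) *
      Real.cos (2 * Real.pi * ((k : ℝ) * x))) / 2 ^ 60 := by
  unfold phiL
  rw [normsq_expand, ac_eq P 81 h 0]
  simp only [ac_eq P 81 h]

private lemma sum_sym {M : Type*} [AddCommMonoid M] (g : ℕ → M) (m : ℕ) :
    ∑ k ∈ range (2 * m + 1), g k = g m + ∑ j ∈ Ico 1 (m + 1), (g (m - j) + g (m + j)) := by
  have e : 2 * m + 1 = m + (m + 1) := by ring
  rw [e, Finset.sum_range_add, Finset.sum_range_succ', Finset.sum_Ico_eq_sum_range,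
    ← Finset.sum_range_reflect (fun k => g k) m]
  have e2 : m + 1 - 1 = m := by omega
  rw [e2, Finset.sum_add_distrib, add_zero]
  have e3 : ∑ j ∈ range m, g (m - 1 - j) = ∑ j ∈ range m, g (m - (1 + j)) := by
    refine Finset.sum_congr rfl fun j _ => ?_
    rw [Nat.sub_sub]
  have e4 : ∑ j ∈ range m, g (m + (j + 1)) = ∑ j ∈ range m, g (m + (1 + j)) := by
    refine Finset.sum_congr rfl fun j _ => ?_
    rw [add_comm j 1]
  rw [e3, e4]
  abel

private lemma bco_low (P : List ℤ) (j : ℕ) (h1 : j ≤ 80) :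
    bco P (80 - j) = ((ac P j : ℤ) : ℝ) / 2 ^ 60 := by
  unfold bco
  rw [if_pos (by omega)]
  have e : 80 - (80 - j) = j := by omega
  rw [e]

private lemma bco_high (P : List ℤ) (j : ℕ) (h1 : 1 ≤ j) :
    bco P (80 + j) = ((ac P j : ℤ) : ℝ) / 2 ^ 60 := by
  unfold bco
  rw [if_neg (by omega)]
  have e : 80 + j - 80 = j := by omega
  rw [e]

private lemma bco_mid' (P : List ℤ) : bco P 80 = ((ac P 0 : ℤ) : ℝ) / 2 ^ 60 := by
  have h := bco_low P 0 (by omega)
  rwa [Nat.sub_zero] at h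

lemma phiL_expand (P : List ℤ) (h : P.length ≤ 81) (x : ℝ) :
    ((phiL P x : ℝ) : ℂ) = ∑ k ∈ range 161, ((bco P k : ℝ) : ℂ) * ee (((k : ℝ) - 80) * x) := by
  have e161 : (161 : ℕ) = 2 * 80 + 1 := by norm_num
  rw [e161, sum_sym, phiL_eq P h]
  have h0 : ((bco P 80 : ℝ) : ℂ) * ee ((((80 : ℕ) : ℝ) - 80) * x) =
      ((((ac P 0 : ℤ) : ℝ) / 2 ^ 60 : ℝ) : ℂ) := by
    have : (((80 : ℕ) : ℝ) - 80) * x = 0 := by
      push_cast
      ring
    rw [this, ee_zero, mul_one, bco_mid']
  have h1 : ∀ j ∈ Ico 1 (80 + 1),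
      ((bco P (80 - j) : ℝ) : ℂ) * ee ((((80 - j : ℕ) : ℝ) - 80) * x) +
      ((bco P (80 + j) : ℝ) : ℂ) * ee ((((80 + j : ℕ) : ℝ) - 80) * x) =
      (((2 * (((ac P j : ℤ) : ℝ) * Real.cos (2 * Real.pi * ((j : ℝ) * x)))) / 2 ^ 60 : ℝ) : ℂ) := by
    intro j hj
    have hj' := Finset.mem_Ico.1 hj
    rw [bco_low P j (by omega), bco_high P j (by omega)]
    have e1 : (((80 - j : ℕ) : ℝ) - 80) * x = -((j : ℝ) * x) := by
      rw [Nat.cast_sub (by omega)]
      push_cast
      ring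
    have e2 : (((80 + j : ℕ) : ℝ) - 80) * x = (j : ℝ) * x := by
      push_cast
      ring
    rw [e1, e2, ← mul_add, add_comm (ee (-((j : ℝ) * x))), ee_cos, ← Complex.ofReal_mul]
    congr 1
    ring
  rw [h0, Finset.sum_congr rfl h1, ← Complex.ofReal_sum, ← Complex.ofReal_add]
  congr 1
  rw [← Finset.sum_div, ← Finset.mul_sum]
  ring

private lemma sumAc_eq (P : List ℤ) (n : ℕ) :
    sumAc P n = ∑ j ∈ Ico 1 (n + 1), |ac P j| := by
  induction n with
  | zero => simp [sumAc]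
  | succ n ih =>
    rw [Finset.sum_Ico_succ_top (by omega), ← ih]
    change |ac P (n + 1)| + sumAc P n = _
    ring

lemma bco_sum (P : List ℤ) (hk : kerOk P = true) : ∑ k ∈ range 161, |bco P k| ≤ 1 := by
  unfold kerOk at hk
  rw [Bool.and_eq_true, Bool.and_eq_true, decide_eq_true_eq, decide_eq_true_eq,
    decide_eq_true_eq] at hk
  obtain ⟨⟨_, h2⟩, h3⟩ := hk
  have e161 : (161 : ℕ) = 2 * 80 + 1 := by norm_num
  rw [e161, sum_sym, bco_mid']
  have h1 : ∀ j ∈ Ico 1 (80 + 1), |bco P (80 - j)| + |bco P (80 + j)| =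
      2 * ((|ac P j| : ℤ) : ℝ) / 2 ^ 60 := by
    intro j hj
    have hj' := Finset.mem_Ico.1 hj
    rw [bco_low P j (by omega), bco_high P j (by omega), abs_div, Int.cast_abs]
    have : |(2 : ℝ) ^ 60| = 2 ^ 60 := abs_of_pos (by positivity)
    rw [this]
    ring
  rw [Finset.sum_congr rfl h1, ← Finset.sum_div, ← Finset.mul_sum, ← Int.cast_sum, ← sumAc_eq,
    abs_div, abs_of_pos (by positivity : (0 : ℝ) < 2 ^ 60),
    abs_of_pos (by exact_mod_cast h2 : (0 : ℝ) < ((ac P 0 : ℤ) : ℝ)), ← add_div,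
    div_le_one (by positivity)]
  exact_mod_cast h3

lemma bco_mid (P : List ℤ) : bco P 80 = mu P := by
  rw [bco_mid']
  rfl

lemma mu_pos (P : List ℤ) (hk : kerOk P = true) : 0 < mu P := by
  unfold kerOk at hk
  rw [Bool.and_eq_true, Bool.and_eq_true, decide_eq_true_eq, decide_eq_true_eq,
    decide_eq_true_eq] at hk
  obtain ⟨⟨_, h2⟩, _⟩ := hk
  unfold mu
  have : (0 : ℝ) < ((ac P 0 : ℤ) : ℝ) := by exact_mod_cast h2
  positivity

lemma kerOk_length (P : List ℤ) (hk : kerOk P = true) : P.length ≤ 81 := by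
  unfold kerOk at hk
  rw [Bool.and_eq_true, Bool.and_eq_true, decide_eq_true_eq, decide_eq_true_eq,
    decide_eq_true_eq] at hk
  exact hk.1.1

lemma phiL_nonneg (P : List ℤ) (x : ℝ) : 0 ≤ phiL P x := by
  unfold phiL
  positivity

end Pool.Agent.Helper10.EN
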