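import Pool.Agent.Helper10.EN.SAll6
import Pool.Agent.Helper10.P4.Err4

/-! ENT-A8: the weighted error over the decimal blocks, with an arbitrary power of the divisor function.

Port of `tau_cube10`, `blk5_nonneg`, `blk5_small` (Helper10/P5/Err5.lean) and `blk4_large`, `blk4_total`
(Helper10/P4/Err4.lean) with `3` replaced by `B` and `S_all4` by `S_all6`. Powers: `tau q ^ B ≤ (10^(j+1))^B`, so
`blkB_small` has the constant `9 * 10^B` and the base `10^(B+1)`; in `blkB_total` choose `s` with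
`ρ^s < 1/(2 * 10^(B+1))` and the first part is `≤ 9 * 10^B * (1/2)^u`. `tau_powB`: `divisor_bound (B * k)`
(for `B = 0` the statement is trivial with `C = 1`; or use `divisor_bound ((B+1) * k)` and `tau^B ≤ tau^(B+1)`). -/

namespace Pool.Agent.Helper10.EN

open Finset Filter Pool.Agent.Helper10 Pool.Agent.Helper10.P5 Pool.Agent.Helper10.P4

/-- the weighted error over one decimal block -/
noncomputable def blkB (B κ T j : ℕ) : ℝ := ∑ q ∈ QT j, ((tau q : ℝ)) ^ B * Psi5 κ T q / q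

lemma blkB_nonneg (B κ T j : ℕ) : 0 ≤ blkB B κ T j := by
  unfold blkB
  apply Finset.sum_nonneg
  intro q _
  have := Psi5_nonneg κ T q
  positivity

lemma tau_powB (B : ℕ) (μ : ℝ) (hμ : 1 < μ) : ∃ C : ℝ, 1 ≤ C ∧ ∀ j q : ℕ, 1 ≤ q → q ≤ 10 ^ (j + 1) →
    ((tau q : ℝ)) ^ B ≤ C * μ ^ j := by
  obtain ⟨k, hk⟩ := pow_unbounded_of_one_lt 10 hμ
  have hk0 : k ≠ 0 := by
    rintro rfl
    rw [pow_zero] at hk
    linarith
  obtain ⟨C0, hC0, hdiv⟩ := divisor_bound (B * k)
  have hC0R : (1 : ℝ) ≤ C0 := by exact_mod_cast hC0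
  refine ⟨10 * C0, by linarith, ?_⟩
  intro j q hq1 hq2
  have h1 : ((tau q : ℝ)) ^ (B * k) ≤ C0 * (q : ℝ) := by exact_mod_cast hdiv q (by omega)
  have h2 : (q : ℝ) ≤ 10 * 10 ^ j := by
    have : q ≤ 10 * 10 ^ j := by rw [← pow_succ']; exact hq2
    exact_mod_cast this
  have h3 : (((tau q : ℝ)) ^ B) ^ k ≤ (10 * C0 * μ ^ j) ^ k := by
    rw [← pow_mul]
    calc ((tau q : ℝ)) ^ (B * k) ≤ C0 * (q : ℝ) := h1
      _ ≤ C0 * (10 * 10 ^ j) := mul_le_mul_of_nonneg_left h2 (by positivity)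
      _ = (10 * C0) * 10 ^ j := by ring
      _ ≤ (10 * C0) * (μ ^ k) ^ j := by
          apply mul_le_mul_of_nonneg_left _ (by positivity)
          exact pow_le_pow_left₀ (by norm_num) hk.le j
      _ ≤ (10 * C0) ^ k * (μ ^ k) ^ j := by
          apply mul_le_mul_of_nonneg_right _ (by positivity)
          exact le_self_pow₀ (by linarith) hk0
      _ = (10 * C0 * μ ^ j) ^ k := by
          rw [mul_pow (10 * (C0 : ℝ)) (μ ^ j) k, ← pow_mul, ← pow_mul, mul_comm k j]
  exact (pow_le_pow_iff_left₀ (by positivity) (by positivity) hk0).mp h3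

lemma blkB_small (B : ℕ) : ∃ ρ : ℝ, 0 < ρ ∧ ρ < 1 ∧
    ∀ κ T j : ℕ, (∀ q : ℕ, q.Coprime 10 → q.Coprime κ) →
      blkB B κ T j ≤ 9 * 10 ^ B * (10 ^ (B + 1)) ^ j * ρ ^ (T / (2 * j + 5)) := by
  obtain ⟨ρ, hρ0, hρ1, hsup⟩ := sup5
  refine ⟨ρ, hρ0, hρ1, ?_⟩
  intro κ T j hκ
  calc blkB B κ T j ≤ ∑ q ∈ QT j, (10 ^ B * (10 ^ B) ^ j) * ρ ^ (T / (2 * j + 5)) := by
        unfold blkB
        apply Finset.sum_le_sum
        intro q hq
        rw [mem_QT] at hq
        have h2j : 0 < 10 ^ j := by positivity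
        have hq1 : 1 < q := by omega
        have hq' : (0 : ℝ) < q := by exact_mod_cast (by omega : 0 < q)
        have hPsi : Psi5 κ T q ≤ q * ρ ^ (T / (2 * j + 5)) := by
          unfold Psi5
          calc ∑ a ∈ AA q, GF κ T (Icc 1 T) ((a : ℝ) / q) ≤
              ∑ a ∈ AA q, ρ ^ (T / (2 * j + 5)) := by
                apply Finset.sum_le_sum
                intro a ha
                unfold AA at ha
                rw [Finset.mem_filter] at ha
                have := hsup κ T q a (j + 1) (hκ q hq.2) hq1 hq.2 ha.2 hq.1.2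
                rw [show 2 * (j + 1) + 3 = 2 * j + 5 by ring] at this
                exact this
            _ = ((AA q).card : ℝ) * ρ ^ (T / (2 * j + 5)) := by
                rw [Finset.sum_const, nsmul_eq_mul]
            _ ≤ q * ρ ^ (T / (2 * j + 5)) := by
                apply mul_le_mul_of_nonneg_right _ (by positivity)
                exact_mod_cast AA_card_le' q
        have hq8 : ((tau q : ℝ)) ^ B ≤ 10 ^ B * (10 ^ B) ^ j := by
          have h1 : tau q ^ B ≤ 10 ^ B * (10 ^ B) ^ j := by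
            calc tau q ^ B ≤ (10 ^ (j + 1)) ^ B :=
                  Nat.pow_le_pow_left ((tau_le_self' q).trans hq.1.2) B
              _ = 10 ^ B * (10 ^ B) ^ j := by
                  rw [← pow_mul, show (j + 1) * B = B + B * j by ring, pow_add, pow_mul]
          exact_mod_cast h1
        calc ((tau q : ℝ)) ^ B * Psi5 κ T q / q
            ≤ (10 ^ B * (10 ^ B) ^ j) * (q * ρ ^ (T / (2 * j + 5))) / q := by
              apply div_le_div_of_nonneg_right _ hq'.le
              apply mul_le_mul hq8 hPsi (Psi5_nonneg _ _ _) (by positivity)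
          _ = (10 ^ B * (10 ^ B) ^ j) * ρ ^ (T / (2 * j + 5)) := by field_simp
    _ = ((QT j).card : ℝ) * ((10 ^ B * (10 ^ B) ^ j) * ρ ^ (T / (2 * j + 5))) := by
        rw [Finset.sum_const, nsmul_eq_mul]
    _ ≤ (9 * 10 ^ j) * ((10 ^ B * (10 ^ B) ^ j) * ρ ^ (T / (2 * j + 5))) := by
        apply mul_le_mul_of_nonneg_right _ (by positivity)
        exact_mod_cast QT_card j
    _ = 9 * 10 ^ B * (10 ^ (B + 1)) ^ j * ρ ^ (T / (2 * j + 5)) := by
        have : ((10 : ℝ) ^ (B + 1)) ^ j = 10 ^ j * (10 ^ B) ^ j := by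
          rw [← mul_pow, pow_succ']
        rw [this]
        ring

lemma blkB_large (B : ℕ) : ∃ C θ : ℝ, 0 < C ∧ 0 < θ ∧ θ < 1 ∧
    ∀ κ T j : ℕ, (∀ q : ℕ, q.Coprime 10 → q.Coprime κ) → 7 * j ≤ 5 * T + 20 →
      blkB B κ T j ≤ C * θ ^ j := by
  obtain ⟨C1, θ, hC1, hθ0, hθ1, hS⟩ := S_all6
  set μ : ℝ := (1 + 1 / θ) / 2 with hμ
  have hinv : 1 < 1 / θ := by
    rw [lt_div_iff₀ hθ0]
    linarith
  have hμ1 : 1 < μ := by
    rw [hμ]
    linarith
  have hθμ : θ * μ = (1 + θ) / 2 := by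
    rw [hμ]
    field_simp
    ring
  obtain ⟨C2, hC2, htau⟩ := tau_powB B μ hμ1
  refine ⟨C2 * C1, θ * μ, by positivity, by positivity, by rw [hθμ]; linarith, ?_⟩
  clear_value μ
  intro κ T j hκ hT
  have h1 := hS κ T j hκ hT
  calc blkB B κ T j ≤ ∑ q ∈ QT j, (C2 * μ ^ j) / 10 ^ j * Psi5 κ T q := by
        unfold blkB
        apply Finset.sum_le_sum
        intro q hq
        rw [mem_QT] at hq
        have hqpos : 0 < q := by omega
        have hq' : (0 : ℝ) < q := by exact_mod_cast hqpos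
        have h2 := htau j q hqpos hq.1.2
        have h3 : (10 : ℝ) ^ j ≤ q := by exact_mod_cast hq.1.1.le
        have h4 : ((tau q : ℝ)) ^ B / q ≤ (C2 * μ ^ j) / 10 ^ j := by
          apply div_le_div₀ (by positivity) h2 (by positivity) h3
        calc ((tau q : ℝ)) ^ B * Psi5 κ T q / q = ((tau q : ℝ)) ^ B / q * Psi5 κ T q := by ring
          _ ≤ (C2 * μ ^ j) / 10 ^ j * Psi5 κ T q :=
            mul_le_mul_of_nonneg_right h4 (Psi5_nonneg _ _ _)
    _ = (C2 * μ ^ j) / 10 ^ j * ∑ q ∈ QT j, Psi5 κ T q := by rw [Finset.mul_sum]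
    _ ≤ (C2 * μ ^ j) / 10 ^ j * (C1 * (10 * θ) ^ j) := by
        apply mul_le_mul_of_nonneg_left _ (by positivity)
        exact h1
    _ = C2 * C1 * (θ * μ) ^ j := by
        rw [mul_pow, mul_pow]
        field_simp

/-- total over all decimal blocks -/
theorem blkB_total (B : ℕ) : ∃ C θ : ℝ, 0 < C ∧ 0 < θ ∧ θ < 1 ∧
    ∃ s : ℕ, 0 < s ∧ ∀ κ T J : ℕ, (∀ q : ℕ, q.Coprime 10 → q.Coprime κ) → 7 * J ≤ 5 * T + 20 →
      ∑ j ∈ range J, blkB B κ T j ≤ C * θ ^ (Nat.sqrt (T / s)) := by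
  obtain ⟨C, θ, hC, hθ0, hθ1, hL⟩ := blkB_large B
  obtain ⟨ρ, hρ0, hρ1, hS⟩ := blkB_small B
  -- `b` is the base, `K` the constant
  obtain ⟨b, hb⟩ : ∃ b : ℝ, b = 10 ^ (B + 1) := ⟨_, rfl⟩
  obtain ⟨K, hK⟩ : ∃ K : ℝ, K = 9 * 10 ^ B := ⟨_, rfl⟩
  have hb1 : 2 ≤ b := by
    rw [hb]
    have : (10 : ℝ) ^ 1 ≤ 10 ^ (B + 1) := pow_le_pow_right₀ (by norm_num) (by omega)
    linarith
  have hK0 : 0 < K := by rw [hK]; positivity
  obtain ⟨s, hs⟩ := exists_pow_lt_of_lt_one (show (0 : ℝ) < 1 / (2 * b) by positivity) hρ1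
  have hs0 : 0 < s := by
    rcases Nat.eq_zero_or_pos s with h | h
    · rw [h, pow_zero, lt_div_iff₀ (by positivity)] at hs
      linarith
    · exact h
  set θ' : ℝ := max (1 / 2) θ with hθ'
  have hθ'0 : 0 < θ' := lt_max_of_lt_right hθ0
  have hθ'1 : θ' < 1 := max_lt (by norm_num) hθ1
  refine ⟨K + C / (1 - θ), θ', by
    have : 0 < C / (1 - θ) := div_pos hC (by linarith)
    linarith, hθ'0, hθ'1, 7 * s, by omega, ?_⟩
  intro κ T J hκ hT
  set u := Nat.sqrt (T / (7 * s)) with hu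
  have hu2 : 7 * s * (u * u) ≤ T := by
    calc 7 * s * (u * u) ≤ 7 * s * (T / (7 * s)) := Nat.mul_le_mul_left _ (Nat.sqrt_le _)
      _ ≤ T := Nat.mul_div_le _ _
  have hsmall : ∀ j < u, blkB B κ T j ≤ K * b ^ j * (1 / (2 * b)) ^ u := by
    intro j hj
    refine (hS κ T j hκ).trans ?_
    rw [← hb, ← hK]
    apply mul_le_mul_of_nonneg_left _ (by positivity)
    have h1 : s * u ≤ T / (2 * j + 5) := by
      rw [Nat.le_div_iff_mul_le (by omega)]
      calc s * u * (2 * j + 5) ≤ s * u * (7 * u) := Nat.mul_le_mul_left _ (by omega)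
        _ = 7 * s * (u * u) := by ring
        _ ≤ T := hu2
    calc ρ ^ (T / (2 * j + 5)) ≤ ρ ^ (s * u) := pow_le_pow_of_le_one hρ0.le hρ1.le h1
      _ = (ρ ^ s) ^ u := by rw [pow_mul]
      _ ≤ (1 / (2 * b)) ^ u := pow_le_pow_left₀ (by positivity) hs.le u
  have hlarge : ∀ j ∈ range J, blkB B κ T j ≤ C * θ ^ j := by
    intro j hj
    rw [Finset.mem_range] at hj
    apply hL κ T j hκ
    omega
  have hsplit : ∑ j ∈ range J, blkB B κ T j ≤
      ∑ j ∈ range u, K * b ^ j * (1 / (2 * b)) ^ u + ∑ j ∈ Ico u (u + J), C * θ ^ j := by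
    have h1 : ∑ j ∈ range J, blkB B κ T j =
        ∑ j ∈ (range J).filter (fun j => j < u), blkB B κ T j +
          ∑ j ∈ (range J).filter (fun j => ¬ j < u), blkB B κ T j :=
      (Finset.sum_filter_add_sum_filter_not _ _ _).symm
    rw [h1]
    apply add_le_add
    · calc ∑ j ∈ (range J).filter (fun j => j < u), blkB B κ T j
          ≤ ∑ j ∈ (range J).filter (fun j => j < u), K * b ^ j * (1 / (2 * b)) ^ u := by
            apply Finset.sum_le_sum
            intro j hj
            rw [Finset.mem_filter] at hj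
            exact hsmall j hj.2
        _ ≤ ∑ j ∈ range u, K * b ^ j * (1 / (2 * b)) ^ u := by
            apply Finset.sum_le_sum_of_subset_of_nonneg
            · intro j hj
              rw [Finset.mem_filter] at hj
              exact Finset.mem_range.mpr hj.2
            · intro _ _ _
              positivity
    · calc ∑ j ∈ (range J).filter (fun j => ¬ j < u), blkB B κ T j
          ≤ ∑ j ∈ (range J).filter (fun j => ¬ j < u), C * θ ^ j := by
            apply Finset.sum_le_sum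
            intro j hj
            rw [Finset.mem_filter] at hj
            exact hlarge j hj.1
        _ ≤ ∑ j ∈ Ico u (u + J), C * θ ^ j := by
            apply Finset.sum_le_sum_of_subset_of_nonneg
            · intro j hj
              rw [Finset.mem_filter, Finset.mem_range] at hj
              rw [Finset.mem_Ico]
              omega
            · intro _ _ _
              positivity
  refine hsplit.trans ?_
  have hA : ∑ j ∈ range u, K * b ^ j * (1 / (2 * b)) ^ u ≤ K * (1 / 2) ^ u := by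
    rw [← Finset.sum_mul, ← Finset.mul_sum]
    have h1 : ∑ j ∈ range u, b ^ j ≤ b ^ u := by
      rw [geom_sum_eq (by linarith)]
      have : (1 : ℝ) ≤ b ^ u := one_le_pow₀ (by linarith)
      rw [div_le_iff₀ (by linarith)]
      nlinarith
    calc K * (∑ j ∈ range u, b ^ j) * (1 / (2 * b)) ^ u
        ≤ K * b ^ u * (1 / (2 * b)) ^ u := by
          apply mul_le_mul_of_nonneg_right _ (by positivity)
          exact mul_le_mul_of_nonneg_left h1 hK0.le
      _ = K * (1 / 2) ^ u := by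
          rw [mul_assoc, ← mul_pow]
          congr 2
          field_simp
  have hB : ∑ j ∈ Ico u (u + J), C * θ ^ j ≤ C / (1 - θ) * θ ^ u := by
    rw [← Finset.mul_sum, Finset.sum_Ico_eq_sum_range, Nat.add_sub_cancel_left]
    have h1 : ∀ i ∈ range J, θ ^ (u + i) = θ ^ u * θ ^ i := fun i _ => pow_add _ _ _
    rw [Finset.sum_congr rfl h1, ← Finset.mul_sum]
    have h2 : ∑ i ∈ range J, θ ^ i ≤ 1 / (1 - θ) := by
      rw [geom_sum_eq hθ1.ne]
      have e : (θ ^ J - 1) / (θ - 1) = (1 - θ ^ J) / (1 - θ) := by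
        rw [← neg_sub, ← neg_sub 1 θ, neg_div_neg_eq]
      rw [e]
      apply div_le_div_of_nonneg_right _ (by linarith)
      have : 0 ≤ θ ^ J := by positivity
      linarith
    calc C * (θ ^ u * ∑ i ∈ range J, θ ^ i) ≤ C * (θ ^ u * (1 / (1 - θ))) := by
          apply mul_le_mul_of_nonneg_left _ hC.le
          apply mul_le_mul_of_nonneg_left h2 (by positivity)
      _ = C / (1 - θ) * θ ^ u := by ring
  have hA' : (1 / 2 : ℝ) ^ u ≤ θ' ^ u := pow_le_pow_left₀ (by norm_num) (le_max_left _ _) u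
  have hB' : θ ^ u ≤ θ' ^ u := pow_le_pow_left₀ hθ0.le (le_max_right _ _) u
  have hCpos : 0 ≤ C / (1 - θ) := (div_pos hC (by linarith)).le
  calc ∑ j ∈ range u, K * b ^ j * (1 / (2 * b)) ^ u + ∑ j ∈ Ico u (u + J), C * θ ^ j
      ≤ K * (1 / 2) ^ u + C / (1 - θ) * θ ^ u := add_le_add hA hB
    _ ≤ K * θ' ^ u + C / (1 - θ) * θ' ^ u := by
        apply add_le_add
        · exact mul_le_mul_of_nonneg_left hA' hK0.le
        · exact mul_le_mul_of_nonneg_left hB' hCpos
    _ = (K + C / (1 - θ)) * θ' ^ u := by ring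

end Pool.Agent.Helper10.EN
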