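import Pool.Agent.Helper10.EN.BlkB
import Pool.Agent.Helper10.P4.Level

/-! ENT-A9: level of distribution `5/14`, bound form.

Port of `bnd4_le`, `bnd_err4` (Helper10/P4/Level.lean) with `3` replaced by `B`, `blk5` by `blkB B`, `blk4_total g` by
`blkB_total B`, and `8 = 2^3` by `2^B` (see `hsum_le`). In `bnd_errB`: `hsum B Q ≤ (3 T)^(2^B)` for large `T`:
`log Q ≤ J log 10`, `7 J ≤ 5 T + 20`, so `1 + log Q ≤ 3 T` for `T ≥ 10` or so. -/

namespace Pool.Agent.Helper10.EN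

open Finset Filter Pool.Agent.Helper10 Pool.Agent.Helper10.P5 Pool.Agent.Helper10.P4

/-- the bound for the weighted error sum -/
noncomputable def bndB (B κ T Q : ℕ) : ℝ :=
  ∑ q ∈ (Icc 1 Q).filter (fun q => q.Coprime 10),
    ((tau q : ℝ)) ^ B * (10 ^ T / q * ∑ d ∈ q.divisors.erase 1, Psi5 κ T d)

lemma bndB_le (B κ T Q J : ℕ) (hQ : Q ≤ 10 ^ J) :
    bndB B κ T Q ≤ 10 ^ T * hsum B Q * ∑ j ∈ range J, blkB B κ T j := by
  classical
  unfold bndB
  have h1 : ∑ q ∈ (Icc 1 Q).filter (fun q => q.Coprime 10),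
      ((tau q : ℝ)) ^ B * (10 ^ T / q * ∑ d ∈ q.divisors.erase 1, Psi5 κ T d) ≤
      ∑ q ∈ (Icc 1 Q).filter (fun q => q.Coprime 10),
        ∑ d ∈ q.divisors.erase 1, 10 ^ T * (((tau q : ℝ)) ^ B / q * Psi5 κ T d) := by
    apply Finset.sum_le_sum
    intro q hq
    apply le_of_eq
    rw [Finset.mul_sum, Finset.mul_sum]
    apply Finset.sum_congr rfl
    intro d _
    ring
  refine h1.trans ?_
  rw [Finset.sum_sigma']
  set Dset := (Icc 2 Q).filter (fun d => d.Coprime 10) with hDset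
  have h2 : ∑ x ∈ ((Icc 1 Q).filter (fun q => q.Coprime 10)).sigma (fun q => q.divisors.erase 1),
      10 ^ T * (((tau x.1 : ℝ)) ^ B / x.1 * Psi5 κ T x.2) ≤
      ∑ p ∈ Dset ×ˢ Icc 1 Q, 10 ^ T * ((((tau p.1 : ℝ)) ^ B * Psi5 κ T p.1 / p.1) *
        (((tau p.2 : ℝ)) ^ B / p.2)) := by
    have h3 : ∀ x ∈ ((Icc 1 Q).filter (fun q => q.Coprime 10)).sigma (fun q => q.divisors.erase 1),
        10 ^ T * (((tau x.1 : ℝ)) ^ B / x.1 * Psi5 κ T x.2) ≤
        10 ^ T * ((((tau x.2 : ℝ)) ^ B * Psi5 κ T x.2 / x.2) *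
        (((tau (x.1 / x.2) : ℝ)) ^ B / ((x.1 / x.2 : ℕ) : ℝ))) := by
      intro x hx
      rw [Finset.mem_sigma, Finset.mem_filter, Finset.mem_Icc, Finset.mem_erase,
        Nat.mem_divisors] at hx
      obtain ⟨⟨⟨hx1, hx2⟩, hx3⟩, hx4, hx5, hx6⟩ := hx
      obtain ⟨q, d⟩ := x
      simp only at hx1 hx2 hx3 hx4 hx5 hx6 ⊢
      obtain ⟨e, rfl⟩ := hx5
      have hd : 0 < d := Nat.pos_of_mul_pos_right (by omega : 0 < d * e)
      have he : 0 < e := Nat.pos_of_mul_pos_left (by omega : 0 < d * e)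
      rw [Nat.mul_div_cancel_left e hd]
      apply mul_le_mul_of_nonneg_left _ (by positivity)
      have hdR : (0 : ℝ) < d := by exact_mod_cast hd
      have heR : (0 : ℝ) < e := by exact_mod_cast he
      have ht : ((tau (d * e) : ℝ)) ^ B ≤ ((tau d : ℝ)) ^ B * ((tau e : ℝ)) ^ B := by
        rw [← mul_pow]
        apply pow_le_pow_left₀ (by positivity)
        exact_mod_cast tau_mul_le d e
      have hP := Psi5_nonneg κ T d
      calc ((tau (d * e) : ℝ)) ^ B / ((d * e : ℕ) : ℝ) * Psi5 κ T d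
          ≤ (((tau d : ℝ)) ^ B * ((tau e : ℝ)) ^ B) / ((d * e : ℕ) : ℝ) * Psi5 κ T d := by
            apply mul_le_mul_of_nonneg_right _ hP
            exact div_le_div_of_nonneg_right ht (by positivity)
        _ = ((tau d : ℝ)) ^ B * Psi5 κ T d / d * (((tau e : ℝ)) ^ B / e) := by
            push_cast
            field_simp
    refine (Finset.sum_le_sum h3).trans ?_
    rw [← Finset.sum_image (s := ((Icc 1 Q).filter (fun q => q.Coprime 10)).sigma
        (fun q => q.divisors.erase 1))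
      (g := fun x : (_ : ℕ) × ℕ => (x.2, x.1 / x.2))
      (f := fun p : ℕ × ℕ => 10 ^ T * ((((tau p.1 : ℝ)) ^ B * Psi5 κ T p.1 / p.1) *
        (((tau p.2 : ℝ)) ^ B / (p.2 : ℝ))))]
    · apply Finset.sum_le_sum_of_subset_of_nonneg
      · intro p hp
        rw [Finset.mem_image] at hp
        obtain ⟨x, hx, rfl⟩ := hp
        rw [Finset.mem_sigma, Finset.mem_filter, Finset.mem_Icc, Finset.mem_erase,
          Nat.mem_divisors] at hx
        obtain ⟨⟨⟨hx1, hx2⟩, hx3⟩, hx4, hx5, hx6⟩ := hx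
        have hle := Nat.le_of_dvd (by omega) hx5
        have hpos : 0 < x.2 := Nat.pos_of_dvd_of_pos hx5 (by omega)
        rw [Finset.mem_product, hDset, Finset.mem_filter, Finset.mem_Icc, Finset.mem_Icc]
        refine ⟨⟨⟨by omega, by omega⟩, Nat.Coprime.coprime_dvd_left hx5 hx3⟩, ?_, ?_⟩
        · exact Nat.div_pos hle hpos
        · exact (Nat.div_le_self _ _).trans hx2
      · intro p _ _
        have := Psi5_nonneg κ T p.1
        positivity
    · intro x hx y hy hxy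
      rw [Finset.mem_coe, Finset.mem_sigma, Finset.mem_filter, Finset.mem_Icc, Finset.mem_erase,
          Nat.mem_divisors] at hx hy
      obtain ⟨q, d⟩ := x
      obtain ⟨q', d'⟩ := y
      simp only [Prod.mk.injEq] at hx hy hxy
      obtain ⟨rfl, h5⟩ := hxy
      have e1 : q = q' := by
        rw [← Nat.div_mul_cancel hx.2.2.1, ← Nat.div_mul_cancel hy.2.2.1, h5]
      rw [e1]
  refine h2.trans ?_
  rw [← Finset.mul_sum, Finset.sum_product]
  have h4 : ∑ x ∈ Dset, ∑ y ∈ Icc 1 Q, ((tau x : ℝ)) ^ B * Psi5 κ T x / x *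
      (((tau y : ℝ)) ^ B / y) = (∑ x ∈ Dset, ((tau x : ℝ)) ^ B * Psi5 κ T x / x) * hsum B Q := by
    unfold hsum
    rw [Finset.sum_mul]
    apply Finset.sum_congr rfl
    intro x _
    rw [Finset.mul_sum]
  rw [h4]
  have h5 : ∑ x ∈ Dset, ((tau x : ℝ)) ^ B * Psi5 κ T x / x ≤ ∑ j ∈ range J, blkB B κ T j := by
    unfold blkB
    rw [← Finset.sum_biUnion]
    · apply Finset.sum_le_sum_of_subset_of_nonneg
      · intro x hx
        rw [hDset, Finset.mem_filter, Finset.mem_Icc] at hx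
        obtain ⟨⟨hx1, hx2⟩, hx3⟩ := hx
        rw [Finset.mem_biUnion]
        set j := Nat.clog 10 x - 1 with hj
        have hc0 : 0 < Nat.clog 10 x := Nat.clog_pos (by norm_num) hx1
        have hlt : 10 ^ j < x := by
          have := Nat.pow_pred_clog_lt_self (b := 10) (by norm_num) (x := x) (by omega)
          simpa [hj] using this
        have hle : x ≤ 10 ^ (j + 1) := by
          have := Nat.le_pow_clog (b := 10) (by norm_num) x
          rw [show j + 1 = Nat.clog 10 x by omega]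
          exact this
        refine ⟨j, ?_, ?_⟩
        · rw [Finset.mem_range]
          have : 10 ^ j < 10 ^ J := lt_of_lt_of_le hlt (hx2.trans hQ)
          exact (Nat.pow_lt_pow_iff_right (by norm_num)).mp this
        · rw [mem_QT]
          exact ⟨⟨hlt, hle⟩, hx3⟩
      · intro x _ _
        have := Psi5_nonneg κ T x
        positivity
    · intro i _ j _ hij
      simp only [Function.onFun]
      rw [Finset.disjoint_left]
      intro x hx hx'
      rw [mem_QT] at hx hx'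
      rcases Nat.lt_or_gt_of_ne hij with h | h
      · have : 10 ^ (i + 1) ≤ 10 ^ j := Nat.pow_le_pow_right (by norm_num) h
        omega
      · have : 10 ^ (j + 1) ≤ 10 ^ i := Nat.pow_le_pow_right (by norm_num) h
        omega
  calc 10 ^ T * ((∑ x ∈ Dset, ((tau x : ℝ)) ^ B * Psi5 κ T x / x) * hsum B Q)
      ≤ 10 ^ T * ((∑ j ∈ range J, blkB B κ T j) * hsum B Q) := by
        apply mul_le_mul_of_nonneg_left _ (by positivity)
        exact mul_le_mul_of_nonneg_right h5 (hsum_nonneg _ _)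
    _ = 10 ^ T * hsum B Q * ∑ j ∈ range J, blkB B κ T j := by ring


/-- level of distribution, bound form -/
theorem bnd_errB (A B : ℕ) : ∃ T0 : ℕ, ∀ T : ℕ, T0 ≤ T →
    ∀ κ Q J : ℕ, (∀ q : ℕ, q.Coprime 10 → q.Coprime κ) → Q ≤ 10 ^ J → 7 * J ≤ 5 * T + 20 →
      bndB B κ T Q ≤ 10 ^ T / (T : ℝ) ^ A := by
  obtain ⟨C, θ, hC, hθ0, hθ1, s, hs, htot⟩ := blkB_total B
  have hlim : Tendsto (fun u : ℕ => (u : ℝ) ^ (2 * (A + 2 ^ B)) * θ ^ u) atTop (nhds 0) :=
    tendsto_pow_const_mul_const_pow_of_abs_lt_one _ (by rw [abs_of_pos hθ0]; exact hθ1)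
  have hCs : 0 < C * (3 * (4 * s : ℝ)) ^ (A + 2 ^ B) := by positivity
  have hev := (hlim.eventually (gt_mem_nhds
    (show (0 : ℝ) < 1 / (C * (3 * (4 * s : ℝ)) ^ (A + 2 ^ B)) by positivity)))
  obtain ⟨u0, hu0⟩ := Filter.eventually_atTop.mp hev
  refine ⟨s * (u0 + 1) ^ 2 + 12, ?_⟩
  intro T hT κ Q J hκ hQ hJ
  have hT1 : 1 ≤ T := by omega
  have hTR : (1 : ℝ) ≤ T := by exact_mod_cast hT1
  set u := Nat.sqrt (T / s) with hu
  have hu1 : u0 + 1 ≤ u := by
    rw [hu, Nat.le_sqrt, Nat.le_div_iff_mul_le hs]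
    nlinarith
  have hu2 : T < s * ((u + 1) * (u + 1)) := by
    have h1 : T / s < (u + 1) * (u + 1) := Nat.lt_succ_sqrt _
    rw [Nat.div_lt_iff_lt_mul hs] at h1
    linarith
  have hTu : (T : ℝ) ≤ 4 * s * (u : ℝ) ^ 2 := by
    have h1 : (T : ℝ) ≤ s * ((u + 1) * (u + 1)) := by exact_mod_cast hu2.le
    have h2 : (1 : ℝ) ≤ u := by exact_mod_cast (by omega : 1 ≤ u)
    have h3 : ((u : ℝ) + 1) * (u + 1) ≤ 4 * (u : ℝ) ^ 2 := by nlinarith
    have hsR : (0 : ℝ) < s := by exact_mod_cast hs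
    nlinarith
  rcases Nat.eq_zero_or_pos Q with hQ0 | hQ0
  · subst hQ0
    unfold bndB
    simp
    positivity
  have hT12 : (12 : ℝ) ≤ T := by exact_mod_cast (by omega : 12 ≤ T)
  have h1 := bndB_le B κ T Q J hQ
  have h2 := htot κ T J hκ hJ
  have h3 : hsum B Q ≤ (3 * (T : ℝ)) ^ (2 ^ B) := by
    refine (hsum_le B Q hQ0).trans ?_
    have hlog : 1 + Real.log Q ≤ 3 * T := by
      have e1 : Real.log Q ≤ Real.log ((10 : ℝ) ^ J) := by
        apply Real.log_le_log (by exact_mod_cast hQ0)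
        exact_mod_cast hQ
      rw [Real.log_pow] at e1
      have e2 : 7 * ((J : ℕ) : ℝ) ≤ 5 * T + 20 := by exact_mod_cast hJ
      have e3 : Real.log 10 ≤ 3 := by
        have h16 : Real.log 10 ≤ Real.log 16 := Real.log_le_log (by norm_num) (by norm_num)
        have : Real.log 16 = 4 * Real.log 2 := by
          rw [show (16 : ℝ) = 2 ^ 4 by norm_num, Real.log_pow]
          norm_num
        have := Real.log_two_lt_d9
        linarith
      have e4 : (0 : ℝ) ≤ Real.log 10 := Real.log_nonneg (by norm_num)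
      have e5 : (0 : ℝ) ≤ ((J : ℕ) : ℝ) := by positivity
      have e6 : ((J : ℕ) : ℝ) * Real.log 10 ≤ ((J : ℕ) : ℝ) * 3 :=
        mul_le_mul_of_nonneg_left e3 e5
      linarith
    have hlog0 : 0 ≤ Real.log Q := Real.log_natCast_nonneg Q
    exact pow_le_pow_left₀ (by linarith) hlog _
  have h4 : (u : ℝ) ^ (2 * (A + 2 ^ B)) * θ ^ u < 1 / (C * (3 * (4 * s : ℝ)) ^ (A + 2 ^ B)) :=
    hu0 u (by omega)
  have h5 : (3 * (T : ℝ)) ^ (2 ^ B) * (C * θ ^ u) * (T : ℝ) ^ A ≤ 1 := by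
    calc (3 * (T : ℝ)) ^ (2 ^ B) * (C * θ ^ u) * (T : ℝ) ^ A
        ≤ (3 * (T : ℝ)) ^ (2 ^ B) * (C * θ ^ u) * (3 * (T : ℝ)) ^ A := by
          apply mul_le_mul_of_nonneg_left _ (by positivity)
          apply pow_le_pow_left₀ (by positivity)
          linarith
      _ = C * θ ^ u * (3 * (T : ℝ)) ^ (A + 2 ^ B) := by rw [pow_add]; ring
      _ ≤ C * θ ^ u * (3 * (4 * s * (u : ℝ) ^ 2)) ^ (A + 2 ^ B) := by
          apply mul_le_mul_of_nonneg_left _ (by positivity)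
          apply pow_le_pow_left₀ (by positivity)
          linarith
      _ = C * (3 * (4 * s : ℝ)) ^ (A + 2 ^ B) * ((u : ℝ) ^ (2 * (A + 2 ^ B)) * θ ^ u) := by
          rw [pow_mul (u : ℝ) 2 (A + 2 ^ B), mul_pow 3 (4 * (s : ℝ) * (u : ℝ) ^ 2) (A + 2 ^ B),
            mul_pow (4 * (s : ℝ)) ((u : ℝ) ^ 2) (A + 2 ^ B), mul_pow 3 (4 * (s : ℝ)) (A + 2 ^ B)]
          ring
      _ ≤ C * (3 * (4 * s : ℝ)) ^ (A + 2 ^ B) * (1 / (C * (3 * (4 * s : ℝ)) ^ (A + 2 ^ B))) := by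
          apply mul_le_mul_of_nonneg_left h4.le hCs.le
      _ = 1 := by field_simp
  have hblk0 : 0 ≤ ∑ j ∈ range J, blkB B κ T j := Finset.sum_nonneg fun j _ => blkB_nonneg _ _ _ _
  calc bndB B κ T Q ≤ 10 ^ T * hsum B Q * ∑ j ∈ range J, blkB B κ T j := h1
    _ ≤ 10 ^ T * (3 * (T : ℝ)) ^ (2 ^ B) * (C * θ ^ u) := by
        apply mul_le_mul _ h2 hblk0 (by positivity)
        exact mul_le_mul_of_nonneg_left h3 (by positivity)
    _ ≤ 10 ^ T / (T : ℝ) ^ A := by
        rw [le_div_iff₀ (by positivity)]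
        calc 10 ^ T * (3 * (T : ℝ)) ^ (2 ^ B) * (C * θ ^ u) * (T : ℝ) ^ A
            = 10 ^ T * ((3 * (T : ℝ)) ^ (2 ^ B) * (C * θ ^ u) * (T : ℝ) ^ A) := by ring
          _ ≤ 10 ^ T * 1 := mul_le_mul_of_nonneg_left h5 (by positivity)
          _ = 10 ^ T := mul_one _


end Pool.Agent.Helper10.EN
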