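import Mathlib

/-! ENT-B2 (MATHLIB ONLY): exponential moments of a sum over a product of finite weighted sets.

Proof. `(∏ i, v i (f i)) * exp (l * ∑ i, s (f i)) = ∏ i, v i (f i) * exp (l * s (f i))`, and
`∑ f : ι → K, ∏ i, g i (f i) = ∏ i, ∑ k, g i k` (`Finset.prod_univ_sum`, `Fintype.piFinset_univ`). For one factor, with
`A = ∑ k, v i k`: since `|l s k| ≤ 1`, `exp (l s k) ≤ 1 + l s k + (l s k)^2 ≤ 1 + l s k + (l L)^2`
(`Real.abs_exp_sub_one_sub_id_le`), so `∑ k, v i k * exp (l s k) ≤ A (1 + l (∑ v s)/A + (l L)^2) ≤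
A exp (l (∑ v s)/A + (l L)^2)` (`Real.add_one_le_exp`). Multiply over `i` (`Finset.prod_le_prod`,
`Finset.prod_mul_distrib`, `Real.exp_sum`). -/

namespace Pool.Agent.Helper10.EN

open Finset

theorem mgf_factor {K : Type} [Fintype K] (v : K → ℝ) (hv : ∀ k, 0 ≤ v k)
    (hA : 0 < ∑ k, v k) (s : K → ℝ) (L : ℝ) (hs : ∀ k, |s k| ≤ L)
    (l : ℝ) (hl : |l| * L ≤ 1) :
    ∑ k, v k * Real.exp (l * s k) ≤
      (∑ k, v k) * Real.exp (l * ((∑ k, v k * s k) / ∑ k, v k) + (l * L) ^ 2) := by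
  have h1 : ∀ k, Real.exp (l * s k) ≤ 1 + l * s k + (l * L) ^ 2 := by
    intro k
    have h2 : |l * s k| ≤ |l| * L := by
      rw [abs_mul]
      exact mul_le_mul_of_nonneg_left (hs k) (abs_nonneg _)
    have h3 := Real.abs_exp_sub_one_sub_id_le (h2.trans hl)
    have h4 : (l * s k) ^ 2 ≤ (l * L) ^ 2 := by
      have h6 : |l * s k| ^ 2 ≤ (|l| * L) ^ 2 := pow_le_pow_left₀ (abs_nonneg _) h2 2
      have h7 : (|l| * L) ^ 2 = (l * L) ^ 2 := by rw [mul_pow, sq_abs, ← mul_pow]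
      rwa [h7, sq_abs] at h6
    have h5 := le_abs_self (Real.exp (l * s k) - 1 - l * s k)
    linarith
  have h2 : ∑ k, v k * Real.exp (l * s k) ≤ ∑ k, v k * (1 + l * s k + (l * L) ^ 2) :=
    Finset.sum_le_sum fun k _ => mul_le_mul_of_nonneg_left (h1 k) (hv k)
  have h3 : ∑ k, v k * (1 + l * s k + (l * L) ^ 2) =
      (∑ k, v k) * ((l * ((∑ k, v k * s k) / ∑ k, v k) + (l * L) ^ 2) + 1) := by
    have h4 : (∑ k, v k) * ((l * ((∑ k, v k * s k) / ∑ k, v k) + (l * L) ^ 2) + 1) =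
        (∑ k, v k) + l * (∑ k, v k * s k) + (∑ k, v k) * (l * L) ^ 2 := by
      field_simp
      ring
    rw [h4, Finset.mul_sum, Finset.sum_mul, ← Finset.sum_add_distrib, ← Finset.sum_add_distrib]
    exact Finset.sum_congr rfl fun k _ => by ring
  calc _ ≤ _ := h2
    _ = _ := h3
    _ ≤ _ := mul_le_mul_of_nonneg_left (Real.add_one_le_exp _) hA.le

theorem mgf_le {ι K : Type} [Fintype ι] [DecidableEq ι] [Fintype K] (v : ι → K → ℝ)
    (hv : ∀ i k, 0 ≤ v i k) (hA : ∀ i, 0 < ∑ k, v i k) (s : K → ℝ) (L : ℝ) (hs : ∀ k, |s k| ≤ L)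
    (l : ℝ) (hl : |l| * L ≤ 1) :
    ∑ f : ι → K, (∏ i, v i (f i)) * Real.exp (l * ∑ i, s (f i)) ≤
      (∏ i, ∑ k, v i k) * Real.exp (l * (∑ i, (∑ k, v i k * s k) / ∑ k, v i k) +
        Fintype.card ι * (l * L) ^ 2) := by
  classical
  have h1 : ∑ f : ι → K, (∏ i, v i (f i)) * Real.exp (l * ∑ i, s (f i)) =
      ∏ i, ∑ k, v i k * Real.exp (l * s k) := by
    rw [Finset.prod_univ_sum, Fintype.piFinset_univ]
    refine Finset.sum_congr rfl fun f _ => ?_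
    rw [Finset.prod_mul_distrib, Finset.mul_sum, Real.exp_sum]
  have h2 : (∏ i, ∑ k, v i k) * Real.exp (l * (∑ i, (∑ k, v i k * s k) / ∑ k, v i k) +
        Fintype.card ι * (l * L) ^ 2) =
      ∏ i, ((∑ k, v i k) *
        Real.exp (l * ((∑ k, v i k * s k) / ∑ k, v i k) + (l * L) ^ 2)) := by
    rw [Finset.prod_mul_distrib, ← Real.exp_sum, Finset.sum_add_distrib, ← Finset.mul_sum]
    simp
  rw [h1, h2]
  exact Finset.prod_le_prod
    (fun i _ => Finset.sum_nonneg fun k _ => mul_nonneg (hv i k) (Real.exp_pos _).le)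
    (fun i _ => mgf_factor (v i) (hv i) (hA i) s L hs l hl)

end Pool.Agent.Helper10.EN
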