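import Pool.Agent.Helper10.EN.Key
import Pool.Agent.Helper10.EN.Mgf

/-! ENT-B3 (MATHLIB ONLY): the core inequality of the mixture method.

Proof. `n = Fintype.card ι`, `P = ∏ i, ∑ k, v i k > 0`, `g = ∑ i, (∑ k, v i k * s k)/∑ k, v i k`, `a = η n`,
`l = η / (2 L^2)`, so `|l| L = η/(2L) ≤ 1` and `n (l L)^2 = n η^2/(4 L^2)`, `l a = n η^2/(2 L^2)`.
Multiply `key_two` (case `g = 0`) with `s := ∑ i, s (f i)` by `∏ i, v i (f i) ≥ 0` and sum over `f`. With
`∑ f, ∏ i, v i (f i) = P` (`Finset.prod_univ_sum`) and `mgf_le` for `l` and `-l`: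
`RHS ≥ exp (-a) (P - exp (-(l a)) P exp (l g + n (l L)^2) - exp (-(l a)) P exp (-(l g) + n (l L)^2))`
`= exp (-a) P (1 - 2 exp (-(n η^2/(4 L^2)))) ≥ exp (-a) P / 2`. In the case `0 ≤ g ∧ θ = 0` use `key_zero` and
`exp (-(l g)) ≤ 1`; in the case `g ≤ 0 ∧ θ = 1` use `key_one` and `exp (l g) ≤ 1`. -/

namespace Pool.Agent.Helper10.EN

open Finset

theorem core {ι K : Type} [Fintype ι] [DecidableEq ι] [Fintype K] (v : ι → K → ℝ)
    (hv : ∀ i k, 0 ≤ v i k) (hA : ∀ i, 0 < ∑ k, v i k) (s : K → ℝ) (L : ℝ) (hL : 0 < L)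
    (hs : ∀ k, |s k| ≤ L) (θ : ℝ) (h0 : 0 ≤ θ) (h1 : θ ≤ 1) (η : ℝ) (hη : 0 < η) (hηL : η ≤ 2 * L)
    (hn : 4 * Real.exp (-(Fintype.card ι * η ^ 2 / (4 * L ^ 2))) ≤ 1) (g : ℝ)
    (hg : g = ∑ i, (∑ k, v i k * s k) / ∑ k, v i k)
    (hc : g = 0 ∨ (0 ≤ g ∧ θ = 0) ∨ (g ≤ 0 ∧ θ = 1)) :
    (1 / 2) * Real.exp (-(η * Fintype.card ι)) * ∏ i, ∑ k, v i k ≤
      ∑ f : ι → K, (∏ i, v i (f i)) * (Real.exp (-(θ * ∑ i, s (f i))) *
        min 1 (Real.exp (∑ i, s (f i)))) := by
  classical
  set n : ℝ := (Fintype.card ι : ℝ) with hn'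
  have hn0 : 0 ≤ n := Nat.cast_nonneg _
  set P : ℝ := ∏ i, ∑ k, v i k with hP
  have hP0 : 0 < P := Finset.prod_pos fun i _ => hA i
  set E : ℝ := Real.exp (-(n * η ^ 2 / (4 * L ^ 2))) with hE
  have hE0 : 0 < E := Real.exp_pos _
  set l : ℝ := η / (2 * L ^ 2) with hl'
  have hl : 0 < l := by positivity
  have hlL : |l| * L ≤ 1 := by
    rw [abs_of_pos hl, hl']
    have : η / (2 * L ^ 2) * L = η / (2 * L) := by field_simp
    rw [this, div_le_one (by positivity)]
    exact hηL
  have hlL' : |(-l)| * L ≤ 1 := by rw [abs_neg]; exact hlL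
  set a : ℝ := η * n with ha'
  have ha : 0 ≤ a := by positivity
  have hsum : ∑ f : ι → K, ∏ i, v i (f i) = P := by
    rw [hP, Finset.prod_univ_sum, Fintype.piFinset_univ]
  set M1 : ℝ := ∑ f : ι → K, (∏ i, v i (f i)) * Real.exp (l * ∑ i, s (f i)) with hM1
  set M2 : ℝ := ∑ f : ι → K, (∏ i, v i (f i)) * Real.exp (-l * ∑ i, s (f i)) with hM2
  have hm1 : M1 ≤ P * Real.exp (l * g + n * (l * L) ^ 2) := by
    rw [hg]
    exact mgf_le v hv hA s L hs l hlL
  have hm2 : M2 ≤ P * Real.exp (-l * g + n * (-l * L) ^ 2) := by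
    rw [hg]
    exact mgf_le v hv hA s L hs (-l) hlL'
  have he : n * (l * L) ^ 2 - l * a = -(n * η ^ 2 / (4 * L ^ 2)) := by
    rw [hl', ha']
    field_simp
    ring
  have hb1 : g ≤ 0 → Real.exp (-(l * a)) * M1 ≤ P * E := by
    intro hg0
    calc Real.exp (-(l * a)) * M1 ≤ Real.exp (-(l * a)) * (P * Real.exp (l * g + n * (l * L) ^ 2)) :=
          mul_le_mul_of_nonneg_left hm1 (Real.exp_pos _).le
      _ = P * Real.exp (l * g + (n * (l * L) ^ 2 - l * a)) := by
          rw [mul_left_comm, ← Real.exp_add]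
          congr 2
          ring
      _ ≤ P * E := by
          refine mul_le_mul_of_nonneg_left ?_ hP0.le
          rw [he, hE]
          refine Real.exp_le_exp.mpr ?_
          have : l * g ≤ 0 := mul_nonpos_of_nonneg_of_nonpos hl.le hg0
          linarith
  have hb2 : 0 ≤ g → Real.exp (-(l * a)) * M2 ≤ P * E := by
    intro hg0
    calc Real.exp (-(l * a)) * M2
        ≤ Real.exp (-(l * a)) * (P * Real.exp (-l * g + n * (-l * L) ^ 2)) :=
          mul_le_mul_of_nonneg_left hm2 (Real.exp_pos _).le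
      _ = P * Real.exp (-(l * g) + (n * (l * L) ^ 2 - l * a)) := by
          rw [mul_left_comm, ← Real.exp_add]
          congr 2
          ring
      _ ≤ P * E := by
          refine mul_le_mul_of_nonneg_left ?_ hP0.le
          rw [he, hE]
          refine Real.exp_le_exp.mpr ?_
          have : 0 ≤ l * g := mul_nonneg hl.le hg0
          linarith
  have hw : ∀ f : ι → K, 0 ≤ ∏ i, v i (f i) := fun f => Finset.prod_nonneg fun i _ => hv i (f i)
  have hexp1 : ∀ T : ℝ, Real.exp (l * (T - a)) = Real.exp (-(l * a)) * Real.exp (l * T) := by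
    intro T
    rw [← Real.exp_add]
    congr 1
    ring
  have hexp2 : ∀ T : ℝ, Real.exp (-(l * (T + a))) = Real.exp (-(l * a)) * Real.exp (-l * T) := by
    intro T
    rw [← Real.exp_add]
    congr 1
    ring
  have hneg : -(η * n) = -a := by rw [ha']
  rw [hneg]
  have hEP : P * (4 * E) ≤ P * 1 := mul_le_mul_of_nonneg_left hn hP0.le
  have hea : 0 < Real.exp (-a) := Real.exp_pos _
  have hPE : 0 < P * E := mul_pos hP0 hE0
  rcases hc with hc | ⟨hc, rfl⟩ | ⟨hc, rfl⟩
  · have h1' : Real.exp (-a) * (P - Real.exp (-(l * a)) * M1 - Real.exp (-(l * a)) * M2) ≤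
        ∑ f : ι → K, (∏ i, v i (f i)) * (Real.exp (-(θ * ∑ i, s (f i))) *
          min 1 (Real.exp (∑ i, s (f i)))) := by
      calc Real.exp (-a) * (P - Real.exp (-(l * a)) * M1 - Real.exp (-(l * a)) * M2)
          = ∑ f : ι → K, (∏ i, v i (f i)) * (Real.exp (-a) * (1 -
              Real.exp (l * (∑ i, s (f i) - a)) - Real.exp (-(l * (∑ i, s (f i) + a))))) := by
            rw [← hsum, hM1, hM2, Finset.mul_sum, Finset.mul_sum, ← Finset.sum_sub_distrib,
              ← Finset.sum_sub_distrib, Finset.mul_sum]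
            refine Finset.sum_congr rfl fun f _ => ?_
            rw [hexp1, hexp2]
            ring
        _ ≤ _ := by
            refine Finset.sum_le_sum fun f _ => mul_le_mul_of_nonneg_left ?_ (hw f)
            exact key_two θ _ a l h0 h1 ha hl
    refine le_trans ?_ h1'
    have h2 := hb1 hc.le
    have h3 := hb2 hc.ge
    have h4 : P / 2 ≤ P - Real.exp (-(l * a)) * M1 - Real.exp (-(l * a)) * M2 := by linarith
    calc 1 / 2 * Real.exp (-a) * P = Real.exp (-a) * (P / 2) := by ring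
      _ ≤ _ := mul_le_mul_of_nonneg_left h4 hea.le
  · have h1' : Real.exp (-a) * (P - Real.exp (-(l * a)) * M2) ≤
        ∑ f : ι → K, (∏ i, v i (f i)) * (Real.exp (-(0 * ∑ i, s (f i))) *
          min 1 (Real.exp (∑ i, s (f i)))) := by
      calc Real.exp (-a) * (P - Real.exp (-(l * a)) * M2)
          = ∑ f : ι → K, (∏ i, v i (f i)) * (Real.exp (-a) * (1 -
              Real.exp (-(l * (∑ i, s (f i) + a))))) := by
            rw [← hsum, hM2, Finset.mul_sum, ← Finset.sum_sub_distrib, Finset.mul_sum]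
            refine Finset.sum_congr rfl fun f _ => ?_
            rw [hexp2]
            ring
        _ ≤ _ := by
            refine Finset.sum_le_sum fun f _ => mul_le_mul_of_nonneg_left ?_ (hw f)
            exact key_zero _ a l ha hl
    refine le_trans ?_ h1'
    have h3 := hb2 hc
    have h4 : P / 2 ≤ P - Real.exp (-(l * a)) * M2 := by linarith
    calc 1 / 2 * Real.exp (-a) * P = Real.exp (-a) * (P / 2) := by ring
      _ ≤ _ := mul_le_mul_of_nonneg_left h4 hea.le
  · have h1' : Real.exp (-a) * (P - Real.exp (-(l * a)) * M1) ≤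
        ∑ f : ι → K, (∏ i, v i (f i)) * (Real.exp (-(1 * ∑ i, s (f i))) *
          min 1 (Real.exp (∑ i, s (f i)))) := by
      calc Real.exp (-a) * (P - Real.exp (-(l * a)) * M1)
          = ∑ f : ι → K, (∏ i, v i (f i)) * (Real.exp (-a) * (1 -
              Real.exp (l * (∑ i, s (f i) - a)))) := by
            rw [← hsum, hM1, Finset.mul_sum, ← Finset.sum_sub_distrib, Finset.mul_sum]
            refine Finset.sum_congr rfl fun f _ => ?_
            rw [hexp1]
            ring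
        _ ≤ _ := by
            refine Finset.sum_le_sum fun f _ => mul_le_mul_of_nonneg_left ?_ (hw f)
            exact key_one _ a l ha hl
    refine le_trans ?_ h1'
    have h3 := hb1 hc
    have h4 : P / 2 ≤ P - Real.exp (-(l * a)) * M1 := by linarith
    calc 1 / 2 * Real.exp (-a) * P = Real.exp (-a) * (P / 2) := by ring
      _ ≤ _ := mul_le_mul_of_nonneg_left h4 hea.le

end Pool.Agent.Helper10.EN
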