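import Pool.Agent.Helper10.P4.SAll

/-! Project ENT: definitions. Certificates are lists of integers. -/

namespace Pool.Agent.Helper10.EN

open Finset Pool.Agent.Helper10 Pool.Agent.Helper10.P5 Pool.Agent.Helper10.P4

/-- scalar product of two lists (of the common initial segments) -/
def dotL : List ℤ → List ℤ → ℤ
  | a :: as, b :: bs => a * b + dotL as bs
  | _, _ => 0

/-- autocorrelation of a list at the lag `k` -/
def ac (P : List ℤ) (k : ℕ) : ℤ := dotL P (P.drop k)

/-- autocorrelation of a real sequence of length `n` at the lag `k` -/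
noncomputable def acf (f : ℕ → ℝ) (n k : ℕ) : ℝ := ∑ t ∈ range (n - k), f t * f (t + k)

/-- entries of a list as real numbers -/
noncomputable def rl (P : List ℤ) (t : ℕ) : ℝ := ((P.getD t 0 : ℤ) : ℝ)

/-- the kernel of a list -/
noncomputable def phiL (P : List ℤ) (x : ℝ) : ℝ :=
  ‖∑ t ∈ range 81, ((rl P t : ℝ) : ℂ) * ee ((t : ℝ) * x)‖ ^ 2 / 2 ^ 60

/-- one system: three kernels, four weights and the square certificate of the majorant inequality -/
structure Sys where
  P1 : List ℤ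
  P2 : List ℤ
  P3 : List ℤ
  v1 : ℕ
  v2 : ℕ
  v3 : ℕ
  v0 : ℕ
  G : List ℤ

/-- target coefficient (scaled by `5 * 2 ^ 90`) -/
def Sys.tc (S : Sys) (e : ℕ) : ℤ :=
  (if e % 2 = 0 then 5 * ((S.v1 : ℤ) * ac S.P1 (e / 2) + (S.v2 : ℤ) * ac S.P2 (e / 2) +
    (S.v3 : ℤ) * ac S.P3 (e / 2)) else 0) +
  (if e = 0 then 5 * (S.v0 : ℤ) * 2 ^ 60 else 0) - (if e % 2 = 1 ∧ e ≤ 9 then 2 ^ 89 else 0)

/-- remainder coefficient -/
def Sys.rc (S : Sys) (e : ℕ) : ℤ := S.tc e - 5 * 2 ^ 10 * ac S.G e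

/-- sum of the absolute values of the remainder coefficients `1, …, n` -/
def Sys.sumAbs (S : Sys) : ℕ → ℤ
  | 0 => 0
  | n + 1 => |S.rc (n + 1)| + S.sumAbs n

/-- sum of the absolute values of the autocorrelations `1, …, n` -/
def sumAc (P : List ℤ) : ℕ → ℤ
  | 0 => 0
  | n + 1 => |ac P (n + 1)| + sumAc P n

/-- a list is a kernel: length, norm at most one, positive mean -/
def kerOk (P : List ℤ) : Bool :=
  decide (P.length ≤ 81) && decide (0 < ac P 0) && decide (ac P 0 + 2 * sumAc P 80 ≤ 2 ^ 60)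

/-- the check of one system -/
def Sys.ok (S : Sys) : Bool :=
  kerOk S.P1 && kerOk S.P2 && kerOk S.P3 && decide (S.G.length ≤ 161) &&
    decide (2 * S.sumAbs 160 ≤ S.rc 0)

/-- Fourier coefficients of the kernel of a list, shifted by `80` -/
noncomputable def bco (P : List ℤ) (k : ℕ) : ℝ :=
  (((if k ≤ 80 then ac P (80 - k) else ac P (k - 80) : ℤ) : ℤ) : ℝ) / 2 ^ 60

/-- mean of the kernel of a list -/
noncomputable def mu (P : List ℤ) : ℝ := ((ac P 0 : ℤ) : ℝ) / 2 ^ 60

/-- the target mean -/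
noncomputable def kap : ℝ := 1929 / 10000

end Pool.Agent.Helper10.EN
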