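import Pool.Agent.Helper10.EN.Sel

/-! ENT-B5 (MATHLIB ONLY): the mixture theorem.

Proof. `L := 1 + ∑ k, |s k|`, so `|s k| ≤ L`, `L ≥ 1`. Put `η' = min (η/2) (2 L)` and choose a natural number `G ≥ 1` with
`log (1 - 1/G) ≥ - η/2`, that is `(1 - 1/G) ≥ exp (-η/2)`. The family `w` consists of `V 0`, `wJ`, and `w j (a/G)` for
`j < J`, `0 ≤ a ≤ G`, and of `V J` (not needed if you prefer): index it by `Fin N` through any enumeration
(for instance a `List` or `Finset.equivFin` of `Option (Option (Fin J × Fin (G+1)))`). All are nonnegative with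
`∑ k ≤ exp δ`: for `w j t` it is `(1-t)` times `Zl` plus `t` times `Zr`.
LARGE n (the hypothesis `hn` of `select` holds for `n ≥ n0`): if some `p (x i) = 0` the left side is `0` and the right side
is `≥ 0`. Otherwise apply `select` with `η'`. In the third case let `d = 1/G`; the interval
`[(1-d) t, (1-d) t + d]` has length `1/G` and is contained in `[0,1]`, so it contains some `a/G` (`a = ⌈(1-d) t G⌉`); then
`a/G ≥ (1-d) t`, `1 - a/G ≥ (1-d)(1-t)`, hence `w j (a/G) k ≥ (1-d) w j t k` and `R (w j (a/G)) x ≥ (1-d)^n R (w j t) x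
≥ exp (-η n/2) R (w j t) x`. Every term of the sum over `l` is `≥ 0`, so `∏ p ≤ 2 exp (η' n + η n/2) ∑_l R ≤ 2 exp (η n) ∑_l R`.
SMALL n (`n < n0`): `V 0 k ≥ 0`, `∑ k, V 0 k φ k (x i) ≥ p (x i)`, and `min 1 (∏ κ/m) ≥ exp (-(L n))`, so
`R (V 0) x ≥ exp (-(L n)) ∏ i, ∑ k, V 0 k φ k (x i) ≥ exp (-(L n0)) ∏ p`. So `C = 2 + exp (L n0)` works. -/

namespace Pool.Agent.Helper10.EN

open Finset

variable {K : Type} [Fintype K] {p : ℝ → ℝ}

private lemma em_ratio_pos (M : Mix K p) {ι : Type} [Fintype ι] (f : ι → K) :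
    0 < min 1 (∏ i, M.κ / M.m (f i)) :=
  lt_min one_pos (prod_pos fun i _ => div_pos M.hκ (M.hm _))

private lemma em_R_nonneg (M : Mix K p) {ι : Type} [Fintype ι] [DecidableEq ι] (w : K → ℝ)
    (hw : ∀ k, 0 ≤ w k) (x : ι → ℝ) : 0 ≤ M.R w x := by
  unfold Mix.R
  exact sum_nonneg fun f _ => mul_nonneg
    (prod_nonneg fun i _ => mul_nonneg (hw _) (M.hφ _ _)) (em_ratio_pos M f).le

private lemma em_R_scale (M : Mix K p) {ι : Type} [Fintype ι] [DecidableEq ι] (w u : K → ℝ)
    (c : ℝ) (hc : 0 ≤ c) (hw : ∀ k, 0 ≤ w k) (h : ∀ k, c * w k ≤ u k) (x : ι → ℝ) :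
    c ^ Fintype.card ι * M.R w x ≤ M.R u x := by
  unfold Mix.R
  rw [mul_sum]
  apply sum_le_sum
  intro f _
  rw [← mul_assoc]
  apply mul_le_mul_of_nonneg_right _ (em_ratio_pos M f).le
  have h1 : c ^ Fintype.card ι = ∏ _i : ι, c := by
    rw [prod_const, card_univ]
  rw [h1, ← prod_mul_distrib]
  apply prod_le_prod
  · intro i _
    exact mul_nonneg hc (mul_nonneg (hw _) (M.hφ _ _))
  · intro i _
    rw [← mul_assoc]
    exact mul_le_mul_of_nonneg_right (h _) (M.hφ _ _)

private lemma em_small (M : Mix K p) (L : ℝ) (hL : 0 < L) (hs : ∀ k, |M.s k| ≤ L) {ι : Type}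
    [Fintype ι] [DecidableEq ι] (x : ι → ℝ) :
    Real.exp (-(L * Fintype.card ι)) * ∏ i, p (x i) ≤ M.R (M.V 0) x := by
  have h0 : 0 ≤ Real.exp (-(L * Fintype.card ι)) := (Real.exp_pos _).le
  have h1 : ∏ i, p (x i) ≤ ∏ i, ∑ k, M.V 0 k * M.φ k (x i) :=
    prod_le_prod (fun i _ => M.hp _) fun i _ => M.maj 0 (Nat.zero_le _) _
  have h2 : ∏ i, ∑ k, M.V 0 k * M.φ k (x i) =
      ∑ f : ι → K, ∏ i, M.V 0 (f i) * M.φ (f i) (x i) := by
    rw [prod_univ_sum, Fintype.piFinset_univ]
  refine le_trans (mul_le_mul_of_nonneg_left h1 h0) ?_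
  rw [h2, mul_sum]
  unfold Mix.R
  apply sum_le_sum
  intro f _
  rw [mul_comm]
  apply mul_le_mul_of_nonneg_left _ (prod_nonneg fun i _ => mul_nonneg (M.hV _ _) (M.hφ _ _))
  apply le_min
  · rw [Real.exp_le_one_iff]
    have : 0 ≤ L * (Fintype.card ι : ℝ) := by positivity
    linarith
  · have h3 : Real.exp (-(L * Fintype.card ι)) = ∏ _i : ι, Real.exp (-L) := by
      rw [prod_const, card_univ, ← Real.exp_nat_mul]
      congr 1
      ring
    rw [h3]
    apply prod_le_prod (fun i _ => (Real.exp_pos _).le)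
    intro i _
    have h4 := (abs_le.1 (hs (f i))).1
    have h5 : 0 < M.κ / M.m (f i) := div_pos M.hκ (M.hm _)
    rw [← Real.exp_log h5]
    exact Real.exp_le_exp.2 h4

theorem mix_em (M : Mix K p) (η : ℝ) (hη : 0 < η) :
    ∃ (C : ℝ) (N : ℕ) (w : Fin N → K → ℝ), 0 < C ∧ (∀ l k, 0 ≤ w l k) ∧
      (∀ l, ∑ k, w l k ≤ Real.exp M.δ) ∧
      ∀ (ι : Type) [Fintype ι] [DecidableEq ι] (x : ι → ℝ),
        ∏ i, p (x i) ≤ C * Real.exp (η * Fintype.card ι) * ∑ l : Fin N, M.R (w l) x := by
  classical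
  set L : ℝ := 1 + ∑ k, |M.s k| with hLdef
  have hsum0 : 0 ≤ ∑ k, |M.s k| := sum_nonneg fun k _ => abs_nonneg _
  have hL : 0 < L := by linarith
  have hs : ∀ k, |M.s k| ≤ L := by
    intro k
    have := single_le_sum (f := fun k => |M.s k|) (fun k _ => abs_nonneg _) (mem_univ k)
    linarith
  set η' : ℝ := min (η / 2) (2 * L) with hη'def
  have hη' : 0 < η' := lt_min (half_pos hη) (by linarith)
  have hη'L : η' ≤ 2 * L := min_le_right _ _
  have hη'2 : η' ≤ η / 2 := min_le_left _ _
  have he : 0 < 1 - Real.exp (-(η / 2)) := by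
    have : Real.exp (-(η / 2)) < 1 := by
      rw [Real.exp_lt_one_iff]
      linarith
    linarith
  obtain ⟨g, hg⟩ := exists_nat_one_div_lt he
  set G : ℝ := (g : ℝ) + 1 with hGdef
  have hG : 1 ≤ G := by
    have : (0 : ℝ) ≤ g := Nat.cast_nonneg g
    linarith
  have hG0 : 0 < G := by linarith
  set d : ℝ := 1 / G with hddef
  have hd0 : 0 < d := by positivity
  have hd1 : d ≤ 1 := by
    rw [hddef, div_le_one hG0]
    exact hG
  have hde : Real.exp (-(η / 2)) ≤ 1 - d := by linarith
  have hdG : d * G = 1 := by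
    rw [hddef]
    field_simp
  let T : Type := Option (Option (Fin M.J × Fin (g + 2)))
  let W : T → K → ℝ := fun τ => match τ with
    | none => M.V 0
    | some none => M.wJ
    | some (some (j, a)) => M.w j ((a : ℕ) / G)
  have hwn : ∀ (j : ℕ) (t : ℝ), 0 ≤ t → t ≤ 1 → ∀ k, 0 ≤ M.w j t k := by
    intro j t h0 h1 k
    unfold Mix.w
    exact mul_nonneg (add_nonneg (mul_nonneg (by linarith) (M.hV _ _)) (mul_nonneg h0 (M.hV _ _)))
      (Real.rpow_nonneg (div_pos (M.hm k) M.hκ).le _)
  have ha0 : ∀ a : ℕ, 0 ≤ (a : ℝ) / G := fun a => by positivity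
  have ha1 : ∀ a : Fin (g + 2), ((a : ℕ) : ℝ) / G ≤ 1 := by
    intro a
    rw [div_le_one hG0]
    have : ((a : ℕ) : ℝ) ≤ ((g + 1 : ℕ) : ℝ) := by
      exact_mod_cast Nat.lt_succ_iff.1 a.2
    push_cast at this
    linarith
  have hW : ∀ τ k, 0 ≤ W τ k := by
    intro τ k
    match τ with
    | none => exact M.hV 0 k
    | some none => exact mul_nonneg (M.hV _ _) (div_pos (M.hm k) M.hκ).le
    | some (some (j, a)) => exact hwn j _ (ha0 _) (ha1 a) k
  have hWs : ∀ τ, ∑ k, W τ k ≤ Real.exp M.δ := by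
    intro τ
    match τ with
    | none => exact M.Z0
    | some none => exact M.ZJ
    | some (some (j, a)) =>
      change ∑ k, M.w j ((a : ℕ) / G) k ≤ Real.exp M.δ
      have e1 : ∑ k, M.w j ((a : ℕ) / G) k =
          (1 - (a : ℕ) / G) * ∑ k, M.V j k * (M.m k / M.κ) ^ M.θ j +
            ((a : ℕ) / G) * ∑ k, M.V (j + 1) k * (M.m k / M.κ) ^ M.θ j := by
        rw [mul_sum, mul_sum, ← sum_add_distrib]
        apply sum_congr rfl
        intro k _
        unfold Mix.w
        ring
      rw [e1]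
      have e2 := mul_le_mul_of_nonneg_left (M.Zl j j.2)
        (by linarith [ha1 a] : (0 : ℝ) ≤ 1 - ((a : ℕ) : ℝ) / G)
      have e3 := mul_le_mul_of_nonneg_left (M.Zr j j.2) (ha0 (a : ℕ))
      linarith
  set n0 : ℕ := ⌈Real.log 4 * (4 * L ^ 2) / η' ^ 2⌉₊ with hn0
  let e : T ≃ Fin (Fintype.card T) := Fintype.equivFin T
  refine ⟨2 + Real.exp (L * n0), Fintype.card T, fun l => W (e.symm l), by positivity,
    fun l k => hW _ k, fun l => hWs _, ?_⟩
  intro ι _ _ x
  have hsumT : ∑ l : Fin (Fintype.card T), M.R (W (e.symm l)) x = ∑ τ : T, M.R (W τ) x :=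
    Equiv.sum_comp e.symm (fun τ => M.R (W τ) x)
  rw [hsumT]
  have hRn : ∀ τ, 0 ≤ M.R (W τ) x := fun τ => em_R_nonneg M _ (hW τ) x
  have hle : ∀ τ, M.R (W τ) x ≤ ∑ τ : T, M.R (W τ) x := fun τ =>
    single_le_sum (f := fun τ => M.R (W τ) x) (fun τ _ => hRn τ) (mem_univ τ)
  set S : ℝ := ∑ τ : T, M.R (W τ) x with hS
  have hS0 : 0 ≤ S := sum_nonneg fun τ _ => hRn τ
  set n : ℝ := (Fintype.card ι : ℝ) with hn
  have hnn : 0 ≤ n := Nat.cast_nonneg _
  have hCS : ∀ c : ℝ, 0 ≤ c → c ≤ 2 + Real.exp (L * n0) → ∀ b : ℝ, b ≤ η * n →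
      c * Real.exp b * S ≤ (2 + Real.exp (L * n0)) * Real.exp (η * n) * S := by
    intro c hc0 hc b hb
    apply mul_le_mul_of_nonneg_right _ hS0
    exact mul_le_mul hc (Real.exp_le_exp.2 hb) (Real.exp_pos _).le (by positivity)
  have hE0 : 0 < Real.exp (L * n0) := Real.exp_pos _
  rcases lt_or_ge (Fintype.card ι) n0 with hlt | hge
  · -- few points
    have h1 := em_small M L hL hs x
    have h2 : ∏ i, p (x i) ≤ Real.exp (L * n) * M.R (W none) x := by
      have h3 := mul_le_mul_of_nonneg_left h1 (Real.exp_pos (L * n)).le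
      rw [← mul_assoc, ← Real.exp_add, add_neg_cancel, Real.exp_zero, one_mul] at h3
      exact h3
    have h4 : Real.exp (L * n) * M.R (W none) x ≤ Real.exp (L * n0) * Real.exp 0 * S := by
      rw [Real.exp_zero, mul_one]
      apply mul_le_mul _ (hle none) (hRn none) (Real.exp_pos _).le
      apply Real.exp_le_exp.2
      apply mul_le_mul_of_nonneg_left _ hL.le
      rw [hn]
      exact_mod_cast hlt.le
    exact h2.trans (h4.trans (hCS _ hE0.le (by linarith) 0 (mul_nonneg hη.le hnn)))
  · by_cases hz : ∀ i, 0 < p (x i)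
    · have hcond : 4 * Real.exp (-(Fintype.card ι * η' ^ 2 / (4 * L ^ 2))) ≤ 1 := by
        have h1 : Real.log 4 * (4 * L ^ 2) / η' ^ 2 ≤ n := by
          refine le_trans (Nat.le_ceil _) ?_
          rw [hn]
          exact_mod_cast hge
        have h2 : Real.log 4 ≤ n * η' ^ 2 / (4 * L ^ 2) := by
          rw [div_le_iff₀ (by positivity)] at h1
          rw [le_div_iff₀ (by positivity)]
          exact h1
        have h3 : Real.exp (-(n * η' ^ 2 / (4 * L ^ 2))) ≤ 1 / 4 := by
          have : Real.exp (-(n * η' ^ 2 / (4 * L ^ 2))) ≤ Real.exp (-Real.log 4) :=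
            Real.exp_le_exp.2 (by linarith)
          rw [Real.exp_neg (Real.log 4), Real.exp_log (by norm_num)] at this
          linarith
        linarith
      have hhalf : ∀ r : ℝ, (1 / 2) * Real.exp (-(η' * Fintype.card ι)) * ∏ i, p (x i) ≤ r →
          ∏ i, p (x i) ≤ 2 * Real.exp (η' * n) * r := by
        intro r hr
        have h3 := mul_le_mul_of_nonneg_left hr (by positivity : 0 ≤ 2 * Real.exp (η' * n))
        refine le_trans (le_of_eq ?_) h3
        have h4 : Real.exp (η' * n) * Real.exp (-(η' * n)) = 1 := by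
          rw [← Real.exp_add, add_neg_cancel, Real.exp_zero]
        change _ = 2 * Real.exp (η' * n) * (1 / 2 * Real.exp (-(η' * n)) * ∏ i, p (x i))
        linear_combination -(∏ i, p (x i)) * h4
      have hη'n : η' * n ≤ η * n := mul_le_mul_of_nonneg_right (by linarith) hnn
      rcases select M L hL hs η' hη' hη'L hcond x hz with h | h | ⟨j, hj, t, ht0, ht1, h⟩
      · refine (hhalf _ h).trans (le_trans ?_ (hCS 2 (by norm_num) (by linarith) (η' * n) hη'n))
        exact mul_le_mul_of_nonneg_left (hle none) (by positivity)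
      · refine (hhalf _ h).trans (le_trans ?_ (hCS 2 (by norm_num) (by linarith) (η' * n) hη'n))
        exact mul_le_mul_of_nonneg_left (hle (some none)) (by positivity)
      · -- rounding of the parameter
        have hb0 : 0 ≤ (1 - d) * t * G := mul_nonneg (mul_nonneg (by linarith) ht0) hG0.le
        set a : ℕ := ⌈(1 - d) * t * G⌉₊ with hadef
        have ha : (1 - d) * t * G ≤ a := Nat.le_ceil _
        have ha' : (a : ℝ) < (1 - d) * t * G + 1 := Nat.ceil_lt_add_one hb0
        have hdG1 : (1 - d) * G = G - 1 := by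
          rw [sub_mul, one_mul, hdG]
        have haG : (a : ℝ) < G := by
          have : (1 - d) * t * G ≤ (1 - d) * G := by
            have : (1 - d) * t ≤ (1 - d) * 1 := mul_le_mul_of_nonneg_left ht1 (by linarith)
            have := mul_le_mul_of_nonneg_right this hG0.le
            linarith
          linarith
        have hag : a < g + 2 := by
          have : (a : ℝ) < ((g + 2 : ℕ) : ℝ) := by
            push_cast
            linarith
          exact_mod_cast this
        have hq1 : (1 - d) * t ≤ a / G := by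
          rw [le_div_iff₀ hG0]
          exact ha
        have hq2 : (1 - d) * (1 - t) ≤ 1 - a / G := by
          have : (a : ℝ) / G ≤ (1 - d) * t + d := by
            rw [div_le_iff₀ hG0, add_mul, hdG]
            exact ha'.le
          linarith
        have hsc : ∀ k, (1 - d) * M.w j t k ≤ M.w j ((a : ℕ) / G) k := by
          intro k
          unfold Mix.w
          rw [← mul_assoc]
          apply mul_le_mul_of_nonneg_right _ (Real.rpow_nonneg (div_pos (M.hm k) M.hκ).le _)
          have e1 := mul_le_mul_of_nonneg_right hq2 (M.hV j k)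
          have e2 := mul_le_mul_of_nonneg_right hq1 (M.hV (j + 1) k)
          linarith
        have h5 := em_R_scale M (M.w j t) (M.w j ((a : ℕ) / G)) (1 - d) (by linarith)
          (hwn j t ht0 ht1) hsc x
        have h6 : Real.exp (-(η / 2 * n)) ≤ (1 - d) ^ Fintype.card ι := by
          have : Real.exp (-(η / 2 * n)) = Real.exp (-(η / 2)) ^ Fintype.card ι := by
            rw [← Real.exp_nat_mul]
            congr 1
            rw [hn]
            ring
          rw [this]
          exact pow_le_pow_left₀ (Real.exp_pos _).le hde _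
        have h7 : M.R (M.w j t) x ≤ Real.exp (η / 2 * n) * M.R (W (some (some (⟨j, hj⟩, ⟨a, hag⟩)))) x := by
          have h8 : Real.exp (-(η / 2 * n)) * M.R (M.w j t) x ≤ M.R (M.w j ((a : ℕ) / G)) x :=
            le_trans (mul_le_mul_of_nonneg_right h6 (em_R_nonneg M _ (hwn j t ht0 ht1) x)) h5
          have h9 := mul_le_mul_of_nonneg_left h8 (Real.exp_pos (η / 2 * n)).le
          rw [← mul_assoc, ← Real.exp_add, add_neg_cancel, Real.exp_zero, one_mul] at h9
          exact h9
        have h10 : M.R (M.w j t) x ≤ Real.exp (η / 2 * n) * S :=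
          h7.trans (mul_le_mul_of_nonneg_left (hle (some (some (⟨j, hj⟩, ⟨a, hag⟩))))
            (Real.exp_pos _).le)
        refine (hhalf _ h).trans ?_
        have h11 := mul_le_mul_of_nonneg_left h10 (by positivity : 0 ≤ 2 * Real.exp (η' * n))
        refine h11.trans ?_
        have h12 : 2 * Real.exp (η' * n) * (Real.exp (η / 2 * n) * S) =
            2 * Real.exp (η' * n + η / 2 * n) * S := by
          rw [Real.exp_add]
          ring
        rw [h12]
        apply hCS 2 (by norm_num) (by linarith)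
        have : η' * n ≤ η / 2 * n := mul_le_mul_of_nonneg_right hη'2 hnn
        linarith
    · push Not at hz
      obtain ⟨i, hi⟩ := hz
      have h0 : p (x i) = 0 := le_antisymm hi (M.hp _)
      rw [prod_eq_zero (mem_univ i) h0]
      positivity

end Pool.Agent.Helper10.EN
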