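import Pool.Agent.Helper10.EN.Defs

/-! ENT-A5: first moment of a product of kernels (signed Fourier coefficients). -/

namespace Pool.Agent.Helper10.EN

open Finset Pool.Agent.Helper10 Pool.Agent.Helper10.P5 Pool.Agent.Helper10.P4

/-- coefficients at the distance `t` -/
noncomputable def tbb (A : Finset ℕ) (b : ℕ → ℕ → ℝ) (t k : ℕ) : ℝ :=
  if t ∈ A then b t k else (if k = 80 then 1 else 0)

/-- total coefficient -/
noncomputable def tcb (A : Finset ℕ) (b : ℕ → ℕ → ℝ) (ℓ : ℕ) (f : Fin ℓ → ℕ) : ℝ :=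
  ∏ i : Fin ℓ, tbb A b ((i : ℕ) + 1) (f i)

lemma tbb_expand (A : Finset ℕ) (Φ : ℕ → ℝ → ℝ) (b : ℕ → ℕ → ℝ)
    (hΦ : ∀ t ∈ A, ∀ x : ℝ, ((Φ t x : ℝ) : ℂ) =
      ∑ k ∈ range 161, ((b t k : ℝ) : ℂ) * ee (((k : ℝ) - 80) * x)) (t : ℕ) (x : ℝ) :
    (((if t ∈ A then Φ t x else 1 : ℝ)) : ℂ) =
      ∑ k ∈ range 161, ((tbb A b t k : ℝ) : ℂ) * ee (((k : ℝ) - 80) * x) := by
  unfold tbb
  split_ifs with h
  · exact hΦ t h x
  · have h1 : ∀ k ∈ range 161, (((if k = 80 then 1 else 0 : ℝ)) : ℂ) * ee (((k : ℝ) - 80) * x) =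
        if k = 80 then 1 else 0 := by
      intro k _
      split_ifs with h2
      · rw [h2]
        norm_num
        exact ee_zero
      · simp
    rw [Finset.sum_congr rfl h1, Finset.sum_ite_eq', if_pos (by simp)]
    norm_num

lemma tbb_abs_sum (A : Finset ℕ) (b : ℕ → ℕ → ℝ)
    (hb : ∀ t ∈ A, ∑ k ∈ range 161, |b t k| ≤ 1) (t : ℕ) :
    ∑ k ∈ range 161, |tbb A b t k| ≤ 1 := by
  unfold tbb
  split_ifs with h
  · exact hb t h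
  · have h1 : ∀ k ∈ range 161, |(if k = 80 then 1 else 0 : ℝ)| = if k = 80 then 1 else 0 := by
      intro k _
      split_ifs <;> simp
    rw [Finset.sum_congr rfl h1, Finset.sum_ite_eq', if_pos (by simp)]

lemma tcb_abs_sum (A : Finset ℕ) (b : ℕ → ℕ → ℝ)
    (hb : ∀ t ∈ A, ∑ k ∈ range 161, |b t k| ≤ 1) (ℓ : ℕ) :
    ∑ f ∈ KK ℓ 161, |tcb A b ℓ f| ≤ 1 := by
  have h1 : ∀ f ∈ KK ℓ 161, |tcb A b ℓ f| = ∏ i : Fin ℓ, |tbb A b ((i : ℕ) + 1) (f i)| := by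
    intro f _
    unfold tcb
    rw [Finset.abs_prod]
  rw [Finset.sum_congr rfl h1]
  unfold KK
  rw [← Finset.prod_univ_sum (fun _ : Fin ℓ => range 161) (fun i k => |tbb A b ((i : ℕ) + 1) k|)]
  apply Finset.prod_le_one
  · intro i _
    exact Finset.sum_nonneg fun _ _ => abs_nonneg _
  · intro i _
    exact tbb_abs_sum A b hb _

lemma tcb_mid (A : Finset ℕ) (b : ℕ → ℕ → ℝ) (ℓ : ℕ) (hA : A ⊆ Icc 1 ℓ) :
    tcb A b ℓ (fun _ => 80) = ∏ t ∈ A, b t 80 := by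
  unfold tcb
  rw [← prod_Icc_fin ℓ (fun t => tbb A b t 80)]
  have h1 : ∀ t ∈ Icc 1 ℓ, tbb A b t 80 = if t ∈ A then b t 80 else 1 := by
    intro t _
    unfold tbb
    simp
  rw [Finset.prod_congr rfl h1, Finset.prod_ite_mem, Finset.inter_eq_right.mpr hA]

/-- product of the kernels -/
noncomputable def tPG (κ T : ℕ) (A : Finset ℕ) (Φ : ℕ → ℝ → ℝ) (α : ℝ) : ℝ :=
  ∏ t ∈ A, Φ t (α * ((κ * ww 10 T t : ℕ) : ℝ))

lemma tPG_expand (κ T ℓ : ℕ) (A : Finset ℕ) (hℓ : ℓ ≤ T) (hA : A ⊆ Icc 1 ℓ)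
    (Φ : ℕ → ℝ → ℝ) (b : ℕ → ℕ → ℝ)
    (hΦ : ∀ t ∈ A, ∀ x : ℝ, ((Φ t x : ℝ) : ℂ) =
      ∑ k ∈ range 161, ((b t k : ℝ) : ℂ) * ee (((k : ℝ) - 80) * x)) (α : ℝ) :
    ((tPG κ T A Φ α : ℝ) : ℂ) = ∑ f ∈ KK ℓ 161, ((tcb A b ℓ f : ℝ) : ℂ) *
      ee (α * (((κ * 10 ^ (T - ℓ) : ℕ) : ℝ) *
        ((vl ℓ f : ℝ) - (vl ℓ (fun _ => 80) : ℝ)))) := by
  have e1 : tPG κ T A Φ α = ∏ t ∈ Icc 1 ℓ,
      (if t ∈ A then Φ t (α * ((κ * ww 10 T t : ℕ) : ℝ)) else 1) := by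
    unfold tPG
    rw [Finset.prod_ite_mem, Finset.inter_eq_right.mpr hA]
  have e2 : ∀ t ∈ Icc 1 ℓ, (((if t ∈ A then Φ t (α * ((κ * ww 10 T t : ℕ) : ℝ)) else 1 : ℝ)) : ℂ) =
      ∑ k ∈ range 161, ((tbb A b t k : ℝ) : ℂ) *
        ee (((k : ℝ) - 80) * (α * ((κ * 10 ^ (T - ℓ) * ww 10 ℓ t : ℕ) : ℝ))) := by
    intro t ht
    rw [tbb_expand A Φ b hΦ]
    have h2 := ww_add_left 10 ℓ t (T - ℓ) (Finset.mem_Icc.mp ht).2
    rw [show ℓ + (T - ℓ) = T by omega] at h2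
    rw [h2, ← mul_assoc]
  rw [e1, Complex.ofReal_prod, Finset.prod_congr rfl e2, prod_Icc_fin]
  unfold KK tcb
  rw [Finset.prod_univ_sum (fun _ : Fin ℓ => range 161)]
  apply Finset.sum_congr rfl
  intro f _
  rw [Finset.prod_mul_distrib]
  congr 1
  · push_cast
    rfl
  · rw [← ee_sum]
    congr 1
    unfold vl
    push_cast
    rw [← Finset.sum_sub_distrib, Finset.mul_sum, Finset.mul_sum]
    apply Finset.sum_congr rfl
    intro i _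
    ring

lemma tPG_sum (κ T ℓ : ℕ) (A : Finset ℕ) (hℓ : ℓ ≤ T) (hA : A ⊆ Icc 1 ℓ)
    (Φ : ℕ → ℝ → ℝ) (b : ℕ → ℕ → ℝ)
    (hΦ : ∀ t ∈ A, ∀ x : ℝ, ((Φ t x : ℝ) : ℂ) =
      ∑ k ∈ range 161, ((b t k : ℝ) : ℂ) * ee (((k : ℝ) - 80) * x)) (q : ℕ) (hq : 0 < q)
    (hcop : q.Coprime (κ * 10 ^ (T - ℓ))) :
    ∑ a ∈ range q, tPG κ T A Φ ((a : ℝ) / q) = q * ∑ f ∈ KK ℓ 161,
      if (q : ℤ) ∣ (vl ℓ f : ℤ) - (vl ℓ (fun _ => 80) : ℤ) then tcb A b ℓ f else 0 := by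
  have hcop' : IsCoprime (q : ℤ) ((κ * 10 ^ (T - ℓ) : ℕ) : ℤ) := Nat.isCoprime_iff_coprime.mpr hcop
  have h1 : ((∑ a ∈ range q, tPG κ T A Φ ((a : ℝ) / q) : ℝ) : ℂ) = ((q * ∑ f ∈ KK ℓ 161,
      (if (q : ℤ) ∣ (vl ℓ f : ℤ) - (vl ℓ (fun _ => 80) : ℤ) then tcb A b ℓ f else 0) : ℝ) : ℂ) := by
    rw [Complex.ofReal_sum, Finset.sum_congr rfl
      (fun (a : ℕ) _ => tPG_expand κ T ℓ A hℓ hA Φ b hΦ ((a : ℝ) / q)),
      Finset.sum_comm]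
    rw [Complex.ofReal_mul, Complex.ofReal_sum, Finset.mul_sum]
    apply Finset.sum_congr rfl
    intro f _
    rw [← Finset.mul_sum]
    have h2 := sum_ee_eq q hq
      (((κ * 10 ^ (T - ℓ) : ℕ) : ℤ) * ((vl ℓ f : ℤ) - (vl ℓ (fun _ => 80) : ℤ)))
    have h3 : ∀ a ∈ range q, ee ((a : ℝ) / q * (((κ * 10 ^ (T - ℓ) : ℕ) : ℝ) *
        ((vl ℓ f : ℝ) - (vl ℓ (fun _ => 80) : ℝ)))) = ee ((a : ℝ) *
        (((((κ * 10 ^ (T - ℓ) : ℕ) : ℤ) * ((vl ℓ f : ℤ) - (vl ℓ (fun _ => 80) : ℤ)) : ℤ) : ℝ) / q)) := by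
      intro a _
      congr 1
      push_cast
      ring
    rw [Finset.sum_congr rfl h3, h2]
    by_cases h : (q : ℤ) ∣ (vl ℓ f : ℤ) - (vl ℓ (fun _ => 80) : ℤ)
    · rw [if_pos h, if_pos (Dvd.dvd.mul_left h _)]
      push_cast
      ring
    · rw [if_neg h, if_neg (fun h' => h (hcop'.dvd_of_dvd_mul_left h'))]
      simp
  exact_mod_cast h1

/-- the value of a digit vector determines it, against the constant vector `80` -/
lemma vl_mid_inj (ℓ : ℕ) (f : Fin ℓ → ℕ) (hf : f ∈ KK ℓ 161)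
    (h : vl ℓ f = vl ℓ (fun _ => 80)) : f = fun _ => 80 := by
  unfold KK at hf
  rw [Fintype.mem_piFinset] at hf
  have key := uniq 10 (by norm_num) ℓ
    (fun t => if h : t - 1 < ℓ then ((f ⟨t - 1, h⟩ : ℤ) - 80) else 0)
    (by
      intro t _
      norm_num
      split_ifs with h
      · have h1 := Finset.mem_range.mp (hf ⟨t - 1, h⟩)
        rw [abs_le]
        constructor <;> omega
      · simp)
    (by
      rw [sum_Icc_fin]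
      have e1 : ∀ i : Fin ℓ, (if h : ((i : ℕ) + 1) - 1 < ℓ then
          ((f ⟨((i : ℕ) + 1) - 1, h⟩ : ℤ) - 80) else 0) *
          (ww 10 ℓ ((i : ℕ) + 1) : ℤ) =
          (f i : ℤ) * (ww 10 ℓ ((i : ℕ) + 1) : ℤ) - 80 * (ww 10 ℓ ((i : ℕ) + 1) : ℤ) := by
        intro i
        rw [dif_pos (by simp)]
        simp only [Nat.add_sub_cancel, Fin.eta]
        ring
      rw [Finset.sum_congr rfl (fun i _ => e1 i), Finset.sum_sub_distrib, sub_eq_zero]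
      unfold vl at h
      exact_mod_cast h)
  funext i
  have := key ((i : ℕ) + 1) (by rw [Finset.mem_Icc]; omega)
  simp only [Nat.add_sub_cancel, Fin.is_lt, dif_pos, Fin.eta] at this
  omega

lemma vl_mid_abs (ℓ : ℕ) (f : Fin ℓ → ℕ) (hf : f ∈ KK ℓ 161) :
    ((vl ℓ f : ℤ) - (vl ℓ (fun _ => 80) : ℤ)).natAbs ≤ 80 * 10 ^ (2 * ℓ + 1) := by
  unfold KK at hf
  rw [Fintype.mem_piFinset] at hf
  have e1 : ((vl ℓ f : ℤ) - (vl ℓ (fun _ => 80) : ℤ)) =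
      ∑ i : Fin ℓ, ((f i : ℤ) - 80) * (ww 10 ℓ ((i : ℕ) + 1) : ℤ) := by
    unfold vl
    push_cast
    rw [← Finset.sum_sub_distrib]
    apply Finset.sum_congr rfl
    intro i _
    ring
  have e2 : |((vl ℓ f : ℤ) - (vl ℓ (fun _ => 80) : ℤ))| ≤ 80 * ∑ i : Fin ℓ, (ww 10 ℓ ((i : ℕ) + 1) : ℤ) := by
    rw [e1, Finset.mul_sum]
    refine (Finset.abs_sum_le_sum_abs _ _).trans (Finset.sum_le_sum fun i _ => ?_)
    rw [abs_mul, abs_of_nonneg (Int.natCast_nonneg (ww 10 ℓ ((i : ℕ) + 1)))]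
    apply mul_le_mul_of_nonneg_right _ (Int.natCast_nonneg _)
    have h1 := Finset.mem_range.mp (hf i)
    rw [abs_le]
    constructor <;> omega
  have e3 : ∑ i : Fin ℓ, (ww 10 ℓ ((i : ℕ) + 1)) ≤ 10 ^ (2 * ℓ + 1) := by
    rw [← sum_Icc_fin ℓ (fun t => ww 10 ℓ t)]
    exact sum_ww_le 10 ℓ (by norm_num)
  have e4 : (∑ i : Fin ℓ, (ww 10 ℓ ((i : ℕ) + 1) : ℤ)) ≤ ((10 ^ (2 * ℓ + 1) : ℕ) : ℤ) := by
    exact_mod_cast e3
  have e5 : |((vl ℓ f : ℤ) - (vl ℓ (fun _ => 80) : ℤ))| ≤ ((80 * 10 ^ (2 * ℓ + 1) : ℕ) : ℤ) := by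
    refine e2.trans ?_
    push_cast at e4 ⊢
    linarith
  rw [Int.abs_eq_natAbs] at e5
  exact_mod_cast e5

theorem T1_word (κ T ℓ Qm D : ℕ) (A : Finset ℕ)
    (hκ : ∀ q : ℕ, q.Coprime 10 → q.Coprime κ) (hℓ : ℓ ≤ T) (hA : A ⊆ Icc 1 ℓ)
    (Φ : ℕ → ℝ → ℝ) (b : ℕ → ℕ → ℝ) (hΦ0 : ∀ t ∈ A, ∀ x, 0 ≤ Φ t x)
    (hΦ : ∀ t ∈ A, ∀ x : ℝ, ((Φ t x : ℝ) : ℂ) =
      ∑ k ∈ range 161, ((b t k : ℝ) : ℂ) * ee (((k : ℝ) - 80) * x))
    (hb : ∀ t ∈ A, ∑ k ∈ range 161, |b t k| ≤ 1) (hb0 : ∀ t ∈ A, 0 ≤ b t 80)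
    (S : Finset ℕ) (hS : ∀ q ∈ S, 0 < q ∧ q ≤ Qm ∧ q.Coprime 10)
    (hD : ∀ n : ℕ, 1 ≤ n → n ≤ 80 * 10 ^ (2 * ℓ + 1) → (S.filter (fun q => q ∣ n)).card ≤ D) :
    ∑ q ∈ S, ∑ a ∈ AA q, ∏ t ∈ A, Φ t ((a : ℝ) / q * ((κ * ww 10 T t : ℕ) : ℝ)) ≤
      Qm * (S.card * ∏ t ∈ A, b t 80 + D) := by
  classical
  have h8 : (fun _ => 80 : Fin ℓ → ℕ) ∈ KK ℓ 161 := by
    unfold KK
    rw [Fintype.mem_piFinset]
    intro _
    simp
  have hmid0 : 0 ≤ tcb A b ℓ (fun _ => 80) := by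
    rw [tcb_mid A b ℓ hA]
    exact Finset.prod_nonneg hb0
  -- absolute coefficients, kept at the middle
  set ca : (Fin ℓ → ℕ) → ℝ := fun f =>
    if f = (fun _ => 80) then tcb A b ℓ (fun _ => 80) else |tcb A b ℓ f| with hca
  have hca0 : ∀ f, 0 ≤ ca f := by
    intro f
    rw [hca]
    dsimp only
    split_ifs
    · exact hmid0
    · exact abs_nonneg _
  have hcale : ∀ f, tcb A b ℓ f ≤ ca f := by
    intro f
    rw [hca]
    dsimp only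
    split_ifs with h
    · rw [h]
    · exact le_abs_self _
  have hPG0 : ∀ α, 0 ≤ tPG κ T A Φ α := fun α => Finset.prod_nonneg fun t ht => hΦ0 t ht _
  have h1 : ∀ q ∈ S, ∑ a ∈ AA q, ∏ t ∈ A, Φ t ((a : ℝ) / q * ((κ * ww 10 T t : ℕ) : ℝ)) ≤
      Qm * ∑ f ∈ KK ℓ 161,
      if (q : ℤ) ∣ (vl ℓ f : ℤ) - (vl ℓ (fun _ => 80) : ℤ) then ca f else 0 := by
    intro q hq
    obtain ⟨hq0, hqm, hq10⟩ := hS q hq
    have hcop : q.Coprime (κ * 10 ^ (T - ℓ)) :=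
      Nat.Coprime.mul_right (hκ q hq10) (Nat.Coprime.pow_right _ hq10)
    calc ∑ a ∈ AA q, ∏ t ∈ A, Φ t ((a : ℝ) / q * ((κ * ww 10 T t : ℕ) : ℝ))
        = ∑ a ∈ AA q, tPG κ T A Φ ((a : ℝ) / q) := rfl
      _ ≤ ∑ a ∈ range q, tPG κ T A Φ ((a : ℝ) / q) := by
          apply Finset.sum_le_sum_of_subset_of_nonneg (Finset.filter_subset _ _)
          intro _ _ _
          exact hPG0 _
      _ = (q : ℝ) * ∑ f ∈ KK ℓ 161,
          if (q : ℤ) ∣ (vl ℓ f : ℤ) - (vl ℓ (fun _ => 80) : ℤ) then tcb A b ℓ f else 0 :=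
          tPG_sum κ T ℓ A hℓ hA Φ b hΦ q hq0 hcop
      _ ≤ (q : ℝ) * ∑ f ∈ KK ℓ 161,
          if (q : ℤ) ∣ (vl ℓ f : ℤ) - (vl ℓ (fun _ => 80) : ℤ) then ca f else 0 := by
          apply mul_le_mul_of_nonneg_left _ (Nat.cast_nonneg q)
          apply Finset.sum_le_sum
          intro f _
          split_ifs
          · exact hcale f
          · exact le_refl _
      _ ≤ _ := by
          apply mul_le_mul_of_nonneg_right (by exact_mod_cast hqm)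
          apply Finset.sum_nonneg
          intro f _
          split_ifs
          · exact hca0 f
          · exact le_refl _
  refine (Finset.sum_le_sum h1).trans ?_
  rw [← Finset.mul_sum]
  apply mul_le_mul_of_nonneg_left _ (Nat.cast_nonneg Qm)
  rw [Finset.sum_comm]
  have h2 : ∀ f ∈ KK ℓ 161, ∑ q ∈ S,
      (if (q : ℤ) ∣ (vl ℓ f : ℤ) - (vl ℓ (fun _ => 80) : ℤ) then ca f else 0) ≤
      (if f = (fun _ => 80) then (S.card : ℝ) * tcb A b ℓ f else 0) + D * |tcb A b ℓ f| := by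
    intro f hf
    rw [← Finset.sum_filter, Finset.sum_const, nsmul_eq_mul]
    by_cases hpp : f = (fun _ => 80)
    · rw [if_pos hpp]
      have e1 : ca f = tcb A b ℓ f := by
        rw [hca]
        dsimp only
        rw [if_pos hpp, hpp]
      have hnn : 0 ≤ tcb A b ℓ f := by rw [hpp]; exact hmid0
      rw [e1]
      have h3 : ((S.filter (fun q : ℕ => (q : ℤ) ∣ (vl ℓ f : ℤ) -
          (vl ℓ (fun _ => 80) : ℤ))).card : ℝ) ≤ S.card := by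
        exact_mod_cast Finset.card_filter_le _ _
      have h4 := mul_le_mul_of_nonneg_right h3 hnn
      have h5 : 0 ≤ (D : ℝ) * |tcb A b ℓ f| := by positivity
      linarith
    · rw [if_neg hpp, zero_add]
      have e1 : ca f = |tcb A b ℓ f| := by
        rw [hca]
        dsimp only
        rw [if_neg hpp]
      rw [e1]
      apply mul_le_mul_of_nonneg_right _ (abs_nonneg _)
      set n := ((vl ℓ f : ℤ) - (vl ℓ (fun _ => 80) : ℤ)).natAbs with hn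
      have hne : (vl ℓ f : ℤ) - (vl ℓ (fun _ => 80) : ℤ) ≠ 0 := by
        intro h0
        apply hpp
        apply vl_mid_inj ℓ f hf
        have : (vl ℓ f : ℤ) = vl ℓ (fun _ => 80) := by linarith
        exact_mod_cast this
      have hn1 : 1 ≤ n := by
        rw [hn]
        exact Int.natAbs_pos.mpr hne
      have hn2 : n ≤ 80 * 10 ^ (2 * ℓ + 1) := vl_mid_abs ℓ f hf
      have h3 := hD n hn1 hn2
      have h4 : S.filter (fun q : ℕ => (q : ℤ) ∣ (vl ℓ f : ℤ) - (vl ℓ (fun _ => 80) : ℤ)) =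
          S.filter (fun q => q ∣ n) := by
        apply Finset.filter_congr
        intro q _
        rw [hn, Int.natCast_dvd]
      rw [h4]
      exact_mod_cast h3
  refine (Finset.sum_le_sum h2).trans ?_
  rw [Finset.sum_add_distrib]
  have h3 : ∑ f ∈ KK ℓ 161, (if f = (fun _ => 80) then (S.card : ℝ) * tcb A b ℓ f else 0) =
      S.card * ∏ t ∈ A, b t 80 := by
    rw [Finset.sum_ite_eq', if_pos h8, tcb_mid A b ℓ hA]
  have h4 : ∑ f ∈ KK ℓ 161, (D : ℝ) * |tcb A b ℓ f| ≤ D := by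
    rw [← Finset.mul_sum]
    have := mul_le_mul_of_nonneg_left (tcb_abs_sum A b hb ℓ) (Nat.cast_nonneg (α := ℝ) D)
    linarith
  rw [h3]
  linarith

end Pool.Agent.Helper10.EN
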