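import Pool.Agent.Helper10.EN.ZK
import Pool.Agent.Helper10.EN.EM
import Pool.Agent.Helper10.EN.T1w

/-! ENT-A6: first moment of the digit product with the mean `kap = 0.1929` per digit.

Proof. `mix_em mixK (8/10^6)` gives `C0, N, w`. Take `ι = {t // t ∈ A}` (type `Type`), `x t = a/q * (κ * ww 10 T t)`:
`GF κ T A (a/q) = ∏ t ∈ A, ph (…) = ∏ t : {t // t ∈ A}, ph (x t)` (`Finset.prod_coe_sort`) `≤ C0 exp (8/10^6 |A|) ∑ l, R (w l) x`,
`R (w l) x = ∑ f : {t // t ∈ A} → K, (∏ i, w l (f i)) * (∏ i, phK (f i) (x i)) * min 1 (∏ i, kap / mK (f i))`.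
Exchange the sums: for each `f`, `T1_word` with `Φ t := if h : t ∈ A then phK (f ⟨t, h⟩) else 1 (anything)`,
`b t := if h : t ∈ A then bK (f ⟨t, h⟩) else 0` (`phK_expand`, `bK_sum`, `bK_mid`, `mK_pos`) bounds
`∑ q ∈ S, ∑ a ∈ AA q, ∏ i, phK (f i) (x i) ≤ Qm (|S| ∏ i, mK (f i) + D)`. Multiply by the minimum:
`(|S| ∏ m + D) * min 1 (∏ kap / m) ≤ |S| kap^|A| + D` (`∏ i, kap / mK (f i) = kap^|A| / ∏ mK (f i)`, card of the subtype
is `A.card`). Finally `∑ f, ∏ i, w l (f i) = (∑ k, w l k)^|A| ≤ exp (2/10^6 |A|)`, so the total constant is `C = C0 N + 1` and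
the exponent `(8 + 2)/10^6 = 1/10^5`. -/

namespace Pool.Agent.Helper10.EN

open Finset Pool.Agent.Helper10 Pool.Agent.Helper10.P5 Pool.Agent.Helper10.P4

/-- exchange of the sums -/
private theorem fm_exch {F : Type} [Fintype F] (S : Finset ℕ) (c : F → ℝ) (g : ℕ → ℕ → F → ℝ) :
    ∑ q ∈ S, ∑ a ∈ AA q, ∑ f : F, c f * g q a f =
      ∑ f : F, c f * ∑ q ∈ S, ∑ a ∈ AA q, g q a f := by
  calc ∑ q ∈ S, ∑ a ∈ AA q, ∑ f : F, c f * g q a f
      = ∑ q ∈ S, ∑ f : F, ∑ a ∈ AA q, c f * g q a f :=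
        Finset.sum_congr rfl fun q _ => Finset.sum_comm
    _ = ∑ f : F, ∑ q ∈ S, ∑ a ∈ AA q, c f * g q a f := Finset.sum_comm
    _ = ∑ f : F, c f * ∑ q ∈ S, ∑ a ∈ AA q, g q a f := by
        simp_rw [Finset.mul_sum]

/-- the first moment for one word -/
private theorem fm_word (κ T ℓ Qm D : ℕ) (A : Finset ℕ)
    (hκ : ∀ q : ℕ, q.Coprime 10 → q.Coprime κ) (hℓ : ℓ ≤ T) (hA : A ⊆ Icc 1 ℓ)
    (S : Finset ℕ) (hS : ∀ q ∈ S, 0 < q ∧ q ≤ Qm ∧ q.Coprime 10)
    (hD : ∀ n : ℕ, 1 ≤ n → n ≤ 80 * 10 ^ (2 * ℓ + 1) → (S.filter (fun q => q ∣ n)).card ≤ D)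
    (f : {t // t ∈ A} → Fin 5 × Fin 4) :
    ∑ q ∈ S, ∑ a ∈ AA q, ∏ i : {t // t ∈ A},
      phK (f i) ((a : ℝ) / q * ((κ * ww 10 T i.1 : ℕ) : ℝ)) ≤
      Qm * (S.card * ∏ i : {t // t ∈ A}, mK (f i) + D) := by
  classical
  let Φ : ℕ → ℝ → ℝ := fun t x => if h : t ∈ A then phK (f ⟨t, h⟩) x else 1
  let b : ℕ → ℕ → ℝ := fun t k => if h : t ∈ A then bK (f ⟨t, h⟩) k else 0
  have hΦe : ∀ t (h : t ∈ A) x, Φ t x = phK (f ⟨t, h⟩) x := fun t h x => dif_pos h
  have hbe : ∀ t (h : t ∈ A) k, b t k = bK (f ⟨t, h⟩) k := fun t h k => dif_pos h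
  have key := T1_word κ T ℓ Qm D A hκ hℓ hA Φ b
    (fun t ht x => by rw [hΦe t ht]; exact phK_nonneg _ _)
    (fun t ht x => by
      rw [hΦe t ht, phK_expand]
      exact Finset.sum_congr rfl fun k _ => by rw [hbe t ht])
    (fun t ht => by
      refine le_trans (le_of_eq ?_) (bK_sum (f ⟨t, ht⟩))
      exact Finset.sum_congr rfl fun k _ => by rw [hbe t ht])
    (fun t ht => by rw [hbe t ht, bK_mid]; exact (mK_pos _).le) S hS hD
  have e1 : ∀ q a : ℕ, ∏ t ∈ A, Φ t ((a : ℝ) / q * ((κ * ww 10 T t : ℕ) : ℝ)) =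
      ∏ i : {t // t ∈ A}, phK (f i) ((a : ℝ) / q * ((κ * ww 10 T i.1 : ℕ) : ℝ)) := by
    intro q a
    rw [← Finset.prod_coe_sort A (fun t => Φ t ((a : ℝ) / q * ((κ * ww 10 T t : ℕ) : ℝ)))]
    exact Finset.prod_congr rfl fun i _ => hΦe i.1 i.2 _
  have e2 : ∏ t ∈ A, b t 80 = ∏ i : {t // t ∈ A}, mK (f i) := by
    rw [← Finset.prod_coe_sort A (fun t => b t 80)]
    exact Finset.prod_congr rfl fun i _ => by rw [hbe i.1 i.2, bK_mid]
  rw [e2] at key
  refine le_trans (le_of_eq ?_) key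
  exact Finset.sum_congr rfl fun q _ => Finset.sum_congr rfl fun a _ => (e1 q a).symm

theorem first_moment : ∃ C : ℝ, 0 < C ∧ ∀ (κ T ℓ Qm D : ℕ) (A : Finset ℕ),
    (∀ q : ℕ, q.Coprime 10 → q.Coprime κ) → ℓ ≤ T → A ⊆ Icc 1 ℓ →
    ∀ S : Finset ℕ, (∀ q ∈ S, 0 < q ∧ q ≤ Qm ∧ q.Coprime 10) →
    (∀ n : ℕ, 1 ≤ n → n ≤ 80 * 10 ^ (2 * ℓ + 1) → (S.filter (fun q => q ∣ n)).card ≤ D) →
    ∑ q ∈ S, ∑ a ∈ AA q, GF κ T A ((a : ℝ) / q) ≤
      C * Real.exp (1 / 10 ^ 5 * A.card) * (Qm * (S.card * kap ^ A.card + D)) := by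
  classical
  obtain ⟨C0, N, w, hC0, hw0, hwδ, hmix⟩ := mix_em mixK (8 / 10 ^ 6) (by norm_num)
  refine ⟨C0 * N + 1, by positivity, ?_⟩
  intro κ T ℓ Qm D A hκ hℓ hA S hS hD
  have hκp : 0 < kap := by unfold kap; norm_num
  set B : ℝ := (Qm : ℝ) * (S.card * kap ^ A.card + D) with hB
  have hB0 : 0 ≤ B := by positivity
  have hcard : Fintype.card {t // t ∈ A} = A.card := Fintype.card_coe A
  -- the weights of one member of the family
  have hR : ∀ l : Fin N, ∑ q ∈ S, ∑ a ∈ AA q,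
      mixK.R (w l) (fun i : {t // t ∈ A} => (a : ℝ) / q * ((κ * ww 10 T i.1 : ℕ) : ℝ)) ≤
      Real.exp (2 / 10 ^ 6 * A.card) * B := by
    intro l
    have e0 : ∀ q a : ℕ, mixK.R (w l)
        (fun i : {t // t ∈ A} => (a : ℝ) / q * ((κ * ww 10 T i.1 : ℕ) : ℝ)) =
        ∑ f : {t // t ∈ A} → Fin 5 × Fin 4, ((∏ i, w l (f i)) * min 1 (∏ i, kap / mK (f i))) *
          ∏ i : {t // t ∈ A}, phK (f i) ((a : ℝ) / q * ((κ * ww 10 T i.1 : ℕ) : ℝ)) := by
      intro q a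
      unfold Mix.R
      refine Finset.sum_congr rfl fun f _ => ?_
      rw [Finset.prod_mul_distrib]
      show (∏ i, w l (f i)) * (∏ i, phK (f i) _) * min 1 (∏ i, kap / mK (f i)) = _
      ring
    calc ∑ q ∈ S, ∑ a ∈ AA q,
        mixK.R (w l) (fun i : {t // t ∈ A} => (a : ℝ) / q * ((κ * ww 10 T i.1 : ℕ) : ℝ))
        = ∑ q ∈ S, ∑ a ∈ AA q, ∑ f : {t // t ∈ A} → Fin 5 × Fin 4,
          ((∏ i, w l (f i)) * min 1 (∏ i, kap / mK (f i))) *
          ∏ i : {t // t ∈ A}, phK (f i) ((a : ℝ) / q * ((κ * ww 10 T i.1 : ℕ) : ℝ)) :=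
          Finset.sum_congr rfl fun q _ => Finset.sum_congr rfl fun a _ => e0 q a
      _ = ∑ f : {t // t ∈ A} → Fin 5 × Fin 4, ((∏ i, w l (f i)) * min 1 (∏ i, kap / mK (f i))) *
          ∑ q ∈ S, ∑ a ∈ AA q, ∏ i : {t // t ∈ A},
            phK (f i) ((a : ℝ) / q * ((κ * ww 10 T i.1 : ℕ) : ℝ)) := by
          exact fm_exch S (fun f : {t // t ∈ A} → Fin 5 × Fin 4 =>
            (∏ i, w l (f i)) * min 1 (∏ i, kap / mK (f i)))
            (fun q a f => ∏ i : {t // t ∈ A},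
              phK (f i) ((a : ℝ) / q * ((κ * ww 10 T i.1 : ℕ) : ℝ)))
      _ ≤ ∑ f : {t // t ∈ A} → Fin 5 × Fin 4, (∏ i, w l (f i)) * B := by
          refine Finset.sum_le_sum fun f _ => ?_
          have hW : 0 ≤ ∏ i, w l (f i) := Finset.prod_nonneg fun i _ => hw0 l _
          have hm0 : 0 < ∏ i : {t // t ∈ A}, mK (f i) := Finset.prod_pos fun i _ => mK_pos _
          have hq0 : 0 ≤ ∏ i : {t // t ∈ A}, kap / mK (f i) :=
            Finset.prod_nonneg fun i _ => div_nonneg hκp.le (mK_pos _).le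
          have hmin0 : 0 ≤ min 1 (∏ i : {t // t ∈ A}, kap / mK (f i)) :=
            le_min zero_le_one hq0
          have hword := fm_word κ T ℓ Qm D A hκ hℓ hA S hS hD f
          rw [mul_assoc]
          refine mul_le_mul_of_nonneg_left ?_ hW
          refine (mul_le_mul_of_nonneg_left hword hmin0).trans ?_
          have h1 : min 1 (∏ i : {t // t ∈ A}, kap / mK (f i)) * ∏ i : {t // t ∈ A}, mK (f i) ≤
              kap ^ A.card := by
            refine (mul_le_mul_of_nonneg_right (min_le_right _ _) hm0.le).trans (le_of_eq ?_)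
            rw [Finset.prod_div_distrib, div_mul_cancel₀ _ hm0.ne', Finset.prod_const,
              Finset.card_univ, hcard]
          have h2 : min 1 (∏ i : {t // t ∈ A}, kap / mK (f i)) * (D : ℝ) ≤ D := by
            have := mul_le_mul_of_nonneg_right
              (min_le_left 1 (∏ i : {t // t ∈ A}, kap / mK (f i))) (Nat.cast_nonneg (α := ℝ) D)
            rwa [one_mul] at this
          rw [hB]
          have h3 : min 1 (∏ i : {t // t ∈ A}, kap / mK (f i)) *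
              ((Qm : ℝ) * (S.card * ∏ i : {t // t ∈ A}, mK (f i) + D)) =
              (Qm : ℝ) * (S.card * (min 1 (∏ i : {t // t ∈ A}, kap / mK (f i)) *
                ∏ i : {t // t ∈ A}, mK (f i)) +
                min 1 (∏ i : {t // t ∈ A}, kap / mK (f i)) * D) := by ring
          rw [h3]
          exact mul_le_mul_of_nonneg_left
            (add_le_add (mul_le_mul_of_nonneg_left h1 (Nat.cast_nonneg _)) h2)
            (Nat.cast_nonneg _)
      _ = (∑ k, w l k) ^ A.card * B := by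
          rw [← Finset.sum_mul]
          congr 1
          have h4 : ∏ _i : {t // t ∈ A}, ∑ k, w l k =
              ∑ f : {t // t ∈ A} → Fin 5 × Fin 4, ∏ i, w l (f i) := by
            rw [Finset.prod_univ_sum, Fintype.piFinset_univ]
          rw [← h4, Finset.prod_const, Finset.card_univ, hcard]
      _ ≤ Real.exp (2 / 10 ^ 6 * A.card) * B := by
          refine mul_le_mul_of_nonneg_right ?_ hB0
          have h5 : ∑ k, w l k ≤ Real.exp (2 / 10 ^ 6) := hwδ l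
          have h6 : 0 ≤ ∑ k, w l k := Finset.sum_nonneg fun k _ => hw0 l k
          calc (∑ k, w l k) ^ A.card ≤ Real.exp (2 / 10 ^ 6) ^ A.card :=
                pow_le_pow_left₀ h6 h5 _
            _ = Real.exp (2 / 10 ^ 6 * A.card) := by
                rw [← Real.exp_nat_mul]
                congr 1
                ring
  have hGF : ∀ q a : ℕ, GF κ T A ((a : ℝ) / q) ≤ C0 * Real.exp (8 / 10 ^ 6 * A.card) *
      ∑ l : Fin N, mixK.R (w l)
        (fun i : {t // t ∈ A} => (a : ℝ) / q * ((κ * ww 10 T i.1 : ℕ) : ℝ)) := by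
    intro q a
    have h1 := hmix {t // t ∈ A}
      (fun i : {t // t ∈ A} => (a : ℝ) / q * ((κ * ww 10 T i.1 : ℕ) : ℝ))
    rw [hcard] at h1
    refine le_trans (le_of_eq ?_) h1
    unfold GF
    rw [← Finset.prod_coe_sort A (fun t => ph ((a : ℝ) / q * ((κ * ww 10 T t : ℕ) : ℝ)))]
  calc ∑ q ∈ S, ∑ a ∈ AA q, GF κ T A ((a : ℝ) / q)
      ≤ ∑ q ∈ S, ∑ a ∈ AA q, C0 * Real.exp (8 / 10 ^ 6 * A.card) *
      ∑ l : Fin N, mixK.R (w l)
        (fun i : {t // t ∈ A} => (a : ℝ) / q * ((κ * ww 10 T i.1 : ℕ) : ℝ)) :=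
        Finset.sum_le_sum fun q _ => Finset.sum_le_sum fun a _ => hGF q a
    _ = C0 * Real.exp (8 / 10 ^ 6 * A.card) * ∑ l : Fin N, ∑ q ∈ S, ∑ a ∈ AA q, mixK.R (w l)
        (fun i : {t // t ∈ A} => (a : ℝ) / q * ((κ * ww 10 T i.1 : ℕ) : ℝ)) := by
        have h8 := fm_exch S (fun _ : Fin N => C0 * Real.exp (8 / 10 ^ 6 * A.card))
          (fun q a l => mixK.R (w l)
            (fun i : {t // t ∈ A} => (a : ℝ) / q * ((κ * ww 10 T i.1 : ℕ) : ℝ)))
        rw [← Finset.mul_sum] at h8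
        rw [← h8]
        refine Finset.sum_congr rfl fun q _ => Finset.sum_congr rfl fun a _ => ?_
        rw [Finset.mul_sum]
    _ ≤ C0 * Real.exp (8 / 10 ^ 6 * A.card) * ∑ l : Fin N, Real.exp (2 / 10 ^ 6 * A.card) * B :=
        mul_le_mul_of_nonneg_left (Finset.sum_le_sum fun l _ => hR l) (by positivity)
    _ = C0 * N * Real.exp (1 / 10 ^ 5 * A.card) * B := by
        rw [Finset.sum_const, Finset.card_univ, Fintype.card_fin, nsmul_eq_mul]
        have h7 : Real.exp (1 / 10 ^ 5 * (A.card : ℝ)) =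
            Real.exp (8 / 10 ^ 6 * A.card) * Real.exp (2 / 10 ^ 6 * A.card) := by
          rw [← Real.exp_add]
          congr 1
          ring
        rw [h7]
        ring
    _ ≤ (C0 * N + 1) * Real.exp (1 / 10 ^ 5 * A.card) * B := by
        refine mul_le_mul_of_nonneg_right ?_ hB0
        exact mul_le_mul_of_nonneg_right (by linarith) (Real.exp_pos _).le

end Pool.Agent.Helper10.EN
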