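import Pool.Agent.Helper10.EN.Sound
import Pool.Agent.Helper10.EN.Data

/-! ENT-A3: the family of kernels. -/

namespace Pool.Agent.Helper10.EN

open Finset Pool.Agent.Helper10 Pool.Agent.Helper10.P5 Pool.Agent.Helper10.P4

/-- the five systems -/
def sysT : Fin 5 → Sys := ![sys0, sys1, sys2, sys3, sys4]

lemma sysT_ok (j : Fin 5) : (sysT j).ok = true := by
  fin_cases j
  · exact sys0_ok
  · exact sys1_ok
  · exact sys2_ok
  · exact sys3_ok
  · exact sys4_ok

/-- the list of the kernel `k` (`k.2 = 3` is the constant kernel) -/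
def lstK (k : Fin 5 × Fin 4) : List ℤ :=
  if k.2 = 0 then (sysT k.1).P1 else if k.2 = 1 then (sysT k.1).P2 else (sysT k.1).P3

/-- the kernels -/
noncomputable def phK (k : Fin 5 × Fin 4) (x : ℝ) : ℝ := if k.2 = 3 then 1 else phiL (lstK k) x

/-- the means -/
noncomputable def mK (k : Fin 5 × Fin 4) : ℝ := if k.2 = 3 then 1 else mu (lstK k)

/-- the Fourier coefficients, shifted by `80` -/
noncomputable def bK (k : Fin 5 × Fin 4) (i : ℕ) : ℝ :=
  if k.2 = 3 then (if i = 80 then 1 else 0) else bco (lstK k) i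

/-- the integer weights -/
def vN (k : Fin 5 × Fin 4) : ℕ :=
  if k.2 = 0 then (sysT k.1).v1 else if k.2 = 1 then (sysT k.1).v2 else
    if k.2 = 2 then (sysT k.1).v3 else (sysT k.1).v0

/-- the weights of the system `j` -/
noncomputable def VK (j : ℕ) (k : Fin 5 × Fin 4) : ℝ :=
  if (k.1 : ℕ) = j then (vN k : ℝ) / 2 ^ 30 else 0

/-- the exponents of the switches -/
noncomputable def thK (j : ℕ) : ℝ :=
  if j = 0 then 2 / 7 else if j = 1 then 3 / 7 else if j = 2 then 4 / 7 else 5 / 6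

lemma lstK_ok (k : Fin 5 × Fin 4) : kerOk (lstK k) = true := by
  have h := sysT_ok k.1
  unfold Sys.ok at h
  simp only [Bool.and_eq_true] at h
  unfold lstK
  split_ifs
  · exact h.1.1.1.1
  · exact h.1.1.1.2
  · exact h.1.1.2

lemma phK_nonneg (k : Fin 5 × Fin 4) (x : ℝ) : 0 ≤ phK k x := by
  unfold phK
  split_ifs
  · norm_num
  · exact phiL_nonneg _ _

lemma mK_pos (k : Fin 5 × Fin 4) : 0 < mK k := by
  unfold mK
  split_ifs
  · norm_num
  · exact mu_pos _ (lstK_ok k)

lemma bK_sum (k : Fin 5 × Fin 4) : ∑ i ∈ range 161, |bK k i| ≤ 1 := by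
  unfold bK
  split_ifs
  · have : ∀ i ∈ range 161, |(if i = 80 then (1 : ℝ) else 0)| = if i = 80 then 1 else 0 := by
      intro i _
      split_ifs <;> simp
    rw [Finset.sum_congr rfl this, Finset.sum_ite_eq', if_pos (by simp)]
  · exact bco_sum _ (lstK_ok k)

lemma bK_mid (k : Fin 5 × Fin 4) : bK k 80 = mK k := by
  unfold bK mK
  by_cases h : k.2 = 3
  · rw [if_pos h, if_pos h, if_pos rfl]
  · rw [if_neg h, if_neg h]
    exact bco_mid _

lemma phK_expand (k : Fin 5 × Fin 4) (x : ℝ) :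
    ((phK k x : ℝ) : ℂ) = ∑ i ∈ range 161, ((bK k i : ℝ) : ℂ) * ee (((i : ℝ) - 80) * x) := by
  unfold phK bK
  split_ifs with h
  · have h1 : ∀ i ∈ range 161, (((if i = 80 then 1 else 0 : ℝ)) : ℂ) * ee (((i : ℝ) - 80) * x) =
        if i = 80 then 1 else 0 := by
      intro i _
      split_ifs with h2
      · rw [h2]
        norm_num
        exact ee_zero
      · simp
    rw [Finset.sum_congr rfl h1, Finset.sum_ite_eq', if_pos (by simp)]
    norm_num
  · exact phiL_expand _ (kerOk_length _ (lstK_ok k)) x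

lemma VK_nonneg (j : ℕ) (k : Fin 5 × Fin 4) : 0 ≤ VK j k := by
  unfold VK
  split_ifs
  · positivity
  · exact le_refl _

lemma sum_VK (j : Fin 5) (F : Fin 5 × Fin 4 → ℝ) :
    ∑ k, VK j k * F k = ((sysT j).v1 : ℝ) / 2 ^ 30 * F (j, 0) + ((sysT j).v2 : ℝ) / 2 ^ 30 * F (j, 1) +
      ((sysT j).v3 : ℝ) / 2 ^ 30 * F (j, 2) + ((sysT j).v0 : ℝ) / 2 ^ 30 * F (j, 3) := by
  rw [Fintype.sum_prod_type]
  rw [Finset.sum_eq_single j]
  · rw [Fin.sum_univ_four]
    unfold VK vN
    simp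
  · intro b _ hb
    apply Finset.sum_eq_zero
    intro i _
    unfold VK
    rw [if_neg (fun h => hb (Fin.ext h)), zero_mul]
  · intro h
    exact absurd (Finset.mem_univ j) h

/-- the majorant inequality -/
theorem maj (j : ℕ) (hj : j ≤ 4) (x : ℝ) : ph x ≤ ∑ k, VK j k * phK k x := by
  have h := sys_sound (sysT ⟨j, by omega⟩) (sysT_ok _) x
  have h2 := sum_VK ⟨j, by omega⟩ (fun k => phK k x)
  simp only at h2
  rw [h2]
  refine h.trans (le_of_eq ?_)
  unfold phK lstK
  simp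
  ring

end Pool.Agent.Helper10.EN
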