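import Mathlib

/-! ENT-B1 (MATHLIB ONLY): the elementary inequality.

Put `w = exp (-(θ s)) * min 1 (exp s)`. For `s ≥ 0` it is `exp (-(θ s))`, for `s < 0` it is `exp ((1 - θ) s)`.
If `|s| ≤ a` then `w ≥ exp (-a)` (for `s ≥ 0`: `θ s ≤ s ≤ a`; for `s < 0`: `(1 - θ) s ≥ s ≥ -a`) and the left hand
side is at most `exp (-a)`. If `s > a` then `exp (l (s - a)) ≥ 1`, if `s < -a` then `exp (-(l (s + a))) ≥ 1`, and the
left hand side is `≤ 0`. The one sided versions are the same: for `θ = 0`, `w = min 1 (exp s) ≥ exp (-a)` as soon as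
`s ≥ -a`; for `θ = 1`, `w = exp (-s) * min 1 (exp s) = min (exp (-s)) 1 ≥ exp (-a)` as soon as `s ≤ a`. -/

namespace Pool.Agent.Helper10.EN

/-- The weight is nonnegative. -/
private lemma w_nonneg (t s : ℝ) : 0 ≤ Real.exp (-t) * min 1 (Real.exp s) :=
  mul_nonneg (Real.exp_pos _).le (le_min zero_le_one (Real.exp_pos _).le)

/-- The weight is at least `exp (-a)` if both exponents are at least `-a`. -/
private lemma w_ge (t s a : ℝ) (h1 : -a ≤ -t) (h2 : -a ≤ -t + s) :
    Real.exp (-a) ≤ Real.exp (-t) * min 1 (Real.exp s) := by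
  rcases le_total 1 (Real.exp s) with h | h
  · rw [min_eq_left h, mul_one]
    exact Real.exp_le_exp.mpr h1
  · rw [min_eq_right h, ← Real.exp_add]
    exact Real.exp_le_exp.mpr h2

lemma key_two (θ s a l : ℝ) (h0 : 0 ≤ θ) (h1 : θ ≤ 1) (ha : 0 ≤ a) (hl : 0 < l) :
    Real.exp (-a) * (1 - Real.exp (l * (s - a)) - Real.exp (-(l * (s + a)))) ≤
      Real.exp (-(θ * s)) * min 1 (Real.exp s) := by
  have hA : 0 < Real.exp (-a) := Real.exp_pos _
  have hX : 0 < Real.exp (l * (s - a)) := Real.exp_pos _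
  have hY : 0 < Real.exp (-(l * (s + a))) := Real.exp_pos _
  by_cases c1 : a < s
  · have hX1 : 1 ≤ Real.exp (l * (s - a)) :=
      Real.one_le_exp (mul_nonneg hl.le (by linarith))
    refine le_trans ?_ (w_nonneg (θ * s) s)
    exact mul_nonpos_of_nonneg_of_nonpos hA.le (by linarith)
  · by_cases c2 : s < -a
    · have hY1 : 1 ≤ Real.exp (-(l * (s + a))) := by
        apply Real.one_le_exp
        nlinarith
      refine le_trans ?_ (w_nonneg (θ * s) s)
      exact mul_nonpos_of_nonneg_of_nonpos hA.le (by linarith)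
    · push Not at c1 c2
      refine le_trans ?_ (w_ge (θ * s) s a ?_ ?_)
      · nlinarith
      · rcases le_total 0 s with h | h <;> nlinarith
      · rcases le_total 0 s with h | h <;> nlinarith

lemma key_zero (s a l : ℝ) (ha : 0 ≤ a) (hl : 0 < l) :
    Real.exp (-a) * (1 - Real.exp (-(l * (s + a)))) ≤ Real.exp (-(0 * s)) * min 1 (Real.exp s) := by
  have hA : 0 < Real.exp (-a) := Real.exp_pos _
  have hY : 0 < Real.exp (-(l * (s + a))) := Real.exp_pos _
  by_cases c2 : s < -a
  · have hY1 : 1 ≤ Real.exp (-(l * (s + a))) := by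
      apply Real.one_le_exp
      nlinarith
    refine le_trans ?_ (w_nonneg (0 * s) s)
    exact mul_nonpos_of_nonneg_of_nonpos hA.le (by linarith)
  · push Not at c2
    refine le_trans ?_ (w_ge (0 * s) s a (by linarith) (by linarith))
    nlinarith

lemma key_one (s a l : ℝ) (ha : 0 ≤ a) (hl : 0 < l) :
    Real.exp (-a) * (1 - Real.exp (l * (s - a))) ≤ Real.exp (-(1 * s)) * min 1 (Real.exp s) := by
  have hA : 0 < Real.exp (-a) := Real.exp_pos _
  have hX : 0 < Real.exp (l * (s - a)) := Real.exp_pos _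
  by_cases c1 : a < s
  · have hX1 : 1 ≤ Real.exp (l * (s - a)) :=
      Real.one_le_exp (mul_nonneg hl.le (by linarith))
    refine le_trans ?_ (w_nonneg (1 * s) s)
    exact mul_nonpos_of_nonneg_of_nonpos hA.le (by linarith)
  · push Not at c1
    refine le_trans ?_ (w_ge (1 * s) s a (by linarith) (by linarith))
    nlinarith

end Pool.Agent.Helper10.EN
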