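import Mathlib

/-! ENT (MATHLIB ONLY): the data of the mixture theorem. -/

namespace Pool.Agent.Helper10.EN

open Finset

/-- kernels `φ` with means `m`, weights `V 0, …, V J`, exponents `θ 0, …, θ (J-1)` of the switches -/
structure Mix (K : Type) [Fintype K] (p : ℝ → ℝ) where
  φ : K → ℝ → ℝ
  m : K → ℝ
  κ : ℝ
  δ : ℝ
  J : ℕ
  V : ℕ → K → ℝ
  θ : ℕ → ℝ
  hp : ∀ x, 0 ≤ p x
  hφ : ∀ k x, 0 ≤ φ k x
  hm : ∀ k, 0 < m k
  hκ : 0 < κ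
  hV : ∀ j k, 0 ≤ V j k
  hθ : ∀ j, 0 ≤ θ j ∧ θ j ≤ 1
  maj : ∀ j ≤ J, ∀ x, p x ≤ ∑ k, V j k * φ k x
  Z0 : ∑ k, V 0 k ≤ Real.exp δ
  ZJ : ∑ k, V J k * (m k / κ) ≤ Real.exp δ
  Zl : ∀ j < J, ∑ k, V j k * (m k / κ) ^ θ j ≤ Real.exp δ
  Zr : ∀ j < J, ∑ k, V (j + 1) k * (m k / κ) ^ θ j ≤ Real.exp δ

variable {K : Type} [Fintype K] {p : ℝ → ℝ}

/-- log likelihood of a kernel -/
noncomputable def Mix.s (M : Mix K p) (k : K) : ℝ := Real.log (M.κ / M.m k)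

/-- the weights at the parameter `t` of the switch `j` -/
noncomputable def Mix.w (M : Mix K p) (j : ℕ) (t : ℝ) (k : K) : ℝ :=
  ((1 - t) * M.V j k + t * M.V (j + 1) k) * (M.m k / M.κ) ^ M.θ j

/-- the weights at the beginning and at the end -/
noncomputable def Mix.wJ (M : Mix K p) (k : K) : ℝ := M.V M.J k * (M.m k / M.κ)

/-- the mixed sum -/
noncomputable def Mix.R {ι : Type} [Fintype ι] [DecidableEq ι] (M : Mix K p) (w : K → ℝ) (x : ι → ℝ) : ℝ :=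
  ∑ f : ι → K, (∏ i, w (f i) * M.φ (f i) (x i)) * min 1 (∏ i, M.κ / M.m (f i))

end Pool.Agent.Helper10.EN
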