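import Pool.Agent.Helper10.P3.Num3b
import Pool.Agent.Helper10.P3.Comb3

/-! Project ENT, sieve part: the upper and lower functions of the linear sieve as statements which hold
for every sifting problem. `UpH a s`: a set with level of distribution `exp lam`, sifted up to
`exp (lam / s)`, keeps at most `(a + o(1)) * X / ((2 / 5) * lam)` elements (up to the remainders);
`LoH a s` is the corresponding lower bound. -/

namespace Pool.Agent.Helper10.EN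

open Finset Filter Pool.Agent.Helper10 Pool.Agent.Helper10.P5 Pool.Agent.Helper10.P4
  Pool.Agent.Helper10.P3

/-- a sifting problem -/
structure SX {ι : Type} (E : Finset ι) (F : ι → ℕ) (X : ℝ) (r : ℕ → ℝ) : Prop where
  X0 : 0 ≤ X
  r0 : ∀ q, 0 ≤ r q
  hr : ∀ q : ℕ, 0 < q → q.Coprime 10 → |((E.filter (fun e => q ∣ F e)).card : ℝ) - X / q| ≤ r q

/-- weighted sum of the remainders -/
noncomputable def errK (k : ℕ) (r : ℕ → ℝ) (Q : ℕ) : ℝ :=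
  ∑ q ∈ (Icc 1 Q).filter (fun q => q.Coprime 10), ((tau q : ℝ)) ^ k * r q

/-- upper function of the sieve -/
def UpH (a s : ℝ) : Prop := ∀ ε : ℝ, 0 < ε → ∃ (k : ℕ) (Λ : ℝ), ∀ lam : ℝ, Λ ≤ lam →
  ∀ (ι : Type) (E : Finset ι) (F : ι → ℕ) (X : ℝ) (r : ℕ → ℝ), SX E F X r →
    ((sift E F (zf (lam / s))).card : ℝ) ≤
      X / (2 / 5 * lam) * (a + ε) + lam ^ k * errK k r ⌊2 * Real.exp lam⌋₊

/-- lower function of the sieve -/
def LoH (a s : ℝ) : Prop := ∀ ε : ℝ, 0 < ε → ∃ (k : ℕ) (Λ : ℝ), ∀ lam : ℝ, Λ ≤ lam →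
  ∀ (ι : Type) (E : Finset ι) (F : ι → ℕ) (X : ℝ) (r : ℕ → ℝ), SX E F X r →
    X / (2 / 5 * lam) * (a - ε) - lam ^ k * errK k r ⌊2 * Real.exp lam⌋₊ ≤
      ((sift E F (zf (lam / s))).card : ℝ)

lemma errTot_eq (r : ℕ → ℝ) (Q : ℕ) : errTot r Q = errK 3 r Q := rfl

lemma errK_nonneg (k : ℕ) (r : ℕ → ℝ) (hr : ∀ q, 0 ≤ r q) (Q : ℕ) : 0 ≤ errK k r Q := by
  unfold errK
  apply Finset.sum_nonneg
  intro q _
  have := hr q
  positivity

lemma errK_mono (k k' : ℕ) (h : k ≤ k') (r : ℕ → ℝ) (hr : ∀ q, 0 ≤ r q) (Q Q' : ℕ) (hQ : Q ≤ Q') :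
    errK k r Q ≤ errK k' r Q' := by
  unfold errK
  have h1 : ∑ q ∈ (Icc 1 Q).filter (fun q => q.Coprime 10), ((tau q : ℝ)) ^ k * r q ≤
      ∑ q ∈ (Icc 1 Q).filter (fun q => q.Coprime 10), ((tau q : ℝ)) ^ k' * r q := by
    apply Finset.sum_le_sum
    intro q hq
    rw [Finset.mem_filter, Finset.mem_Icc] at hq
    apply mul_le_mul_of_nonneg_right _ (hr q)
    have h2 : (1 : ℝ) ≤ tau q := by exact_mod_cast tau_pos q (by omega)
    exact pow_le_pow_right₀ h2 h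
  refine h1.trans ?_
  apply Finset.sum_le_sum_of_subset_of_nonneg
  · intro q hq
    rw [Finset.mem_filter, Finset.mem_Icc] at hq ⊢
    exact ⟨⟨hq.1.1, by omega⟩, hq.2⟩
  · intro q _ _
    have := hr q
    positivity

/-- comparison of the error terms -/
lemma err_le (k k' : ℕ) (h : k ≤ k') (lam : ℝ) (hl : 1 ≤ lam) (r : ℕ → ℝ) (hr : ∀ q, 0 ≤ r q)
    (Q Q' : ℕ) (hQ : Q ≤ Q') : lam ^ k * errK k r Q ≤ lam ^ k' * errK k' r Q' := by
  apply mul_le_mul (pow_le_pow_right₀ hl h) (errK_mono k k' h r hr Q Q' hQ) (errK_nonneg k r hr Q)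
  positivity

lemma sift_sub {ι : Type} (E : Finset ι) (F : ι → ℕ) (z z' : ℕ) (h : z ≤ z') :
    sift E F z' ⊆ sift E F z := by
  intro e he
  unfold sift at he ⊢
  rw [Finset.mem_filter] at he ⊢
  refine ⟨he.1, fun p hp => he.2 p ?_⟩
  rw [mem_PP] at hp ⊢
  exact ⟨by omega, hp.2⟩

lemma zf_mono (x y : ℝ) (h : x ≤ y) : zf x ≤ zf y := by
  unfold zf
  have := Nat.floor_le_floor (Real.exp_le_exp.mpr h)
  omega

lemma UpH_weaken (a a' s : ℝ) (h : a ≤ a') (hU : UpH a s) : UpH a' s := by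
  intro ε hε
  obtain ⟨k, Λ, hk⟩ := hU ε hε
  refine ⟨k, max Λ 1, fun lam hlam ι E F X r hSX => ?_⟩
  have h1 := hk lam (le_trans (le_max_left _ _) hlam) ι E F X r hSX
  have h2 : 1 ≤ lam := le_trans (le_max_right _ _) hlam
  have h3 : 0 ≤ X / (2 / 5 * lam) := div_nonneg hSX.X0 (by positivity)
  have h4 := mul_le_mul_of_nonneg_left (show a + ε ≤ a' + ε by linarith) h3
  linarith

lemma LoH_weaken (a a' s : ℝ) (h : a' ≤ a) (hU : LoH a s) : LoH a' s := by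
  intro ε hε
  obtain ⟨k, Λ, hk⟩ := hU ε hε
  refine ⟨k, max Λ 1, fun lam hlam ι E F X r hSX => ?_⟩
  have h1 := hk lam (le_trans (le_max_left _ _) hlam) ι E F X r hSX
  have h2 : 1 ≤ lam := le_trans (le_max_right _ _) hlam
  have h3 : 0 ≤ X / (2 / 5 * lam) := div_nonneg hSX.X0 (by positivity)
  have h4 := mul_le_mul_of_nonneg_left (show a' - ε ≤ a - ε by linarith) h3
  linarith

lemma UpH_mono (a s s' : ℝ) (hs : 0 < s') (h : s' ≤ s) (hU : UpH a s) : UpH a s' := by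
  intro ε hε
  obtain ⟨k, Λ, hk⟩ := hU ε hε
  refine ⟨k, max Λ 1, fun lam hlam ι E F X r hSX => ?_⟩
  have h1 := hk lam (le_trans (le_max_left _ _) hlam) ι E F X r hSX
  have h2 : 1 ≤ lam := le_trans (le_max_right _ _) hlam
  refine le_trans ?_ h1
  have h3 : lam / s ≤ lam / s' := div_le_div_of_nonneg_left (by linarith) hs h
  exact_mod_cast Finset.card_le_card (sift_sub E F _ _ (zf_mono _ _ h3))

lemma LoH_mono (a s s' : ℝ) (hs : 0 < s) (h : s ≤ s') (hL : LoH a s) : LoH a s' := by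
  intro ε hε
  obtain ⟨k, Λ, hk⟩ := hL ε hε
  refine ⟨k, max Λ 1, fun lam hlam ι E F X r hSX => ?_⟩
  have h1 := hk lam (le_trans (le_max_left _ _) hlam) ι E F X r hSX
  have h2 : 1 ≤ lam := le_trans (le_max_right _ _) hlam
  refine le_trans h1 ?_
  have h3 : lam / s' ≤ lam / s := div_le_div_of_nonneg_left (by linarith) hs h
  exact_mod_cast Finset.card_le_card (sift_sub E F _ _ (zf_mono _ _ h3))

/-- the trivial lower bound -/
lemma LoH_zero (a s : ℝ) (ha : a ≤ 0) : LoH a s := by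
  intro ε hε
  refine ⟨0, 1, fun lam hlam ι E F X r hSX => ?_⟩
  have h3 : 0 ≤ X / (2 / 5 * lam) := div_nonneg hSX.X0 (by positivity)
  have h4 : X / (2 / 5 * lam) * (a - ε) ≤ 0 := mul_nonpos_of_nonneg_of_nonpos h3 (by linarith)
  have h5 : 0 ≤ lam ^ 0 * errK 0 r ⌊2 * Real.exp lam⌋₊ := by
    rw [pow_zero, one_mul]
    exact errK_nonneg 0 r hSX.r0 _
  have h6 : (0 : ℝ) ≤ ((sift E F (zf (lam / s))).card : ℝ) := Nat.cast_nonneg _
  linarith

/-- the condition with a larger power and a larger threshold -/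
lemma UpH_iff (a s : ℝ) (hU : UpH a s) (ε : ℝ) (hε : 0 < ε) : ∃ (k : ℕ) (Λ : ℝ), 1 ≤ Λ ∧
    ∀ lam : ℝ, Λ ≤ lam →
    ∀ (ι : Type) (E : Finset ι) (F : ι → ℕ) (X : ℝ) (r : ℕ → ℝ), SX E F X r →
      ∀ k' : ℕ, k ≤ k' → ∀ Q : ℕ, ⌊2 * Real.exp lam⌋₊ ≤ Q →
    ((sift E F (zf (lam / s))).card : ℝ) ≤ X / (2 / 5 * lam) * (a + ε) + lam ^ k' * errK k' r Q := by
  obtain ⟨k, Λ, hk⟩ := hU ε hε
  refine ⟨k, max Λ 1, le_max_right _ _, fun lam hlam ι E F X r hSX k' hk' Q hQ => ?_⟩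
  have h1 := hk lam (le_trans (le_max_left _ _) hlam) ι E F X r hSX
  have h2 : 1 ≤ lam := le_trans (le_max_right _ _) hlam
  have h3 := err_le k k' hk' lam h2 r hSX.r0 _ _ hQ
  linarith

lemma LoH_iff (a s : ℝ) (hL : LoH a s) (ε : ℝ) (hε : 0 < ε) : ∃ (k : ℕ) (Λ : ℝ), 1 ≤ Λ ∧
    ∀ lam : ℝ, Λ ≤ lam →
    ∀ (ι : Type) (E : Finset ι) (F : ι → ℕ) (X : ℝ) (r : ℕ → ℝ), SX E F X r →
      ∀ k' : ℕ, k ≤ k' → ∀ Q : ℕ, ⌊2 * Real.exp lam⌋₊ ≤ Q →
    X / (2 / 5 * lam) * (a - ε) - lam ^ k' * errK k' r Q ≤ ((sift E F (zf (lam / s))).card : ℝ) := by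
  obtain ⟨k, Λ, hk⟩ := hL ε hε
  refine ⟨k, max Λ 1, le_max_right _ _, fun lam hlam ι E F X r hSX k' hk' Q hQ => ?_⟩
  have h1 := hk lam (le_trans (le_max_left _ _) hlam) ι E F X r hSX
  have h2 : 1 ≤ lam := le_trans (le_max_right _ _) hlam
  have h3 := err_le k k' hk' lam h2 r hSX.r0 _ _ hQ
  linarith

end Pool.Agent.Helper10.EN
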