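import Pool.Agent.Helper10.EN.TabD

/-! ENT: kernel checks of the tables. -/

namespace Pool.Agent.Helper10.EN.TB

open Pool.Agent.Helper10.P3.Num3

/-- the scale -/
def SC : ℕ := 40000000

/-- unpacking -/
def rd (B m : ℕ) : ℕ := B / 2 ^ (28 * m) % 2 ^ 28

/-- the first upper table -/
def p0 (k : ℕ) : ℕ := if k ≤ 250 then 2 * SC else k * SC * SS / (125 * Ln (2 * k)) + 1

/-- upper table -/
def pn (B k : ℕ) : ℕ := if k ≤ 250 then 2 * SC else rd B (k - 250)

/-- lower table -/
def qn (B k : ℕ) : ℕ := if k ≤ 250 then 0 else rd B (k - 250)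

/-- all values of a Boolean function on a dyadic interval -/
def ball (f : ℕ → Bool) : ℕ → ℕ → Bool
  | 0, a => f a
  | d + 1, a => ball f d a && ball f d (a + 2 ^ d)

lemma ball_spec (f : ℕ → Bool) (d : ℕ) : ∀ a : ℕ, ball f d a = true →
    ∀ i < 2 ^ d, f (a + i) = true := by
  induction d with
  | zero =>
    intro a h i hi
    have : i = 0 := by simpa using hi
    rw [this, Nat.add_zero]
    exact h
  | succ d ih =>
    intro a h i hi
    rw [ball, Bool.and_eq_true] at h
    rcases Nat.lt_or_ge i (2 ^ d) with h1 | h1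
    · exact ih a h.1 i h1
    · have h2 := ih (a + 2 ^ d) h.2 (i - 2 ^ d) (by rw [pow_succ] at hi; omega)
      rwa [show a + 2 ^ d + (i - 2 ^ d) = a + i by omega] at h2

/-- check of a lower table -/
def cQ (P : ℕ → ℕ) (B k : ℕ) : Bool :=
  decide (k ≤ 250) || (decide (1325 ≤ k) || (decide (qn B k = 0) ||
    decide (qn B k * (2 * (k - 125) * (k + 1)) + P (k + 1 - 125) * (2 * k + 1) ≤
      qn B (k + 1) * (2 * (k - 125) * (k + 1)))))

/-- check of an upper table -/
def cP (P Q : ℕ → ℕ) (B k : ℕ) : Bool :=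
  decide (k ≤ 250) || (decide (1200 < k) || (decide (P k ≤ pn B k) || (decide (k < 1200) &&
    decide (pn B (k + 1) * ((k - 125) * (2 * k + 1)) ≤
      pn B k * ((k - 125) * (2 * k + 1)) + Q (k - 125) * (2 * k)))))

theorem okB1 : ball (cQ p0 B1) 11 0 = true := by decide +kernel
theorem okC1 : ball (cP p0 (qn B1) C1) 11 0 = true := by decide +kernel
theorem okB2 : ball (cQ (pn C1) B2) 11 0 = true := by decide +kernel
theorem okC2 : ball (cP (pn C1) (qn B2) C2) 11 0 = true := by decide +kernel
theorem okB3 : ball (cQ (pn C2) B3) 11 0 = true := by decide +kernel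
theorem okC3 : ball (cP (pn C2) (qn B3) C3) 11 0 = true := by decide +kernel
theorem okB4 : ball (cQ (pn C3) B4) 11 0 = true := by decide +kernel
theorem okC4 : ball (cP (pn C3) (qn B4) C4) 11 0 = true := by decide +kernel
theorem okB5 : ball (cQ (pn C4) B5) 11 0 = true := by decide +kernel

theorem b1 : qn B1 1325 * 5000 ≤ 29721 * SC := by decide +kernel
theorem b2 : qn B2 1325 * 5000 ≤ 29721 * SC := by decide +kernel
theorem b3 : qn B3 1325 * 5000 ≤ 29721 * SC := by decide +kernel
theorem b4 : qn B4 1325 * 5000 ≤ 29721 * SC := by decide +kernel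
theorem b5 : qn B5 1325 * 5000 ≤ 29721 * SC := by decide +kernel

theorem p0_ok : ball (fun k => decide (k ≤ 250) || (decide (1200 < k) ||
    decide (0 < Ln (2 * k)))) 11 0 = true := by decide +kernel

end Pool.Agent.Helper10.EN.TB
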