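import Pool.Agent.Helper10.EN.S8c
import Pool.Agent.Helper10.EN.TabC

/-! ENT-S8d: the numerical value of the lower function at `53 / 5`. -/

namespace Pool.Agent.Helper10.EN

open Finset Filter Pool.Agent.Helper10 Pool.Agent.Helper10.P5 Pool.Agent.Helper10.P4
  Pool.Agent.Helper10.P3 Pool.Agent.Helper10.P3.Num3 TB

/-- packed table of the growth of the smooth sums from `140 / 50` to `240 / 50` -/
def B8 : ℕ := 0x407507a5b0406e5f3620406759bfc0405ff266e040582410b0404fe9602040473cb300403e181ec04034756cf0402a4e17f0401f9b4760401455cc104008761c603ffbf44fe03feec81b403fe0e8cbb03fd24d42403fc2ebef103fb2bacc203fa1af58303f8fbe91003f7cdcedc03f68fe58e03f541629f03f3e171ed03f26f355203f0e9c42c03ef502aea03eda16a8a03ebdc781a03ea003c2d03e80b924c03e5fd485f03e3d41e1103e18ec42d03df2bdbf003dca9f65603da07935d03d743214003d45afba703d14d6acf03ce18a20703cababf9f03c731cc3b03c37bba1b03bf96646103bb7f8e4d03b734e27503b2b3f1f103adfa338503a90502be03a3dc78ba039e74b3470398cac8550392dbaf5e038ca4406003862132c7037f4f1c5203782a6fec0370af7c780368da6b8f0360a74035035811d582034f15dd370345aede4a033bd8336203318d09410326c85d1f031b84faf4030fbd7bad03036c435102f68b7f1102e915234102db02e93c02cc4e4d3202bcf08bdb02ace2a00f029c1d4048028a98dc0102784d98fb026533505f0251418bc2023c6f82000226b413f6021005c91101f85acbb601dfa8e57901c5e57b2901ab0588a7018efd9c8b0171c1d38a01534557c401337b862401125773c200efcbebce00cbcb6d7000a6482993007f3400980056807ff4002c1edfb80000000000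

/-- unpacking -/
def t8 (k : ℕ) : ℕ := B8 / 2 ^ (40 * (k - 140)) % 2 ^ 40

/-- check of the table -/
def c8 (k : ℕ) : Bool :=
  decide (k < 140) || (decide (240 ≤ k) || (decide (t8 k ≤ t8 (k + 1)) &&
    (if k < 190 then decide (t8 k * (k - 1) + Un (10 * k) ≤ t8 (k + 1) * (k - 1) + Ln (10 * (k - 50)))
      else decide (t8 k * (k - 1) + t8 k ≤ t8 (k + 1) * (k - 1) + t8 (k - 50)))))

theorem ok8 : ball c8 8 0 = true := by decide +kernel

lemma c8_facts (k : ℕ) (h1 : 140 ≤ k) (h2 : k < 240) : t8 k ≤ t8 (k + 1) ∧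
    (k < 190 → t8 k * (k - 1) + Un (10 * k) ≤ t8 (k + 1) * (k - 1) + Ln (10 * (k - 50))) ∧
    (190 ≤ k → t8 k * (k - 1) + t8 k ≤ t8 (k + 1) * (k - 1) + t8 (k - 50)) := by
  have h := ball_spec c8 8 0 ok8 k (by omega)
  rw [Nat.zero_add] at h
  unfold c8 at h
  rw [Bool.or_eq_true, Bool.or_eq_true, Bool.and_eq_true] at h
  simp only [decide_eq_true_eq] at h
  rcases h with h | h | h
  · omega
  · omega
  · refine ⟨h.1, fun h3 => ?_, fun h3 => ?_⟩
    · have := h.2
      rw [if_pos h3, decide_eq_true_eq] at this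
      exact this
    · have := h.2
      rw [if_neg (by omega), decide_eq_true_eq] at this
      exact this

attribute [irreducible] t8

lemma t8_mono (i k : ℕ) (h1 : 140 ≤ i) (h2 : i ≤ k) (h3 : k ≤ 240) : t8 i ≤ t8 k := by
  induction k, h2 using Nat.le_induction with
  | base => exact le_refl _
  | succ k hik ih => exact (ih (by omega)).trans (c8_facts k (by omega) (by omega)).1

lemma SS0 : (0 : ℝ) < SS := SS_pos

/-- one cell -/
lemma dif_cell (k : ℕ) (h1 : 140 ≤ k) (h2 : k < 240)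
    (hprev : 190 ≤ k → DifP (((k - 50 : ℕ) : ℝ) / 50) ((k : ℝ) / 50)
      (((t8 k : ℝ) - t8 (k - 50)) / SS)) :
    DifP ((k : ℝ) / 50) (((k + 1 : ℕ) : ℝ) / 50) (((t8 (k + 1) : ℝ) - t8 k) / SS) := by
  obtain ⟨hm, hA, hB⟩ := c8_facts k h1 h2
  have hS := SS0
  have hkR : (140 : ℝ) ≤ k := by exact_mod_cast h1
  have hk1 : ((k - 1 : ℕ) : ℝ) = (k : ℝ) - 1 := by
    rw [Nat.cast_sub (by omega)]
    norm_num
  have hk50 : ((k - 50 : ℕ) : ℝ) / 50 = (k : ℝ) / 50 - 1 := by
    rw [Nat.cast_sub (by omega)]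
    push_cast
    ring
  -- the bound over the interval of length one
  obtain ⟨D, hD0, hDif, hDle⟩ : ∃ D : ℝ, 0 ≤ D ∧ DifP ((k : ℝ) / 50 - 1) ((k : ℝ) / 50) (D / SS) ∧
      D ≤ ((t8 (k + 1) : ℝ) - t8 k) * ((k : ℝ) - 1) := by
    by_cases h3 : k < 190
    · obtain ⟨hL, -⟩ := table3 (10 * (k - 50)) (by omega)
      obtain ⟨-, hU⟩ := table3 (10 * k) (by omega)
      have h4 := dif_of_tab 500 (10 * k) (10 * (k - 50)) _ _ hU hL
      have e1 : ((10 * (k - 50) : ℕ) : ℝ) / (500 : ℕ) = (k : ℝ) / 50 - 1 := by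
        rw [← hk50]
        push_cast
        ring
      have e2 : ((10 * k : ℕ) : ℝ) / (500 : ℕ) = (k : ℝ) / 50 := by
        push_cast
        ring
      have e3 : Ur (10 * k) - Lr (10 * (k - 50)) = ((Un (10 * k) : ℝ) - Ln (10 * (k - 50))) / SS := by
        unfold Ur Lr
        ring
      rw [e1, e2, e3] at h4
      have h5 := hA h3
      have h6 : (t8 k : ℝ) * ((k : ℝ) - 1) + Un (10 * k) ≤
          t8 (k + 1) * ((k : ℝ) - 1) + Ln (10 * (k - 50)) := by
        rw [← hk1]
        exact_mod_cast h5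
      refine ⟨max 0 ((Un (10 * k) : ℝ) - Ln (10 * (k - 50))), le_max_left _ _,
        dif_mono _ _ _ _ (div_le_div_of_nonneg_right (le_max_right _ _) hS.le) h4, ?_⟩
      apply max_le
      · apply mul_nonneg _ (by linarith)
        have : (t8 k : ℝ) ≤ t8 (k + 1) := by exact_mod_cast hm
        linarith
      · linarith
    · have h4 := hprev (by omega)
      rw [hk50] at h4
      have h5 := hB (by omega)
      have h6 : (t8 k : ℝ) * ((k : ℝ) - 1) + t8 k ≤ t8 (k + 1) * ((k : ℝ) - 1) + t8 (k - 50) := by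
        rw [← hk1]
        exact_mod_cast h5
      refine ⟨(t8 k : ℝ) - t8 (k - 50), ?_, h4, by linarith⟩
      have : (t8 (k - 50) : ℝ) ≤ t8 k := by exact_mod_cast t8_mono (k - 50) k (by omega) (by omega) (by omega)
      linarith
  have h7 := dif_slope ((k : ℝ) / 50) (((k + 1 : ℕ) : ℝ) / 50) (D / SS) (by linarith) (by
    push_cast
    linarith) (by
    push_cast
    linarith) (by positivity) hDif
  refine dif_mono _ _ _ _ ?_ h7
  have e4 : D / SS * (((k + 1 : ℕ) : ℝ) / 50 - (k : ℝ) / 50) /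
      (2 * ((k : ℝ) / 50) - ((k + 1 : ℕ) : ℝ) / 50) = D / SS / ((k : ℝ) - 1) := by
    have h8 : (k : ℝ) - 1 ≠ 0 := by linarith
    have h9 : 2 * ((k : ℝ) / 50) - ((k + 1 : ℕ) : ℝ) / 50 = ((k : ℝ) - 1) / 50 := by
      push_cast
      ring
    have h10 : ((k + 1 : ℕ) : ℝ) / 50 - (k : ℝ) / 50 = 1 / 50 := by
      push_cast
      ring
    rw [h9, h10]
    field_simp
  rw [e4, div_div, div_le_div_iff₀ (by
    have : 0 < (k : ℝ) - 1 := by linarith
    positivity) hS]
  have := mul_le_mul_of_nonneg_right hDle hS.le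
  calc D * (SS : ℝ) ≤ ((t8 (k + 1) : ℝ) - t8 k) * ((k : ℝ) - 1) * SS := this
    _ = _ := by ring

/-- the growth of the smooth sums -/
lemma dif_all (k : ℕ) (h1 : 140 ≤ k) (h2 : k ≤ 240) : ∀ i : ℕ, 140 ≤ i → i < k →
    DifP ((i : ℝ) / 50) ((k : ℝ) / 50) (((t8 k : ℝ) - t8 i) / SS) := by
  induction k, h1 using Nat.le_induction with
  | base => intro i hi hik; omega
  | succ k hk ih =>
    intro i hi hik
    have ih' := ih (by omega)
    have hc := dif_cell k hk (by omega) (fun h => ih' (k - 50) (by omega) (by omega))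
    rcases Nat.lt_succ_iff_lt_or_eq.mp hik with h | h
    · have h3 := dif_add _ _ _ _ _ (by positivity) (ih' i hi h) hc
      have e : ((t8 k : ℝ) - t8 i) / SS + ((t8 (k + 1) : ℝ) - t8 k) / SS =
          ((t8 (k + 1) : ℝ) - t8 i) / SS := by ring
      rwa [e] at h3
    · rw [h]
      exact hc

/-- the terms of the sum over the cells, rounded up -/
def u8 (j : ℕ) : ℕ := if j = 0 ∨ 50 ≤ j then 0 else
  (t8 240 - t8 (239 - j)) * (2 * j + 1) * 1000 / (2 * j * (j + 1)) + 1

/-- sum over an initial interval -/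
def s8 : ℕ → ℕ
  | 0 => 0
  | n + 1 => s8 n + u8 n

lemma s8_val : s8 50 ≤ 813921620000 := by decide +kernel

lemma s8_succ (n : ℕ) : (s8 (n + 1) : ℝ) = s8 n + u8 n := by
  have : s8 (n + 1) = s8 n + u8 n := rfl
  rw [this]
  push_cast
  ring

lemma u8_eq (n : ℕ) (h1 : 1 ≤ n) (h2 : n < 50) :
    u8 n = (t8 240 - t8 (239 - n)) * (2 * n + 1) * 1000 / (2 * n * (n + 1)) + 1 := by
  unfold u8
  rw [if_neg (by omega)]

attribute [irreducible] u8 s8

lemma log_le (j : ℕ) (hj : 1 ≤ j) :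
    Real.log (((j : ℝ) + 1) / j) ≤ (2 * j + 1) / (2 * j * (j + 1)) := by
  have hj0 : (0 : ℝ) < j := by exact_mod_cast hj
  have hx : 0 < ((j : ℝ) + 1) / j := by positivity
  have hlog : 0 ≤ Real.log (((j : ℝ) + 1) / j) := by
    apply Real.log_nonneg
    rw [le_div_iff₀ hj0]
    linarith
  have h1 := Real.self_le_sinh_iff.mpr hlog
  rw [Real.sinh_log hx] at h1
  refine h1.trans (le_of_eq ?_)
  field_simp
  ring

lemma s8_sum (n : ℕ) (hn1 : 1 ≤ n) (hn : n ≤ 50) :
    ∑ j ∈ Ico 1 n, ((t8 240 : ℝ) - t8 (239 - j)) / SS * Real.log (((j : ℝ) + 1) / j) ≤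
      (s8 n : ℝ) / (1000 * SS) := by
  have hS := SS0
  induction n, hn1 using Nat.le_induction with
  | base =>
    rw [Finset.Ico_self, Finset.sum_empty]
    positivity
  | succ n h ih =>
    rw [Finset.sum_Ico_succ_top h]
    have ih' := ih (by omega)
    have hm : t8 (239 - n) ≤ t8 240 := t8_mono _ _ (by omega) (by omega) (le_refl _)
    obtain ⟨A, hA⟩ : ∃ A : ℕ, A = t8 240 - t8 (239 - n) := ⟨_, rfl⟩
    have hAR : ((t8 240 : ℝ) - t8 (239 - n)) = A := by
      rw [hA, Nat.cast_sub hm]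
    have hn0 : (0 : ℝ) < n := by exact_mod_cast h
    have h1 : ((t8 240 : ℝ) - t8 (239 - n)) / SS * Real.log (((n : ℝ) + 1) / n) ≤
        (u8 n : ℝ) / (1000 * SS) := by
      have h2 := log_le n h
      rw [hAR, u8_eq n h (by omega), ← hA]
      have h3 : (A : ℝ) / SS * Real.log (((n : ℝ) + 1) / n) ≤
          (A : ℝ) / SS * ((2 * n + 1) / (2 * n * (n + 1))) :=
        mul_le_mul_of_nonneg_left h2 (by positivity)
      refine h3.trans ?_
      obtain ⟨B, hB⟩ : ∃ B : ℕ, B = A * (2 * n + 1) * 1000 / (2 * n * (n + 1)) + 1 := ⟨_, rfl⟩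
      have h4 : A * (2 * n + 1) * 1000 ≤ 2 * n * (n + 1) * B := by
        rw [hB]
        exact (Nat.lt_mul_div_succ _ (by positivity)).le
      have h5 : (A : ℝ) * (2 * n + 1) * 1000 ≤ 2 * n * (n + 1) * B := by exact_mod_cast h4
      rw [← hB, div_mul_div_comm, div_le_div_iff₀ (by positivity) (by positivity)]
      calc (A : ℝ) * (2 * n + 1) * (1000 * SS) = (A * (2 * n + 1) * 1000) * SS := by ring
        _ ≤ (2 * n * (n + 1) * B) * SS := mul_le_mul_of_nonneg_right h5 hS.le
        _ = _ := by ring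
    rw [s8_succ, add_div (s8 n : ℝ)]
    exact add_le_add ih' h1

lemma t240 : t8 240 = 17302583899 := by decide +kernel
lemma t189 : t8 189 = 17302583899 - 1668546977 := by decide +kernel
lemma Un2400 : Un 2400 = 890801048266 := by decide +kernel
lemma Ln2400 : Ln 2400 = 890052213811 := by decide +kernel

/-- **The lower function at `53 / 5`.** -/
theorem baseLo : LoH (29721 / 5000) (53 / 5) := by
  have hS := SS0
  have hSv : (SS : ℝ) = 500000000000 := by
    unfold SS
    norm_num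
  obtain ⟨hL, hU⟩ := table3 2400 (le_refl _)
  have hUv : Ur 2400 = 890801048266 / 500000000000 := by
    unfold Ur
    rw [Un2400, hSv]
    norm_num
  have hLv : Lr 2400 = 890052213811 / 500000000000 := by
    unfold Lr
    rw [Ln2400, hSv]
    norm_num
  rw [hUv] at hU
  rw [hLv] at hL
  have ht240 : (t8 240 : ℝ) = 17302583899 := by
    rw [t240]
    norm_num
  have ht189 : (t8 189 : ℝ) = 15634036922 := by
    rw [t189]
    norm_num
  -- slope
  have hdif := dif_all 240 (by norm_num) (le_refl _)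
  have h189 := hdif 189 (by norm_num) (by norm_num)
  rw [ht240, ht189, hSv] at h189
  have hsl := sl_of_dif (239 / 50) (24 / 5) ((17302583899 - 15634036922) / 500000000000)
    (by norm_num) (by norm_num) (by
      have e1 : (239 : ℝ) / 50 - 1 = ((189 : ℕ) : ℝ) / 50 := by norm_num
      have e2 : (24 : ℝ) / 5 = ((240 : ℕ) : ℝ) / 50 := by norm_num
      rw [e1, e2]
      exact h189)
  obtain ⟨D, hDdef⟩ : ∃ D : ℕ → ℝ, D = fun j => if j < 50 then ((t8 240 : ℝ) - t8 (239 - j)) / SS else 0 :=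
    ⟨_, rfl⟩
  have hD0 : ∀ j, 0 ≤ D j := by
    intro j
    rw [hDdef]
    simp only
    split_ifs with h
    · apply div_nonneg _ hS.le
      have : (t8 (239 - j) : ℝ) ≤ t8 240 := by
        exact_mod_cast t8_mono (239 - j) 240 (by omega) (by omega) (le_refl _)
      linarith
    · exact le_refl 0
  obtain ⟨d, hd⟩ : ∃ d : ℝ, d = 5 / 53 * ((17302583899 - 15634036922) / 500000000000 / (239 / 50) /
      ((50 : ℕ) : ℝ) + ∑ j ∈ Ico 1 50, D j * Real.log (((j : ℝ) + 1) / j)) := ⟨_, rfl⟩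
  have hsum : ∑ j ∈ Ico 1 50, D j * Real.log (((j : ℝ) + 1) / j) ≤ 0.00162784324 := by
    have h1 := s8_sum 50 (by norm_num) (le_refl _)
    have h2 : ∑ j ∈ Ico 1 50, D j * Real.log (((j : ℝ) + 1) / j) =
        ∑ j ∈ Ico 1 50, ((t8 240 : ℝ) - t8 (239 - j)) / SS * Real.log (((j : ℝ) + 1) / j) := by
      apply Finset.sum_congr rfl
      intro j hj
      rw [Finset.mem_Ico] at hj
      rw [hDdef]
      simp only
      rw [if_pos hj.2]
    rw [h2]
    refine h1.trans ?_
    have h3 : (s8 50 : ℝ) ≤ 813921620000 := by exact_mod_cast s8_val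
    rw [hSv, div_le_iff₀ (by norm_num)]
    linarith
  have hdle : d ≤ 0.00015488736 := by
    rw [hd]
    push_cast
    linarith
  have h := lowSl 500 2400 _ _ hU hL (by norm_num) (5 / 53) (24 / 53) (by norm_num) (by norm_num)
    (by norm_num) (by norm_num) 50 (by norm_num)
    ((17302583899 - 15634036922) / 500000000000 / (239 / 50)) (by norm_num) (by
      have e1 : (24 : ℝ) / 53 / (5 / 53) - 1 / ((50 : ℕ) : ℝ) = 239 / 50 := by norm_num
      have e2 : (24 : ℝ) / 53 / (5 / 53) = 24 / 5 := by norm_num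
      rw [e1, e2]
      exact hsl) D (by
      intro j hj
      rw [Finset.mem_Ico] at hj
      have h1 := hdif (239 - j) (by omega) (by omega)
      have e1 : (24 : ℝ) / 53 / (5 / 53) = ((240 : ℕ) : ℝ) / 50 := by norm_num
      have e2 : ((240 : ℕ) : ℝ) / 50 - ((j : ℝ) + 1) / ((50 : ℕ) : ℝ) = ((239 - j : ℕ) : ℝ) / 50 := by
        rw [Nat.cast_sub (by omega)]
        push_cast
        ring
      rw [e1, e2, hDdef]
      simp only
      rw [if_pos hj.2]
      exact h1) hD0 d hd (by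
      refine lt_of_le_of_lt hdle ?_
      norm_num)
  have e3 : (1 : ℝ) / (5 / 53) = 53 / 5 := by norm_num
  rw [e3] at h
  refine LoH_weaken _ _ _ ?_ h
  have h5 : d / (5 / 53 * (890801048266 / 500000000000)) ^ 2 ≤
      0.00015488736 / (5 / 53 * (890801048266 / 500000000000)) ^ 2 :=
    div_le_div_of_nonneg_right hdle (by positivity)
  refine le_trans ?_ (sub_le_sub_left h5 _)
  norm_num

end Pool.Agent.Helper10.EN
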