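import Pool.Agent.Helper10.EN.S6

/-! ENT-S9: one iteration of the two tables (from `stepLo`, `stepUp`).

`tabLo`: for `k ≤ M` use `LoH_zero`; for `k = K1` the hypothesis `hQ1`; for `M < k < K1` downward
induction on `k` (`LoH_zero` or `stepLo` with `h = P (k + 1 - M)`, `1 ≤ k + 1 - M`,
`k + 1 - M + M ≤ K1`). `tabUp`: downward induction on `k ≤ Kt`: `UpH_weaken`, or `stepUp` with
`l = Q (k - M)`. (Downward induction: e.g. `Nat.decreasingInduction'`, or ordinary induction on `K1 - k`.) -/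

namespace Pool.Agent.Helper10.EN

open Finset Filter Pool.Agent.Helper10 Pool.Agent.Helper10.P5 Pool.Agent.Helper10.P4
  Pool.Agent.Helper10.P3

theorem tabLo (M K1 : ℕ) (hM : 1 ≤ M) (hK : M < K1) (P Q : ℕ → ℝ) (hP0 : ∀ k, 0 ≤ P k)
    (hP : ∀ k, 1 ≤ k → k + M ≤ K1 → UpH (P k) ((k : ℝ) / M))
    (hQ0 : ∀ k, k ≤ M → Q k ≤ 0) (hQ1 : LoH (Q K1) ((K1 : ℝ) / M))
    (hQ : ∀ k, M < k → k < K1 → Q k ≤ 0 ∨
      Q k ≤ Q (k + 1) - P (k + 1 - M) * ((2 * k + 1) / (2 * ((k : ℝ) - M) * (k + 1)))) :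
    ∀ k, 1 ≤ k → k ≤ K1 → LoH (Q k) ((k : ℝ) / M) := by
  have key : ∀ j k : ℕ, 1 ≤ k → k + j = K1 → LoH (Q k) ((k : ℝ) / M) := by
    intro j
    induction j with
    | zero =>
      intro k _ h2
      have h3 : k = K1 := by omega
      rw [h3]
      exact hQ1
    | succ j ih =>
      intro k h1 h2
      by_cases h3 : k ≤ M
      · exact LoH_zero _ _ (hQ0 k h3)
      · rcases hQ k (by omega) (by omega) with h4 | h4
        · exact LoH_zero _ _ h4
        · exact stepLo M k hM (by omega) (Q (k + 1)) (P (k + 1 - M)) (Q k) (hP0 _)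
            (ih (k + 1) (by omega) (by omega)) (hP (k + 1 - M) (by omega) (by omega)) h4
  intro k h1 h2
  exact key (K1 - k) k h1 (by omega)

theorem tabUp (M Kt : ℕ) (hM : 1 ≤ M) (P P' Q : ℕ → ℝ) (hQ0 : ∀ k, 0 ≤ Q k)
    (hP : ∀ k, 1 ≤ k → k ≤ Kt → UpH (P k) ((k : ℝ) / M))
    (hQ : ∀ k, 1 ≤ k → k ≤ Kt → LoH (Q k) ((k : ℝ) / M))
    (hP' : ∀ k, 1 ≤ k → k ≤ Kt → P k ≤ P' k ∨ (M < k ∧ k < Kt ∧
      P' (k + 1) - Q (k - M) * (2 * k / (((k : ℝ) - M) * (2 * k + 1))) ≤ P' k)) :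
    ∀ k, 1 ≤ k → k ≤ Kt → UpH (P' k) ((k : ℝ) / M) := by
  have key : ∀ j k : ℕ, 1 ≤ k → k + j = Kt → UpH (P' k) ((k : ℝ) / M) := by
    intro j
    induction j with
    | zero =>
      intro k h1 h2
      rcases hP' k h1 (by omega) with h3 | h3
      · exact UpH_weaken _ _ _ h3 (hP k h1 (by omega))
      · exact absurd h3.2.1 (by omega)
    | succ j ih =>
      intro k h1 h2
      rcases hP' k h1 (by omega) with h3 | h3
      · exact UpH_weaken _ _ _ h3 (hP k h1 (by omega))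
      · obtain ⟨h4, h5, h6⟩ := h3
        exact stepUp M k hM h4 (P' (k + 1)) (Q (k - M)) (P' k) (hQ0 _)
          (ih (k + 1) (by omega) (by omega)) (hQ (k - M) (by omega) (by omega)) h6
  intro k h1 h2
  exact key (Kt - k) k h1 (by omega)

end Pool.Agent.Helper10.EN
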