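import Pool.Agent.Helper10.EN.S7
import Pool.Agent.Helper10.EN.S8d
import Pool.Agent.Helper10.EN.S9

/-! ENT-S10: the tables of the upper and lower functions after four rounds of the iteration. -/

namespace Pool.Agent.Helper10.EN

open Finset Filter Pool.Agent.Helper10 Pool.Agent.Helper10.P5 Pool.Agent.Helper10.P4
  Pool.Agent.Helper10.P3 Pool.Agent.Helper10.P3.Num3 TB

lemma SC_pos : (0 : ℝ) < SC := by unfold SC; norm_num

/-- the first upper table -/
lemma up0 (k : ℕ) (h1 : 1 ≤ k) (h2 : k ≤ 1200) : UpH ((p0 k : ℝ) / SC) ((k : ℝ) / (125 : ℕ)) := by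
  have hSC := SC_pos
  have hSS := SS0
  rcases Nat.lt_or_ge 250 k with h | h
  · -- above 2
    have hpos : 0 < Ln (2 * k) := by
      have h3 := ball_spec _ 11 0 p0_ok k (by omega)
      rw [Nat.zero_add, Bool.or_eq_true, Bool.or_eq_true] at h3
      simp only [decide_eq_true_eq] at h3
      omega
    have hposR : (0 : ℝ) < Ln (2 * k) := by exact_mod_cast hpos
    obtain ⟨hL, -⟩ := table3 (2 * k) (by omega)
    have h4 := baseUp 500 (2 * k) (Lr (2 * k)) ((k : ℝ) / (125 : ℕ)) hL (by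
      unfold Lr
      positivity) (by
      have : (0 : ℝ) < k := by exact_mod_cast h1
      positivity) (by
      push_cast
      apply le_of_eq
      ring)
    refine UpH_weaken _ _ _ ?_ h4
    unfold p0 Lr
    rw [if_neg (by omega)]
    obtain ⟨A, hA⟩ : ∃ A : ℕ, A = k * SC * SS / (125 * Ln (2 * k)) + 1 := ⟨_, rfl⟩
    have h5 : k * SC * SS ≤ 125 * Ln (2 * k) * A := by
      rw [hA]
      exact (Nat.lt_mul_div_succ _ (by positivity)).le
    have h6 : (k : ℝ) * SC * SS ≤ 125 * Ln (2 * k) * A := by exact_mod_cast h5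
    rw [← hA]
    push_cast
    rw [div_div_eq_mul_div, div_le_div_iff₀ hposR hSC]
    calc (k : ℝ) / 125 * SS * SC = (k : ℝ) * SC * SS / 125 := by ring
      _ ≤ 125 * Ln (2 * k) * A / 125 := div_le_div_of_nonneg_right h6 (by norm_num)
      _ = _ := by ring
  · -- at most 2: monotone in `s`
    have h3 : UpH 2 2 := by
      obtain ⟨hL, -⟩ := table3 500 (by norm_num)
      have e : Lr 500 = 1 := by
        unfold Lr
        have h1 : Ln 500 = SS := by decide +kernel
        rw [h1, div_self hSS.ne']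
      rw [e] at hL
      have := baseUp 500 500 1 2 hL one_pos (by norm_num) (by norm_num)
      rwa [div_one] at this
    have h4 : (p0 k : ℝ) / SC = 2 := by
      unfold p0
      rw [if_pos h]
      push_cast
      field_simp
    rw [h4]
    apply UpH_mono 2 2 _ (by
      have : (0 : ℝ) < k := by exact_mod_cast h1
      positivity) _ h3
    have : (k : ℝ) ≤ 250 := by exact_mod_cast h
    rw [div_le_iff₀ (by norm_num)]
    push_cast
    linarith

lemma qn_low (B k : ℕ) (h : k ≤ 250) : qn B k = 0 := by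
  unfold qn
  rw [if_pos h]

lemma pn_low (B k : ℕ) (h : k ≤ 250) : pn B k = 2 * SC := by
  unfold pn
  rw [if_pos h]

/-- lower table from an upper table -/
lemma lo_of_up (P : ℕ → ℕ) (B : ℕ)
    (hP : ∀ k, 1 ≤ k → k ≤ 1200 → UpH ((P k : ℝ) / SC) ((k : ℝ) / (125 : ℕ)))
    (hchk : ball (cQ P B) 11 0 = true) (hb : qn B 1325 * 5000 ≤ 29721 * SC) :
    ∀ k, 1 ≤ k → k ≤ 1325 → LoH ((qn B k : ℝ) / SC) ((k : ℝ) / (125 : ℕ)) := by
  have hSC := SC_pos
  apply tabLo 125 1325 (by norm_num) (by norm_num) (fun k => (P k : ℝ) / SC)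
    (fun k => (qn B k : ℝ) / SC)
  · intro k
    positivity
  · intro k h1 h2
    exact hP k h1 (by omega)
  · intro k hk
    rw [qn_low B k (by omega)]
    simp
  · have e : ((1325 : ℕ) : ℝ) / (125 : ℕ) = 53 / 5 := by norm_num
    rw [e]
    refine LoH_weaken _ _ _ ?_ baseLo
    have h1 : (qn B 1325 : ℝ) * 5000 ≤ 29721 * SC := by exact_mod_cast hb
    rw [div_le_div_iff₀ hSC (by norm_num)]
    exact h1
  · intro k h1 h2
    have h3 := ball_spec _ 11 0 hchk k (by omega)
    rw [Nat.zero_add] at h3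
    unfold cQ at h3
    rw [Bool.or_eq_true, Bool.or_eq_true, Bool.or_eq_true] at h3
    simp only [decide_eq_true_eq] at h3
    rcases h3 with h3 | h3 | h3 | h3
    · left
      rw [qn_low B k h3]
      simp
    · omega
    · left
      rw [h3]
      simp
    · right
      have hk : (125 : ℝ) < k := by exact_mod_cast h1
      have hs : ((k - 125 : ℕ) : ℝ) = (k : ℝ) - 125 := by
        rw [Nat.cast_sub (by omega)]
        norm_num
      have h4 : (qn B k : ℝ) * (2 * ((k : ℝ) - 125) * (k + 1)) + P (k + 1 - 125) * (2 * k + 1) ≤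
          qn B (k + 1) * (2 * ((k : ℝ) - 125) * (k + 1)) := by
        rw [← hs]
        exact_mod_cast h3
      have hD : 0 < 2 * ((k : ℝ) - 125) * (k + 1) := by
        have : 0 < (k : ℝ) - 125 := by linarith
        positivity
      push_cast
      rw [div_mul_div_comm, le_sub_iff_add_le, div_add_div _ _ hSC.ne' (mul_pos hSC hD).ne',
        div_le_div_iff₀ (mul_pos hSC (mul_pos hSC hD)) hSC]
      have h5 := mul_le_mul_of_nonneg_right h4 (mul_pos hSC hSC).le
      calc ((qn B k : ℝ) * (SC * (2 * ((k : ℝ) - 125) * (k + 1))) +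
            SC * (P (k + 1 - 125) * (2 * k + 1))) * SC
          = ((qn B k : ℝ) * (2 * ((k : ℝ) - 125) * (k + 1)) + P (k + 1 - 125) * (2 * k + 1)) *
            (SC * SC) := by ring
        _ ≤ _ := h5
        _ = _ := by ring

/-- upper table from a lower table -/
lemma up_of_lo (P Q : ℕ → ℕ) (B : ℕ)
    (hP : ∀ k, 1 ≤ k → k ≤ 1200 → UpH ((P k : ℝ) / SC) ((k : ℝ) / (125 : ℕ)))
    (hP2 : ∀ k, k ≤ 250 → P k = 2 * SC)
    (hQ : ∀ k, 1 ≤ k → k ≤ 1325 → LoH ((Q k : ℝ) / SC) ((k : ℝ) / (125 : ℕ)))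
    (hchk : ball (cP P Q B) 11 0 = true) :
    ∀ k, 1 ≤ k → k ≤ 1200 → UpH ((pn B k : ℝ) / SC) ((k : ℝ) / (125 : ℕ)) := by
  have hSC := SC_pos
  apply tabUp 125 1200 (by norm_num) (fun k => (P k : ℝ) / SC) (fun k => (pn B k : ℝ) / SC)
    (fun k => (Q k : ℝ) / SC)
  · intro k
    positivity
  · exact hP
  · intro k h1 h2
    exact hQ k h1 (by omega)
  · intro k h1 h2
    have h3 := ball_spec _ 11 0 hchk k (by omega)
    rw [Nat.zero_add] at h3
    unfold cP at h3
    rw [Bool.or_eq_true, Bool.or_eq_true, Bool.or_eq_true, Bool.and_eq_true] at h3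
    simp only [decide_eq_true_eq] at h3
    rcases h3 with h3 | h3 | h3 | h3
    · left
      rw [hP2 k h3, pn_low B k h3]
    · omega
    · left
      apply div_le_div_of_nonneg_right _ hSC.le
      exact_mod_cast h3
    · rcases Nat.lt_or_ge 250 k with h | h
      · right
        refine ⟨by omega, h3.1, ?_⟩
        have hk : (125 : ℝ) < k := by exact_mod_cast (by omega : 125 < k)
        have hs : ((k - 125 : ℕ) : ℝ) = (k : ℝ) - 125 := by
          rw [Nat.cast_sub (by omega)]
          norm_num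
        have h4 : (pn B (k + 1) : ℝ) * (((k : ℝ) - 125) * (2 * k + 1)) ≤
            pn B k * (((k : ℝ) - 125) * (2 * k + 1)) + Q (k - 125) * (2 * k) := by
          rw [← hs]
          exact_mod_cast h3.2
        have hD : 0 < ((k : ℝ) - 125) * (2 * k + 1) := by
          have : 0 < (k : ℝ) - 125 := by linarith
          positivity
        push_cast
        rw [div_mul_div_comm, sub_le_iff_le_add, div_add_div _ _ hSC.ne' (mul_pos hSC hD).ne',
          div_le_div_iff₀ hSC (mul_pos hSC (mul_pos hSC hD))]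
        have h5 := mul_le_mul_of_nonneg_right h4 (mul_pos hSC hSC).le
        calc (pn B (k + 1) : ℝ) * (SC * (SC * (((k : ℝ) - 125) * (2 * k + 1))))
            = (pn B (k + 1) : ℝ) * (((k : ℝ) - 125) * (2 * k + 1)) * (SC * SC) := by ring
          _ ≤ _ := h5
          _ = _ := by ring
      · left
        rw [hP2 k h, pn_low B k h]

/-- **The tables.** -/
theorem tabs : (∀ k, 1 ≤ k → k ≤ 1200 → UpH ((pn C4 k : ℝ) / SC) ((k : ℝ) / (125 : ℕ))) ∧
    ∀ k, 1 ≤ k → k ≤ 1325 → LoH ((qn B5 k : ℝ) / SC) ((k : ℝ) / (125 : ℕ)) := by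
  have hp0 : ∀ k, k ≤ 250 → p0 k = 2 * SC := by
    intro k hk
    unfold p0
    rw [if_pos hk]
  have l1 := lo_of_up p0 B1 up0 okB1 b1
  have u1 := up_of_lo p0 (qn B1) C1 up0 hp0 l1 okC1
  have l2 := lo_of_up (pn C1) B2 u1 okB2 b2
  have u2 := up_of_lo (pn C1) (qn B2) C2 u1 (pn_low C1) l2 okC2
  have l3 := lo_of_up (pn C2) B3 u2 okB3 b3
  have u3 := up_of_lo (pn C2) (qn B3) C3 u2 (pn_low C2) l3 okC3
  have l4 := lo_of_up (pn C3) B4 u3 okB4 b4
  have u4 := up_of_lo (pn C3) (qn B4) C4 u3 (pn_low C3) l4 okC4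
  exact ⟨u4, lo_of_up (pn C4) B5 u4 okB5 b5⟩

end Pool.Agent.Helper10.EN
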