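import Pool.Agent.Helper10.EN.S3

/-! ENT-S11: the weighted sieve (Richert's logarithmic weights) from an upper and a lower function.

Model: `S3sum`, `abs3` in P3/Abs3.lean. The primes `M / K * lam < log p ≤ tz K ky * lam` are cut at
`tz K k * lam`, `k = ky, …, K - M` (`tz K (K - M) = M / K`; `PC_anti` of P3/Abs3.lean with
`x k = tz K k * lam`). On the cell `tz K (k + 1) * lam < log p ≤ tz K k * lam` apply `cellUpH` (S3) with
`a = tz K (k + 1)`, `b = tz K k`, `s' = (k + 1) / M`, `h = P (k + 1)`,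
`E' p = (sift E F (zf (M / K * lam))).filter (p ∣ F e)`: `lam - log p < (1 - tz K (k + 1)) * lam =
(k + 1) / K * lam`, so `(lam - log p) / s' ≤ M / K * lam`. The weight is at most
`1 - tz K (k + 1) / tz K ky ≤ 1` there. The interchange of the sums is in the proof of `abs3`.
`lam / (K / M) = M / K * lam`. -/

namespace Pool.Agent.Helper10.EN

open Finset Filter Pool.Agent.Helper10 Pool.Agent.Helper10.P5 Pool.Agent.Helper10.P4
  Pool.Agent.Helper10.P3

/-- end points of the cells of the weighted sum -/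
noncomputable def tz (K k : ℕ) : ℝ := ((K : ℝ) - k) / K

private lemma tz_anti (K : ℕ) (hK : 1 ≤ K) : Antitone (tz K) := by
  intro i j hij
  unfold tz
  have hKR : (0 : ℝ) < K := by exact_mod_cast hK
  have h1 : (i : ℝ) ≤ j := by exact_mod_cast hij
  apply div_le_div_of_nonneg_right _ hKR.le
  linarith

private lemma tz_pos (K k : ℕ) (h : k < K) : 0 < tz K k := by
  unfold tz
  have h1 : (k : ℝ) < K := by exact_mod_cast h
  have h2 : (0 : ℝ) ≤ k := Nat.cast_nonneg k
  apply div_pos <;> linarith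

private lemma tz_lt_one (K k : ℕ) (hk : 1 ≤ k) (h : k < K) : tz K k < 1 := by
  unfold tz
  have h1 : (k : ℝ) < K := by exact_mod_cast h
  have h2 : (1 : ℝ) ≤ k := by exact_mod_cast hk
  rw [div_lt_one (by linarith)]
  linarith

private lemma tz_end (M K : ℕ) (h : M ≤ K) : tz K (K - M) = (M : ℝ) / K := by
  unfold tz
  rw [Nat.cast_sub h]
  congr 1
  ring

/-- the interchange of the sums -/
private lemma interchange {ι : Type} (S : Finset ι) (F : ι → ℕ) (P : Finset ℕ) (w : ℕ → ℝ)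
    (ρ : ℝ) :
    ∑ e ∈ S, (1 - ρ * ∑ p ∈ P.filter (fun p => p ∣ F e), w p) =
      (S.card : ℝ) - ρ * ∑ p ∈ P, w p * ((S.filter (fun e => p ∣ F e)).card : ℝ) := by
  rw [Finset.sum_sub_distrib, Finset.sum_const, nsmul_eq_mul, mul_one, ← Finset.mul_sum]
  congr 2
  simp only [Finset.sum_filter]
  rw [Finset.sum_comm]
  apply Finset.sum_congr rfl
  intro p _
  rw [← Finset.sum_filter, Finset.sum_const, nsmul_eq_mul, mul_comm]

theorem absW (M K ky : ℕ) (hM : 1 ≤ M) (hky : 1 ≤ ky) (hK : ky + M < K) (P : ℕ → ℝ)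
    (hP0 : ∀ k, 0 ≤ P k)
    (hP : ∀ k ∈ Ico ky (K - M), UpH (P (k + 1)) (((k + 1 : ℕ) : ℝ) / M)) (Q : ℝ)
    (hQ : LoH Q ((K : ℝ) / M)) (ρ : ℝ) (hρ : 0 < ρ) (V : ℝ)
    (hV : V < Q - ρ * ∑ k ∈ Ico ky (K - M), (1 - tz K (k + 1) / tz K ky) *
      (P (k + 1) * Real.log (tz K k / tz K (k + 1)) / (1 - tz K k))) :
    ∃ (j : ℕ) (Λ : ℝ), ∀ lam : ℝ, Λ ≤ lam →
    ∀ (ι : Type) (E : Finset ι) (F : ι → ℕ) (X : ℝ) (r : ℕ → ℝ), SX E F X r →
      X / (2 / 5 * lam) * V - lam ^ j * errK j r ⌊2 * Real.exp lam⌋₊ ≤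
        ∑ e ∈ sift E F (zf ((M : ℝ) / K * lam)),
        (1 - ρ * ∑ p ∈ (PC ((M : ℝ) / K * lam) (tz K ky * lam)).filter (fun p => p ∣ F e),
          (1 - Real.log p / (tz K ky * lam))) := by
  classical
  have hK1 : 1 ≤ K := by omega
  have hKR : (0 : ℝ) < K := by exact_mod_cast hK1
  have hMR : (0 : ℝ) < M := by exact_mod_cast hM
  set c : ℕ → ℝ := fun k => P (k + 1) * Real.log (tz K k / tz K (k + 1)) / (1 - tz K k) with hc
  set w : ℕ → ℝ := fun k => 1 - tz K (k + 1) / tz K ky with hw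
  set n : ℝ := ((Ico ky (K - M)).card : ℝ) with hn
  have hn0 : 0 ≤ n := Nat.cast_nonneg _
  set ε : ℝ := (Q - ρ * ∑ k ∈ Ico ky (K - M), w k * c k - V) / (1 + ρ * n) with hε
  have hρn : 0 < 1 + ρ * n := by positivity
  have hε0 : 0 < ε := div_pos (by linarith) hρn
  have hε2 : (1 + ρ * n) * ε = Q - ρ * ∑ k ∈ Ico ky (K - M), w k * c k - V := by
    rw [hε]
    field_simp
  -- the cells
  have hcell : ∀ k ∈ Ico ky (K - M), ∃ (j : ℕ) (Λ : ℝ), 1 ≤ Λ ∧ ∀ lam : ℝ, Λ ≤ lam →
      ∀ (ι : Type) (E : Finset ι) (F : ι → ℕ) (X : ℝ) (r : ℕ → ℝ), SX E F X r →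
      ∀ E' : ℕ → Finset ι, (∀ p ∈ PC (tz K (k + 1) * lam) (tz K k * lam), E' p ⊆ E ∧
        ∀ e ∈ E' p, p ∣ F e ∧ ∀ q ∈ PP (zf ((lam - Real.log p) / (((k + 1 : ℕ) : ℝ) / M))),
          ¬ q ∣ F e) →
      ∑ p ∈ PC (tz K (k + 1) * lam) (tz K k * lam), ((E' p).card : ℝ) ≤
        X / (2 / 5 * lam) * (c k + ε) + lam ^ j * errK j r ⌊2 * Real.exp lam⌋₊ := by
    intro k hk
    have hk' := Finset.mem_Ico.mp hk
    apply cellUpH (P (k + 1)) (((k + 1 : ℕ) : ℝ) / M) (tz K (k + 1)) (tz K k) (hP0 _)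
    · have : (0 : ℝ) < ((k + 1 : ℕ) : ℝ) := by exact_mod_cast Nat.succ_pos k
      positivity
    · exact hP k hk
    · exact tz_pos K (k + 1) (by omega)
    · exact tz_anti K hK1 (Nat.le_succ k)
    · exact tz_lt_one K k (by omega) (by omega)
    · exact hε0
  choose! jf Λf hf using hcell
  obtain ⟨j0, Λ0, hΛ0, h0⟩ := LoH_iff Q _ hQ ε hε0
  set J : ℕ := j0 + ∑ k ∈ Ico ky (K - M), jf k with hJ
  have hjJ : ∀ k ∈ Ico ky (K - M), jf k ≤ J := by
    intro k hk
    have := Finset.single_le_sum (f := jf) (fun i _ => Nat.zero_le _) hk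
    omega
  set Λ1 : ℝ := ∑ k ∈ Ico ky (K - M), |Λf k| with hΛ1
  have hΛ1k : ∀ k ∈ Ico ky (K - M), Λf k ≤ Λ1 := by
    intro k hk
    exact (le_abs_self _).trans
      (Finset.single_le_sum (f := fun k => |Λf k|) (fun i _ => abs_nonneg _) hk)
  refine ⟨J + 1, max Λ0 (max Λ1 (1 + ρ * n)), fun lam hlam ι E F X r hSX => ?_⟩
  have hl0 : Λ0 ≤ lam := (le_max_left _ _).trans hlam
  have hl1 : Λ1 ≤ lam := (le_max_left _ _).trans ((le_max_right _ _).trans hlam)
  have hl2 : 1 + ρ * n ≤ lam := (le_max_right _ _).trans ((le_max_right _ _).trans hlam)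
  have hlam1 : 1 ≤ lam := hΛ0.trans hl0
  have hlam0 : 0 < lam := by linarith
  set R : ℕ := ⌊2 * Real.exp lam⌋₊ with hR
  set S := sift E F (zf ((M : ℝ) / K * lam)) with hS
  have hD : 0 ≤ X / (2 / 5 * lam) := div_nonneg hSX.X0 (by positivity)
  have hErr : 0 ≤ lam ^ J * errK J r R := mul_nonneg (by positivity) (errK_nonneg J r hSX.r0 R)
  -- the lower bound of the sifted set
  have b1 : X / (2 / 5 * lam) * (Q - ε) - lam ^ J * errK J r R ≤ (S.card : ℝ) := by
    have h1 := h0 lam hl0 ι E F X r hSX J (by omega) R le_rfl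
    have h2 : lam / ((K : ℝ) / M) = (M : ℝ) / K * lam := by
      field_simp
    rw [h2] at h1
    exact h1
  rw [interchange S F (PC ((M : ℝ) / K * lam) (tz K ky * lam))
    (fun p => 1 - Real.log p / (tz K ky * lam)) ρ]
  have hsplit := PC_anti (fun k => tz K k * lam) (fun i j hij =>
    mul_le_mul_of_nonneg_right (tz_anti K hK1 hij) hlam0.le) ky (K - M) (by omega)
    (fun p => (1 - Real.log p / (tz K ky * lam)) * ((S.filter (fun e => p ∣ F e)).card : ℝ))
  simp only [tz_end M K (by omega)] at hsplit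
  rw [hsplit]
  have hτ : 0 < tz K ky := tz_pos K ky (by omega)
  have hτl : 0 < tz K ky * lam := mul_pos hτ hlam0
  have hw0 : ∀ k ∈ Ico ky (K - M), 0 ≤ w k ∧ w k ≤ 1 := by
    intro k hk
    have hk' := Finset.mem_Ico.mp hk
    have h1 : tz K (k + 1) / tz K ky ≤ 1 := by
      rw [div_le_one hτ]
      exact tz_anti K hK1 (by omega)
    have h2 : 0 ≤ tz K (k + 1) / tz K ky :=
      div_nonneg (tz_pos K (k + 1) (by omega)).le hτ.le
    rw [hw]
    constructor
    · simp only
      linarith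
    · simp only
      linarith
  have hcellb : ∀ k ∈ Ico ky (K - M), ∑ p ∈ PC (tz K (k + 1) * lam) (tz K k * lam),
      (1 - Real.log p / (tz K ky * lam)) * ((S.filter (fun e => p ∣ F e)).card : ℝ) ≤
        X / (2 / 5 * lam) * (w k * c k) + (X / (2 / 5 * lam) * ε + lam ^ J * errK J r R) := by
    intro k hk
    have hk' := Finset.mem_Ico.mp hk
    obtain ⟨hf1, hf2⟩ := hf k hk
    have h1 := hf2 lam ((hΛ1k k hk).trans hl1) ι E F X r hSX
      (fun p => S.filter (fun e => p ∣ F e)) (by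
      intro p hp
      have hp' := (mem_PC _ _ _).mp hp
      constructor
      · exact (Finset.filter_subset _ _).trans (Finset.filter_subset _ _)
      · intro e he
        rw [hS] at he
        unfold sift at he
        rw [Finset.mem_filter, Finset.mem_filter] at he
        refine ⟨he.2, fun q hq => he.1.2 q ?_⟩
        rw [mem_PP] at hq ⊢
        refine ⟨lt_of_lt_of_le hq.1 (zf_mono _ _ ?_), hq.2⟩
        have h3 : (0 : ℝ) < ((k + 1 : ℕ) : ℝ) := by exact_mod_cast Nat.succ_pos k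
        rw [div_le_iff₀ (by positivity)]
        have h4 : (M : ℝ) / K * lam * (((k + 1 : ℕ) : ℝ) / M) = ((k + 1 : ℕ) : ℝ) / K * lam := by
          field_simp
        rw [h4]
        have h5 : tz K (k + 1) = 1 - ((k + 1 : ℕ) : ℝ) / K := by
          unfold tz
          field_simp
        have h6 := hp'.2.1
        rw [h5] at h6
        linarith)
    obtain ⟨hwk0, hwk1⟩ := hw0 k hk
    have hErrk : lam ^ jf k * errK (jf k) r R ≤ lam ^ J * errK J r R :=
      err_le (jf k) J (hjJ k hk) lam hlam1 r hSX.r0 R R le_rfl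
    calc ∑ p ∈ PC (tz K (k + 1) * lam) (tz K k * lam),
          (1 - Real.log p / (tz K ky * lam)) * ((S.filter (fun e => p ∣ F e)).card : ℝ)
        ≤ ∑ p ∈ PC (tz K (k + 1) * lam) (tz K k * lam),
          w k * ((S.filter (fun e => p ∣ F e)).card : ℝ) := by
          apply Finset.sum_le_sum
          intro p hp
          apply mul_le_mul_of_nonneg_right _ (Nat.cast_nonneg _)
          have hp' := (mem_PC _ _ _).mp hp
          have h2 : tz K (k + 1) / tz K ky ≤ Real.log p / (tz K ky * lam) := by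
            rw [div_le_div_iff₀ hτ hτl]
            nlinarith [hp'.2.1]
          rw [hw]
          simp only
          linarith
      _ = w k * ∑ p ∈ PC (tz K (k + 1) * lam) (tz K k * lam),
          ((S.filter (fun e => p ∣ F e)).card : ℝ) := by rw [Finset.mul_sum]
      _ ≤ w k * (X / (2 / 5 * lam) * (c k + ε) + lam ^ jf k * errK (jf k) r R) :=
          mul_le_mul_of_nonneg_left h1 hwk0
      _ ≤ w k * (X / (2 / 5 * lam) * (c k + ε) + lam ^ J * errK J r R) := by
          apply mul_le_mul_of_nonneg_left _ hwk0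
          linarith
      _ = X / (2 / 5 * lam) * (w k * c k) +
          w k * (X / (2 / 5 * lam) * ε + lam ^ J * errK J r R) := by ring
      _ ≤ _ := by
          have h7 : 0 ≤ X / (2 / 5 * lam) * ε + lam ^ J * errK J r R :=
            add_nonneg (mul_nonneg hD hε0.le) hErr
          have := mul_le_mul_of_nonneg_right hwk1 h7
          linarith
  have hsum := Finset.sum_le_sum hcellb
  rw [Finset.sum_add_distrib, ← Finset.mul_sum, Finset.sum_const, nsmul_eq_mul, ← hn] at hsum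
  have b2 := mul_le_mul_of_nonneg_left hsum hρ.le
  have b3 : (1 + ρ * n) * (lam ^ J * errK J r R) ≤ lam ^ (J + 1) * errK (J + 1) r R := by
    calc (1 + ρ * n) * (lam ^ J * errK J r R) ≤ lam * (lam ^ J * errK J r R) :=
          mul_le_mul_of_nonneg_right hl2 hErr
      _ = lam ^ (J + 1) * errK J r R := by ring
      _ ≤ lam ^ (J + 1) * errK (J + 1) r R :=
          mul_le_mul_of_nonneg_left (errK_mono J (J + 1) (Nat.le_succ J) r hSX.r0 R R le_rfl)
            (by positivity)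
  have b4 : X / (2 / 5 * lam) * V = X / (2 / 5 * lam) * (Q - ε) -
      ρ * (X / (2 / 5 * lam) * ∑ k ∈ Ico ky (K - M), w k * c k +
        n * (X / (2 / 5 * lam) * ε)) := by
    have h8 : V = Q - ρ * ∑ k ∈ Ico ky (K - M), w k * c k - (1 + ρ * n) * ε := by linarith
    rw [h8]
    ring
  have b5 : ρ * (X / (2 / 5 * lam) * ∑ k ∈ Ico ky (K - M), w k * c k +
      n * (X / (2 / 5 * lam) * ε + lam ^ J * errK J r R)) =
      ρ * (X / (2 / 5 * lam) * ∑ k ∈ Ico ky (K - M), w k * c k +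
        n * (X / (2 / 5 * lam) * ε)) + ρ * n * (lam ^ J * errK J r R) := by ring
  rw [b5] at b2
  rw [b4]
  linarith

end Pool.Agent.Helper10.EN
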