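import Pool.Agent.Helper10.EN.S10
import Pool.Agent.Helper10.EN.S11

/-! ENT-S12: the weighted sieve, numerical form. -/

namespace Pool.Agent.Helper10.EN

open Finset Filter Pool.Agent.Helper10 Pool.Agent.Helper10.P5 Pool.Agent.Helper10.P4
  Pool.Agent.Helper10.P3 TB

namespace TB

/-- sum over a dyadic interval -/
def bs (f : ℕ → ℕ) : ℕ → ℕ → ℕ
  | 0, a => f a
  | d + 1, a => bs f d a + bs f d (a + 2 ^ d)

lemma bs_spec (f : ℕ → ℕ) (d : ℕ) : ∀ a : ℕ, bs f d a = ∑ i ∈ range (2 ^ d), f (a + i) := by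
  induction d with
  | zero => intro a; simp [bs]
  | succ d ih =>
    intro a
    rw [bs, ih, ih, pow_succ, mul_two, Finset.sum_range_add]
    simp only [add_assoc]

/-- the terms of the weighted sum, rounded up -/
def vv (k : ℕ) : ℕ := if k < 79 ∨ 4216 ≤ k then 0 else
  (k - 78) * pn C4 ((k + 8) / 8) * (2 * (5215 - k) + 1) * 5216 * 1000 /
    (5137 * k * (2 * (5215 - k) * (5215 - k + 1))) + 1

theorem vv_ok : 8645 * bs vv 13 0 + 190000 * SC < 10 ^ 7 * qn B5 652 := by decide +kernel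

end TB

lemma vv_eq (k : ℕ) (h1 : 79 ≤ k) (h2 : k < 4216) : vv k =
    (k - 78) * pn C4 ((k + 8) / 8) * (2 * (5215 - k) + 1) * 5216 * 1000 /
    (5137 * k * (2 * (5215 - k) * (5215 - k + 1))) + 1 := by
  unfold vv
  rw [if_neg (by omega)]

/-- the upper function on the fine mesh -/
noncomputable def PF (k : ℕ) : ℝ := (pn C4 ((k + 7) / 8) : ℝ) / SC

lemma tz_val (k : ℕ) : tz 5216 k = (5216 - (k : ℝ)) / 5216 := by
  unfold tz
  push_cast
  ring

/-- one term -/
lemma term_le (k : ℕ) (h1 : 79 ≤ k) (h2 : k < 4216) :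
    (1 - tz 5216 (k + 1) / tz 5216 79) *
      (PF (k + 1) * Real.log (tz 5216 k / tz 5216 (k + 1)) / (1 - tz 5216 k)) ≤
      (vv k : ℝ) / (1000 * SC) := by
  have hSC := SC_pos
  obtain ⟨m, hm⟩ : ∃ m : ℕ, m = 5215 - k := ⟨_, rfl⟩
  have hm1 : 1 ≤ m := by omega
  have hmR : (m : ℝ) = 5215 - k := by
    rw [hm, Nat.cast_sub (by omega)]
    norm_num
  have hm0 : (0 : ℝ) < m := by exact_mod_cast hm1
  have hk0 : (79 : ℝ) ≤ k := by exact_mod_cast h1
  have e1 : tz 5216 (k + 1) = (m : ℝ) / 5216 := by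
    rw [tz_val, hmR]
    push_cast
    ring
  have e2 : tz 5216 k = ((m : ℝ) + 1) / 5216 := by
    rw [tz_val, hmR]
    ring
  have e3 : tz 5216 79 = 5137 / 5216 := by
    rw [tz_val]
    norm_num
  have e4 : 1 - tz 5216 k = (k : ℝ) / 5216 := by
    rw [tz_val]
    ring
  have e5 : 1 - tz 5216 (k + 1) / tz 5216 79 = ((k : ℝ) - 78) / 5137 := by
    rw [e1, e3, hmR]
    ring
  have e6 : tz 5216 k / tz 5216 (k + 1) = ((m : ℝ) + 1) / m := by
    rw [e1, e2]
    field_simp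
  rw [e5, e6, e4]
  have hlog := log_le m hm1
  obtain ⟨A, hA⟩ : ∃ A : ℕ, A = pn C4 ((k + 8) / 8) := ⟨_, rfl⟩
  have hPF : PF (k + 1) = (A : ℝ) / SC := by
    unfold PF
    rw [hA]
  rw [hPF, vv_eq k h1 h2, ← hA, ← hm]
  obtain ⟨V, hV⟩ : ∃ V : ℕ, V = (k - 78) * A * (2 * m + 1) * 5216 * 1000 /
    (5137 * k * (2 * m * (m + 1))) + 1 := ⟨_, rfl⟩
  have h5 : (k - 78) * A * (2 * m + 1) * 5216 * 1000 ≤ 5137 * k * (2 * m * (m + 1)) * V := by
    rw [hV]
    exact (Nat.lt_mul_div_succ _ (by positivity)).le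
  have hs : ((k - 78 : ℕ) : ℝ) = (k : ℝ) - 78 := by
    rw [Nat.cast_sub (by omega)]
    norm_num
  have h6 : ((k : ℝ) - 78) * A * (2 * m + 1) * 5216 * 1000 ≤
      5137 * k * (2 * m * (m + 1)) * V := by
    rw [← hs]
    exact_mod_cast h5
  rw [← hV]
  have hk78 : 0 ≤ (k : ℝ) - 78 := by linarith
  have h7 : ((k : ℝ) - 78) / 5137 * ((A : ℝ) / SC * Real.log (((m : ℝ) + 1) / m) / (k / 5216)) ≤
      ((k : ℝ) - 78) / 5137 * ((A : ℝ) / SC * ((2 * m + 1) / (2 * m * (m + 1))) / (k / 5216)) := by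
    apply mul_le_mul_of_nonneg_left _ (by positivity)
    apply div_le_div_of_nonneg_right _ (by positivity)
    exact mul_le_mul_of_nonneg_left hlog (by positivity)
  refine h7.trans ?_
  have e7 : ((k : ℝ) - 78) / 5137 * ((A : ℝ) / SC * ((2 * m + 1) / (2 * m * (m + 1))) / (k / 5216)) =
      (((k : ℝ) - 78) * A * (2 * m + 1) * 5216 * 1000) / (5137 * k * (2 * m * (m + 1))) /
        (1000 * SC) := by
    have hk00 : (k : ℝ) ≠ 0 := by linarith
    field_simp
  rw [e7]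
  apply div_le_div_of_nonneg_right _ (by positivity)
  rw [div_le_iff₀ (by positivity)]
  calc ((k : ℝ) - 78) * A * (2 * m + 1) * 5216 * 1000 ≤ 5137 * k * (2 * m * (m + 1)) * V := h6
    _ = _ := by ring

attribute [irreducible] vv

lemma sum_le : ∑ k ∈ Ico 79 4216, (1 - tz 5216 (k + 1) / tz 5216 79) *
      (PF (k + 1) * Real.log (tz 5216 k / tz 5216 (k + 1)) / (1 - tz 5216 k)) ≤
      (bs vv 13 0 : ℝ) / (1000 * SC) := by
  have hSC := SC_pos
  have h1 : ∀ k ∈ Ico 79 4216, (1 - tz 5216 (k + 1) / tz 5216 79) *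
      (PF (k + 1) * Real.log (tz 5216 k / tz 5216 (k + 1)) / (1 - tz 5216 k)) ≤
      (vv k : ℝ) / (1000 * SC) := by
    intro k hk
    rw [Finset.mem_Ico] at hk
    exact term_le k hk.1 hk.2
  refine (Finset.sum_le_sum h1).trans ?_
  rw [← Finset.sum_div]
  apply div_le_div_of_nonneg_right _ (by positivity)
  rw [bs_spec]
  push_cast
  simp only [zero_add]
  apply Finset.sum_le_sum_of_subset_of_nonneg
  · intro k hk
    rw [Finset.mem_Ico] at hk
    rw [Finset.mem_range]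
    omega
  · intro _ _ _
    positivity

theorem numW : ∃ (j : ℕ) (Λ : ℝ), ∀ lam : ℝ, Λ ≤ lam →
    ∀ (ι : Type) (E : Finset ι) (F : ι → ℕ) (X : ℝ) (r : ℕ → ℝ), SX E F X r →
      X / (2 / 5 * lam) * (19 / 1000) - lam ^ j * errK j r ⌊2 * Real.exp lam⌋₊ ≤
        ∑ e ∈ sift E F (zf ((1000 : ℝ) / 5216 * lam)),
        (1 - 8645 / 10000 * ∑ p ∈ (PC ((1000 : ℝ) / 5216 * lam) (5137 / 5216 * lam)).filter
          (fun p => p ∣ F e), (1 - Real.log p / (5137 / 5216 * lam))) := by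
  have hSC := SC_pos
  obtain ⟨hU, hL⟩ := tabs
  have e3 : tz 5216 79 = 5137 / 5216 := by
    rw [tz_val]
    norm_num
  have h := absW 1000 5216 79 (by norm_num) (by norm_num) (by norm_num) PF (by
    intro k
    unfold PF
    positivity) (by
    intro k hk
    rw [Finset.mem_Ico] at hk
    have h1 := hU ((k + 1 + 7) / 8) (by omega) (by omega)
    apply UpH_mono _ _ _ _ _ h1
    · positivity
    · rw [div_le_div_iff₀ (by norm_num) (by norm_num)]
      have h2 : (k + 1) * 125 ≤ (k + 1 + 7) / 8 * 1000 := by omega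
      exact_mod_cast h2) ((qn B5 652 : ℝ) / SC) (by
    have h1 := hL 652 (by norm_num) (by norm_num)
    have e : ((652 : ℕ) : ℝ) / (125 : ℕ) = ((5216 : ℕ) : ℝ) / ((1000 : ℕ) : ℝ) := by norm_num
    rwa [e] at h1) (8645 / 10000) (by norm_num) (19 / 1000) (by
    have h1 := sum_le
    have h2 : (8645 : ℝ) * bs vv 13 0 + 190000 * SC < 10 ^ 7 * qn B5 652 := by exact_mod_cast vv_ok
    have h3 : (8645 : ℝ) / 10000 * ((bs vv 13 0 : ℝ) / (1000 * SC)) < (qn B5 652 : ℝ) / SC - 19 / 1000 := by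
      rw [lt_sub_iff_add_lt, ← mul_div_assoc, div_add_div _ _ (by positivity) (by norm_num),
        div_lt_div_iff₀ (by positivity) hSC]
      nlinarith
    have h4 := mul_le_mul_of_nonneg_left h1 (show (0 : ℝ) ≤ 8645 / 10000 by norm_num)
    have e : (5216 : ℕ) - 1000 = 4216 := by norm_num
    rw [e]
    linarith)
  rw [e3] at h
  exact_mod_cast h

end Pool.Agent.Helper10.EN
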