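import Pool.Agent.Helper10.EN.S1
import Pool.Agent.Helper10.EN.BndB
import Pool.Agent.Helper10.P4.PalAll

/-! ENT-S13: the sifting problem of the palindromes.

The members: outer digit `1, 3, 7, 9`, central digit `0, …, 9`, other digits arbitrary. For `q > 0`
coprime to ten and fixed outer and central digits the number of members divisible by `q` is
`cnt5 10 (n - 1) (c * (10 ^ (2 * n) + 1) + d * 10 ^ n) q` (`PN`, P4/PalAll.lean), and `count5`
(P5/Cnt.lean) bounds its distance to `10 ^ (n - 1) / q`: see `class_bound` in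
Results/MP_540de1_nt/LevelThreeTenths.lean. -/

namespace Pool.Agent.Helper10.EN

open Finset Filter Pool.Agent.Helper10 Pool.Agent.Helper10.P5 Pool.Agent.Helper10.P4
  Pool.Agent.Helper10.P3

/-- digit vectors of the palindromes coprime to ten -/
noncomputable def EP (n : ℕ) : Finset (ℕ × ℕ × (Fin (n - 1) → ℕ)) :=
  ({1, 3, 7, 9} : Finset ℕ) ×ˢ (range 10 ×ˢ KK (n - 1) 10)

/-- the palindrome of a digit vector -/
def FPal (n : ℕ) (e : ℕ × ℕ × (Fin (n - 1) → ℕ)) : ℕ := PN n e.1 e.2.1 e.2.2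

/-- the remainders -/
noncomputable def rP (n q : ℕ) : ℝ :=
  40 * (10 ^ (n - 1) / q * ∑ d ∈ q.divisors.erase 1, Psi5 10 (n - 1) d)

private lemma cop_one_three_seven_nine (c : ℕ) (hc : c ∈ ({1, 3, 7, 9} : Finset ℕ)) :
    c ≠ 0 ∧ c < 10 ∧ c.Coprime 10 := by
  simp only [Finset.mem_insert, Finset.mem_singleton] at hc
  rcases hc with h | h | h | h <;> subst h <;> decide

private lemma mem_EP' (n : ℕ) (x : ℕ × ℕ × (Fin (n - 1) → ℕ)) :
    x ∈ EP n ↔ x.1 ∈ ({1, 3, 7, 9} : Finset ℕ) ∧ x.2.1 < 10 ∧ x.2.2 ∈ KK (n - 1) 10 := by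
  unfold EP
  rw [Finset.mem_product, Finset.mem_product, Finset.mem_range]

private lemma card_classP (n q : ℕ) :
    ((EP n).filter (fun e => q ∣ FPal n e)).card =
      ∑ c ∈ ({1, 3, 7, 9} : Finset ℕ), ∑ d ∈ range 10,
        cnt5 10 (n - 1) (c * (10 ^ (2 * n) + 1) + d * 10 ^ n) q := by
  classical
  rw [Finset.card_filter]
  unfold EP
  rw [Finset.sum_product]
  apply Finset.sum_congr rfl
  intro c _
  rw [Finset.sum_product]
  apply Finset.sum_congr rfl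
  intro d _
  unfold cnt5
  rw [Finset.card_filter]
  apply Finset.sum_congr rfl
  intro f _
  rfl

theorem SX_pal (n : ℕ) (hn : 1 ≤ n) : SX (EP n) (FPal n) (4 * 10 ^ n) (rP n) := by
  classical
  refine ⟨by positivity, fun q => ?_, fun q hq _ => ?_⟩
  · unfold rP
    have h : 0 ≤ ∑ d ∈ q.divisors.erase 1, Psi5 10 (n - 1) d :=
      Finset.sum_nonneg fun d _ => Psi5_nonneg _ _ _
    positivity
  · rw [card_classP n q]
    have h2 : (4 * (10 : ℝ) ^ n) / q = ∑ c ∈ ({1, 3, 7, 9} : Finset ℕ), ∑ d ∈ range 10,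
        (10 : ℝ) ^ (n - 1) / q := by
      rw [Finset.sum_const, Finset.sum_const, Finset.card_range]
      obtain ⟨k, rfl⟩ : ∃ k, n = k + 1 := ⟨n - 1, by omega⟩
      have h4 : ({1, 3, 7, 9} : Finset ℕ).card = 4 := by decide
      rw [Nat.add_sub_cancel, pow_succ, h4]
      simp only [nsmul_eq_mul]
      push_cast
      ring
    rw [h2]
    push_cast
    rw [← Finset.sum_sub_distrib]
    refine (Finset.abs_sum_le_sum_abs _ _).trans ?_
    have h3 : ∀ c ∈ ({1, 3, 7, 9} : Finset ℕ), |∑ d ∈ range 10,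
        ((cnt5 10 (n - 1) (c * (10 ^ (2 * n) + 1) + d * 10 ^ n) q : ℕ) : ℝ) -
        ∑ d ∈ range 10, (10 : ℝ) ^ (n - 1) / q| ≤
        10 * (10 ^ (n - 1) / q * ∑ d ∈ q.divisors.erase 1, Psi5 10 (n - 1) d) := by
      intro c _
      rw [← Finset.sum_sub_distrib]
      refine (Finset.abs_sum_le_sum_abs _ _).trans ?_
      calc ∑ d ∈ range 10, |((cnt5 10 (n - 1) (c * (10 ^ (2 * n) + 1) + d * 10 ^ n) q : ℕ) : ℝ) -
            (10 : ℝ) ^ (n - 1) / q|
          ≤ ∑ d ∈ range 10, (10 ^ (n - 1) / q * ∑ d ∈ q.divisors.erase 1, Psi5 10 (n - 1) d) :=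
            Finset.sum_le_sum fun d _ => count5 10 (n - 1) _ q hq
        _ = _ := by
            rw [Finset.sum_const, Finset.card_range, nsmul_eq_mul]
            norm_num
    refine (Finset.sum_le_sum h3).trans ?_
    have h4 : ({1, 3, 7, 9} : Finset ℕ).card = 4 := by decide
    rw [Finset.sum_const, h4, nsmul_eq_mul]
    unfold rP
    apply le_of_eq
    push_cast
    ring

lemma errK_pal (k n Q : ℕ) : errK k (rP n) Q = 40 * bndB k 10 (n - 1) Q := by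
  unfold errK bndB rP
  rw [Finset.mul_sum]
  apply Finset.sum_congr rfl
  intro q _
  ring

/-- the remainders are small: for every `k` and `A` -/
theorem errK_small (k A : ℕ) : ∃ n0 : ℕ, ∀ n : ℕ, n0 ≤ n → ∀ J : ℕ, 7 * J ≤ 5 * n →
    errK k (rP n) (10 ^ J) ≤ 10 ^ n / (n : ℝ) ^ A := by
  obtain ⟨T0, hT0⟩ := bnd_errB (A + 1) k
  refine ⟨T0 + 2 + 4 * 2 ^ (A + 1), ?_⟩
  intro n hn J hJ
  have hn0 : 1 ≤ n := by omega
  have hκ : ∀ q : ℕ, q.Coprime 10 → q.Coprime 10 := fun q h => h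
  have h1 := hT0 (n - 1) (by omega) 10 (10 ^ J) J hκ le_rfl (by omega)
  rw [errK_pal]
  have h6 : ((n - 1 : ℕ) : ℝ) = (n : ℝ) - 1 := by
    rw [Nat.cast_sub hn0]
    norm_num
  have h7 : (n : ℝ) / 2 ≤ ((n - 1 : ℕ) : ℝ) := by
    have : (2 : ℝ) ≤ n := by exact_mod_cast (by omega : 2 ≤ n)
    rw [h6]
    linarith
  have hnR : (1 : ℝ) ≤ n := by exact_mod_cast hn0
  have h8 : ((n : ℝ) / 2) ^ (A + 1) ≤ ((n - 1 : ℕ) : ℝ) ^ (A + 1) :=
    pow_le_pow_left₀ (by positivity) h7 _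
  have h9 : (4 : ℝ) * 2 ^ (A + 1) ≤ n := by
    have : 4 * 2 ^ (A + 1) ≤ n := by omega
    exact_mod_cast this
  have h10 : (10 : ℝ) ^ n = 10 * 10 ^ (n - 1) := by
    rw [← pow_succ']
    congr 1
    omega
  calc 40 * bndB k 10 (n - 1) (10 ^ J)
      ≤ 40 * (10 ^ (n - 1) / ((n - 1 : ℕ) : ℝ) ^ (A + 1)) := by linarith
    _ ≤ 40 * ((10 : ℝ) ^ (n - 1) / ((n : ℝ) / 2) ^ (A + 1)) := by
        apply mul_le_mul_of_nonneg_left _ (by norm_num)
        exact div_le_div_of_nonneg_left (by positivity) (by positivity) h8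
    _ = (10 ^ n / (n : ℝ) ^ A) * (4 * 2 ^ (A + 1) / n) := by
        rw [h10, div_pow, pow_succ (n : ℝ) A]
        field_simp
        ring
    _ ≤ (10 ^ n / (n : ℝ) ^ A) * 1 := by
        apply mul_le_mul_of_nonneg_left _ (by positivity)
        rw [div_le_one (by linarith)]
        exact h9
    _ = _ := mul_one _

/-- every member is a palindrome coprime to ten; the map is injective -/
lemma FPal_mem (n : ℕ) (hn : 1 ≤ n) (e : ℕ × ℕ × (Fin (n - 1) → ℕ)) (he : e ∈ EP n) :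
    IsPalD (2 * n + 1) (FPal n e) ∧ (FPal n e).Coprime 10 := by
  rw [mem_EP'] at he
  obtain ⟨hc, hd, hf⟩ := he
  obtain ⟨hc0, hc10, hcop⟩ := cop_one_three_seven_nine _ hc
  refine ⟨PN_pal n _ _ hn hc0 hc10 hd _ hf, ?_⟩
  unfold FPal PN
  obtain ⟨k, hk⟩ : ∃ k, n = k + 1 := ⟨n - 1, by omega⟩
  have h1 : 10 ^ (2 * n) = 10 * 10 ^ (2 * n - 1) := by
    rw [← pow_succ']
    congr 1
    omega
  have h2 : 10 ^ n = 10 * 10 ^ (n - 1) := by
    rw [← pow_succ']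
    congr 1
    omega
  have h3 : e.1 * (10 ^ (2 * n) + 1) + e.2.1 * 10 ^ n + 10 * vl (n - 1) e.2.2 =
      e.1 + 10 * (e.1 * 10 ^ (2 * n - 1) + e.2.1 * 10 ^ (n - 1) + vl (n - 1) e.2.2) := by
    rw [h1, h2]
    ring
  rw [h3]
  exact (Nat.coprime_add_mul_left_left _ _ _).2 hcop

lemma FPal_inj (n : ℕ) (hn : 1 ≤ n) : Set.InjOn (FPal n) (EP n : Set (ℕ × ℕ × (Fin (n - 1) → ℕ))) := by
  intro x hx y hy hxy
  rw [Finset.mem_coe, mem_EP'] at hx hy
  obtain ⟨hc0, hc10, -⟩ := cop_one_three_seven_nine _ hx.1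
  obtain ⟨hc0', hc10', -⟩ := cop_one_three_seven_nine _ hy.1
  obtain ⟨h2, h3, h4⟩ := PN_inj n hn x.1 x.2.1 y.1 y.2.1 x.2.2 y.2.2 hc0 hc10
    hx.2.1 hx.2.2 hc0' hc10' hy.2.1 hy.2.2 hxy
  exact Prod.ext h2 (Prod.ext h3 h4)

end Pool.Agent.Helper10.EN
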