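import Pool.Agent.Helper10.EN.S13
import Pool.Agent.Helper10.EN.S12
import Pool.Agent.Helper10.SQ.Tail
import Pool.Agent.Helper10.SQ.Level

/-! ENT-S14: squarefree palindromes with at most three prime factors. -/

namespace Pool.Agent.Helper10.EN

open Finset Filter Pool.Agent.Helper10 Pool.Agent.Helper10.P5 Pool.Agent.Helper10.P4
  Pool.Agent.Helper10.P3 Pool.Agent.Helper10.SQ

/-- the exponent of the level -/
def Jp (n : ℕ) : ℕ := 5 * n / 7

/-- the logarithm of the level -/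
noncomputable def lp (n : ℕ) : ℝ := Jp n * Real.log 10 - Real.log 2

lemma lg10_le : Real.log 10 ≤ 2.3105 := by
  have h1 : Real.log ((10 : ℝ) ^ 3) ≤ Real.log ((2 : ℝ) ^ 10) := by
    apply Real.log_le_log (by norm_num)
    norm_num
  rw [Real.log_pow, Real.log_pow] at h1
  have h2 := Real.log_two_lt_d9
  push_cast at h1
  linarith

lemma lg10_ge : 3 * Real.log 2 ≤ Real.log 10 := by
  have h1 : Real.log ((2 : ℝ) ^ 3) ≤ Real.log 10 := by
    apply Real.log_le_log (by norm_num)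
    norm_num
  rw [Real.log_pow] at h1
  push_cast at h1
  exact h1

lemma lg2_pos : 0 < Real.log 2 := Real.log_pos (by norm_num)

lemma lg10_pos : 0 < Real.log 10 := Real.log_pos (by norm_num)

lemma floor_lp (n : ℕ) : ⌊2 * Real.exp (lp n)⌋₊ = 10 ^ Jp n := by
  have h : 2 * Real.exp (lp n) = ((10 ^ Jp n : ℕ) : ℝ) := by
    unfold lp
    rw [Real.exp_sub, Real.exp_log (by norm_num), mul_comm (Jp n : ℝ), Real.exp_mul,
      Real.exp_log (by norm_num), Real.rpow_natCast]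
    push_cast
    ring
  rw [h, Nat.floor_natCast]

/-- bounds for the exponent -/
lemma Jp_real (n : ℕ) : 7 * (Jp n : ℝ) ≤ 5 * n ∧ 5 * (n : ℝ) ≤ 7 * Jp n + 6 := by
  unfold Jp
  have h1 : 7 * (5 * n / 7) ≤ 5 * n := Nat.mul_div_le _ _
  have h2 : 5 * n ≤ 7 * (5 * n / 7) + 6 := by omega
  constructor
  · exact_mod_cast h1
  · exact_mod_cast h2

/-- lower bound for the logarithm of the level -/
lemma lp_ge (n : ℕ) : (5 / 7 * (n : ℝ) - 2) * Real.log 10 ≤ lp n := by
  unfold lp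
  have h1 := (Jp_real n).2
  have h2 := lg10_ge
  have h3 := lg10_pos
  have h4 : (5 / 7 * (n : ℝ) - 2 + 1) * Real.log 10 ≤ Jp n * Real.log 10 :=
    mul_le_mul_of_nonneg_right (by linarith) h3.le
  have h5 := lg2_pos
  linarith

/-- upper bound for the logarithm of the level -/
lemma lp_le (n : ℕ) : lp n ≤ 1.6504 * n := by
  unfold lp
  have h1 := (Jp_real n).1
  have h2 := lg10_le
  have h3 := lg10_pos
  have h5 := lg2_pos
  have h6 : (Jp n : ℝ) * Real.log 10 ≤ (5 / 7 * n) * 2.3105 :=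
    mul_le_mul (by linarith) h2 h3.le (by positivity)
  have h7 : (0 : ℝ) ≤ n := Nat.cast_nonneg n
  linarith

lemma lp_tendsto : Tendsto lp atTop atTop := by
  have h : ∀ n : ℕ, (n : ℝ) - 10 ≤ lp n := by
    intro n
    have h1 := lp_ge n
    have h2 := lg10_ge
    have h3 := Real.log_two_gt_d9
    have h4 := lg10_le
    have h5 : (0 : ℝ) ≤ n := Nat.cast_nonneg n
    nlinarith
  apply tendsto_atTop_mono (f := fun n : ℕ => (n : ℝ) - 10) h
  apply tendsto_atTop_add_const_right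
  exact tendsto_natCast_atTop_atTop

/-- the sifted members -/
noncomputable def Sp (n : ℕ) : Finset (ℕ × ℕ × (Fin (n - 1) → ℕ)) :=
  sift (EP n) (FPal n) (zf ((1000 : ℝ) / 5216 * lp n))

lemma Sp_sub (n : ℕ) (e : ℕ × ℕ × (Fin (n - 1) → ℕ)) (he : e ∈ Sp n) : e ∈ EP n := by
  unfold Sp sift at he
  exact (Finset.mem_filter.mp he).1

/-- the prime factors of a sifted member are large -/
lemma Sp_prime (n : ℕ) (hn : 1 ≤ n) (e : ℕ × ℕ × (Fin (n - 1) → ℕ)) (he : e ∈ Sp n) (p : ℕ)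
    (hp : p.Prime) (hpN : p ∣ FPal n e) :
    p.Coprime 10 ∧ (1000 : ℝ) / 5216 * lp n < Real.log p := by
  have h1 := FPal_mem n hn e (Sp_sub n e he)
  have hp10 : p.Coprime 10 := Nat.Coprime.coprime_dvd_left hpN h1.2
  refine ⟨hp10, ?_⟩
  by_contra hcon
  push Not at hcon
  unfold Sp sift at he
  rw [Finset.mem_filter] at he
  exact he.2 p ((mem_PP_zf _ p).mpr ⟨⟨hp, hp10⟩, hcon⟩) hpN

lemma FPal_Pal (n : ℕ) (hn : 1 ≤ n) (e : ℕ × ℕ × (Fin (n - 1) → ℕ)) (he : e ∈ EP n) :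
    FPal n e ∈ Pal n := (mem_Pal n _).mpr (FPal_mem n hn e he).1

lemma FPal_lt (n : ℕ) (hn : 1 ≤ n) (e : ℕ × ℕ × (Fin (n - 1) → ℕ)) (he : e ∈ EP n) :
    FPal n e < 10 ^ (2 * n + 1) := lt_of_isPal _ _ (FPal_mem n hn e he).1

lemma FPal_pos (n : ℕ) (hn : 1 ≤ n) (e : ℕ × ℕ × (Fin (n - 1) → ℕ)) (he : e ∈ EP n) :
    0 < FPal n e := by
  rcases Nat.eq_zero_or_pos (FPal n e) with h | h
  · have h1 := (FPal_mem n hn e he).2
    rw [h] at h1
    norm_num at h1
  · exact h

lemma FPal_log (n : ℕ) (hn : 1 ≤ n) (e : ℕ × ℕ × (Fin (n - 1) → ℕ)) (he : e ∈ EP n) :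
    Real.log (FPal n e) ≤ (2 * n + 1) * Real.log 10 := by
  have h5 : Real.log ((10 : ℝ) ^ (2 * n + 1)) = (2 * n + 1) * Real.log 10 := by
    rw [Real.log_pow]
    push_cast
    ring
  rw [← h5]
  apply Real.log_le_log (by exact_mod_cast FPal_pos n hn e he)
  exact_mod_cast (FPal_lt n hn e he).le

/-- the weight of a member -/
noncomputable def wP (n : ℕ) (e : ℕ × ℕ × (Fin (n - 1) → ℕ)) : ℝ :=
  1 - 8645 / 10000 * ∑ p ∈ (PC ((1000 : ℝ) / 5216 * lp n) (5137 / 5216 * lp n)).filter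
    (fun p => p ∣ FPal n e), (1 - Real.log p / (5137 / 5216 * lp n))

lemma wP_le (n : ℕ) (h : 0 < lp n) (e : ℕ × ℕ × (Fin (n - 1) → ℕ)) : wP n e ≤ 1 := by
  unfold wP
  have : 0 ≤ ∑ p ∈ (PC ((1000 : ℝ) / 5216 * lp n) (5137 / 5216 * lp n)).filter
    (fun p => p ∣ FPal n e), (1 - Real.log p / (5137 / 5216 * lp n)) := by
    apply Finset.sum_nonneg
    intro p hp
    rw [Finset.mem_filter, mem_PC] at hp
    have : Real.log p / (5137 / 5216 * lp n) ≤ 1 := by
      rw [div_le_one (by positivity)]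
      exact hp.1.2.2
    linarith
  linarith

/-- the weight of a squarefree member with many prime factors -/
lemma wP_neg (n : ℕ) (hn : 10 ^ 6 ≤ n) (e : ℕ × ℕ × (Fin (n - 1) → ℕ)) (he : e ∈ Sp n)
    (hsq : Squarefree (FPal n e)) (h4 : 4 ≤ (FPal n e).primeFactorsList.length) : wP n e ≤ 0 := by
  classical
  have hn1 : 1 ≤ n := by omega
  have hnR : (10 : ℝ) ^ 6 ≤ n := by exact_mod_cast hn
  have hlg := lp_ge n
  have hl0 := lg10_pos
  have hlam0 : 0 < lp n := by
    have : 0 < (5 / 7 * (n : ℝ) - 2) * Real.log 10 := mul_pos (by linarith) hl0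
    linarith
  have hY : 0 < 5137 / 5216 * lp n := by positivity
  have heE := Sp_sub n e he
  have h1 := comb3 (FPal n e) (5137 / 5216 * lp n) (FPal_pos n hn1 e heE).ne' hY (by
    intro p hp _ hsq2
    have h2 := hsq p (by rwa [← pow_two])
    exact hp.one_lt.ne' (Nat.isUnit_iff.mp h2))
  have h3 : Real.log (FPal n e) / (5137 / 5216 * lp n) ≤ 2.84326 := by
    rw [div_le_iff₀ hY]
    refine (FPal_log n hn1 e heE).trans ?_
    have h5 : (2 * (n : ℝ) + 1) ≤ 2.84326 * (5137 / 5216) * (5 / 7 * (n : ℝ) - 2) := by linarith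
    calc (2 * (n : ℝ) + 1) * Real.log 10
        ≤ (2.84326 * (5137 / 5216) * (5 / 7 * (n : ℝ) - 2)) * Real.log 10 :=
          mul_le_mul_of_nonneg_right h5 hl0.le
      _ = 2.84326 * (5137 / 5216) * ((5 / 7 * (n : ℝ) - 2) * Real.log 10) := by ring
      _ ≤ 2.84326 * (5137 / 5216) * lp n := mul_le_mul_of_nonneg_left hlg (by norm_num)
      _ = _ := by ring
  have h4R : (4 : ℝ) ≤ (FPal n e).primeFactorsList.length := by exact_mod_cast h4
  have h5 : ∑ p ∈ (FPal n e).primeFactors.filter (fun p : ℕ => Real.log (p : ℝ) ≤ 5137 / 5216 * lp n),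
      (1 - Real.log p / (5137 / 5216 * lp n)) ≤
      ∑ p ∈ (PC ((1000 : ℝ) / 5216 * lp n) (5137 / 5216 * lp n)).filter (fun p => p ∣ FPal n e),
          (1 - Real.log p / (5137 / 5216 * lp n)) := by
    apply Finset.sum_le_sum_of_subset_of_nonneg
    · intro p hp
      rw [Finset.mem_filter] at hp
      have hpp := Nat.prime_of_mem_primeFactors hp.1
      have hpd := Nat.dvd_of_mem_primeFactors hp.1
      have h9 := Sp_prime n hn1 e he p hpp hpd
      rw [Finset.mem_filter, mem_PC]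
      exact ⟨⟨⟨hpp, h9.1⟩, h9.2, hp.2⟩, hpd⟩
    · intro p hp _
      rw [Finset.mem_filter, mem_PC] at hp
      have : Real.log p / (5137 / 5216 * lp n) ≤ 1 := by
        rw [div_le_one hY]
        exact hp.1.2.2
      linarith
  unfold wP
  linarith

/-- a sifted member is smaller than the power `15` of each of its prime factors -/
lemma Sp_large (n : ℕ) (hn : 10 ^ 6 ≤ n) (e : ℕ × ℕ × (Fin (n - 1) → ℕ)) (he : e ∈ Sp n) (p : ℕ)
    (hp : p.Prime) (hpN : p ∣ FPal n e) : FPal n e < p ^ 15 := by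
  have hn1 : 1 ≤ n := by omega
  have hnR : (10 : ℝ) ^ 6 ≤ n := by exact_mod_cast hn
  have h1 := (Sp_prime n hn1 e he p hp hpN).2
  have h2 := FPal_log n hn1 e (Sp_sub n e he)
  have hlg := lp_ge n
  have hl0 := lg10_pos
  have hp0 : (0 : ℝ) < p := by exact_mod_cast hp.pos
  have h3 : Real.log (FPal n e) < Real.log ((p : ℝ) ^ 15) := by
    rw [Real.log_pow]
    push_cast
    have h4 : (2 * (n : ℝ) + 1) ≤ 15 * (1000 / 5216) * (5 / 7 * (n : ℝ) - 2) := by linarith
    have h5 : (2 * (n : ℝ) + 1) * Real.log 10 ≤ 15 * (1000 / 5216) * lp n := by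
      calc (2 * (n : ℝ) + 1) * Real.log 10
          ≤ (15 * (1000 / 5216) * (5 / 7 * (n : ℝ) - 2)) * Real.log 10 :=
            mul_le_mul_of_nonneg_right h4 hl0.le
        _ = 15 * (1000 / 5216) * ((5 / 7 * (n : ℝ) - 2) * Real.log 10) := by ring
        _ ≤ _ := mul_le_mul_of_nonneg_left hlg (by norm_num)
    linarith
  have hF0 : (0 : ℝ) < FPal n e := by exact_mod_cast FPal_pos n hn1 e (Sp_sub n e he)
  have h6 := (Real.log_lt_log_iff hF0 (by positivity)).mp h3
  exact_mod_cast h6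

/-- the prime factors exceed `10 ^ (n / 10)` -/
lemma Sp_big (n : ℕ) (hn : 10 ^ 6 ≤ n) (e : ℕ × ℕ × (Fin (n - 1) → ℕ)) (he : e ∈ Sp n) (p : ℕ)
    (hp : p.Prime) (hpN : p ∣ FPal n e) : 10 ^ (n / 10) ≤ p := by
  have hn1 : 1 ≤ n := by omega
  have hnR : (10 : ℝ) ^ 6 ≤ n := by exact_mod_cast hn
  have h1 := (Sp_prime n hn1 e he p hp hpN).2
  have hlg := lp_ge n
  have hl0 := lg10_pos
  have hp0 : (0 : ℝ) < p := by exact_mod_cast hp.pos
  have h3 : Real.log ((10 : ℝ) ^ (n / 10)) < Real.log p := by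
    rw [Real.log_pow]
    have h4 : ((n / 10 : ℕ) : ℝ) ≤ (n : ℝ) / 10 := Nat.cast_div_le
    have h5 : ((n / 10 : ℕ) : ℝ) * Real.log 10 ≤ 1000 / 5216 * lp n := by
      calc ((n / 10 : ℕ) : ℝ) * Real.log 10
          ≤ (1000 / 5216 * (5 / 7 * (n : ℝ) - 2)) * Real.log 10 :=
            mul_le_mul_of_nonneg_right (by linarith) hl0.le
        _ = 1000 / 5216 * ((5 / 7 * (n : ℝ) - 2) * Real.log 10) := by ring
        _ ≤ _ := mul_le_mul_of_nonneg_left hlg (by norm_num)
    linarith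
  have h5 := (Real.log_lt_log_iff (by positivity) hp0).mp h3
  have h6 : 10 ^ (n / 10) < p := by exact_mod_cast h5
  exact h6.le

open Classical in
/-- the palindromes we count -/
noncomputable def three (n : ℕ) : Finset ℕ :=
  (Pal n).filter (fun N => Squarefree N ∧ N.primeFactorsList.length ≤ 3 ∧
      ∀ p : ℕ, p.Prime → p ∣ N → N < p ^ 15)

/-- the weighted sum is at most the number of good members and of non-squarefree members -/
lemma sum_wP (n : ℕ) (hn : 10 ^ 6 ≤ n) : ∑ e ∈ Sp n, wP n e ≤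
    ((three n).card : ℝ) + ((big n (10 ^ (n / 10))).card : ℝ) := by
  classical
  have hn1 : 1 ≤ n := by omega
  have hnR : (10 : ℝ) ^ 6 ≤ n := by exact_mod_cast hn
  have hlg := lp_ge n
  have hl0 := lg10_pos
  have hlam0 : 0 < lp n := by
    have : 0 < (5 / 7 * (n : ℝ) - 2) * Real.log 10 := mul_pos (by linarith) hl0
    linarith
  have hpt : ∀ e ∈ Sp n, wP n e ≤ (if FPal n e ∈ three n then 1 else 0) +
      (if FPal n e ∈ big n (10 ^ (n / 10)) then 1 else 0) := by
    intro e he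
    have heE := Sp_sub n e he
    have hw1 := wP_le n hlam0 e
    by_cases hsq : Squarefree (FPal n e)
    · by_cases h3 : (FPal n e).primeFactorsList.length ≤ 3
      · have : FPal n e ∈ three n := by
          unfold three
          rw [Finset.mem_filter]
          exact ⟨FPal_Pal n hn1 e heE, hsq, h3, fun p hp hpN => Sp_large n hn e he p hp hpN⟩
        rw [if_pos this]
        split_ifs <;> linarith
      · have := wP_neg n hn e he hsq (by omega)
        split_ifs <;> linarith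
    · have : FPal n e ∈ big n (10 ^ (n / 10)) := by
        rw [Nat.squarefree_iff_prime_squarefree] at hsq
        push Not at hsq
        obtain ⟨p, hp, hpN⟩ := hsq
        have hpd : p ∣ FPal n e := (Dvd.intro p rfl).trans hpN
        unfold big
        rw [Finset.mem_filter]
        exact ⟨FPal_Pal n hn1 e heE, p, Sp_big n hn e he p hp hpd,
          (Sp_prime n hn1 e he p hp hpd).1, by rwa [pow_two]⟩
      rw [if_pos this]
      split_ifs <;> linarith
  refine (Finset.sum_le_sum hpt).trans ?_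
  rw [Finset.sum_add_distrib]
  have hinj := FPal_inj n hn1
  have hcount : ∀ B : Finset ℕ, ∑ e ∈ Sp n, (if FPal n e ∈ B then (1 : ℝ) else 0) ≤ (B.card : ℝ) := by
    intro B
    rw [← Finset.sum_filter, Finset.sum_const, nsmul_eq_mul, mul_one]
    have : ((Sp n).filter (fun e => FPal n e ∈ B)).card ≤ B.card := by
      apply Finset.card_le_card_of_injOn (FPal n)
      · intro e he
        rw [Finset.mem_coe, Finset.mem_filter] at he
        exact he.2
      · intro e he e' he' h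
        rw [Finset.mem_coe, Finset.mem_filter] at he he'
        exact hinj (Finset.mem_coe.mpr (Sp_sub n e he.1)) (Finset.mem_coe.mpr (Sp_sub n e' he'.1)) h
    exact_mod_cast this
  exact add_le_add (hcount _) (hcount _)

lemma pow_ten_ge (n : ℕ) (hn : 1000 ≤ n) : n ^ 2 ≤ 10 ^ (n / 10) := by
  have key : ∀ k : ℕ, 100 ≤ k → (10 * k + 10) ^ 2 ≤ 10 ^ k := by
    intro k hk
    induction k, hk using Nat.le_induction with
    | base => norm_num
    | succ k hk ih =>
      have e1 : (10 * (k + 1) + 10) ^ 2 ≤ (2 * (10 * k + 10)) ^ 2 :=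
        Nat.pow_le_pow_left (by omega) 2
      have e2 : (2 * (10 * k + 10)) ^ 2 = 4 * (10 * k + 10) ^ 2 := by ring
      calc (10 * (k + 1) + 10) ^ 2 ≤ 4 * (10 * k + 10) ^ 2 := e1.trans_eq e2
        _ ≤ 4 * 10 ^ k := Nat.mul_le_mul_left 4 ih
        _ ≤ 10 ^ k * 10 := by
          have := Nat.one_le_pow k 10 (by norm_num)
          omega
        _ = 10 ^ (k + 1) := (pow_succ 10 k).symm
  have h10 := key (n / 10) (by omega)
  exact le_trans (Nat.pow_le_pow_left (by omega) 2) h10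

theorem sf3 : ∃ n0 : ℕ, ∀ n : ℕ, n0 ≤ n → 1 / 10 * ((10 : ℝ) ^ n / n) ≤ ((three n).card : ℝ) := by
  classical
  obtain ⟨j, Λ, hmain⟩ := numW
  obtain ⟨n1, h1⟩ := errK_small j (j + 2)
  obtain ⟨n2, h2⟩ := Filter.eventually_atTop.mp (lp_tendsto.eventually_ge_atTop Λ)
  obtain ⟨n3, h3⟩ := tail
  refine ⟨n1 + n2 + n3 + 10 ^ 6 + 2 ^ j * 10 ^ 3, fun n hn => ?_⟩
  have hn6 : 10 ^ 6 ≤ n := by omega
  have hn1 : 1 ≤ n := by omega
  have hnR : (10 : ℝ) ^ 6 ≤ n := by exact_mod_cast hn6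
  have hn0 : (0 : ℝ) < n := by linarith
  have hJ : 7 * Jp n ≤ 5 * n := by
    unfold Jp
    exact Nat.mul_div_le _ _
  have herr := h1 n (by omega) (Jp n) hJ
  have hSX := SX_pal n hn1
  have hW := hmain (lp n) (h2 n (by omega)) _ (EP n) (FPal n) (4 * 10 ^ n) (rP n) hSX
  rw [floor_lp] at hW
  have hS := sum_wP n hn6
  have hW' : 4 * (10 : ℝ) ^ n / (2 / 5 * lp n) * (19 / 1000) -
      lp n ^ j * errK j (rP n) (10 ^ Jp n) ≤ ∑ e ∈ Sp n, wP n e := hW
  -- the main term
  have hlg := lp_ge n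
  have hll := lp_le n
  have hl0 := lg10_pos
  have hlam0 : 0 < lp n := by
    have : 0 < (5 / 7 * (n : ℝ) - 2) * Real.log 10 := mul_pos (by linarith) hl0
    linarith
  have hX : (0 : ℝ) < 10 ^ n := by positivity
  obtain ⟨Y, hY⟩ : ∃ Y : ℝ, Y = 10 ^ n / n := ⟨_, rfl⟩
  have hY0 : 0 < Y := by rw [hY]; positivity
  have hmt : 115 / 1000 * Y ≤ 4 * (10 : ℝ) ^ n / (2 / 5 * lp n) * (19 / 1000) := by
    have e1 : 4 * (10 : ℝ) ^ n / (2 / 5 * lp n) * (19 / 1000) = 10 ^ n * (19 / 100) / lp n := by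
      field_simp
      ring
    rw [e1, le_div_iff₀ hlam0, hY]
    calc 115 / 1000 * ((10 : ℝ) ^ n / n) * lp n ≤ 115 / 1000 * ((10 : ℝ) ^ n / n) * (1.6504 * n) :=
          mul_le_mul_of_nonneg_left hll (by positivity)
      _ = 10 ^ n * (115 / 1000 * 1.6504) := by field_simp
      _ ≤ 10 ^ n * (19 / 100) := by
          apply mul_le_mul_of_nonneg_left _ hX.le
          norm_num
  -- the error term
  have het : lp n ^ j * errK j (rP n) (10 ^ Jp n) ≤ 1 / 1000 * Y := by
    have h4 : lp n ^ j ≤ (2 * (n : ℝ)) ^ j := pow_le_pow_left₀ hlam0.le (by linarith) j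
    have h5 : (2 : ℝ) ^ j * 10 ^ 3 ≤ n := by
      have : 2 ^ j * 10 ^ 3 ≤ n := by omega
      exact_mod_cast this
    calc lp n ^ j * errK j (rP n) (10 ^ Jp n) ≤ (2 * (n : ℝ)) ^ j * (10 ^ n / (n : ℝ) ^ (j + 2)) :=
          mul_le_mul h4 herr (errK_nonneg _ _ hSX.r0 _) (by positivity)
      _ = Y * (2 ^ j / n) := by
          rw [hY, mul_pow, pow_add]
          field_simp
      _ ≤ Y * (1 / 1000) := by
          apply mul_le_mul_of_nonneg_left _ hY0.le
          rw [div_le_div_iff₀ hn0 (by norm_num)]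
          linarith
      _ = _ := by ring
  -- the squares
  have hbig : ((big n (10 ^ (n / 10))).card : ℝ) ≤ 1 / 1000 * Y := by
    have h4 := h3 n (by omega) (10 ^ (n / 10)) (Nat.one_le_pow _ _ (by norm_num))
    refine h4.trans ?_
    have h5 : (n : ℝ) ^ 2 ≤ ((10 ^ (n / 10) : ℕ) : ℝ) := by exact_mod_cast pow_ten_ge n (by omega)
    have h6 : (18 : ℝ) * 10 ^ n / ((10 ^ (n / 10) : ℕ) : ℝ) ≤ 18 * 10 ^ n / (n : ℝ) ^ 2 :=
      div_le_div_of_nonneg_left (by positivity) (by positivity) h5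
    have h7 : (18 : ℝ) * 10 ^ n / (n : ℝ) ^ 2 + 2 * (10 ^ n / (n : ℝ) ^ 2) = Y * (20 / n) := by
      rw [hY]
      field_simp
      ring
    have h8 : Y * (20 / n) ≤ Y * (1 / 1000) := by
      apply mul_le_mul_of_nonneg_left _ hY0.le
      rw [div_le_div_iff₀ hn0 (by norm_num)]
      linarith
    linarith
  rw [← hY]
  linarith

end Pool.Agent.Helper10.EN
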