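import Pool.Agent.Helper10.EN.S1

/-! ENT-S2: the sifting problem of the multiples of a prime, and the regrouping of the remainders.

`SX_div`: for `q` coprime to ten, `q ∣ F e / p` (with `p ∣ F e`) iff `p * q ∣ F e`; use `h.hr (p * q)`;
`X / (p * q) = (X / p) / q`.

`errK_primes`: the pairs `(p, q)` are mapped to `m = p * q ≤ R`, coprime to ten; for fixed `m` the number
of pairs is at most the number of divisors `p` of `m`, i.e. `tau m`, and `tau q ≤ tau m` since `q ∣ m`.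
(Model: `err_regroup` in Helper10/SieveMain.lean, `Finset.sum_fiberwise_of_maps_to`.) -/

namespace Pool.Agent.Helper10.EN

open Finset Filter Pool.Agent.Helper10 Pool.Agent.Helper10.P5 Pool.Agent.Helper10.P4
  Pool.Agent.Helper10.P3

lemma SX_div {ι : Type} (E : Finset ι) (F : ι → ℕ) (X : ℝ) (r : ℕ → ℝ) (h : SX E F X r) (p : ℕ)
    (hp : p.Prime) (hp10 : p.Coprime 10) :
    SX (E.filter (fun e => p ∣ F e)) (fun e => F e / p) (X / p) (fun q => r (p * q)) := by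
  refine ⟨div_nonneg h.X0 (Nat.cast_nonneg _), fun q => h.r0 _, ?_⟩
  intro q hq hq10
  have h1 := h.hr (p * q) (Nat.mul_pos hp.pos hq) (Nat.Coprime.mul_left hp10 hq10)
  have h2 : (E.filter (fun e => p ∣ F e)).filter (fun e => q ∣ F e / p) =
      E.filter (fun e => p * q ∣ F e) := by
    rw [Finset.filter_filter]
    apply Finset.filter_congr
    intro e _
    constructor
    · rintro ⟨h3, h4⟩
      exact (Nat.dvd_div_iff_mul_dvd h3).mp h4
    · intro h3
      have h4 : p ∣ F e := (Dvd.intro _ rfl).trans h3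
      exact ⟨h4, (Nat.dvd_div_iff_mul_dvd h4).mpr h3⟩
  have h3 : X / (p : ℝ) / (q : ℝ) = X / ((p * q : ℕ) : ℝ) := by
    rw [div_div, Nat.cast_mul]
  rw [h2, h3]
  exact h1

lemma errK_primes (k : ℕ) (r : ℕ → ℝ) (hr : ∀ q, 0 ≤ r q) (P : Finset ℕ)
    (hP : ∀ p ∈ P, p.Prime ∧ p.Coprime 10) (Q : ℕ → ℕ) (R : ℕ) (hQ : ∀ p ∈ P, p * Q p ≤ R) :
    ∑ p ∈ P, errK k (fun q => r (p * q)) (Q p) ≤ errK (k + 1) r R := by
  classical
  obtain ⟨A, hA⟩ : ∃ A : Finset (Σ _ : ℕ, ℕ), A = P.sigma (fun p =>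
    (Icc 1 (Q p)).filter (fun q => q.Coprime 10)) := ⟨_, rfl⟩
  obtain ⟨B, hB⟩ : ∃ B : Finset ℕ, B = (Icc 1 R).filter (fun q => q.Coprime 10) := ⟨_, rfl⟩
  have h1 : ∑ p ∈ P, errK k (fun q => r (p * q)) (Q p) =
      ∑ x ∈ A, ((tau x.2 : ℝ)) ^ k * r (x.1 * x.2) := by
    rw [hA, Finset.sum_sigma]
    rfl
  have hmem : ∀ x ∈ A, (x.1.Prime ∧ x.1.Coprime 10) ∧ 1 ≤ x.2 ∧ x.2.Coprime 10 ∧
      x.1 * x.2 ≤ R := by
    intro x hx
    rw [hA, Finset.mem_sigma, Finset.mem_filter, Finset.mem_Icc] at hx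
    refine ⟨hP _ hx.1, hx.2.1.1, hx.2.2, ?_⟩
    exact (Nat.mul_le_mul_left _ hx.2.1.2).trans (hQ _ hx.1)
  have hmaps : ∀ x ∈ A, x.1 * x.2 ∈ B := by
    intro x hx
    obtain ⟨⟨h2, h3⟩, h4, h5, h6⟩ := hmem x hx
    rw [hB, Finset.mem_filter, Finset.mem_Icc]
    exact ⟨⟨Nat.mul_pos h2.pos h4, h6⟩, Nat.Coprime.mul_left h3 h5⟩
  rw [h1, ← Finset.sum_fiberwise_of_maps_to hmaps]
  unfold errK
  rw [← hB]
  apply Finset.sum_le_sum
  intro m hm
  rw [hB, Finset.mem_filter, Finset.mem_Icc] at hm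
  have hm0 : m ≠ 0 := by omega
  have hcard : (A.filter (fun x => x.1 * x.2 = m)).card ≤ tau m := by
    unfold tau
    apply Finset.card_le_card_of_injOn (fun x => x.1)
    · intro x hx
      rw [Finset.mem_coe, Finset.mem_filter] at hx
      rw [Finset.mem_coe, Nat.mem_divisors]
      exact ⟨Dvd.intro _ hx.2, hm0⟩
    · intro x hx y hy hxy
      rw [Finset.mem_coe, Finset.mem_filter] at hx hy
      obtain ⟨x1, x2⟩ := x
      obtain ⟨y1, y2⟩ := y
      simp only at hx hy hxy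
      subst hxy
      have h2 := (hmem _ hx.1).1.1.pos
      have h3 : x1 * x2 = x1 * y2 := by rw [hx.2, hy.2]
      have h4 : x2 = y2 := Nat.eq_of_mul_eq_mul_left h2 h3
      rw [h4]
  have hterm : ∀ x ∈ A.filter (fun x => x.1 * x.2 = m),
      ((tau x.2 : ℝ)) ^ k * r (x.1 * x.2) ≤ ((tau m : ℝ)) ^ k * r m := by
    intro x hx
    rw [Finset.mem_filter] at hx
    rw [hx.2]
    apply mul_le_mul_of_nonneg_right _ (hr m)
    apply pow_le_pow_left₀ (Nat.cast_nonneg _)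
    have h2 : tau x.2 ≤ tau m := by
      unfold tau
      exact Finset.card_le_card (Nat.divisors_subset_of_dvd hm0 (Dvd.intro_left _ hx.2))
    exact_mod_cast h2
  calc ∑ x ∈ A.filter (fun x => x.1 * x.2 = m), ((tau x.2 : ℝ)) ^ k * r (x.1 * x.2)
      ≤ (A.filter (fun x => x.1 * x.2 = m)).card • (((tau m : ℝ)) ^ k * r m) :=
        Finset.sum_le_card_nsmul _ _ _ hterm
    _ = ((A.filter (fun x => x.1 * x.2 = m)).card : ℝ) * (((tau m : ℝ)) ^ k * r m) := by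
        rw [nsmul_eq_mul]
    _ ≤ (tau m : ℝ) * (((tau m : ℝ)) ^ k * r m) := by
        apply mul_le_mul_of_nonneg_right _ (mul_nonneg (by positivity) (hr m))
        exact_mod_cast hcard
    _ = ((tau m : ℝ)) ^ (k + 1) * r m := by rw [pow_succ]; ring

end Pool.Agent.Helper10.EN
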