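import Pool.Agent.Helper10.EN.S2

/-! ENT-S3: upper bound over one cell of primes from an upper function.

Model: `cellS` (Helper10/P3/Cell.lean), `M2` (Helper10/P3/Primes.lean). For each `p` of the cell put
`lam' = lam - log p`, so `(1 - b) * lam ≤ lam' ≤ lam`, and apply `UpH_iff` (S1) with a small `ε'` to
`SX_div` (S2): `E' p` is contained in the sifted set of `(E.filter (p ∣ F e), F e / p)` at `zf (lam' / s')`
(if `q ∣ F e / p` then `q ∣ F e`). Main term: `(X / p) / (2 / 5 * lam') * (h + ε') ≤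
X / (2 / 5 * lam) * (h + ε') / (1 - b) * (1 / (p - 1))`, summed with the upper bound of `M2`. Error term:
`∑ p, lam' ^ k * errK k (r (p * ·)) ⌊2 * exp lam'⌋₊ ≤ lam ^ k * errK (k + 1) r ⌊2 * exp lam⌋₊` by
`errK_primes` (`p * ⌊2 * exp lam'⌋₊ ≤ ⌊2 * exp lam⌋₊` since `p * exp lam' = exp lam`), and then `err_le`.
The choice of `ε'` by continuity or explicitly: with `L = log (b / a) ≥ 0` one needs
`(h + ε') * (L + ε') / (1 - b) ≤ h * L / (1 - b) + ε`. -/

namespace Pool.Agent.Helper10.EN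

open Finset Filter Pool.Agent.Helper10 Pool.Agent.Helper10.P5 Pool.Agent.Helper10.P4
  Pool.Agent.Helper10.P3

theorem cellUpH (h s' a b : ℝ) (hh : 0 ≤ h) (hs' : 0 < s') (hU : UpH h s') (ha : 0 < a) (hab : a ≤ b)
    (hb : b < 1) (ε : ℝ) (hε : 0 < ε) :
    ∃ (k : ℕ) (Λ : ℝ), 1 ≤ Λ ∧ ∀ lam : ℝ, Λ ≤ lam →
    ∀ (ι : Type) (E : Finset ι) (F : ι → ℕ) (X : ℝ) (r : ℕ → ℝ), SX E F X r →
    ∀ E' : ℕ → Finset ι, (∀ p ∈ PC (a * lam) (b * lam), E' p ⊆ E ∧
      ∀ e ∈ E' p, p ∣ F e ∧ ∀ q ∈ PP (zf ((lam - Real.log p) / s')), ¬ q ∣ F e) →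
    ∑ p ∈ PC (a * lam) (b * lam), ((E' p).card : ℝ) ≤
      X / (2 / 5 * lam) * (h * Real.log (b / a) / (1 - b) + ε) +
        lam ^ k * errK k r ⌊2 * Real.exp lam⌋₊ := by
  obtain ⟨ε', hε'0, hε'⟩ : ∃ ε' : ℝ, 0 < ε' ∧
      (h + ε') * (Real.log (b / a) + ε') / (1 - b) ≤ h * Real.log (b / a) / (1 - b) + ε := by
    have hL : 0 ≤ Real.log (b / a) := Real.log_nonneg ((one_le_div ha).mpr hab)
    set L := Real.log (b / a) with hLdef
    have hD : 0 < 1 - b := by linarith
    have hS : 0 < h + L + 1 := by linarith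
    refine ⟨min 1 (ε * (1 - b) / (h + L + 1)), lt_min one_pos (by positivity), ?_⟩
    set e := min 1 (ε * (1 - b) / (h + L + 1)) with he
    have he0 : 0 < e := lt_min one_pos (by positivity)
    have he1 : e ≤ 1 := min_le_left _ _
    have he2 : e * (h + L + 1) ≤ ε * (1 - b) := by
      have := min_le_right 1 (ε * (1 - b) / (h + L + 1))
      rw [← he, le_div_iff₀ hS] at this
      exact this
    rw [div_add' _ _ _ hD.ne']
    apply div_le_div_of_nonneg_right _ hD.le
    nlinarith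
  obtain ⟨k, Λ0, hΛ0, hk⟩ := UpH_iff h s' hU ε' hε'0
  obtain ⟨Λ1, hΛ1⟩ := Filter.eventually_atTop.mp (M2 a b ha hab ε' hε'0)
  have hD : 0 < 1 - b := by linarith
  refine ⟨k + 1, max (max 1 Λ1) (Λ0 / (1 - b)), le_trans (le_max_left _ _) (le_max_left _ _), ?_⟩
  intro lam hlam ι E F X r hSX E' hE'
  have hlam1 : 1 ≤ lam := le_trans (le_trans (le_max_left _ _) (le_max_left _ _)) hlam
  have hlam2 : Λ1 ≤ lam := le_trans (le_trans (le_max_right _ _) (le_max_left _ _)) hlam
  have hlam3 : Λ0 ≤ (1 - b) * lam := by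
    have := le_trans (le_max_right _ _) hlam
    rw [div_le_iff₀ hD] at this
    linarith
  have hlam0 : 0 < lam := by linarith
  have hHe : 0 < h + ε' := by linarith
  set P := PC (a * lam) (b * lam) with hP
  set cst : ℝ := X / (2 / 5 * lam) * ((h + ε') / (1 - b)) with hcst
  have hX5 : 0 ≤ X / (2 / 5 * lam) := div_nonneg hSX.X0 (by positivity)
  have hcst0 : 0 ≤ cst := mul_nonneg hX5 (by positivity)
  -- each prime
  have hterm : ∀ p ∈ P, ((E' p).card : ℝ) ≤ cst * (1 / ((p : ℝ) - 1)) +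
      lam ^ k * errK k (fun q => r (p * q)) ⌊2 * Real.exp (lam - Real.log p)⌋₊ := by
    intro p hp
    have hp' := (mem_PC _ _ _).mp hp
    obtain ⟨h1, h2⟩ := hE' p hp
    have hp1 : (1 : ℝ) < p := by exact_mod_cast hp'.1.1.one_lt
    have hlp : 0 ≤ Real.log p := Real.log_nonneg hp1.le
    set lam' := lam - Real.log p with hlam'
    have hl1 : (1 - b) * lam ≤ lam' := by
      rw [hlam']
      linarith [hp'.2.2]
    have hl2 : lam' ≤ lam := by rw [hlam']; linarith
    have hl0 : 0 < (1 - b) * lam := by positivity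
    have hl3 : 0 < lam' := by linarith
    have hSX' := SX_div E F X r hSX p hp'.1.1 hp'.1.2
    have h3 := hk lam' (by linarith) ι (E.filter (fun e => p ∣ F e)) (fun e => F e / p) (X / p)
      (fun q => r (p * q)) hSX' k (le_refl k) ⌊2 * Real.exp lam'⌋₊ (le_refl _)
    have h4 : ((E' p).card : ℝ) ≤
        ((sift (E.filter (fun e => p ∣ F e)) (fun e => F e / p) (zf (lam' / s'))).card : ℝ) := by
      exact_mod_cast Finset.card_le_card (by
        intro e he
        obtain ⟨h5, h6⟩ := h2 e he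
        unfold sift
        rw [Finset.mem_filter, Finset.mem_filter]
        refine ⟨⟨h1 he, h5⟩, fun q hq hdvd => h6 q hq ?_⟩
        exact dvd_trans hdvd (Nat.div_dvd_of_dvd h5))
    have h5 : X / p / (2 / 5 * lam') * (h + ε') ≤ cst * (1 / ((p : ℝ) - 1)) := by
      have hpm : 0 < (p : ℝ) - 1 := by linarith
      have hp0 : 0 < (p : ℝ) := by linarith
      have e1 : X / p / (2 / 5 * lam') ≤ X / ((p : ℝ) - 1) / (2 / 5 * ((1 - b) * lam)) := by
        have e2 : X / (p : ℝ) ≤ X / ((p : ℝ) - 1) :=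
          div_le_div_of_nonneg_left hSX.X0 hpm (by linarith)
        have e3 : 0 ≤ X / ((p : ℝ) - 1) := div_nonneg hSX.X0 hpm.le
        calc X / p / (2 / 5 * lam') ≤ X / ((p : ℝ) - 1) / (2 / 5 * lam') :=
              div_le_div_of_nonneg_right e2 (by positivity)
          _ ≤ X / ((p : ℝ) - 1) / (2 / 5 * ((1 - b) * lam)) :=
              div_le_div_of_nonneg_left e3 (by positivity) (by linarith)
      calc X / p / (2 / 5 * lam') * (h + ε')
          ≤ X / ((p : ℝ) - 1) / (2 / 5 * ((1 - b) * lam)) * (h + ε') :=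
            mul_le_mul_of_nonneg_right e1 hHe.le
        _ = cst * (1 / ((p : ℝ) - 1)) := by
            rw [hcst]
            field_simp
    have h6 : lam' ^ k * errK k (fun q => r (p * q)) ⌊2 * Real.exp lam'⌋₊ ≤
        lam ^ k * errK k (fun q => r (p * q)) ⌊2 * Real.exp lam'⌋₊ := by
      apply mul_le_mul_of_nonneg_right
      · exact pow_le_pow_left₀ hl3.le hl2 k
      · exact errK_nonneg k _ hSX'.r0 _
    linarith
  refine (Finset.sum_le_sum hterm).trans ?_
  rw [Finset.sum_add_distrib, ← Finset.mul_sum, ← Finset.mul_sum]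
  have hrec := (hΛ1 lam hlam2).1
  have hmain : cst * ∑ p ∈ P, 1 / ((p : ℝ) - 1) ≤
      X / (2 / 5 * lam) * (h * Real.log (b / a) / (1 - b) + ε) := by
    calc cst * ∑ p ∈ P, 1 / ((p : ℝ) - 1) ≤ cst * (Real.log (b / a) + ε') :=
          mul_le_mul_of_nonneg_left hrec hcst0
      _ = X / (2 / 5 * lam) * ((h + ε') * (Real.log (b / a) + ε') / (1 - b)) := by
          rw [hcst]
          ring
      _ ≤ X / (2 / 5 * lam) * (h * Real.log (b / a) / (1 - b) + ε) :=
          mul_le_mul_of_nonneg_left hε' hX5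
  have herr : ∑ p ∈ P, errK k (fun q => r (p * q)) ⌊2 * Real.exp (lam - Real.log p)⌋₊ ≤
      errK (k + 1) r ⌊2 * Real.exp lam⌋₊ := by
    apply errK_primes k r hSX.r0 P (fun p hp => ((mem_PC _ _ _).mp hp).1)
    intro p hp
    have hp' := (mem_PC _ _ _).mp hp
    have hp0 : (0 : ℝ) < p := by exact_mod_cast hp'.1.1.pos
    apply Nat.le_floor
    push_cast
    have e1 : ((⌊2 * Real.exp (lam - Real.log p)⌋₊ : ℕ) : ℝ) ≤ 2 * Real.exp (lam - Real.log p) :=
      Nat.floor_le (by positivity)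
    calc (p : ℝ) * ((⌊2 * Real.exp (lam - Real.log p)⌋₊ : ℕ) : ℝ)
        ≤ p * (2 * Real.exp (lam - Real.log p)) := mul_le_mul_of_nonneg_left e1 hp0.le
      _ = 2 * Real.exp lam := by
          rw [Real.exp_sub, Real.exp_log hp0]
          field_simp
  have herr0 : 0 ≤ errK (k + 1) r ⌊2 * Real.exp lam⌋₊ := errK_nonneg _ r hSX.r0 _
  have herr2 : lam ^ k * ∑ p ∈ P, errK k (fun q => r (p * q)) ⌊2 * Real.exp (lam - Real.log p)⌋₊ ≤
      lam ^ (k + 1) * errK (k + 1) r ⌊2 * Real.exp lam⌋₊ := by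
    apply mul_le_mul (pow_le_pow_right₀ hlam1 (Nat.le_succ k)) herr _ (by positivity)
    apply Finset.sum_nonneg
    intro p hp
    have hp' := (mem_PC _ _ _).mp hp
    exact errK_nonneg k _ (SX_div E F X r hSX p hp'.1.1 hp'.1.2).r0 _
  linarith

end Pool.Agent.Helper10.EN
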