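import Pool.Agent.Helper10.EN.S2

/-! ENT-S4: lower bound over one cell of primes from a lower function.

For each `p` of the cell put `lam' = s' * log (p - 1)`, so `lam' / s' = log (p - 1)` and
`zf (lam' / s') = p` exactly (`⌊exp (log (p - 1))⌋₊ + 1 = p`; `p ≥ 3` by `three_le_of_prime`). Apply
`LoH_iff` (S1) at the level `lam'` to `SX_div` (S2): the sifted set of `(E.filter (p ∣ F e), F e / p)` at
`p` is contained in `(sift E F p).filter (p ∣ F e)` (a prime `q < p` with `q ∣ F e = p * (F e / p)` divides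
`F e / p`). Levels: `s' * (a * lam - log 2) ≤ lam' ≤ s' * b * lam`, and `p * ⌊2 * exp lam'⌋₊ ≤
2 * exp ((1 + s') * log p) ≤ 2 * exp ((1 + s') * b * lam) ≤ 2 * exp lam`. Main term:
`(X / p) / (2 / 5 * lam') * (l - ε') ≥ X / (2 / 5 * lam) * (l / (s' * b) - ε'') * (1 / p)` and
`1 / p ≥ (1 - 1 / p) * (1 / (p - 1))`, summed with the lower bound of `M2`. Errors by `errK_primes`. -/

namespace Pool.Agent.Helper10.EN

open Finset Filter Pool.Agent.Helper10 Pool.Agent.Helper10.P5 Pool.Agent.Helper10.P4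
  Pool.Agent.Helper10.P3

private lemma s4_zf (p : ℕ) (hp : 2 ≤ p) : zf (Real.log ((p - 1 : ℕ) : ℝ)) = p := by
  unfold zf
  have h0 : (0 : ℝ) < ((p - 1 : ℕ) : ℝ) := by
    have : 0 < p - 1 := by omega
    exact_mod_cast this
  rw [Real.exp_log h0, Nat.floor_natCast]
  omega

private lemma s4_sub {ι : Type} (E : Finset ι) (F : ι → ℕ) (p : ℕ) (hp : p.Prime) :
    sift (E.filter (fun e => p ∣ F e)) (fun e => F e / p) p ⊆
      (sift E F p).filter (fun e => p ∣ F e) := by
  intro e he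
  unfold sift at he ⊢
  rw [Finset.mem_filter, Finset.mem_filter] at he
  rw [Finset.mem_filter, Finset.mem_filter]
  refine ⟨⟨he.1.1, fun q hq hqe => ?_⟩, he.1.2⟩
  apply he.2 q hq
  have hq' := (mem_PP p q).mp hq
  obtain ⟨m, hm⟩ := he.1.2
  have hdiv : F e / p = m := by
    rw [hm]
    exact Nat.mul_div_cancel_left m hp.pos
  show q ∣ F e / p
  rw [hdiv]
  rw [hm] at hqe
  rcases (Nat.Prime.dvd_mul hq'.2.1).mp hqe with h | h
  · exfalso
    have := (Nat.prime_dvd_prime_iff_eq hq'.2.1 hp).mp h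
    omega
  · exact h

private lemma s4_cell (a lam : ℝ) (p : ℕ) (hp : p.Prime) (h : a * lam < Real.log p)
    (ε' : ℝ) (he' : 1 / (a * lam) ≤ ε') (hal : 0 < a * lam) :
    (1 - ε') * (1 / ((p : ℝ) - 1)) ≤ 1 / (p : ℝ) := by
  have hp2 : (2 : ℝ) ≤ p := by exact_mod_cast hp.two_le
  have hp0 : (0 : ℝ) < p := by linarith
  have hp1 : (0 : ℝ) < (p : ℝ) - 1 := by linarith
  have h1 : a * lam < p := by
    have h2 : Real.log p ≤ (p : ℝ) - 1 := Real.log_le_sub_one_of_pos hp0
    linarith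
  have h3 : 1 / (p : ℝ) ≤ ε' := by
    refine le_trans ?_ he'
    exact one_div_le_one_div_of_le hal h1.le
  have e1 : 1 / (p : ℝ) = (1 - 1 / (p : ℝ)) * (1 / ((p : ℝ) - 1)) := by
    field_simp
  rw [e1]
  apply mul_le_mul_of_nonneg_right _ (by positivity)
  linarith

/-- the main term of one prime -/
private lemma s4_main (l s' a b lam lam' ε' X p : ℝ) (hl : 0 ≤ l) (hs' : 0 < s') (ha : 0 < a)
    (hb : 0 < b) (hlam : 0 < lam) (hX : 0 ≤ X) (hp : 0 < p) (hε' : 0 ≤ ε')
    (h1 : s' * (a * lam) / 2 ≤ lam') (h2 : lam' ≤ s' * (b * lam)) :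
    X / (2 / 5 * lam) * (l / (s' * b) - 2 * ε' / (s' * a)) * (1 / p) ≤
      X / p / (2 / 5 * lam') * (l - ε') := by
  have hal : 0 < a * lam := mul_pos ha hlam
  have hbl : 0 < b * lam := mul_pos hb hlam
  have hsa : 0 < s' * (a * lam) := mul_pos hs' hal
  have hsb : 0 < s' * (b * lam) := mul_pos hs' hbl
  have hlam' : 0 < lam' := by linarith
  have hXp : 0 ≤ X / p := div_nonneg hX hp.le
  have e1 : X / (2 / 5 * lam) * (l / (s' * b) - 2 * ε' / (s' * a)) * (1 / p) =
      X / p * l * (1 / (2 / 5 * (s' * (b * lam)))) - X / p * ε' * (1 / (2 / 5 * (s' * (a * lam) / 2))) := by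
    field_simp
  have e2 : X / p / (2 / 5 * lam') * (l - ε') =
      X / p * l * (1 / (2 / 5 * lam')) - X / p * ε' * (1 / (2 / 5 * lam')) := by
    field_simp
  rw [e1, e2]
  have h3 : 1 / (2 / 5 * (s' * (b * lam))) ≤ 1 / (2 / 5 * lam') := by
    apply one_div_le_one_div_of_le (by positivity)
    linarith
  have h4 : 1 / (2 / 5 * lam') ≤ 1 / (2 / 5 * (s' * (a * lam) / 2)) := by
    apply one_div_le_one_div_of_le (by positivity)
    linarith
  have h5 := mul_le_mul_of_nonneg_left h3 (mul_nonneg hXp hl)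
  have h6 := mul_le_mul_of_nonneg_left h4 (mul_nonneg hXp hε')
  linarith

theorem cellLoH (l s' a b : ℝ) (hl : 0 ≤ l) (hs' : 0 < s') (hL : LoH l s') (ha : 0 < a) (hab : a ≤ b)
    (hb : (1 + s') * b ≤ 1) (ε : ℝ) (hε : 0 < ε) :
    ∃ (k : ℕ) (Λ : ℝ), 1 ≤ Λ ∧ ∀ lam : ℝ, Λ ≤ lam →
    ∀ (ι : Type) (E : Finset ι) (F : ι → ℕ) (X : ℝ) (r : ℕ → ℝ), SX E F X r →
    X / (2 / 5 * lam) * (l * Real.log (b / a) / (s' * b) - ε) -
      lam ^ k * errK k r ⌊2 * Real.exp lam⌋₊ ≤
      ∑ p ∈ PC (a * lam) (b * lam), (((sift E F p).filter (fun e => p ∣ F e)).card : ℝ) := by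
  have hb0 : 0 < b := lt_of_lt_of_le ha hab
  have hl2 : 0 ≤ Real.log 2 := Real.log_nonneg (by norm_num)
  have hl21 : Real.log 2 ≤ 1 := by
    have := Real.log_two_lt_d9
    linarith
  set L : ℝ := Real.log (b / a) with hLdef
  have hL0 : 0 ≤ L := Real.log_nonneg ((one_le_div ha).mpr hab)
  have hsb1 : s' * b ≤ 1 := by
    have : (1 + s') * b = b + s' * b := by ring
    linarith
  -- choice of the small parameter
  have hcont : ContinuousAt (fun η : ℝ => l / (s' * b) * ((1 - η) * (L - η)) -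
      2 * η / (s' * a) * (L + η)) 0 := by
    have h1 : s' * a ≠ 0 := by positivity
    fun_prop (disch := assumption)
  have hev := hcont.eventually (lt_mem_nhds (show l * L / (s' * b) - ε <
      (fun η : ℝ => l / (s' * b) * ((1 - η) * (L - η)) - 2 * η / (s' * a) * (L + η)) 0 by
    simp only [sub_zero, mul_zero, zero_div, zero_mul, one_mul]
    have e1 : l / (s' * b) * L = l * L / (s' * b) := by ring
    rw [e1]
    linarith))
  have hev2 : ∀ᶠ η : ℝ in nhds 0, η < 1 := gt_mem_nhds (by norm_num)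
  obtain ⟨η, hη, hηpos⟩ := ((hev.and hev2).filter_mono nhdsWithin_le_nhds |>.and
    (self_mem_nhdsWithin (s := Set.Ioi (0 : ℝ)))).exists
  have hη0 : 0 < η := hηpos
  obtain ⟨hη1, hη2⟩ := hη
  obtain ⟨k, Λ0, hk⟩ := hL η hη0
  obtain ⟨Λ1, hΛ1⟩ := Filter.eventually_atTop.mp (M2 a b ha hab η hη0)
  refine ⟨k + 1, max (max (max 1 Λ1) (2 / a)) (max (2 * Λ0 / (s' * a)) (1 / (a * η))),
    le_trans (le_trans (le_max_left _ _) (le_max_left _ _)) (le_max_left _ _), ?_⟩
  intro lam hlam ι E F X r hSX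
  have hlam1 : 1 ≤ lam := le_trans (le_trans (le_trans (le_max_left _ _) (le_max_left _ _))
    (le_max_left _ _)) hlam
  have hlamΛ1 : Λ1 ≤ lam := le_trans (le_trans (le_trans (le_max_right _ _) (le_max_left _ _))
    (le_max_left _ _)) hlam
  have hlam2 : 2 / a ≤ lam := le_trans (le_trans (le_max_right _ _) (le_max_left _ _)) hlam
  have hlam3 : 2 * Λ0 / (s' * a) ≤ lam := le_trans (le_trans (le_max_left _ _) (le_max_right _ _)) hlam
  have hlam4 : 1 / (a * η) ≤ lam := le_trans (le_trans (le_max_right _ _) (le_max_right _ _)) hlam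
  have hlam0 : 0 < lam := by linarith
  have hal : 0 < a * lam := mul_pos ha hlam0
  have hal2 : 2 ≤ a * lam := by
    rw [div_le_iff₀ ha] at hlam2
    linarith
  have hal3 : Λ0 ≤ s' * (a * lam) / 2 := by
    rw [div_le_iff₀ (by positivity)] at hlam3
    linarith
  have hal4 : 1 / (a * lam) ≤ η := by
    rw [div_le_iff₀ (by positivity)] at hlam4
    rw [div_le_iff₀ hal]
    linarith
  obtain ⟨hT1, hT2⟩ := hΛ1 lam hlamΛ1
  have hX := hSX.X0
  have hXl : 0 ≤ X / (2 / 5 * lam) := div_nonneg hX (by positivity)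
  -- levels
  set lp : ℕ → ℝ := fun p => s' * Real.log ((p - 1 : ℕ) : ℝ) with hlp
  have hmem : ∀ p ∈ PC (a * lam) (b * lam), (p.Prime ∧ p.Coprime 10) ∧ 3 ≤ p ∧
      a * lam < Real.log p ∧ s' * (a * lam) / 2 ≤ lp p ∧ lp p ≤ s' * Real.log p ∧
      lp p ≤ s' * (b * lam) ∧ 0 ≤ lp p := by
    intro p hp
    have hp' := (mem_PC _ _ _).mp hp
    have h3 := three_le_of_prime p hp'.1.1 hp'.1.2
    have hp0 : (0 : ℝ) < p := by
      have : 0 < p := by omega
      exact_mod_cast this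
    have hpm : (0 : ℝ) < ((p - 1 : ℕ) : ℝ) := by
      have : 0 < p - 1 := by omega
      exact_mod_cast this
    have h4 : Real.log ((p - 1 : ℕ) : ℝ) ≤ Real.log p := by
      apply Real.log_le_log hpm
      have : p - 1 ≤ p := by omega
      exact_mod_cast this
    have h5 : Real.log p - Real.log 2 ≤ Real.log ((p - 1 : ℕ) : ℝ) := by
      have h6 : (p : ℝ) ≤ 2 * ((p - 1 : ℕ) : ℝ) := by
        have : p ≤ 2 * (p - 1) := by omega
        exact_mod_cast this
      have h7 := Real.log_le_log hp0 h6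
      rw [Real.log_mul (by norm_num) hpm.ne'] at h7
      linarith
    have h8 : a * lam / 2 ≤ Real.log ((p - 1 : ℕ) : ℝ) := by linarith [hp'.2.1]
    have h9 : s' * (a * lam) / 2 ≤ lp p := by
      have := mul_le_mul_of_nonneg_left h8 hs'.le
      simp only [hlp]
      linarith
    have h10 : lp p ≤ s' * Real.log p := mul_le_mul_of_nonneg_left h4 hs'.le
    have h11 : s' * Real.log p ≤ s' * (b * lam) := mul_le_mul_of_nonneg_left hp'.2.2 hs'.le
    have h12 : 0 ≤ s' * (a * lam) / 2 := by positivity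
    exact ⟨hp'.1, h3, hp'.2.1, h9, h10, h10.trans h11, h12.trans h9⟩
  -- one prime
  have hterm : ∀ p ∈ PC (a * lam) (b * lam),
      X / (2 / 5 * lam) * (l / (s' * b) - 2 * η / (s' * a)) * (1 / (p : ℝ)) -
        lam ^ k * errK k (fun q => r (p * q)) ⌊2 * Real.exp (lp p)⌋₊ ≤
      (((sift E F p).filter (fun e => p ∣ F e)).card : ℝ) := by
    intro p hp
    obtain ⟨⟨hpp, hp10⟩, h3, h4, h5, h6, h7, h8⟩ := hmem p hp
    have hp0 : (0 : ℝ) < p := by
      have : 0 < p := by omega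
      exact_mod_cast this
    have hS := SX_div E F X r hSX p hpp hp10
    have h9 := hk (lp p) (by linarith) ι (E.filter (fun e => p ∣ F e)) (fun e => F e / p) (X / p)
      (fun q => r (p * q)) hS
    have e1 : lp p / s' = Real.log ((p - 1 : ℕ) : ℝ) := by
      simp only [hlp]
      rw [mul_div_cancel_left₀ _ hs'.ne']
    rw [e1, s4_zf p (by omega)] at h9
    have h10 : ((sift (E.filter (fun e => p ∣ F e)) (fun e => F e / p) p).card : ℝ) ≤
        (((sift E F p).filter (fun e => p ∣ F e)).card : ℝ) := by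
      exact_mod_cast Finset.card_le_card (s4_sub E F p hpp)
    have h11 := s4_main l s' a b lam (lp p) η X p hl hs' ha hb0 hlam0 hX hp0 hη0.le h5 h7
    have h12 : lp p ≤ lam := by
      have : s' * (b * lam) = s' * b * lam := by ring
      have h13 : s' * b * lam ≤ 1 * lam := mul_le_mul_of_nonneg_right hsb1 hlam0.le
      linarith
    have h14 : lp p ^ k * errK k (fun q => r (p * q)) ⌊2 * Real.exp (lp p)⌋₊ ≤
        lam ^ k * errK k (fun q => r (p * q)) ⌊2 * Real.exp (lp p)⌋₊ :=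
      mul_le_mul_of_nonneg_right (pow_le_pow_left₀ h8 h12 k) (errK_nonneg k _ hS.r0 _)
    linarith
  refine le_trans ?_ (Finset.sum_le_sum hterm)
  rw [Finset.sum_sub_distrib, ← Finset.mul_sum, ← Finset.mul_sum]
  -- the error
  have herr : ∑ p ∈ PC (a * lam) (b * lam), errK k (fun q => r (p * q)) ⌊2 * Real.exp (lp p)⌋₊ ≤
      errK (k + 1) r ⌊2 * Real.exp lam⌋₊ := by
    apply errK_primes k r hSX.r0 _ (fun p hp => (hmem p hp).1)
    intro p hp
    obtain ⟨⟨hpp, hp10⟩, h3, h4, h5, h6, h7, h8⟩ := hmem p hp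
    have hp0 : (0 : ℝ) < p := by
      have : 0 < p := by omega
      exact_mod_cast this
    apply Nat.le_floor
    push_cast
    have h9 : (⌊2 * Real.exp (lp p)⌋₊ : ℝ) ≤ 2 * Real.exp (lp p) := Nat.floor_le (by positivity)
    have h10 : (p : ℝ) = Real.exp (Real.log p) := (Real.exp_log hp0).symm
    have h11 : Real.log p + lp p ≤ lam := by
      have hp' := ((mem_PC _ _ _).mp hp).2.2
      have h12 : (1 + s') * Real.log p ≤ (1 + s') * (b * lam) :=
        mul_le_mul_of_nonneg_left hp' (by linarith)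
      have h13 : (1 + s') * b * lam ≤ 1 * lam := mul_le_mul_of_nonneg_right hb hlam0.le
      have e1 : (1 + s') * (b * lam) = (1 + s') * b * lam := by ring
      have e2 : (1 + s') * Real.log p = Real.log p + s' * Real.log p := by ring
      linarith
    calc (p : ℝ) * (⌊2 * Real.exp (lp p)⌋₊ : ℝ) ≤ p * (2 * Real.exp (lp p)) :=
          mul_le_mul_of_nonneg_left h9 hp0.le
      _ = 2 * (Real.exp (Real.log p) * Real.exp (lp p)) := by
          rw [← h10]
          ring
      _ = 2 * Real.exp (Real.log p + lp p) := by rw [Real.exp_add]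
      _ ≤ 2 * Real.exp lam := by
          have := Real.exp_le_exp.mpr h11
          linarith
  have herr2 : lam ^ k * ∑ p ∈ PC (a * lam) (b * lam),
      errK k (fun q => r (p * q)) ⌊2 * Real.exp (lp p)⌋₊ ≤
      lam ^ (k + 1) * errK (k + 1) r ⌊2 * Real.exp lam⌋₊ := by
    apply mul_le_mul (pow_le_pow_right₀ hlam1 (Nat.le_succ k)) herr _ (by positivity)
    apply Finset.sum_nonneg
    intro p hp
    obtain ⟨⟨hpp, hp10⟩, _⟩ := hmem p hp
    exact errK_nonneg k _ (SX_div E F X r hSX p hpp hp10).r0 _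
  -- the main term
  set T : ℝ := ∑ p ∈ PC (a * lam) (b * lam), 1 / ((p : ℝ) - 1) with hTdef
  set U : ℝ := ∑ p ∈ PC (a * lam) (b * lam), 1 / (p : ℝ) with hUdef
  have hU1 : U ≤ T := by
    apply Finset.sum_le_sum
    intro p hp
    obtain ⟨⟨hpp, hp10⟩, h3, _⟩ := hmem p hp
    have hp3 : (3 : ℝ) ≤ p := by exact_mod_cast h3
    exact one_div_le_one_div_of_le (by linarith) (by linarith)
  have hU2 : (1 - η) * T ≤ U := by
    rw [hTdef, Finset.mul_sum]
    apply Finset.sum_le_sum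
    intro p hp
    obtain ⟨⟨hpp, hp10⟩, h3, h4, _⟩ := hmem p hp
    exact s4_cell a lam p hpp h4 η hal4 hal
  have hlsb : 0 ≤ l / (s' * b) := by positivity
  have hesa : 0 ≤ 2 * η / (s' * a) := by positivity
  have hmain : l * L / (s' * b) - ε ≤ (l / (s' * b) - 2 * η / (s' * a)) * U := by
    have h1 : (1 - η) * (L - η) ≤ U :=
      le_trans (mul_le_mul_of_nonneg_left hT2 (by linarith)) hU2
    have h2 : U ≤ L + η := hU1.trans hT1
    have h3 := mul_le_mul_of_nonneg_left h1 hlsb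
    have h4 := mul_le_mul_of_nonneg_left h2 hesa
    have h5 : (l / (s' * b) - 2 * η / (s' * a)) * U = l / (s' * b) * U - 2 * η / (s' * a) * U := by
      ring
    rw [h5]
    linarith [hη1]
  have hmain2 := mul_le_mul_of_nonneg_left hmain hXl
  rw [← mul_assoc] at hmain2
  linarith

end Pool.Agent.Helper10.EN
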