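import Pool.Agent.Helper10.EN.S1

/-! ENT-S5: the other half of Buchstab's identity (the first half is `buchstab` in
Helper10/P3/Abs3.lean). The sets on the left are disjoint subsets of the set on the right: an element of
`(sift E F p).filter (p ∣ F e)` has smallest prime factor (coprime to ten) `p`, and it is not in
`sift E F (zf y)` since `p ∈ PP (zf y)` (`mem_PP_zf`); it is in `sift E F (zf x)` since every
`q ∈ PP (zf x)` has `log q ≤ x < log p`. -/

namespace Pool.Agent.Helper10.EN

open Finset Filter Pool.Agent.Helper10 Pool.Agent.Helper10.P5 Pool.Agent.Helper10.P4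
  Pool.Agent.Helper10.P3

lemma buchstab_ge {ι : Type} (E : Finset ι) (F : ι → ℕ) (x y : ℝ) (hxy : x ≤ y) :
    ((sift E F (zf y)).card : ℝ) +
      ∑ p ∈ PC x y, (((sift E F p).filter (fun e => p ∣ F e)).card : ℝ) ≤
      ((sift E F (zf x)).card : ℝ) := by
  classical
  have hdisj : ∀ p ∈ PC x y, ∀ q ∈ PC x y, p ≠ q →
      Disjoint ((sift E F p).filter (fun e => p ∣ F e)) ((sift E F q).filter (fun e => q ∣ F e)) := by
    have key : ∀ p ∈ PC x y, ∀ q ∈ PC x y, p < q → ∀ e, e ∈ (sift E F p).filter (fun e => p ∣ F e) →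
        e ∉ (sift E F q).filter (fun e => q ∣ F e) := by
      intro p hp q hq hpq e he he'
      unfold sift at he he'
      rw [Finset.mem_filter, Finset.mem_filter] at he he'
      have hp1 := (mem_PC x y p).1 hp
      exact he'.1.2 p ((mem_PP q p).2 ⟨hpq, hp1.1.1, hp1.1.2⟩) he.2
    intro p hp q hq hpq
    rw [Finset.disjoint_left]
    intro e he he'
    rcases lt_or_gt_of_ne hpq with h | h
    · exact key p hp q hq h e he he'
    · exact key q hq p hp h e he' he
  have hcard : ((PC x y).biUnion (fun p => (sift E F p).filter (fun e => p ∣ F e))).card =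
      ∑ p ∈ PC x y, ((sift E F p).filter (fun e => p ∣ F e)).card :=
    Finset.card_biUnion hdisj
  have hd2 : Disjoint (sift E F (zf y))
      ((PC x y).biUnion (fun p => (sift E F p).filter (fun e => p ∣ F e))) := by
    rw [Finset.disjoint_left]
    intro e he he'
    rw [Finset.mem_biUnion] at he'
    obtain ⟨p, hp, he'⟩ := he'
    rw [Finset.mem_filter] at he'
    unfold sift at he
    rw [Finset.mem_filter] at he
    have hp1 := (mem_PC x y p).1 hp
    exact he.2 p ((mem_PP_zf y p).2 ⟨hp1.1, hp1.2.2⟩) he'.2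
  have hsub : sift E F (zf y) ∪
      (PC x y).biUnion (fun p => (sift E F p).filter (fun e => p ∣ F e)) ⊆ sift E F (zf x) := by
    intro e he
    rw [Finset.mem_union, Finset.mem_biUnion] at he
    rcases he with he | ⟨p, hp, he⟩
    · unfold sift at he ⊢
      rw [Finset.mem_filter] at he ⊢
      refine ⟨he.1, fun q hq => he.2 q ?_⟩
      have hq1 := (mem_PP_zf x q).1 hq
      exact (mem_PP_zf y q).2 ⟨hq1.1, hq1.2.trans hxy⟩
    · unfold sift at he ⊢
      rw [Finset.mem_filter, Finset.mem_filter] at he
      rw [Finset.mem_filter]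
      refine ⟨he.1.1, fun q hq => he.1.2 q ?_⟩
      have hq1 := (mem_PP_zf x q).1 hq
      have hp1 := (mem_PC x y p).1 hp
      refine (mem_PP p q).2 ⟨?_, hq1.1.1, hq1.1.2⟩
      have h1 : Real.log q < Real.log p := lt_of_le_of_lt hq1.2 hp1.2.1
      have hq0 : (0 : ℝ) < q := by exact_mod_cast hq1.1.1.pos
      have h2 := (Real.log_lt_log_iff hq0 (by exact_mod_cast hp1.1.1.pos)).1 h1
      exact_mod_cast h2
  have h := Finset.card_le_card hsub
  rw [Finset.card_union_of_disjoint hd2, hcard] at h
  exact_mod_cast h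

end Pool.Agent.Helper10.EN
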