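import Pool.Agent.Helper10.EN.S3
import Pool.Agent.Helper10.EN.S4
import Pool.Agent.Helper10.EN.S5

/-! ENT-S6: one step of Buchstab's recursion on the mesh `k / M`.

`stepLo`: with `a0 = M / (k + 1)`, `b0 = M / k`, `s' = (k + 1 - M) / M`: `buchstab` (P3/Abs3) between
`x = a0 * lam` and `y = b0 * lam`; note `lam / ((k + 1) / M) = a0 * lam`, `lam / (k / M) = b0 * lam`
(`(((k + 1 : ℕ) : ℝ) / M)` in the denominators). For `p` with `log p > a0 * lam` one has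
`(lam - log p) / s' < log p`, so `PP (zf ((lam - log p) / s')) ⊆ PP p` and `cellUpH` applies to
`E' p = (sift E F p).filter (p ∣ F e)`. `log (b0 / a0) / (1 - b0) = log ((k + 1) / k) * k / (k - M) ≤
(2 * k + 1) / (2 * (k - M) * (k + 1))` (for the logarithm see `lc_le` in P3/Num3b.lean).

`stepUp`: `buchstab_ge` (S5) and `cellLoH` with `s' = (k - M) / M`, `b0 = M / k`, `(1 + s') * b0 = 1`,
`s' * b0 = (k - M) / k`; `log ((k + 1) / k) ≥ 2 / (2 * k + 1)` (`lc_ge` in P3/Num3b.lean). -/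

namespace Pool.Agent.Helper10.EN

open Finset Filter Pool.Agent.Helper10 Pool.Agent.Helper10.P5 Pool.Agent.Helper10.P4
  Pool.Agent.Helper10.P3

private lemma log_step_le (n : ℝ) (hn0 : 0 < n) :
    Real.log ((n + 1) / n) ≤ (2 * n + 1) / (2 * n * (n + 1)) := by
  have hx : 0 < (n + 1) / n := by positivity
  have hlog : 0 ≤ Real.log ((n + 1) / n) := by
    apply Real.log_nonneg
    rw [le_div_iff₀ hn0]
    linarith
  have h1 := Real.self_le_sinh_iff.mpr hlog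
  rw [Real.sinh_log hx] at h1
  refine h1.trans (le_of_eq ?_)
  field_simp
  ring

private lemma log_step_ge (n : ℝ) (hn0 : 0 < n) :
    2 / (2 * n + 1) ≤ Real.log ((n + 1) / n) := by
  have h1 := Real.le_log_one_add_of_nonneg (x := 1 / n) (by positivity)
  have e1 : 1 + 1 / n = (n + 1) / n := by field_simp
  rw [e1] at h1
  refine le_trans (le_of_eq ?_) h1
  field_simp
  ring

/-- two error terms in one -/
private lemma err_two (k1 k2 : ℕ) (lam : ℝ) (hl : 2 ≤ lam) (r : ℕ → ℝ) (hr : ∀ q, 0 ≤ r q) (Q : ℕ) :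
    lam ^ k1 * errK k1 r Q + lam ^ k2 * errK k2 r Q ≤
      lam ^ (max k1 k2 + 1) * errK (max k1 k2 + 1) r Q := by
  have h1 := err_le k1 (max k1 k2) (le_max_left _ _) lam (by linarith) r hr Q Q le_rfl
  have h2 := err_le k2 (max k1 k2) (le_max_right _ _) lam (by linarith) r hr Q Q le_rfl
  have h3 := errK_mono (max k1 k2) (max k1 k2 + 1) (Nat.le_succ _) r hr Q Q le_rfl
  have h4 := errK_nonneg (max k1 k2) r hr Q
  have h5 : 0 ≤ lam ^ (max k1 k2) := by positivity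
  have h6 : 2 * (lam ^ (max k1 k2) * errK (max k1 k2) r Q) ≤
      lam * (lam ^ (max k1 k2) * errK (max k1 k2) r Q) :=
    mul_le_mul_of_nonneg_right hl (mul_nonneg h5 h4)
  have h7 : lam ^ (max k1 k2 + 1) * errK (max k1 k2) r Q ≤
      lam ^ (max k1 k2 + 1) * errK (max k1 k2 + 1) r Q :=
    mul_le_mul_of_nonneg_left h3 (by positivity)
  have h8 : lam * (lam ^ (max k1 k2) * errK (max k1 k2) r Q) =
      lam ^ (max k1 k2 + 1) * errK (max k1 k2) r Q := by ring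
  linarith

theorem stepLo (M k : ℕ) (hM : 1 ≤ M) (hk : M < k) (a h a' : ℝ) (hh : 0 ≤ h)
    (hL : LoH a (((k + 1 : ℕ) : ℝ) / M)) (hU : UpH h (((k + 1 - M : ℕ) : ℝ) / M))
    (ha' : a' ≤ a - h * ((2 * k + 1) / (2 * ((k : ℝ) - M) * (k + 1)))) :
    LoH a' ((k : ℝ) / M) := by
  have hM0 : (0 : ℝ) < M := by exact_mod_cast hM
  have hkM : (M : ℝ) < k := by exact_mod_cast hk
  have hk0 : (0 : ℝ) < k := by linarith
  have hs' : (0 : ℝ) < ((k + 1 - M : ℕ) : ℝ) / M := by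
    apply div_pos _ hM0
    have : 0 < k + 1 - M := by omega
    exact_mod_cast this
  have hs'e : ((k + 1 - M : ℕ) : ℝ) = (k : ℝ) + 1 - M := by
    rw [Nat.cast_sub (by omega)]
    push_cast
    ring
  have ha0 : (0 : ℝ) < (M : ℝ) / ((k : ℝ) + 1) := by positivity
  have hab : (M : ℝ) / ((k : ℝ) + 1) ≤ (M : ℝ) / k := by
    apply div_le_div_of_nonneg_left hM0.le hk0
    linarith
  have hb1 : (M : ℝ) / k < 1 := by
    rw [div_lt_one hk0]
    exact hkM
  intro ε hε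
  obtain ⟨k2, Λ2, hΛ2, h2⟩ := cellUpH h (((k + 1 - M : ℕ) : ℝ) / M) ((M : ℝ) / ((k : ℝ) + 1))
    ((M : ℝ) / k) hh hs' hU ha0 hab hb1 (ε / 2) (half_pos hε)
  obtain ⟨k1, Λ1, hΛ1, h1⟩ := LoH_iff a (((k + 1 : ℕ) : ℝ) / M) hL (ε / 2) (half_pos hε)
  refine ⟨max k1 k2 + 1, max (max Λ1 Λ2) 2, fun lam hlam ι E F X r hSX => ?_⟩
  have hl1 : Λ1 ≤ lam := le_trans (le_trans (le_max_left _ _) (le_max_left _ _)) hlam
  have hl2 : Λ2 ≤ lam := le_trans (le_trans (le_max_right _ _) (le_max_left _ _)) hlam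
  have hl3 : 2 ≤ lam := le_trans (le_max_right _ _) hlam
  have hlam0 : 0 < lam := by linarith
  have g1 := h1 lam hl1 ι E F X r hSX k1 le_rfl _ le_rfl
  have g2 := h2 lam hl2 ι E F X r hSX (fun p => (sift E F p).filter (fun e => p ∣ F e)) (by
    intro p hp
    have hp' := (mem_PC _ _ _).mp hp
    refine ⟨(Finset.filter_subset _ _).trans (Finset.filter_subset _ _), ?_⟩
    intro e he
    unfold sift at he
    rw [Finset.mem_filter, Finset.mem_filter] at he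
    refine ⟨he.2, ?_⟩
    intro q hq
    apply he.1.2 q
    rw [mem_PP] at hq ⊢
    refine ⟨lt_of_lt_of_le hq.1 (zf_le _ _ hp'.1.1.pos ?_), hq.2⟩
    rw [div_lt_iff₀ hs', hs'e]
    have h3 : (M : ℝ) / ((k : ℝ) + 1) * lam < Real.log p := hp'.2.1
    rw [div_mul_eq_mul_div, div_lt_iff₀ (by linarith)] at h3
    rw [← mul_div_assoc, lt_div_iff₀ hM0]
    nlinarith)
  have hx : lam / (((k + 1 : ℕ) : ℝ) / M) = (M : ℝ) / ((k : ℝ) + 1) * lam := by
    push_cast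
    field_simp
  have hy : lam / ((k : ℝ) / M) = (M : ℝ) / k * lam := by field_simp
  rw [hx] at g1
  rw [hy]
  have g3 := buchstab E F ((M : ℝ) / ((k : ℝ) + 1) * lam) ((M : ℝ) / k * lam)
  have g4 := err_two k1 k2 lam hl3 r hSX.r0 ⌊2 * Real.exp lam⌋₊
  have hX : 0 ≤ X / (2 / 5 * lam) := div_nonneg hSX.X0 (by positivity)
  have hlog : Real.log ((M : ℝ) / k / ((M : ℝ) / ((k : ℝ) + 1))) / (1 - (M : ℝ) / k) ≤
      (2 * k + 1) / (2 * ((k : ℝ) - M) * (k + 1)) := by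
    have e1 : (M : ℝ) / k / ((M : ℝ) / ((k : ℝ) + 1)) = ((k : ℝ) + 1) / k := by field_simp
    have hkM' : 0 < (k : ℝ) - M := by linarith
    have e2 : 1 - (M : ℝ) / k = ((k : ℝ) - M) / k := by field_simp
    rw [e1, e2, div_le_iff₀ (by positivity)]
    refine (log_step_le k hk0).trans (le_of_eq ?_)
    field_simp
  have g5 : h * Real.log ((M : ℝ) / k / ((M : ℝ) / ((k : ℝ) + 1))) / (1 - (M : ℝ) / k) ≤
      h * ((2 * k + 1) / (2 * ((k : ℝ) - M) * (k + 1))) := by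
    rw [mul_div_assoc]
    exact mul_le_mul_of_nonneg_left hlog hh
  have g6 : X / (2 / 5 * lam) * (a' - ε) ≤ X / (2 / 5 * lam) * (a - ε / 2) -
      X / (2 / 5 * lam) * (h * Real.log ((M : ℝ) / k / ((M : ℝ) / ((k : ℝ) + 1))) /
        (1 - (M : ℝ) / k) + ε / 2) := by
    rw [← mul_sub]
    apply mul_le_mul_of_nonneg_left _ hX
    linarith
  linarith

theorem stepUp (M k : ℕ) (hM : 1 ≤ M) (hk : M < k) (b l b' : ℝ) (hl : 0 ≤ l)
    (hU : UpH b (((k + 1 : ℕ) : ℝ) / M)) (hL : LoH l (((k - M : ℕ) : ℝ) / M))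
    (hb' : b - l * (2 * k / (((k : ℝ) - M) * (2 * k + 1))) ≤ b') :
    UpH b' ((k : ℝ) / M) := by
  have hM0 : (0 : ℝ) < M := by exact_mod_cast hM
  have hkM : (M : ℝ) < k := by exact_mod_cast hk
  have hk0 : (0 : ℝ) < k := by linarith
  have hkM' : 0 < (k : ℝ) - M := by linarith
  have hs' : (0 : ℝ) < ((k - M : ℕ) : ℝ) / M := by
    apply div_pos _ hM0
    have : 0 < k - M := by omega
    exact_mod_cast this
  have hs'e : ((k - M : ℕ) : ℝ) = (k : ℝ) - M := Nat.cast_sub hk.le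
  have ha0 : (0 : ℝ) < (M : ℝ) / ((k : ℝ) + 1) := by positivity
  have hab : (M : ℝ) / ((k : ℝ) + 1) ≤ (M : ℝ) / k := by
    apply div_le_div_of_nonneg_left hM0.le hk0
    linarith
  have hb1 : (1 + ((k - M : ℕ) : ℝ) / M) * ((M : ℝ) / k) ≤ 1 := by
    rw [hs'e]
    apply le_of_eq
    field_simp
    ring
  intro ε hε
  obtain ⟨k2, Λ2, hΛ2, h2⟩ := cellLoH l (((k - M : ℕ) : ℝ) / M) ((M : ℝ) / ((k : ℝ) + 1))
    ((M : ℝ) / k) hl hs' hL ha0 hab hb1 (ε / 2) (half_pos hε)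
  obtain ⟨k1, Λ1, hΛ1, h1⟩ := UpH_iff b (((k + 1 : ℕ) : ℝ) / M) hU (ε / 2) (half_pos hε)
  refine ⟨max k1 k2 + 1, max (max Λ1 Λ2) 2, fun lam hlam ι E F X r hSX => ?_⟩
  have hl1 : Λ1 ≤ lam := le_trans (le_trans (le_max_left _ _) (le_max_left _ _)) hlam
  have hl2 : Λ2 ≤ lam := le_trans (le_trans (le_max_right _ _) (le_max_left _ _)) hlam
  have hl3 : 2 ≤ lam := le_trans (le_max_right _ _) hlam
  have hlam0 : 0 < lam := by linarith
  have g1 := h1 lam hl1 ι E F X r hSX k1 le_rfl _ le_rfl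
  have g2 := h2 lam hl2 ι E F X r hSX
  have hx : lam / (((k + 1 : ℕ) : ℝ) / M) = (M : ℝ) / ((k : ℝ) + 1) * lam := by
    push_cast
    field_simp
  have hy : lam / ((k : ℝ) / M) = (M : ℝ) / k * lam := by field_simp
  rw [hx] at g1
  rw [hy]
  have g3 := buchstab_ge E F ((M : ℝ) / ((k : ℝ) + 1) * lam) ((M : ℝ) / k * lam)
    (mul_le_mul_of_nonneg_right hab hlam0.le)
  have g4 := err_two k1 k2 lam hl3 r hSX.r0 ⌊2 * Real.exp lam⌋₊
  have hX : 0 ≤ X / (2 / 5 * lam) := div_nonneg hSX.X0 (by positivity)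
  have g5 : l * (2 * k / (((k : ℝ) - M) * (2 * k + 1))) ≤
      l * Real.log ((M : ℝ) / k / ((M : ℝ) / ((k : ℝ) + 1))) /
        (((k - M : ℕ) : ℝ) / M * ((M : ℝ) / k)) := by
    have e1 : (M : ℝ) / k / ((M : ℝ) / ((k : ℝ) + 1)) = ((k : ℝ) + 1) / k := by field_simp
    have e2 : ((k - M : ℕ) : ℝ) / M * ((M : ℝ) / k) = ((k : ℝ) - M) / k := by
      rw [hs'e]
      field_simp
    rw [e1, e2, mul_div_assoc l (Real.log (((k : ℝ) + 1) / k))]
    apply mul_le_mul_of_nonneg_left _ hl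
    rw [le_div_iff₀ (by positivity)]
    refine le_trans (le_of_eq ?_) (log_step_ge k hk0)
    field_simp
  have g6 : X / (2 / 5 * lam) * (b + ε / 2) - X / (2 / 5 * lam) *
      (l * Real.log ((M : ℝ) / k / ((M : ℝ) / ((k : ℝ) + 1))) /
        (((k - M : ℕ) : ℝ) / M * ((M : ℝ) / k)) - ε / 2) ≤ X / (2 / 5 * lam) * (b' + ε) := by
    rw [← mul_sub]
    apply mul_le_mul_of_nonneg_left _ hX
    linarith
  linarith

end Pool.Agent.Helper10.EN
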