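import Pool.Agent.Helper10.EN.S1

/-! ENT-S7: the upper function given by Selberg's sieve.

`W = wf (lam / 2)`, `z = zf (lam / s)`, profile `yS W z` (P4/Low4.lean): every sifted `e` has
`wt5 W (yS W z) (F e) = 1` (`wt5_yS`, P3/Low3.lean); `sum_wt5_approx` (P5/Sv.lean) with `m = 1`,
`Q0_lm`, `yS_Q0`: the number of sifted elements is at most `X / GS W z + B ^ 2 * ∑ r (lcm ...)`, and the
last sum is at most `errTot r (W * W * 1) = errK 3 r (W * W)` by `err_regroup` with `M = {1}` (see the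
proof of `upper_sieve` at the end of Helper10/SieveMain.lean); `W * W ≤ exp lam`, `B = C * lam ^ 2`
from `lm_yS_abs` (P3/Cell.lean). Lower bound for `GS W z` from `LowP` as in `cellS` (P3/Cell.lean):
`(j / N) * log z ≤ (s / 2) * (lam / s + log 2) = lam / 2 + (s / 2) * log 2`, `log W ≥ lam / 2 - log 2`,
`log z ≥ lam / s`. Note `X / (2 / 5 * (lam / s) * (L - η)) = X / (2 / 5 * lam) * (s / (L - η))`. -/

namespace Pool.Agent.Helper10.EN

open Finset Filter Pool.Agent.Helper10 Pool.Agent.Helper10.P5 Pool.Agent.Helper10.P4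
  Pool.Agent.Helper10.P3

/-- the upper bound sieve with the smooth profile -/
private lemma s7_up {ι : Type} (E : Finset ι) (F : ι → ℕ) (X : ℝ) (r : ℕ → ℝ) (hSX : SX E F X r)
    (W z : ℕ) (hW : 1 ≤ W) (B : ℝ) (hB : ∀ d ∈ DD W, |lm W (yS W z) d| ≤ B) :
    ((sift E F z).card : ℝ) ≤ X / GS W z + B ^ 2 * errK 3 r (W * W) := by
  classical
  have h1 : ((sift E F z).card : ℝ) ≤ ∑ e ∈ E.filter (fun e => 1 ∣ F e), wt5 W (yS W z) (F e) ^ 2 := by
    have e1 : ((sift E F z).card : ℝ) = ∑ e ∈ sift E F z, wt5 W (yS W z) (F e) ^ 2 := by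
      have e2 : ∀ e ∈ sift E F z, wt5 W (yS W z) (F e) ^ 2 = 1 := by
        intro e he
        unfold sift at he
        rw [Finset.mem_filter] at he
        rw [wt5_yS W z (F e) hW he.2]
        norm_num
      rw [Finset.sum_congr rfl e2]
      simp
    rw [e1]
    apply Finset.sum_le_sum_of_subset_of_nonneg
    · intro e he
      unfold sift at he
      rw [Finset.mem_filter] at he
      exact Finset.mem_filter.mpr ⟨he.1, one_dvd _⟩
    · intro _ _ _
      exact sq_nonneg _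
  have h2 := sum_wt5_approx E F X r hSX.hr W 1 (yS W z) B hB (by norm_num) (Nat.coprime_one_left 10)
  have h3 := (abs_le.mp h2).2
  have h4 : ∑ d1 ∈ DD W, ∑ d2 ∈ DD W, r (Nat.lcm (Nat.lcm d1 d2) 1) ≤ errK 3 r (W * W) := by
    have := err_regroup r hSX.r0 W 1 {1} (by
      intro m hm
      rw [Finset.mem_singleton] at hm
      subst hm
      exact ⟨le_refl _, le_refl _, Nat.coprime_one_left 10⟩)
    rw [Finset.sum_singleton, mul_one, errTot_eq] at this
    exact this
  have e0 : ∑ d1 ∈ DD W, ∑ d2 ∈ DD W, lm W (yS W z) d1 * lm W (yS W z) d2 /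
        ((Nat.lcm (Nat.lcm d1 d2) 1 : ℕ) : ℝ) = 1 / GS W z := by
    rw [← yS_Q0 W z hW, ← Q0_lm W (yS W z)]
    apply Finset.sum_congr rfl
    intro d1 _
    apply Finset.sum_congr rfl
    intro d2 _
    rw [Nat.lcm_one_right]
  rw [e0] at h3
  have h5 : X * (1 / GS W z) = X / GS W z := by ring
  have h6 := mul_le_mul_of_nonneg_left h4 (sq_nonneg B)
  linarith

theorem baseUp (N j : ℕ) (L s : ℝ) (hLow : LowP N j L) (hL : 0 < L) (hs : 0 < s)
    (hj : (j : ℝ) / N ≤ s / 2) : UpH (s / L) s := by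
  intro ε hε
  obtain ⟨C2, hC2, hlm⟩ := lm_yS_abs
  have hjN : 0 ≤ (j : ℝ) / N := by positivity
  have hl2 : 0 ≤ Real.log 2 := Real.log_nonneg (by norm_num)
  obtain ⟨η, hη0, hη1, hη2⟩ : ∃ η : ℝ, 0 < η ∧ η ≤ L / 2 ∧ s / (L - η) ≤ s / L + ε := by
    refine ⟨min (L / 2) (ε * L ^ 2 / (2 * s)), lt_min (by positivity) (by positivity),
      min_le_left _ _, ?_⟩
    set η := min (L / 2) (ε * L ^ 2 / (2 * s)) with hη
    have h1 : η ≤ L / 2 := min_le_left _ _
    have h2 : η ≤ ε * L ^ 2 / (2 * s) := min_le_right _ _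
    have h0 : 0 < η := lt_min (by positivity) (by positivity)
    have h3 : 0 < L - η := by linarith
    rw [div_le_iff₀ h3]
    rw [le_div_iff₀ (by positivity)] at h2
    have h4 : (s / L + ε) * (L - η) = s + (ε * (L - η) - s / L * η) := by
      field_simp
      ring
    rw [h4]
    have h5 : s / L * η ≤ ε * (L / 2) := by
      rw [div_mul_eq_mul_div, div_le_iff₀ hL]
      nlinarith
    have h6 : ε * (L / 2) ≤ ε * (L - η) := mul_le_mul_of_nonneg_left (by linarith) hε.le
    linarith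
  obtain ⟨z0, hz0⟩ := hLow η hη0 (s / 2 * Real.log 2 + Real.log 2)
  refine ⟨5, max (max 1 (C2 ^ 2)) (s * Real.log (z0 + 1)), fun lam hlam ι E F X r hSX => ?_⟩
  have hlam1 : 1 ≤ lam := le_trans (le_trans (le_max_left _ _) (le_max_left _ _)) hlam
  have hlam2 : C2 ^ 2 ≤ lam := le_trans (le_trans (le_max_right _ _) (le_max_left _ _)) hlam
  have hlam3 : s * Real.log (z0 + 1) ≤ lam := le_trans (le_max_right _ _) hlam
  have hlam0 : 0 < lam := by linarith
  have hwl : 0 ≤ 1 / 2 * lam := by positivity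
  obtain ⟨hW1, hW2, hW3⟩ := log_floor_exp (1 / 2 * lam) hwl
  have hvl : 0 ≤ lam / s := by positivity
  obtain ⟨hz1, hz2⟩ := log_zf (lam / s) hvl
  set W := wf (1 / 2 * lam) with hW
  set z := zf (lam / s) with hz
  have hWeq : W = ⌊Real.exp (1 / 2 * lam)⌋₊ := rfl
  rw [← hWeq] at hW1 hW2 hW3
  have hzz0 : z0 ≤ z := by
    have h1 : Real.log (z0 + 1) ≤ Real.log z := by
      have : Real.log (z0 + 1) ≤ lam / s := by
        rw [le_div_iff₀ hs]
        linarith
      linarith
    have hzpos : (0 : ℝ) < z := by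
      rw [hz]
      unfold zf
      positivity
    have h2 := (Real.log_le_log_iff (by positivity) hzpos).mp h1
    have h3 : (z0 : ℝ) ≤ z := by linarith
    exact_mod_cast h3
  have hGS : 2 / 5 * (lam / s) * (L - η) ≤ GS W z := by
    have h1 := hz0 z hzz0 W hW1 (by
      have h2 : (j : ℝ) / N * Real.log z ≤ s / 2 * (lam / s + Real.log 2) := by
        apply mul_le_mul hj hz2 _ (by positivity)
        linarith
      have h3 : s / 2 * (lam / s + Real.log 2) = 1 / 2 * lam + s / 2 * Real.log 2 := by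
        field_simp
      linarith)
    refine le_trans ?_ h1
    apply mul_le_mul_of_nonneg_right _ (by linarith)
    linarith
  have hLη : 0 < L - η := by linarith
  have hGS0 : 0 < 2 / 5 * (lam / s) * (L - η) := by positivity
  have hBle : ∀ d ∈ DD W, |lm W (yS W z) d| ≤ C2 * lam ^ 2 := fun d hd =>
    hlm lam (1 / 2) hlam1 (by norm_num) (by norm_num) z d hd
  have h1 := s7_up E F X r hSX W z hW1 (C2 * lam ^ 2) hBle
  have h2 : X / GS W z ≤ X / (2 / 5 * lam) * (s / L + ε) := by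
    calc X / GS W z ≤ X / (2 / 5 * (lam / s) * (L - η)) :=
          div_le_div_of_nonneg_left hSX.X0 hGS0 hGS
      _ = X / (2 / 5 * lam) * (s / (L - η)) := by
          field_simp
      _ ≤ X / (2 / 5 * lam) * (s / L + ε) :=
          mul_le_mul_of_nonneg_left hη2 (div_nonneg hSX.X0 (by positivity))
  have h3 : (C2 * lam ^ 2) ^ 2 ≤ lam ^ 5 := by
    calc (C2 * lam ^ 2) ^ 2 = C2 ^ 2 * lam ^ 4 := by ring
      _ ≤ lam * lam ^ 4 := mul_le_mul_of_nonneg_right hlam2 (by positivity)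
      _ = lam ^ 5 := by ring
  have h4 : W * W ≤ ⌊2 * Real.exp lam⌋₊ := by
    apply Nat.le_floor
    push_cast
    have a1 : (W : ℝ) ≤ Real.exp (1 / 2 * lam) := Nat.floor_le (Real.exp_pos _).le
    have a3 : Real.exp (1 / 2 * lam) * Real.exp (1 / 2 * lam) = Real.exp lam := by
      rw [← Real.exp_add]
      congr 1
      ring
    calc (W : ℝ) * W ≤ Real.exp (1 / 2 * lam) * Real.exp (1 / 2 * lam) :=
          mul_le_mul a1 a1 (Nat.cast_nonneg _) (Real.exp_pos _).le
      _ = Real.exp lam := a3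
      _ ≤ 2 * Real.exp lam := by linarith [Real.exp_pos lam]
  have h5 : (C2 * lam ^ 2) ^ 2 * errK 3 r (W * W) ≤ lam ^ 5 * errK 5 r ⌊2 * Real.exp lam⌋₊ :=
    mul_le_mul h3 (errK_mono 3 5 (by norm_num) r hSX.r0 _ _ h4) (errK_nonneg 3 r hSX.r0 _)
      (by positivity)
  linarith

end Pool.Agent.Helper10.EN
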