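import Pool.Agent.Helper10.P3.Num3b

/-! ENT-S8a: slope inequality for the sums over smooth numbers.

Proof. `GS W' z - GS W z = ∑ 1 / φ(k)` over `k ∈ DS W' z` with `W < k`. Hence
`log W * (GS W' z - GS W z) ≤ ∑ (1 / φ(k)) * log k`, and `log k = ∑ log p` over the primes `p ∣ k`
(`k` squarefree: `Real.log_nat_eq_sum_factorization` or `Real.log` of `Nat.prod_primeFactors_of_squarefree`).
Write `k = p * m`: `φ(k) = (p - 1) * φ(m)`, `m ∈ DS W' z`, and `W < p * m ≤ W'`, `p < z`, so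
`m ∉ DS (W / z) z` (if `m ≤ W / z` then `m * z ≤ W`). So the sum is at most
`∑ m ∈ DS W' z \ DS (W / z) z, (1 / φ(m)) * ∑ log p / (p - 1)` over the primes `p` coprime to ten with
`W < p * m ≤ W'`; these lie in `PC x y` with `x = max 0 (log W - log m)`, `y = log W' - log m`
(`x ≤ y` as `m ≤ W'`, `W ≤ W'`), and `M1` (P3/Primes.lean) bounds the inner sum by `y - x + C ≤
log W' - log W + C`. (Model for the rearrangement: `GS_lower` at the end of P4/Low4.lean and
P3/GSplit.lean.) -/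

namespace Pool.Agent.Helper10.EN

open Finset Filter Pool.Agent.Helper10 Pool.Agent.Helper10.P5 Pool.Agent.Helper10.P4
  Pool.Agent.Helper10.P3

lemma s8a_log (k : ℕ) (hk : Squarefree k) :
    Real.log k = ∑ p ∈ k.primeFactors, Real.log p := by
  have h := Nat.prod_primeFactors_of_squarefree hk
  conv_lhs => rw [← h]
  rw [Nat.cast_prod, Real.log_prod]
  intro p hp
  have := (Nat.prime_of_mem_primeFactors hp).pos
  positivity

lemma s8a_tot (k p : ℕ) (hk : Squarefree k) (hp : p.Prime) (hpk : p ∣ k) :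
    (Nat.totient k : ℝ) = ((p : ℝ) - 1) * (Nat.totient (k / p) : ℝ) := by
  obtain ⟨l, rfl⟩ := hpk
  rw [Nat.mul_div_cancel_left l hp.pos]
  have hcop : Nat.Coprime p l := Nat.coprime_of_squarefree_mul hk
  rw [Nat.totient_mul hcop, Nat.totient_prime hp]
  push_cast
  rw [Nat.cast_sub hp.pos]
  push_cast
  rfl

theorem slope : ∃ C : ℝ, 0 ≤ C ∧ ∀ W W' z : ℕ, 1 ≤ W → W ≤ W' →
    Real.log W * (GS W' z - GS W z) ≤
      (Real.log W' - Real.log W + C) * (GS W' z - GS (W / z) z) := by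
  classical
  obtain ⟨C, hC, hM⟩ := M1
  refine ⟨C, hC, ?_⟩
  intro W W' z hW hWW
  obtain ⟨D, hD⟩ : ∃ D, D = DS W' z \ DS W z := ⟨_, rfl⟩
  obtain ⟨T, hT⟩ : ∃ T, T = DS W' z \ DS (W / z) z := ⟨_, rfl⟩
  have hW0 : (1 : ℝ) ≤ W := by exact_mod_cast hW
  have hW'0 : (1 : ℝ) ≤ W' := by exact_mod_cast hW.trans hWW
  have hsub : ∀ V, V ≤ W' → DS V z ⊆ DS W' z := by
    intro V hV k hk
    rw [mem_DS] at hk ⊢
    exact ⟨DD_mono V W' hV hk.1, hk.2⟩
  have hGD : GS W' z - GS W z = ∑ k ∈ D, 1 / (Nat.totient k : ℝ) := by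
    unfold GS
    rw [hD, sub_eq_iff_eq_add]
    exact (Finset.sum_sdiff (hsub W hWW)).symm
  have hGT : GS W' z - GS (W / z) z = ∑ k ∈ T, 1 / (Nat.totient k : ℝ) := by
    unfold GS
    rw [hT, sub_eq_iff_eq_add]
    exact (Finset.sum_sdiff (hsub (W / z) ((Nat.div_le_self W z).trans hWW))).symm
  have hDmem : ∀ k ∈ D, ((1 ≤ k ∧ k ≤ W') ∧ Squarefree k ∧ k.Coprime 10) ∧ Smo z k ∧ W < k := by
    intro k hk
    rw [hD, Finset.mem_sdiff, mem_DS, mem_DS, mem_DD, mem_DD] at hk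
    refine ⟨hk.1.1, hk.1.2, ?_⟩
    by_contra hcon
    exact hk.2 ⟨⟨⟨hk.1.1.1.1, by omega⟩, hk.1.1.2⟩, hk.1.2⟩
  obtain ⟨X, hX⟩ : ∃ X : ℕ → ℝ, X = fun m => max 0 (Real.log W - Real.log (m : ℕ)) := ⟨_, rfl⟩
  obtain ⟨Y, hY⟩ : ∃ Y : ℕ → ℝ, Y = fun m => Real.log W' - Real.log (m : ℕ) := ⟨_, rfl⟩
  obtain ⟨g, hg⟩ : ∃ g : (_ : ℕ) × ℕ → ℝ, g = fun x =>
    (1 / (Nat.totient x.1 : ℝ)) * (Real.log x.2 / ((x.2 : ℝ) - 1)) := ⟨_, rfl⟩
  -- each term
  have h1 : Real.log W * (GS W' z - GS W z) ≤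
      ∑ k ∈ D, ∑ p ∈ k.primeFactors, g ⟨k / p, p⟩ := by
    rw [hGD, Finset.mul_sum]
    refine Finset.sum_le_sum fun k hk => ?_
    obtain ⟨⟨⟨hk1, hk2⟩, hk3, hk4⟩, hk5, hk6⟩ := hDmem k hk
    have e1 : ∑ p ∈ k.primeFactors, g ⟨k / p, p⟩ = Real.log k * (1 / (Nat.totient k : ℝ)) := by
      rw [s8a_log k hk3, Finset.sum_mul]
      refine Finset.sum_congr rfl fun p hp => ?_
      have hpp := Nat.prime_of_mem_primeFactors hp
      have hpk := Nat.dvd_of_mem_primeFactors hp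
      have hp1 : (1 : ℝ) < p := by exact_mod_cast hpp.one_lt
      have hp2 : (p : ℝ) - 1 ≠ 0 := by linarith
      rw [hg, s8a_tot k p hk3 hpp hpk]
      simp only
      have hm : 0 < k / p := Nat.div_pos (Nat.le_of_dvd (by omega) hpk) hpp.pos
      have hm2 : (Nat.totient (k / p) : ℝ) ≠ 0 := by
        have := Nat.totient_pos.mpr hm
        positivity
      field_simp
    rw [e1]
    refine mul_le_mul_of_nonneg_right ?_ (by positivity)
    refine Real.log_le_log (by linarith) ?_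
    exact_mod_cast hk6.le
  -- rearrangement
  have h2 : ∑ k ∈ D, ∑ p ∈ k.primeFactors, g ⟨k / p, p⟩ ≤
      ∑ m ∈ T, ∑ p ∈ PC (X m) (Y m), g ⟨m, p⟩ := by
    rw [Finset.sum_sigma', Finset.sum_sigma']
    have himg : ∑ x ∈ D.sigma (fun k => k.primeFactors), g ⟨x.1 / x.2, x.2⟩ =
        ∑ x ∈ (D.sigma (fun k => k.primeFactors)).image
          (fun x : (_ : ℕ) × ℕ => (⟨x.1 / x.2, x.2⟩ : (_ : ℕ) × ℕ)), g x := by
      rw [Finset.sum_image]
      intro x hx y hy hxy
      rw [Finset.mem_coe, Finset.mem_sigma] at hx hy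
      obtain ⟨k, p⟩ := x
      obtain ⟨l, q⟩ := y
      simp only [Sigma.mk.injEq, heq_eq_eq] at hxy
      simp only at hx hy
      obtain ⟨h3, rfl⟩ := hxy
      have h4 := Nat.mul_div_cancel' (Nat.dvd_of_mem_primeFactors hx.2)
      have h5 := Nat.mul_div_cancel' (Nat.dvd_of_mem_primeFactors hy.2)
      rw [← h4, ← h5, h3]
    rw [himg]
    refine Finset.sum_le_sum_of_subset_of_nonneg ?_ ?_
    · intro x hx
      rw [Finset.mem_image] at hx
      obtain ⟨⟨k, p⟩, hkp, rfl⟩ := hx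
      rw [Finset.mem_sigma] at hkp ⊢
      simp only at hkp ⊢
      obtain ⟨⟨⟨hk1, hk2⟩, hk3, hk4⟩, hk5, hk6⟩ := hDmem k hkp.1
      have hpp := Nat.prime_of_mem_primeFactors hkp.2
      have hpk := Nat.dvd_of_mem_primeFactors hkp.2
      obtain ⟨m, rfl⟩ := hpk
      rw [Nat.mul_div_cancel_left m hpp.pos]
      have hm0 : 0 < m := Nat.pos_of_ne_zero (by
        rintro rfl
        simp at hk1)
      have hmk : m ≤ p * m := Nat.le_mul_of_pos_left m hpp.pos
      have hpz : p < z := hk5 p hpp (Dvd.intro _ rfl)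
      have hmR : (0 : ℝ) < m := by exact_mod_cast hm0
      have hpR : (1 : ℝ) < p := by exact_mod_cast hpp.one_lt
      have hlog : Real.log ((p * m : ℕ) : ℝ) = Real.log p + Real.log m := by
        push_cast
        rw [Real.log_mul (by linarith) hmR.ne']
      constructor
      · rw [hT, Finset.mem_sdiff, mem_DS, mem_DS, mem_DD, mem_DD]
        refine ⟨⟨⟨⟨hm0, by omega⟩, Squarefree.of_mul_right hk3,
          Nat.Coprime.coprime_dvd_left (Dvd.intro_left _ rfl) hk4⟩, ?_⟩, ?_⟩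
        · intro q hq hqm
          exact hk5 q hq (hqm.trans (Dvd.intro_left _ rfl))
        · rintro ⟨⟨⟨_, h3⟩, _⟩, _⟩
          have hz : 0 < z := by omega
          rw [Nat.le_div_iff_mul_le hz] at h3
          have h4 : p * m ≤ m * z := by
            rw [mul_comm m z]
            exact Nat.mul_le_mul_right m hpz.le
          omega
      · rw [mem_PC, hX, hY]
        simp only
        refine ⟨⟨hpp, Nat.Coprime.coprime_dvd_left (Dvd.intro _ rfl) hk4⟩, ?_, ?_⟩
        · rw [max_lt_iff]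
          refine ⟨Real.log_pos hpR, ?_⟩
          have h3 : Real.log W < Real.log ((p * m : ℕ) : ℝ) :=
            Real.log_lt_log (by linarith) (by exact_mod_cast hk6)
          rw [hlog] at h3
          linarith
        · have h3 : Real.log ((p * m : ℕ) : ℝ) ≤ Real.log W' :=
            Real.log_le_log (by exact_mod_cast (by omega : 0 < p * m)) (by exact_mod_cast hk2)
          rw [hlog] at h3
          linarith
    · intro x hx _
      rw [Finset.mem_sigma, mem_PC] at hx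
      have hp1 : (1 : ℝ) < x.2 := by exact_mod_cast hx.2.1.1.one_lt
      have hp2 : 0 < (x.2 : ℝ) - 1 := by linarith
      have hp3 : 0 < Real.log x.2 := Real.log_pos hp1
      rw [hg]
      positivity
  -- Mertens
  have h3 : ∑ m ∈ T, ∑ p ∈ PC (X m) (Y m), g ⟨m, p⟩ ≤
      ∑ m ∈ T, (1 / (Nat.totient m : ℝ)) * (Real.log W' - Real.log W + C) := by
    refine Finset.sum_le_sum fun m hm => ?_
    rw [hT, Finset.mem_sdiff, mem_DS, mem_DD] at hm
    have hm1 := hm.1.1.1.1
    have hm2 := hm.1.1.1.2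
    have hmR : (0 : ℝ) < m := by exact_mod_cast hm1
    have h4 : Real.log m ≤ Real.log W' := Real.log_le_log hmR (by exact_mod_cast hm2)
    have h5 : Real.log W ≤ Real.log W' := Real.log_le_log (by linarith) (by exact_mod_cast hWW)
    have hX0 : 0 ≤ X m := by
      rw [hX]
      exact le_max_left _ _
    have hX1 : Real.log W - Real.log m ≤ X m := by
      rw [hX]
      exact le_max_right _ _
    have hXY : X m ≤ Y m := by
      rw [hX, hY]
      exact max_le (by linarith) (by linarith)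
    have h6 := (hM (X m) (Y m) hX0 hXY).1
    have h7 : ∑ p ∈ PC (X m) (Y m), g ⟨m, p⟩ = (1 / (Nat.totient m : ℝ)) *
        ∑ p ∈ PC (X m) (Y m), Real.log p / ((p : ℝ) - 1) := by
      rw [hg, Finset.mul_sum]
    rw [h7]
    refine mul_le_mul_of_nonneg_left ?_ (by positivity)
    refine h6.trans ?_
    have hYm : Y m = Real.log W' - Real.log m := by rw [hY]
    rw [hYm]
    linarith
  rw [hGT]
  refine (h1.trans (h2.trans h3)).trans (le_of_eq ?_)
  rw [← Finset.sum_mul, mul_comm]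

end Pool.Agent.Helper10.EN
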