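import Pool.Agent.Helper10.EN.S8a

/-! ENT-S8b: growth of the smooth sums, calculus of the bounds.

`dif_of_tab`: directly from the definitions (take `A` for both, `ε / 2`).
`dif_add`: intermediate point `W'' = ⌊exp (b * log z)⌋₊` (`log_floor_exp`), `A' = max |A| (log 2)`.
`dif_slope`: if `W' < W` then the difference is `≤ 0` (`GS_mono`). Otherwise put
`W0 = min W ⌊exp (a * log z)⌋₊ ≤ W`, so `GS W' z - GS W z ≤ GS W' z - GS W0 z`, and
`a * log z - A' ≤ log W0 ≤ a * log z`; with `x = GS W' z - GS W0 z`, `y = GS W0 z - GS (W0 / z) z` the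
slope inequality reads `log W0 * x ≤ (h + C) * (x + y)`, `h = log W' - log W0 ≤ (b - a) * log z + 2 * A'`,
so `(log W0 - h - C) * x ≤ (h + C) * y` and `y ≤ 2 / 5 * log z * (D + ε')` (`log (W0 / z) ≥
(a - 1) * log z - A' - log 2` by `log_div_floor`; `1 < a` gives `z ≤ W0` for large `z`).
`sl_of_dif`: `log W * (GS W' z - GS W z) ≤ (log W' - log W + C) * (GS W' z - GS (W / z) z)` with
`log W ≥ a * log z - A` and `GS W' z - GS (W / z) z ≤ 2 / 5 * log z * (D + ε')`. -/

namespace Pool.Agent.Helper10.EN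

open Finset Filter Pool.Agent.Helper10 Pool.Agent.Helper10.P5 Pool.Agent.Helper10.P4
  Pool.Agent.Helper10.P3

/-- growth of the smooth sums between the exponents `a` and `b` -/
def DifP (a b D : ℝ) : Prop := ∀ ε : ℝ, 0 < ε → ∀ A : ℝ, ∃ z0 : ℕ, ∀ z : ℕ, z0 ≤ z →
  ∀ W W' : ℕ, 1 ≤ W → 1 ≤ W' → a * Real.log z - A ≤ Real.log W → Real.log W' ≤ b * Real.log z + A →
    GS W' z - GS W z ≤ 2 / 5 * Real.log z * (D + ε)

/-- slope of the smooth sums between the exponents `a` and `b` -/
def SlP (a b σ : ℝ) : Prop := ∃ C : ℝ, 0 ≤ C ∧ ∀ ε : ℝ, 0 < ε → ∀ A : ℝ, ∃ z0 : ℕ, ∀ z : ℕ, z0 ≤ z →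
  ∀ W W' : ℕ, 1 ≤ W → W ≤ W' → a * Real.log z - A ≤ Real.log W → Real.log W' ≤ b * Real.log z + A →
    GS W' z - GS W z ≤ 2 / 5 * (σ + ε) * (Real.log W' - Real.log W + C)

lemma dif_mono (a b D D' : ℝ) (h : D ≤ D') (hD : DifP a b D) : DifP a b D' := by
  intro ε hε A
  obtain ⟨z0, hz0⟩ := hD ε hε A
  refine ⟨z0, fun z hz W W' hW hW' h1 h2 => le_trans (hz0 z hz W W' hW hW' h1 h2) ?_⟩
  apply mul_le_mul_of_nonneg_left _ (by
    have := Real.log_natCast_nonneg z
    positivity)
  linarith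

lemma dif_of_tab (N k j : ℕ) (U L : ℝ) (hU : UpP N k U) (hL : LowP N j L) :
    DifP ((j : ℝ) / N) ((k : ℝ) / N) (U - L) := by
  intro ε hε A
  obtain ⟨z1, hz1⟩ := hU (ε / 2) (half_pos hε) A
  obtain ⟨z2, hz2⟩ := hL (ε / 2) (half_pos hε) A
  refine ⟨max z1 z2, fun z hz W W' hW hW' h1 h2 => ?_⟩
  have h3 := hz1 z (le_trans (le_max_left _ _) hz) W' hW' h2
  have h4 := hz2 z (le_trans (le_max_right _ _) hz) W hW h1
  calc GS W' z - GS W z ≤ 2 / 5 * Real.log z * (U + ε / 2) - 2 / 5 * Real.log z * (L - ε / 2) := by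
        linarith
    _ = _ := by ring

lemma dif_add (a b c D D' : ℝ) (hb : 0 ≤ b) (h1 : DifP a b D) (h2 : DifP b c D') :
    DifP a c (D + D') := by
  intro ε hε A
  obtain ⟨z1, hz1⟩ := h1 (ε / 2) (half_pos hε) (max |A| (Real.log 2))
  obtain ⟨z2, hz2⟩ := h2 (ε / 2) (half_pos hε) (max |A| (Real.log 2))
  have hA1 : A ≤ max |A| (Real.log 2) := (le_abs_self A).trans (le_max_left _ _)
  have hA2 : Real.log 2 ≤ max |A| (Real.log 2) := le_max_right _ _
  have hA3 : 0 ≤ max |A| (Real.log 2) := (abs_nonneg A).trans (le_max_left _ _)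
  refine ⟨max z1 z2, fun z hz W W' hW hW' h3 h4 => ?_⟩
  have hL : 0 ≤ Real.log z := Real.log_natCast_nonneg z
  obtain ⟨e1, e2, e3⟩ := log_floor_exp (b * Real.log z) (mul_nonneg hb hL)
  have h5 := hz1 z (le_trans (le_max_left _ _) hz) W _ hW e1 (by linarith) (by linarith)
  have h6 := hz2 z (le_trans (le_max_right _ _) hz) _ W' e1 hW' (by linarith) (by linarith)
  calc GS W' z - GS W z ≤ 2 / 5 * Real.log z * (D + ε / 2) + 2 / 5 * Real.log z * (D' + ε / 2) := by
        linarith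
    _ = _ := by ring

lemma dif_slope (a b D : ℝ) (ha : 1 < a) (hab : a ≤ b) (hb : b < 2 * a) (hD : 0 ≤ D)
    (h : DifP (a - 1) a D) : DifP a b (D * (b - a) / (2 * a - b)) := by
  obtain ⟨C, hC, hs⟩ := slope
  intro ε hε A
  set A' := max |A| (Real.log 2) with hA'
  have hA1 : A ≤ A' := (le_abs_self A).trans (le_max_left _ _)
  have hA2 : Real.log 2 ≤ A' := le_max_right _ _
  have hA3 : 0 ≤ A' := (abs_nonneg A).trans (le_max_left _ _)
  have hl2 : 0 ≤ Real.log 2 := Real.log_nonneg (by norm_num)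
  set r := 2 * a - b with hr
  set s := b - a with hsd
  have hr0 : 0 < r := by rw [hr]; linarith
  have hs0 : 0 ≤ s := by rw [hsd]; linarith
  set K := 3 * A' + C with hK
  have hK0 : 0 ≤ K := by positivity
  set ε' := r * ε / (2 * (s + 1)) with hε'
  have hε'0 : 0 < ε' := by positivity
  have hsε : s * ε' ≤ r * ε / 2 := by
    rw [hε', mul_div_assoc', div_le_div_iff₀ (by positivity) (by norm_num)]
    nlinarith [mul_pos hr0 hε]
  obtain ⟨z1, hz1⟩ := h ε' hε'0 (A' + Real.log 2)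
  obtain ⟨z2, hz2⟩ := exists_log_ge (K * (D + ε' + D * s / r + ε) / (r * ε / 2) + (K + 1) / r +
    A' / (a - 1))
  refine ⟨max (max z1 z2) 1, fun z hz W W' hW hW' h3 h4 => ?_⟩
  have hzz1 : z1 ≤ z := le_trans (le_trans (le_max_left _ _) (le_max_left _ _)) hz
  have hzz2 : z2 ≤ z := le_trans (le_trans (le_max_right _ _) (le_max_left _ _)) hz
  have hz1' : 1 ≤ z := le_trans (le_max_right _ _) hz
  have hL : 0 ≤ Real.log z := Real.log_natCast_nonneg z
  have hT := hz2 z hzz2
  set L := Real.log z with hLd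
  have ha1 : 0 < a - 1 := by linarith
  have t1 : 0 ≤ K * (D + ε' + D * s / r + ε) / (r * ε / 2) := by positivity
  have t2 : 0 ≤ (K + 1) / r := by positivity
  have t3 : 0 ≤ A' / (a - 1) := by positivity
  have u1 : K * (D + ε' + D * s / r + ε) ≤ L * (r * ε / 2) := by
    rw [← div_le_iff₀ (by positivity)]
    linarith
  have u2 : K + 1 ≤ L * r := by
    rw [← div_le_iff₀ hr0]
    linarith
  have u3 : A' ≤ L * (a - 1) := by
    rw [← div_le_iff₀ ha1]
    linarith
  have hR0 : 0 ≤ 2 / 5 * L * (D * s / r + ε) := by positivity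
  rcases lt_or_ge W' W with hlt | hge
  · have := GS_mono W' W z hlt.le
    linarith
  obtain ⟨e1, e2, e3⟩ := log_floor_exp (a * L) (mul_nonneg (by linarith) hL)
  set W1 := ⌊Real.exp (a * L)⌋₊ with hW1
  set W0 := min W W1 with hW0
  have hW01 : 1 ≤ W0 := le_min hW e1
  have hW0W : W0 ≤ W := min_le_left _ _
  have hW0r : (0 : ℝ) < W0 := by exact_mod_cast hW01
  have g1 : a * L - A' ≤ Real.log W0 := by
    rcases min_choice W W1 with h5 | h5
    · rw [hW0, h5]; linarith
    · rw [hW0, h5]; linarith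
  have g2 : Real.log W0 ≤ a * L := by
    refine le_trans (Real.log_le_log hW0r ?_) e3
    exact_mod_cast (min_le_right W W1)
  have hzr : (0 : ℝ) < z := by exact_mod_cast hz1'
  have hzW0 : z ≤ W0 := by
    have h5 : Real.log z ≤ Real.log W0 := by
      rw [← hLd]
      linarith
    have h6 := (Real.log_le_log_iff hzr hW0r).1 h5
    exact_mod_cast h6
  obtain ⟨d1, d2, d3⟩ := log_div_floor W0 z hz1' hzW0
  rw [← hLd] at d2 d3
  have hy := hz1 z hzz1 (W0 / z) W0 d1 hW01 (by rw [← hLd]; linarith) (by rw [← hLd]; linarith)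
  rw [← hLd] at hy
  have hslope := hs W0 W' z hW01 (hW0W.trans hge)
  have m1 := GS_mono W0 W z hW0W
  have m2 := GS_mono (W0 / z) W0 z (Nat.div_le_self _ _)
  have m3 := GS_mono W0 W' z (hW0W.trans hge)
  set x := GS W' z - GS W0 z with hx
  set y := GS W0 z - GS (W0 / z) z with hyd
  have hx0 : 0 ≤ x := by rw [hx]; linarith
  have hy0 : 0 ≤ y := by rw [hyd]; linarith
  have hxy : GS W' z - GS (W0 / z) z = x + y := by rw [hx, hyd]; ring
  rw [hxy] at hslope
  have hsL : s * L = b * L - a * L := by rw [hsd]; ring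
  have f1 : (r * L - K) * x ≤ (s * L + K) * y := by
    have f2 : (Real.log W' - Real.log W0 + C) * (x + y) ≤ (s * L + (2 * A' + C)) * (x + y) := by
      apply mul_le_mul_of_nonneg_right _ (by linarith)
      linarith
    have f3 : (a * L - A') * x ≤ Real.log W0 * x := mul_le_mul_of_nonneg_right g1 hx0
    have f4 : (a * L - A') * x ≤ (s * L + (2 * A' + C)) * (x + y) := by linarith
    have f5 : A' * y ≥ 0 := by positivity
    have f6 : (r * L - K) * x = (a * L - A') * x - (s * L + (2 * A' + C)) * x := by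
      rw [hK, hr, hsd]; ring
    have f7 : (s * L + K) * y = (s * L + (2 * A' + C)) * y + A' * y := by
      rw [hK]; ring
    rw [f6, f7]
    linarith
  have f2 : (s * L + K) * y ≤ (s * L + K) * (2 / 5 * L * (D + ε')) :=
    mul_le_mul_of_nonneg_left hy (by positivity)
  have f3 : (s * L + K) * (D + ε') ≤ (r * L - K) * (D * s / r + ε) := by
    have f4 : (r * L - K) * (D * s / r + ε) = s * L * D + r * ε * L - K * (D * s / r + ε) := by
      field_simp
    rw [f4]
    have f5 : s * ε' * L ≤ r * ε / 2 * L := mul_le_mul_of_nonneg_right hsε hL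
    linarith
  have hpos : 0 < r * L - K := by linarith
  have f4 : (r * L - K) * x ≤ (r * L - K) * (2 / 5 * L * (D * s / r + ε)) := by
    calc (r * L - K) * x ≤ (s * L + K) * (2 / 5 * L * (D + ε')) := f1.trans f2
      _ = 2 / 5 * L * ((s * L + K) * (D + ε')) := by ring
      _ ≤ 2 / 5 * L * ((r * L - K) * (D * s / r + ε)) := by
          apply mul_le_mul_of_nonneg_left f3 (by positivity)
      _ = _ := by ring
  have f5 := le_of_mul_le_mul_left f4 hpos
  linarith

lemma sl_of_dif (a b D : ℝ) (ha : 1 < a) (hD : 0 ≤ D) (h : DifP (a - 1) b D) : SlP a b (D / a) := by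
  obtain ⟨C, hC, hs⟩ := slope
  refine ⟨C, hC, fun ε hε A => ?_⟩
  have hA1 : A ≤ |A| := le_abs_self A
  have hA3 : 0 ≤ |A| := abs_nonneg A
  have hl2 : 0 ≤ Real.log 2 := Real.log_nonneg (by norm_num)
  have ha0 : 0 < a := by linarith
  have ha1 : 0 < a - 1 := by linarith
  obtain ⟨z1, hz1⟩ := h (a * ε / 2) (by positivity) (|A| + Real.log 2)
  obtain ⟨z2, hz2⟩ := exists_log_ge (|A| * (D / a + ε) / (a * ε / 2) + (|A| + 1) / a +
    |A| / (a - 1))
  refine ⟨max (max z1 z2) 1, fun z hz W W' hW hWW h3 h4 => ?_⟩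
  have hzz1 : z1 ≤ z := le_trans (le_trans (le_max_left _ _) (le_max_left _ _)) hz
  have hzz2 : z2 ≤ z := le_trans (le_trans (le_max_right _ _) (le_max_left _ _)) hz
  have hz1' : 1 ≤ z := le_trans (le_max_right _ _) hz
  have hL : 0 ≤ Real.log z := Real.log_natCast_nonneg z
  have hT := hz2 z hzz2
  set L := Real.log z with hLd
  have t1 : 0 ≤ |A| * (D / a + ε) / (a * ε / 2) := by positivity
  have t2 : 0 ≤ (|A| + 1) / a := by positivity
  have t3 : 0 ≤ |A| / (a - 1) := by positivity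
  have u1 : |A| * (D / a + ε) ≤ L * (a * ε / 2) := by
    rw [← div_le_iff₀ (by positivity)]
    linarith
  have u2 : |A| + 1 ≤ L * a := by
    rw [← div_le_iff₀ ha0]
    linarith
  have u3 : |A| ≤ L * (a - 1) := by
    rw [← div_le_iff₀ ha1]
    linarith
  have hzr : (0 : ℝ) < z := by exact_mod_cast hz1'
  have hWr : (0 : ℝ) < W := by exact_mod_cast hW
  have hzW : z ≤ W := by
    have h5 : Real.log z ≤ Real.log W := by
      rw [← hLd]
      linarith
    have h6 := (Real.log_le_log_iff hzr hWr).1 h5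
    exact_mod_cast h6
  obtain ⟨d1, d2, d3⟩ := log_div_floor W z hz1' hzW
  rw [← hLd] at d2 d3
  have hy := hz1 z hzz1 (W / z) W' d1 (hW.trans hWW) (by rw [← hLd]; linarith)
    (by rw [← hLd]; linarith)
  rw [← hLd] at hy
  have hslope := hs W W' z hW hWW
  have m3 := GS_mono W W' z hWW
  set x := GS W' z - GS W z with hx
  have hx0 : 0 ≤ x := by rw [hx]; linarith
  set q := Real.log W' - Real.log W + C with hq
  have hq0 : 0 ≤ q := by
    have : Real.log W ≤ Real.log W' := Real.log_le_log hWr (by exact_mod_cast hWW)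
    rw [hq]; linarith
  have f1 : (a * L - |A|) * x ≤ q * (2 / 5 * L * (D + a * ε / 2)) := by
    have f3 : (a * L - |A|) * x ≤ Real.log W * x := mul_le_mul_of_nonneg_right (by linarith) hx0
    have f4 := mul_le_mul_of_nonneg_left hy hq0
    linarith
  have f3 : L * (D + a * ε / 2) ≤ (a * L - |A|) * (D / a + ε) := by
    have f4 : (a * L - |A|) * (D / a + ε) = L * D + a * ε * L - |A| * (D / a + ε) := by
      field_simp
    rw [f4]
    linarith
  have hpos : 0 < a * L - |A| := by linarith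
  have f4 : (a * L - |A|) * x ≤ (a * L - |A|) * (2 / 5 * (D / a + ε) * q) := by
    calc (a * L - |A|) * x ≤ q * (2 / 5 * L * (D + a * ε / 2)) := f1
      _ = (2 / 5 * q) * (L * (D + a * ε / 2)) := by ring
      _ ≤ (2 / 5 * q) * ((a * L - |A|) * (D / a + ε)) := by
          apply mul_le_mul_of_nonneg_left f3 (by positivity)
      _ = _ := by ring
  exact le_of_mul_le_mul_left f4 hpos

end Pool.Agent.Helper10.EN
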