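import Pool.Agent.Helper10.EN.S1
import Pool.Agent.Helper10.EN.S8b

/-! ENT-S8c: the lower function at a small sifting level.

Port of `lowS` (P3/LowS.lean; its lemmas `smallcell`, `tiny` are in P3/Low3.lean) with
* the sum over the primes below `z` cut at `(j / n) * ζ * lam`, `j = 1, …, n`;
* on the cell `j ≥ 1`: `smallcell` with `DifP (w / ζ - (j + 1) / n) (w / ζ) (D j)` instead of the table
  bounds: `GS W z - GS (W / p) z ≤ 2 / 5 * log z * (D j + ε)`, `∑ 1 / p ≤ log ((j + 1) / j) + ε` (`M2`);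
* on the cell `0` (primes with `0 < log p ≤ ζ * lam / n`): by `SlP` with `W' = W`, `W = W / p`:
  `GS W z - GS (W / p) z ≤ 2 / 5 * (σ + ε) * (log p + log 2 + C)` (`log_div_floor`), then
  `∑ log p / p ≤ ζ * lam / n + C1` (`M1`) and `∑ 1 / p ≤ ε' * lam + C3` (`recip_small`, as in `tiny`);
* error terms: `B ^ 2 * errTot r (W * W * z) ≤ lam ^ 5 * errK 5 r ⌊2 * exp lam⌋₊` for `lam ≥ C2 ^ 2`
  (`errTot_eq`, `errK_mono`), no bound on the remainders is assumed (the structure `SD` of P3 is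
  replaced by `SX`).
`zf (lam / (1 / ζ)) = zf (ζ * lam)`. -/

namespace Pool.Agent.Helper10.EN

open Finset Filter Pool.Agent.Helper10 Pool.Agent.Helper10.P5 Pool.Agent.Helper10.P4
  Pool.Agent.Helper10.P3

/-- the tiny primes, from the slope -/
private lemma sl_tiny (ζ w : ℝ) (hζ : 0 < ζ) (hζw : ζ < w) (n : ℕ) (hn : 1 ≤ n) (σ : ℝ)
    (hσ : 0 ≤ σ) (hsl : SlP (w / ζ - 1 / n) (w / ζ) σ) (η : ℝ) (hη : 0 < η) :
    ∀ᶠ lam : ℝ in atTop,
      ∑ p ∈ PC 0 (ζ / n * lam), (1 / (p : ℝ)) * (GS (wf (w * lam)) (zf (ζ * lam)) -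
        GS (wf (w * lam) / p) (zf (ζ * lam))) ≤ 2 / 5 * lam * ((σ + η) * (ζ / n + η)) := by
  obtain ⟨C, hC, hslC⟩ := hsl
  obtain ⟨C1, hC1, hM1⟩ := M1
  have hl2 : 0 ≤ Real.log 2 := Real.log_nonneg (by norm_num)
  have hnR : (1 : ℝ) ≤ n := by exact_mod_cast hn
  have hn0 : (0 : ℝ) < n := by linarith
  have hw0 : 0 < w := by linarith
  obtain ⟨C', hC'⟩ : ∃ C' : ℝ, C' = Real.log 2 + C + 1 := ⟨_, rfl⟩
  have hC'0 : 0 < C' := by rw [hC']; positivity
  have hb : 0 < ζ / n := by positivity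
  obtain ⟨ε, hε⟩ : ∃ ε : ℝ, ε = η / (2 * C' * (ζ / n)) := ⟨_, rfl⟩
  have hε0 : 0 < ε := by rw [hε]; positivity
  obtain ⟨C3, hC3, hrec⟩ := recip_small ε hε0
  obtain ⟨z0, hz0⟩ := hslC η hη (w / ζ * Real.log 2 + 2 * Real.log 2)
  have hwζ : 0 ≤ w / ζ := by positivity
  filter_upwards [Filter.eventually_ge_atTop 1,
    Filter.eventually_ge_atTop ((C1 + C' * C3) / (1 / 2 * η)),
    Filter.eventually_ge_atTop (Real.log (z0 + 1) / ζ)] with lam hlam1 hlam2 hlam3
  have hlam0 : 0 < lam := by linarith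
  have hbl : 0 < ζ / n * lam := by positivity
  have hζl : 0 < ζ * lam := by positivity
  have hwl : 0 ≤ w * lam := by positivity
  obtain ⟨hW1, hW2, hW3⟩ := log_floor_exp (w * lam) hwl
  obtain ⟨hzz1, hzz2⟩ := log_zf (ζ * lam) hζl.le
  set W := wf (w * lam) with hW
  set z := zf (ζ * lam) with hz
  have hWeq : W = ⌊Real.exp (w * lam)⌋₊ := rfl
  rw [← hWeq] at hW1 hW2 hW3
  have hbig : z0 ≤ z := by
    have h1 : Real.log (z0 + 1) ≤ Real.log z := by
      rw [div_le_iff₀ hζ] at hlam3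
      linarith
    have hzpos : (0 : ℝ) < z := by
      rw [hz]
      unfold zf
      positivity
    have h2 := (Real.log_le_log_iff (by positivity) hzpos).mp h1
    have h3 : (z0 : ℝ) ≤ z := by linarith
    exact_mod_cast h3
  have hζn : ζ / n ≤ w := by
    have : ζ / n ≤ ζ := div_le_self hζ.le hnR
    linarith
  have ha0 : 0 ≤ w / ζ - 1 / n := by
    rw [sub_nonneg, div_le_div_iff₀ hn0 hζ]
    nlinarith
  have hterm : ∀ p ∈ PC 0 (ζ / n * lam), (1 / (p : ℝ)) * (GS W z - GS (W / p) z) ≤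
      2 / 5 * (σ + η) * (Real.log p / ((p : ℝ) - 1)) + 2 / 5 * (σ + η) * C' * (1 / (p : ℝ)) := by
    intro p hp
    have hp' := (mem_PC _ _ _).mp hp
    have hp1 : (1 : ℝ) < p := by exact_mod_cast hp'.1.1.one_lt
    have hp0 : (0 : ℝ) < p := by linarith
    have hpW : p ≤ W := by
      have h3 : p ≤ ⌊Real.exp (ζ / n * lam)⌋₊ := (le_exp_iff p hp'.1.1.pos _).mpr hp'.2.2
      refine h3.trans ?_
      rw [hWeq]
      apply Nat.floor_le_floor
      rw [Real.exp_le_exp]
      exact mul_le_mul_of_nonneg_right hζn hlam0.le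
    obtain ⟨hd1, hd2, hd3⟩ := log_div_floor W p hp'.1.1.pos hpW
    have h1 := hz0 z hbig (W / p) W hd1 (Nat.div_le_self W p) (by
      have h1 : (w / ζ - 1 / n) * Real.log z ≤ (w / ζ - 1 / n) * (ζ * lam + Real.log 2) :=
        mul_le_mul_of_nonneg_left hzz2 ha0
      have h2 : (w / ζ - 1 / n) * (ζ * lam + Real.log 2) =
          w * lam - ζ / n * lam + w / ζ * Real.log 2 - 1 / n * Real.log 2 := by
        field_simp
        ring
      have h3 := hp'.2.2
      have h4 : 0 ≤ 1 / (n : ℝ) * Real.log 2 := by positivity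
      linarith) (by
      have h2 : w / ζ * (ζ * lam) ≤ w / ζ * Real.log z := mul_le_mul_of_nonneg_left hzz1 hwζ
      have h3 : w / ζ * (ζ * lam) = w * lam := by
        field_simp
      have h4 : 0 ≤ w / ζ * Real.log 2 := by positivity
      linarith)
    have h4 : GS W z - GS (W / p) z ≤ 2 / 5 * (σ + η) * (Real.log p + C') := by
      refine h1.trans ?_
      apply mul_le_mul_of_nonneg_left _ (by positivity)
      rw [hC']
      linarith
    have h5 := mul_le_mul_of_nonneg_left h4 (show 0 ≤ 1 / (p : ℝ) by positivity)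
    refine h5.trans ?_
    have h6 : Real.log p / p ≤ Real.log p / ((p : ℝ) - 1) :=
      div_le_div_of_nonneg_left (Real.log_natCast_nonneg p) (by linarith) (by linarith)
    have e1 : 1 / (p : ℝ) * (2 / 5 * (σ + η) * (Real.log p + C')) =
        2 / 5 * (σ + η) * (Real.log p / p) + 2 / 5 * (σ + η) * C' * (1 / p) := by
      ring
    rw [e1]
    have h7 := mul_le_mul_of_nonneg_left h6 (show 0 ≤ 2 / 5 * (σ + η) by positivity)
    linarith
  refine (Finset.sum_le_sum hterm).trans ?_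
  rw [Finset.sum_add_distrib, ← Finset.mul_sum, ← Finset.mul_sum]
  have h1 := (hM1 0 (ζ / n * lam) (le_refl _) hbl.le).1
  obtain ⟨hn1, hn2, hn3⟩ := log_floor_exp (ζ / n * lam) hbl.le
  have h2 : ∑ p ∈ PC 0 (ζ / n * lam), 1 / (p : ℝ) ≤ ε * (ζ / n * lam) + C3 := by
    calc ∑ p ∈ PC 0 (ζ / n * lam), 1 / (p : ℝ) ≤
          ∑ p ∈ PL ⌊Real.exp (ζ / n * lam)⌋₊, 1 / (p : ℝ) := by
          apply Finset.sum_le_sum_of_subset_of_nonneg
          · intro p hp
            have hp' := (mem_PC _ _ _).mp hp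
            rw [mem_PL]
            exact ⟨(le_exp_iff p hp'.1.1.pos _).mpr hp'.2.2, hp'.1.1⟩
          · intro _ _ _
            positivity
      _ ≤ ε * Real.log ⌊Real.exp (ζ / n * lam)⌋₊ + C3 := hrec _ hn1
      _ ≤ ε * (ζ / n * lam) + C3 := by
          have := mul_le_mul_of_nonneg_left hn3 hε0.le
          linarith
  have h3 := mul_le_mul_of_nonneg_left h2 hC'0.le
  have h4 : C' * (ε * (ζ / n * lam)) = 1 / 2 * η * lam := by
    rw [hε]
    field_simp
  rw [div_le_iff₀ (by positivity)] at hlam2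
  rw [sub_zero] at h1
  have h5 : ∑ p ∈ PC 0 (ζ / n * lam), Real.log p / ((p : ℝ) - 1) +
      C' * ∑ p ∈ PC 0 (ζ / n * lam), 1 / (p : ℝ) ≤ lam * (ζ / n + η) := by
    have e2 : C' * (ε * (ζ / n * lam) + C3) = C' * (ε * (ζ / n * lam)) + C' * C3 := by ring
    rw [e2, h4] at h3
    have e3 : lam * (ζ / n + η) = ζ / n * lam + η * lam := by ring
    rw [e3]
    linarith
  have h6 := mul_le_mul_of_nonneg_left h5 (show 0 ≤ 2 / 5 * (σ + η) by positivity)
  have e4 : 2 / 5 * (σ + η) * (lam * (ζ / n + η)) = 2 / 5 * lam * ((σ + η) * (ζ / n + η)) := by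
    ring
  rw [e4] at h6
  have e5 : 2 / 5 * (σ + η) * (∑ p ∈ PC 0 (ζ / n * lam), Real.log p / ((p : ℝ) - 1) +
      C' * ∑ p ∈ PC 0 (ζ / n * lam), 1 / (p : ℝ)) =
      2 / 5 * (σ + η) * ∑ p ∈ PC 0 (ζ / n * lam), Real.log p / ((p : ℝ) - 1) +
      2 / 5 * (σ + η) * C' * ∑ p ∈ PC 0 (ζ / n * lam), 1 / (p : ℝ) := by ring
  rw [e5] at h6
  exact h6

/-- one cell of small primes, from the growth -/
private lemma dif_cell (ζ w : ℝ) (hζ : 0 < ζ) (s t : ℝ) (hs : 0 < s) (hst : s ≤ t)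
    (htw : t ≤ w) (a Dj : ℝ) (ha : a = (w - t) / ζ) (hDj : 0 ≤ Dj) (hD : DifP a (w / ζ) Dj)
    (η : ℝ) (hη : 0 < η) :
    ∀ᶠ lam : ℝ in atTop,
      ∑ p ∈ PC (s * lam) (t * lam), (1 / (p : ℝ)) * (GS (wf (w * lam)) (zf (ζ * lam)) -
        GS (wf (w * lam) / p) (zf (ζ * lam))) ≤
        2 / 5 * lam * ((ζ + η) * ((Dj + η) * (Real.log (t / s) + η))) := by
  have hl2 : 0 ≤ Real.log 2 := Real.log_nonneg (by norm_num)
  have hw0 : 0 < w := by linarith
  have hwζ : 0 ≤ w / ζ := by positivity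
  have ha0 : 0 ≤ a := by
    rw [ha]
    exact div_nonneg (by linarith) hζ.le
  obtain ⟨z0, hz0⟩ := hD η hη (w / ζ * Real.log 2 + 2 * Real.log 2)
  filter_upwards [Filter.eventually_ge_atTop 1, M2 s t hs hst η hη,
    Filter.eventually_ge_atTop (Real.log (z0 + 1) / ζ),
    Filter.eventually_ge_atTop (Real.log 2 / η)] with lam hlam1 hM hlam2 hlam4
  have hlam0 : 0 < lam := by linarith
  have hζl : 0 < ζ * lam := by positivity
  have hwl : 0 ≤ w * lam := by positivity
  obtain ⟨hW1, hW2, hW3⟩ := log_floor_exp (w * lam) hwl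
  obtain ⟨hzz1, hzz2⟩ := log_zf (ζ * lam) hζl.le
  set W := wf (w * lam) with hW
  set z := zf (ζ * lam) with hz
  have hWeq : W = ⌊Real.exp (w * lam)⌋₊ := rfl
  rw [← hWeq] at hW1 hW2 hW3
  have hbig : z0 ≤ z := by
    have h1 : Real.log (z0 + 1) ≤ Real.log z := by
      rw [div_le_iff₀ hζ] at hlam2
      linarith
    have hzpos : (0 : ℝ) < z := by
      rw [hz]
      unfold zf
      positivity
    have h2 := (Real.log_le_log_iff (by positivity) hzpos).mp h1
    have h3 : (z0 : ℝ) ≤ z := by linarith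
    exact_mod_cast h3
  have hlogz : Real.log z ≤ (ζ + η) * lam := by
    have : Real.log 2 ≤ η * lam := by
      rw [div_le_iff₀ hη] at hlam4
      linarith
    linarith
  have hlogz0 : 0 ≤ Real.log z := Real.log_natCast_nonneg z
  have hterm : ∀ p ∈ PC (s * lam) (t * lam), (1 / (p : ℝ)) * (GS W z - GS (W / p) z) ≤
      (2 / 5 * ((ζ + η) * lam) * (Dj + η)) * (1 / ((p : ℝ) - 1)) := by
    intro p hp
    have hp' := (mem_PC _ _ _).mp hp
    have hp1 : (1 : ℝ) < p := by exact_mod_cast hp'.1.1.one_lt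
    have hp0 : (0 : ℝ) < p := by linarith
    have hpW : p ≤ W := by
      have h3 : p ≤ ⌊Real.exp (t * lam)⌋₊ := (le_exp_iff p hp'.1.1.pos _).mpr hp'.2.2
      refine h3.trans ?_
      rw [hWeq]
      apply Nat.floor_le_floor
      rw [Real.exp_le_exp]
      exact mul_le_mul_of_nonneg_right htw hlam0.le
    obtain ⟨hd1, hd2, hd3⟩ := log_div_floor W p hp'.1.1.pos hpW
    have h1 := hz0 z hbig (W / p) W hd1 hW1 (by
      have h1 : a * Real.log z ≤ a * (ζ * lam + Real.log 2) :=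
        mul_le_mul_of_nonneg_left hzz2 ha0
      have h2 : a * (ζ * lam + Real.log 2) =
          w * lam - t * lam + w / ζ * Real.log 2 - t / ζ * Real.log 2 := by
        rw [ha]
        field_simp
        ring
      have h3 := hp'.2.2
      have h4 : 0 ≤ t / ζ * Real.log 2 := by
        have : 0 < t := lt_of_lt_of_le hs hst
        positivity
      linarith) (by
      have h2 : w / ζ * (ζ * lam) ≤ w / ζ * Real.log z := mul_le_mul_of_nonneg_left hzz1 hwζ
      have h3 : w / ζ * (ζ * lam) = w * lam := by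
        field_simp
      have h4 : 0 ≤ w / ζ * Real.log 2 := by positivity
      linarith)
    have h2 : 2 / 5 * Real.log z * (Dj + η) ≤ 2 / 5 * ((ζ + η) * lam) * (Dj + η) := by
      apply mul_le_mul_of_nonneg_right _ (by linarith)
      linarith
    have h3 : 1 / (p : ℝ) ≤ 1 / ((p : ℝ) - 1) :=
      one_div_le_one_div_of_le (by linarith) (by linarith)
    have h4 : 0 ≤ 2 / 5 * ((ζ + η) * lam) * (Dj + η) := by
      apply mul_nonneg (by positivity)
      linarith
    calc (1 / (p : ℝ)) * (GS W z - GS (W / p) z) ≤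
          (1 / (p : ℝ)) * (2 / 5 * ((ζ + η) * lam) * (Dj + η)) :=
          mul_le_mul_of_nonneg_left (h1.trans h2) (by positivity)
      _ ≤ (1 / ((p : ℝ) - 1)) * (2 / 5 * ((ζ + η) * lam) * (Dj + η)) :=
          mul_le_mul_of_nonneg_right h3 h4
      _ = _ := by ring
  refine (Finset.sum_le_sum hterm).trans ?_
  rw [← Finset.mul_sum]
  have h5 : 0 ≤ 2 / 5 * ((ζ + η) * lam) * (Dj + η) := by
    apply mul_nonneg (by positivity)
    linarith
  calc (2 / 5 * ((ζ + η) * lam) * (Dj + η)) * ∑ p ∈ PC (s * lam) (t * lam), 1 / ((p : ℝ) - 1)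
      ≤ (2 / 5 * ((ζ + η) * lam) * (Dj + η)) * (Real.log (t / s) + η) :=
        mul_le_mul_of_nonneg_left hM.1 h5
    _ = _ := by ring

theorem lowSl (N k0 : ℕ) (U L0 : ℝ) (hU : UpP N k0 U) (hL : LowP N k0 L0) (hU0 : 0 < U)
    (ζ w : ℝ) (hζ : 0 < ζ) (hw : 2 * w + ζ ≤ 1) (hζw : ζ < w) (hk0 : (k0 : ℝ) / N * ζ = w)
    (n : ℕ) (hn : 1 ≤ n) (σ : ℝ) (hσ : 0 ≤ σ) (hsl : SlP (w / ζ - 1 / n) (w / ζ) σ)
    (D : ℕ → ℝ) (hD : ∀ j ∈ Ico 1 n, DifP (w / ζ - ((j : ℝ) + 1) / n) (w / ζ) (D j))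
    (hD0 : ∀ j, 0 ≤ D j) (d : ℝ)
    (hd : d = ζ * (σ / n + ∑ j ∈ Ico 1 n, D j * Real.log (((j : ℝ) + 1) / j)))
    (hd2 : d < ζ * L0 / 2) :
    LoH (1 / (ζ * U) - d / (ζ * U) ^ 2) (1 / ζ) := by
  classical
  obtain ⟨C2, hC2, hlm⟩ := lm_yS_abs
  have hnR : (1 : ℝ) ≤ n := by exact_mod_cast hn
  have hn0 : (0 : ℝ) < n := by linarith
  have hw0 : 0 ≤ w := by linarith
  have hl2 : 0 ≤ Real.log 2 := Real.log_nonneg (by norm_num)
  have hlog : ∀ j ∈ Ico 1 n, 0 ≤ Real.log (((j : ℝ) + 1) / j) := by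
    intro j hj
    have hj1 : (1 : ℝ) ≤ j := by exact_mod_cast (Finset.mem_Ico.mp hj).1
    apply Real.log_nonneg
    rw [le_div_iff₀ (by linarith)]
    linarith
  intro ε hε
  -- functions of eta
  set F1 : ℝ → ℝ := fun η => (σ + η) * (ζ / n + η) + ∑ j ∈ Ico 1 n, (ζ + η) *
    ((D j + η) * (Real.log (((j : ℝ) + 1) / j) + η)) with hF1
  set F2 : ℝ → ℝ := fun η => 1 / ((ζ + η) * (U + η)) - F1 η / ((ζ + η) * (U + η)) ^ 2 with hF2
  have hF10 : F1 0 = d := by
    simp only [hF1, add_zero]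
    rw [hd, mul_add, Finset.mul_sum]
    congr 1
    ring
  have hF1c : ContinuousAt F1 0 := by
    simp only [hF1]
    apply ContinuousAt.add
    · fun_prop
    · apply tendsto_finsetSum
      intro i _
      have : ContinuousAt (fun η : ℝ => (ζ + η) *
        ((D i + η) * (Real.log (((i : ℝ) + 1) / i) + η))) 0 := by fun_prop
      exact this
  have hF2c : ContinuousAt F2 0 := by
    simp only [hF2]
    have h1 : (ζ + 0) * (U + 0) ≠ 0 := by
      rw [add_zero, add_zero]
      positivity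
    have h2 : ((ζ + 0) * (U + 0)) ^ 2 ≠ 0 := pow_ne_zero _ h1
    fun_prop (disch := assumption)
  have hev1 := hF2c.eventually (lt_mem_nhds (show 1 / (ζ * U) - d / (ζ * U) ^ 2 - ε < F2 0 by
    simp only [hF2, hF10, add_zero]
    linarith))
  have hF3c : ContinuousAt (fun η => 2 * F1 η - ζ * (L0 - η)) 0 := by
    apply ContinuousAt.sub
    · exact hF1c.const_mul 2
    · fun_prop
  have hev2 := hF3c.eventually (gt_mem_nhds (show (fun η => 2 * F1 η - ζ * (L0 - η)) 0 < 0 by
    simp only [hF10, sub_zero]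
    linarith))
  have hd0 : 0 ≤ d := by
    rw [hd]
    have : 0 ≤ ∑ j ∈ Ico 1 n, D j * Real.log (((j : ℝ) + 1) / j) := by
      apply Finset.sum_nonneg
      intro j hj
      exact mul_nonneg (hD0 j) (hlog j hj)
    positivity
  have hL00 : 0 < L0 := by
    by_contra hcon
    push Not at hcon
    have : ζ * L0 ≤ 0 := mul_nonpos_of_nonneg_of_nonpos hζ.le hcon
    linarith
  have hev3 : ∀ᶠ η : ℝ in nhds 0, η < L0 / 2 := gt_mem_nhds (by positivity)
  obtain ⟨η, hη, hηpos⟩ := (((hev1.and hev2).and hev3).filter_mono nhdsWithin_le_nhds |>.and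
    (self_mem_nhdsWithin (s := Set.Ioi (0 : ℝ)))).exists
  have hη0 : 0 < η := hηpos
  obtain ⟨⟨hη1, hη2⟩, hη3⟩ := hη
  obtain ⟨z1, hz1⟩ := hU η hη0 0
  obtain ⟨z2, hz2⟩ := hL η hη0 ((k0 : ℝ) / N * Real.log 2 + Real.log 2)
  have hkN0 : 0 ≤ (k0 : ℝ) / N := by positivity
  have hcells : ∀ᶠ lam : ℝ in atTop, ∀ j ∈ Ico 1 n,
      ∑ p ∈ PC ((j : ℝ) * (ζ / n) * lam) (((j : ℝ) + 1) * (ζ / n) * lam),
        (1 / (p : ℝ)) * (GS (wf (w * lam)) (zf (ζ * lam)) -
        GS (wf (w * lam) / p) (zf (ζ * lam))) ≤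
        2 / 5 * lam * ((ζ + η) * ((D j + η) * (Real.log (((j : ℝ) + 1) / j) + η))) := by
    rw [Filter.eventually_all_finset]
    intro j hj
    have hj' := Finset.mem_Ico.mp hj
    have hj1 : (1 : ℝ) ≤ j := by exact_mod_cast hj'.1
    have hjn : (j : ℝ) + 1 ≤ n := by exact_mod_cast hj'.2
    have h1 : ((j : ℝ) + 1) * (ζ / n) ≤ ζ := by
      rw [← mul_div_assoc, div_le_iff₀ hn0]
      nlinarith
    have h2 := dif_cell ζ w hζ ((j : ℝ) * (ζ / n)) (((j : ℝ) + 1) * (ζ / n)) (by positivity)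
      (by
        apply mul_le_mul_of_nonneg_right _ (by positivity)
        linarith) (by linarith) (w / ζ - ((j : ℝ) + 1) / n) (D j) (by
        field_simp) (hD0 j) (hD j hj) η hη0
    have h3 : ((j : ℝ) + 1) * (ζ / n) / ((j : ℝ) * (ζ / n)) = ((j : ℝ) + 1) / j := by
      field_simp
    rw [h3] at h2
    exact h2
  have key : ∀ᶠ lam : ℝ in atTop, ∀ (ι : Type) (E : Finset ι) (F : ι → ℕ) (X : ℝ) (r : ℕ → ℝ),
      SX E F X r →
      X / (2 / 5 * lam) * (1 / (ζ * U) - d / (ζ * U) ^ 2 - ε) -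
        lam ^ 5 * errK 5 r ⌊2 * Real.exp lam⌋₊ ≤ ((sift E F (zf (ζ * lam))).card : ℝ) := by
    filter_upwards [Filter.eventually_ge_atTop 1, sl_tiny ζ w hζ hζw n hn σ hσ hsl η hη0, hcells,
      Filter.eventually_ge_atTop (Real.log (z1 + 1) / ζ),
      Filter.eventually_ge_atTop (Real.log (z2 + 1) / ζ),
      Filter.eventually_ge_atTop (Real.log 2 / η),
      Filter.eventually_ge_atTop (C2 ^ 2)]
      with lam hlam1 htiny hcell hlam2 hlam3 hlam4 hlam5
    intro ι E F X r hSX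
    have hlam0 : 0 < lam := by linarith
    have hζl : 0 < ζ * lam := by positivity
    have hwl : 0 ≤ w * lam := by positivity
    obtain ⟨hW1, hW2, hW3⟩ := log_floor_exp (w * lam) hwl
    obtain ⟨hzz1, hzz2⟩ := log_zf (ζ * lam) hζl.le
    set W := wf (w * lam) with hW
    set z := zf (ζ * lam) with hz
    have hWeq : W = ⌊Real.exp (w * lam)⌋₊ := rfl
    rw [← hWeq] at hW1 hW2 hW3
    have hbig : ∀ z' : ℕ, Real.log (z' + 1) / ζ ≤ lam → z' ≤ z := by
      intro z' h
      have h1 : Real.log (z' + 1) ≤ Real.log z := by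
        rw [div_le_iff₀ hζ] at h
        linarith
      have hzpos : (0 : ℝ) < z := by
        rw [hz]
        unfold zf
        positivity
      have h2 := (Real.log_le_log_iff (by positivity) hzpos).mp h1
      have h3 : (z' : ℝ) ≤ z := by linarith
      exact_mod_cast h3
    have hlogz : Real.log z ≤ (ζ + η) * lam := by
      have : Real.log 2 ≤ η * lam := by
        rw [div_le_iff₀ hη0] at hlam4
        linarith
      linarith
    have hlogz0 : 0 ≤ Real.log z := Real.log_natCast_nonneg z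
    have hkz : (k0 : ℝ) / N * (ζ * lam) = w * lam := by rw [← mul_assoc, hk0]
    have hGU := hz1 z (hbig z1 hlam2) W hW1 (by
      have h2 : (k0 : ℝ) / N * (ζ * lam) ≤ (k0 : ℝ) / N * Real.log z :=
        mul_le_mul_of_nonneg_left hzz1 hkN0
      linarith)
    have hGL := hz2 z (hbig z2 hlam3) W hW1 (by
      have h1 : (k0 : ℝ) / N * Real.log z ≤ (k0 : ℝ) / N * (ζ * lam + Real.log 2) :=
        mul_le_mul_of_nonneg_left hzz2 hkN0
      linarith)
    set G := GS W z with hG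
    have hGm : G ≤ 2 / 5 * lam * ((ζ + η) * (U + η)) := by
      refine hGU.trans ?_
      calc 2 / 5 * Real.log z * (U + η) ≤ 2 / 5 * ((ζ + η) * lam) * (U + η) := by
            apply mul_le_mul_of_nonneg_right _ (by linarith)
            linarith
        _ = _ := by ring
    have hLη : 0 < L0 - η := by linarith
    have hGl : 2 / 5 * lam * (ζ * (L0 - η)) ≤ G := by
      refine le_trans ?_ hGL
      calc 2 / 5 * lam * (ζ * (L0 - η)) = 2 / 5 * (ζ * lam) * (L0 - η) := by ring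
        _ ≤ 2 / 5 * Real.log z * (L0 - η) := by
            apply mul_le_mul_of_nonneg_right _ hLη.le
            linarith
    -- sum over small primes
    set T : ℝ := ∑ p ∈ PP z, (1 / (p : ℝ)) * (G - GS (W / p) z) with hT
    have hTle : T ≤ 2 / 5 * lam * F1 η := by
      rw [hT, hz, PP_zf_eq, ← hz]
      have htel := PC_telescope (fun i => (i : ℝ) * (ζ / n) * lam) (fun i j hij => by
        have hij' : (i : ℝ) ≤ j := by exact_mod_cast hij
        apply mul_le_mul_of_nonneg_right _ hlam0.le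
        exact mul_le_mul_of_nonneg_right hij' (by positivity)) n
        (fun p => (1 / (p : ℝ)) * (G - GS (W / p) z))
      have e0 : ((0 : ℕ) : ℝ) * (ζ / n) * lam = 0 := by simp
      have en : (n : ℝ) * (ζ / n) * lam = ζ * lam := by
        field_simp
      simp only [e0, en] at htel
      rw [htel, Finset.range_eq_Ico, Finset.sum_eq_sum_Ico_succ_bot (by omega)]
      have h1 : ∑ p ∈ PC (((0 : ℕ) : ℝ) * (ζ / n) * lam) (((0 + 1 : ℕ) : ℝ) * (ζ / n) * lam),
          (1 / (p : ℝ)) * (G - GS (W / p) z) ≤ 2 / 5 * lam * ((σ + η) * (ζ / n + η)) := by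
        have e1 : ((0 + 1 : ℕ) : ℝ) * (ζ / n) * lam = ζ / n * lam := by
          push_cast
          ring
        rw [e0, e1]
        exact htiny
      have h2 : ∑ j ∈ Ico (0 + 1) n, ∑ p ∈ PC ((j : ℝ) * (ζ / n) * lam)
          (((j + 1 : ℕ) : ℝ) * (ζ / n) * lam), (1 / (p : ℝ)) * (G - GS (W / p) z) ≤
          ∑ j ∈ Ico 1 n, 2 / 5 * lam *
            ((ζ + η) * ((D j + η) * (Real.log (((j : ℝ) + 1) / j) + η))) := by
        rw [zero_add]
        apply Finset.sum_le_sum
        intro j hj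
        have h3 := hcell j hj
        have e2 : ((j + 1 : ℕ) : ℝ) = (j : ℝ) + 1 := by push_cast; ring
        rw [e2]
        exact h3
      have e1 : 2 / 5 * lam * F1 η = 2 / 5 * lam * ((σ + η) * (ζ / n + η)) +
          ∑ j ∈ Ico 1 n, 2 / 5 * lam *
            ((ζ + η) * ((D j + η) * (Real.log (((j : ℝ) + 1) / j) + η))) := by
        simp only [hF1]
        rw [mul_add, Finset.mul_sum]
      rw [e1]
      exact add_le_add h1 h2
    have hF1pos : 0 ≤ F1 η := by
      simp only [hF1]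
      have : 0 ≤ ∑ j ∈ Ico 1 n, (ζ + η) *
          ((D j + η) * (Real.log (((j : ℝ) + 1) / j) + η)) := by
        apply Finset.sum_nonneg
        intro j hj
        have h1 := hD0 j
        have h2 := hlog j hj
        positivity
      positivity
    -- the sieve
    set B : ℝ := C2 * lam ^ 2 with hB
    have hw1 : w ≤ 1 := by linarith
    have hBle : ∀ d ∈ DD W, |lm W (yS W z) d| ≤ B := fun d hd => hlm lam w hlam1 hw0 hw1 z d hd
    have hz1' : 1 ≤ z := by
      rw [hz]
      unfold zf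
      omega
    have hyz : ∀ k, W < k → yS W z k = 0 := by
      intro k hk
      unfold yS
      rw [if_neg]
      rintro ⟨h4, _⟩
      omega
    have hlow := low4 E F X hSX.X0 r hSX.r0 hSX.hr W z hz1' (yS W z) hyz B hBle
    have hcard : ∑ e ∈ sift E F z, wt5 W (yS W z) (F e) ^ 2 = ((sift E F z).card : ℝ) := by
      have : ∀ e ∈ sift E F z, wt5 W (yS W z) (F e) ^ 2 = 1 := by
        intro e he
        unfold sift at he
        rw [Finset.mem_filter] at he
        rw [wt5_yS W z (F e) hW1 he.2]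
        norm_num
      rw [Finset.sum_congr rfl this]
      simp
    rw [hcard, yS_Q0 W z hW1, ← hG] at hlow
    have hsum : ∑ p ∈ PP z, (1 / (p : ℝ)) *
        ∑ k ∈ DD W, (yS W z k - yS W z (k * p)) ^ 2 / (Nat.totient k : ℝ) = (1 / G) ^ 2 * T := by
      rw [hT, Finset.mul_sum]
      apply Finset.sum_congr rfl
      intro p hp
      rw [mem_PP] at hp
      rw [yS_diff W z p hp.2.1 hp.1, ← hG]
      ring
    rw [hsum] at hlow
    have herr : B ^ 2 * errTot r (W * W * z) ≤ lam ^ 5 * errK 5 r ⌊2 * Real.exp lam⌋₊ := by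
      have h2 : ((W * W * z : ℕ) : ℝ) ≤ 2 * Real.exp lam := by
        push_cast
        have a1 : (W : ℝ) ≤ Real.exp (w * lam) := Nat.floor_le (Real.exp_pos _).le
        have a2 : (z : ℝ) ≤ 2 * Real.exp (ζ * lam) := by
          rw [hz]
          unfold zf
          push_cast
          have a4 : (⌊Real.exp (ζ * lam)⌋₊ : ℝ) ≤ Real.exp (ζ * lam) :=
            Nat.floor_le (Real.exp_pos _).le
          have a5 : (1 : ℝ) ≤ Real.exp (ζ * lam) := Real.one_le_exp hζl.le
          linarith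
        have a3 : Real.exp (w * lam) * Real.exp (w * lam) * Real.exp (ζ * lam) ≤
            Real.exp lam := by
          rw [← Real.exp_add, ← Real.exp_add, Real.exp_le_exp]
          have : (2 * w + ζ) * lam ≤ 1 * lam := mul_le_mul_of_nonneg_right hw hlam0.le
          linarith
        calc (W : ℝ) * W * (z : ℝ) ≤
              Real.exp (w * lam) * Real.exp (w * lam) * (2 * Real.exp (ζ * lam)) := by
              apply mul_le_mul _ a2 (Nat.cast_nonneg _) (by positivity)
              exact mul_le_mul a1 a1 (Nat.cast_nonneg _) (by positivity)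
          _ = 2 * (Real.exp (w * lam) * Real.exp (w * lam) * Real.exp (ζ * lam)) := by ring
          _ ≤ 2 * Real.exp lam := by linarith
      have h3 : W * W * z ≤ ⌊2 * Real.exp lam⌋₊ := Nat.le_floor h2
      have h4 : errTot r (W * W * z) ≤ errK 5 r ⌊2 * Real.exp lam⌋₊ := by
        rw [errTot_eq]
        exact errK_mono 3 5 (by norm_num) r hSX.r0 _ _ h3
      have h5 : B ^ 2 ≤ lam ^ 5 := by
        have e1 : B ^ 2 = C2 ^ 2 * lam ^ 4 := by rw [hB]; ring
        rw [e1]
        calc C2 ^ 2 * lam ^ 4 ≤ lam * lam ^ 4 :=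
              mul_le_mul_of_nonneg_right hlam5 (by positivity)
          _ = lam ^ 5 := by ring
      have h6 : 0 ≤ errTot r (W * W * z) := by
        rw [errTot_eq]
        exact errK_nonneg 3 r hSX.r0 _
      exact mul_le_mul h5 h4 h6 (by positivity)
    have hq := quad_aux G (2 / 5 * lam * ((ζ + η) * (U + η))) (2 / 5 * lam * (ζ * (L0 - η))) T
      (2 / 5 * lam * F1 η) (by positivity) hGl hGm hTle (by
        have h6 : 2 * F1 η ≤ ζ * (L0 - η) := by linarith
        have h7 := mul_le_mul_of_nonneg_left h6 (show 0 ≤ 2 / 5 * lam by positivity)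
        linarith) (by positivity)
    have hq2 : 1 / (2 / 5 * lam * ((ζ + η) * (U + η))) - 2 / 5 * lam * F1 η /
        (2 / 5 * lam * ((ζ + η) * (U + η))) ^ 2 = 1 / (2 / 5 * lam) * F2 η := by
      simp only [hF2]
      have h1 : ζ + η ≠ 0 := by positivity
      have h2 : U + η ≠ 0 := by positivity
      field_simp
    rw [hq2] at hq
    have h8 := mul_le_mul_of_nonneg_left hq hSX.X0
    have h9 : X * (1 / (2 / 5 * lam) * F2 η) = X / (2 / 5 * lam) * F2 η := by
      ring
    rw [h9] at h8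
    have h10 : X / (2 / 5 * lam) * (1 / (ζ * U) - d / (ζ * U) ^ 2 - ε) ≤
        X / (2 / 5 * lam) * F2 η :=
      mul_le_mul_of_nonneg_left hη1.le (div_nonneg hSX.X0 (by positivity))
    linarith
  obtain ⟨Λ, hΛ⟩ := Filter.eventually_atTop.mp key
  refine ⟨5, Λ, fun lam hlam ι E F X r hSX => ?_⟩
  have h1 := hΛ lam hlam ι E F X r hSX
  have h2 : lam / (1 / ζ) = ζ * lam := by
    field_simp
  rw [h2]
  exact h1

end Pool.Agent.Helper10.EN
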