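import Pool.Agent.Helper10.EN.FMix

/-! ENT-A7: power saving for the first moment over all moduli in a decimal block, level `5/14`.

Port of `S_all4` in Helper10/P4/SAll.lean. Changes: `g := 1500`, `L := r / 1500`; `l := (89/100)^L` instead of `(95/100)^L`;
`decay_gen (89/100) _ _ 1500` gives `σ, μ, θ` with `σ μ = θ`, but now the first part carries `exp (1/10^5 * ℓ)`, `ℓ ≤ 3 r`: use
`decay_gen` and then `exp (3/10^5) * σ'`, or do it by hand: let `σ := (89/100)^(1/1500 : ℝ)`; then `σ ≤ 1 - 7/10^5` because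
`(1 - 7/10^5)^1500 ≥ 1 - 0.105 = 0.895 ≥ 0.89` (Bernoulli, `one_add_mul_le_pow`), and `exp (3/10^5) ≤ 1 + 3.1/10^5`, so
`σ exp (3/10^5) ≤ 1 - 3/10^5 < 1`; put `μ := 1/sqrt (σ exp (3/10^5))`, `θ := sqrt (σ exp (3/10^5))`.
POINTWISE: `pointwise κ T ℓ L 1500 …` (same file) with `ℓ := min T (3 r)`.
FIRST PART: for each of the `1500` complements `A_i = Icc 1 ℓ \ Ioc (i L) ((i+1) L)` (card `≥ ℓ - L`) `first_moment` with
`Qm = 10^(r+1)`, `D = ⌊C' μ^r⌋` (`tau_le_pow μ`, as in the landed proof; check that its range of `n` covers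
`80 * 10^(2ℓ+1)`, `ℓ ≤ 3 r`: it is stated for `n ≤ 18 * 10^(6r+1)`, so use it with `r + 1`), and the main term
`9 * 10^r * kap^(ℓ - L) ≤ C3`: indeed `7 r ≤ 5 T + 20` and `ℓ = min T (3r)` give `5 ℓ ≥ 7 r - 20`, `L ≤ r/1500`, so
`ℓ - L ≥ 1.4 r - 4 - r/1500 = 2099/1500 r - 4`, and `kap^2099 ≤ 10^(-1500)` (on integers:
`1929^2099 * 10^1500 ≤ 10^(4*2099)`, `by norm_num` or `by decide +kernel`); rounding costs a constant factor.
The result is `≤ 1500 * C * l * exp (3/10^5 r) * 10^(r+1) * (C3 + D) ≤ C'' (10 θ)^r`.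
SECOND PART: `LS4` (P4/T1.lean) exactly as in the landed proof with `(67/1000)/(89/100)^3 ≤ 96/1000 < 1/10`:
`(1 / l^(3*1500)) * 5 * (18 * 10^(2r+1) + 1) * (67/1000)^(1500 L) ≤ C (10 * 96/100)^r` (rounding: `r < 1500 (L+1)`).
The case `r < 1500` is trivial (as in the landed proof). Final `θ' = max θ (96/100)`. -/

namespace Pool.Agent.Helper10.EN

open Finset Pool.Agent.Helper10 Pool.Agent.Helper10.P5 Pool.Agent.Helper10.P4

/-- explicit form of the decay lemma -/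
lemma decay_expl (β : ℝ) (hβ0 : 0 < β) (hβ1 : β < 1) (g : ℕ) (hg : 1 ≤ g) (r : ℕ) :
    β ^ (r / g) ≤ (1 / β) * (β ^ ((1 : ℝ) / g)) ^ r := by
  have hgR : (1 : ℝ) ≤ g := by exact_mod_cast hg
  have h1 : (β ^ ((1 : ℝ) / g)) ^ r = β ^ ((r : ℝ) / g) := by
    rw [← Real.rpow_natCast, ← Real.rpow_mul hβ0.le]
    congr 1
    ring
  rw [h1, ← Real.rpow_natCast β (r / g), one_div β, ← Real.rpow_neg_one β, ← Real.rpow_add hβ0]
  apply Real.rpow_le_rpow_of_exponent_ge hβ0 hβ1.le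
  have h2 : (r : ℝ) < g * (((r / g : ℕ) : ℝ) + 1) := by
    have := Nat.lt_mul_div_succ r (show 0 < g by omega)
    exact_mod_cast this
  have h3 : (r : ℝ) / g ≤ ((r / g : ℕ) : ℝ) + 1 := by
    rw [div_le_iff₀ (by linarith)]
    linarith
  linarith

lemma sigma_le : ((89 : ℝ) / 100) ^ ((1 : ℝ) / (1500 : ℕ)) ≤ 1 - 7 / 10 ^ 5 := by
  have h1 : (89 : ℝ) / 100 ≤ (1 - 7 / 10 ^ 5) ^ 1500 := by
    have h := one_add_mul_le_pow (show (-2 : ℝ) ≤ -(7 / 10 ^ 5) by norm_num) 1500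
    have h2 : (1 + -(7 / 10 ^ 5 : ℝ)) ^ 1500 = (1 - 7 / 10 ^ 5) ^ 1500 := by
      rw [← sub_eq_add_neg]
    rw [h2] at h
    refine le_trans ?_ h
    norm_num
  have h2 : ((89 : ℝ) / 100) ^ ((1 : ℝ) / (1500 : ℕ)) ≤
      ((1 - 7 / 10 ^ 5 : ℝ) ^ 1500) ^ ((1 : ℝ) / (1500 : ℕ)) :=
    Real.rpow_le_rpow (by norm_num) h1 (by positivity)
  refine h2.trans (le_of_eq ?_)
  rw [one_div]
  exact Real.pow_rpow_inv_natCast (by norm_num) (by norm_num)

lemma expo_le : Real.exp (3 / 10 ^ 5) ≤ 1 / (1 - 3 / 10 ^ 5) := by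
  have h1 := Real.add_one_le_exp (-(3 / 10 ^ 5 : ℝ))
  have h2 : Real.exp (-(3 / 10 ^ 5 : ℝ)) = (Real.exp (3 / 10 ^ 5))⁻¹ := Real.exp_neg _
  rw [h2] at h1
  have h3 : 0 < Real.exp (3 / 10 ^ 5 : ℝ) := Real.exp_pos _
  rw [le_div_iff₀ (by norm_num)]
  have h4 := mul_le_mul_of_nonneg_left h1 h3.le
  rw [mul_inv_cancel₀ h3.ne'] at h4
  calc Real.exp (3 / 10 ^ 5) * (1 - 3 / 10 ^ 5)
      = Real.exp (3 / 10 ^ 5) * (-(3 / 10 ^ 5) + 1) := by ring
    _ ≤ 1 := h4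

lemma decay6 : ∃ σ μ θ : ℝ, 0 < σ ∧ 1 < μ ∧ 0 < θ ∧ θ < 1 ∧
    σ * Real.exp (3 / 10 ^ 5) * μ = θ ∧
    ∀ r : ℕ, ((89 : ℝ) / 100) ^ (r / 1500) ≤ 2 * σ ^ r := by
  obtain ⟨σ, hσ⟩ : ∃ σ : ℝ, σ = ((89 : ℝ) / 100) ^ ((1 : ℝ) / (1500 : ℕ)) := ⟨_, rfl⟩
  have hσ0 : 0 < σ := by rw [hσ]; exact Real.rpow_pos_of_pos (by norm_num) _
  have hσ1 : σ ≤ 1 - 7 / 10 ^ 5 := by rw [hσ]; exact sigma_le
  obtain ⟨E, hE⟩ : ∃ E : ℝ, E = Real.exp (3 / 10 ^ 5) := ⟨_, rfl⟩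
  have hE0 : 0 < E := by rw [hE]; exact Real.exp_pos _
  have hE1 : E ≤ 1 / (1 - 3 / 10 ^ 5) := by rw [hE]; exact expo_le
  obtain ⟨τ, hτ⟩ : ∃ τ : ℝ, τ = σ * E := ⟨_, rfl⟩
  have hτ0 : 0 < τ := by rw [hτ]; positivity
  have hτ1 : τ < 1 := by
    calc τ = σ * E := hτ
      _ ≤ (1 - 7 / 10 ^ 5) * (1 / (1 - 3 / 10 ^ 5)) :=
        mul_le_mul hσ1 hE1 hE0.le (by norm_num)
      _ < 1 := by norm_num
  have hs0 : 0 < √τ := Real.sqrt_pos.mpr hτ0
  have hs1 : √τ < 1 := by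
    rw [Real.sqrt_lt' one_pos]
    simpa using hτ1
  refine ⟨σ, 1 / √τ, √τ, hσ0, ?_, hs0, hs1, ?_, ?_⟩
  · rw [lt_div_iff₀ hs0]
    linarith
  · rw [← hE, ← hτ, mul_one_div]
    exact Real.div_sqrt
  · intro r
    have h := decay_expl (89 / 100) (by norm_num) (by norm_num) 1500 (by norm_num) r
    rw [← hσ] at h
    refine h.trans ?_
    apply mul_le_mul_of_nonneg_right _ (by positivity)
    norm_num

set_option exponentiation.threshold 10000 in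
lemma kap_pow : kap ^ 2099 ≤ (1 / 10) ^ 1500 := by
  unfold kap
  have h : (1929 : ℕ) ^ 2099 * 10 ^ 1500 ≤ 10000 ^ 2099 := by decide +kernel
  have h' : (1929 : ℝ) ^ 2099 * 10 ^ 1500 ≤ 10000 ^ 2099 := by exact_mod_cast h
  rw [div_pow, div_pow, one_pow, div_le_div_iff₀ (pow_pos (by norm_num) _)
    (pow_pos (by norm_num) _), one_mul]
  exact h'

lemma kap_main (r N : ℕ) (h : 2099 * r ≤ 1500 * (N + 4)) : (10 : ℝ) ^ r * kap ^ N ≤ 1000 := by
  have hk0 : 0 < kap := by unfold kap; norm_num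
  have hk1 : kap ≤ 1 := by unfold kap; norm_num
  have h1 : kap ^ (N + 4) ≤ (1 / 10) ^ r := by
    have h2 : (kap ^ (N + 4)) ^ 1500 ≤ ((1 / 10) ^ r) ^ 1500 := by
      rw [← pow_mul, ← pow_mul, mul_comm (N + 4) 1500, mul_comm r 1500]
      calc kap ^ (1500 * (N + 4)) ≤ kap ^ (2099 * r) := pow_le_pow_of_le_one hk0.le hk1 h
        _ = (kap ^ 2099) ^ r := pow_mul _ _ _
        _ ≤ ((1 / 10) ^ 1500) ^ r := pow_le_pow_left₀ (by positivity) kap_pow r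
        _ = (1 / 10) ^ (1500 * r) := (pow_mul _ _ _).symm
    exact le_of_pow_le_pow_left₀ (by norm_num) (by positivity) h2
  have h3 : (1 : ℝ) ≤ 1000 * kap ^ 4 := by unfold kap; norm_num
  have h4 : 0 < kap ^ N := by positivity
  calc (10 : ℝ) ^ r * kap ^ N = 10 ^ r * (1 * kap ^ N) := by ring
    _ ≤ 10 ^ r * ((1000 * kap ^ 4) * kap ^ N) := by gcongr
    _ = 1000 * (10 ^ r * kap ^ (N + 4)) := by rw [pow_add]; ring
    _ ≤ 1000 * (10 ^ r * (1 / 10) ^ r) := by gcongr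
    _ = 1000 := by rw [← mul_pow]; norm_num

/-- the error part: sum of the complementary products -/
lemma sum_compl6 : ∃ C : ℝ, 0 < C ∧ ∀ (κ T ℓ L G D r : ℕ),
    (∀ q : ℕ, q.Coprime 10 → q.Coprime κ) → ℓ ≤ T → ℓ ≤ 3 * r → L ≤ ℓ →
    2099 * r + 1500 * L ≤ 1500 * (ℓ + 4) →
    (∀ n : ℕ, 1 ≤ n → n ≤ 80 * 10 ^ (2 * ℓ + 1) → tau n ≤ D) →
    ∑ q ∈ QT r, ∑ a ∈ AA q, ∑ i ∈ range G,
      GF κ T (Icc 1 ℓ \ Ioc (i * L) ((i + 1) * L)) ((a : ℝ) / q) ≤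
      G * (C * Real.exp (3 / 10 ^ 5) ^ r * (10 * 10 ^ r * (9000 + D))) := by
  classical
  obtain ⟨C, hC, hfm⟩ := first_moment
  refine ⟨C, hC, ?_⟩
  intro κ T ℓ L G D r hκ hℓ hℓ3 hLℓ hr hD
  have hk0 : 0 < kap := by unfold kap; norm_num
  have hk1 : kap ≤ 1 := by unfold kap; norm_num
  have h1 : ∑ q ∈ QT r, ∑ a ∈ AA q, ∑ i ∈ range G,
      GF κ T (Icc 1 ℓ \ Ioc (i * L) ((i + 1) * L)) ((a : ℝ) / q) =
      ∑ i ∈ range G, ∑ q ∈ QT r, ∑ a ∈ AA q,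
        GF κ T (Icc 1 ℓ \ Ioc (i * L) ((i + 1) * L)) ((a : ℝ) / q) := by
    rw [Finset.sum_comm]
    apply Finset.sum_congr rfl
    intro q _
    rw [Finset.sum_comm]
  rw [h1]
  have hS : ∀ q ∈ QT r, 0 < q ∧ q ≤ 10 ^ (r + 1) ∧ q.Coprime 10 := by
    intro q hq
    rw [mem_QT] at hq
    exact ⟨by omega, hq.1.2, hq.2⟩
  have h2 : ∀ i ∈ range G, ∑ q ∈ QT r, ∑ a ∈ AA q,
      GF κ T (Icc 1 ℓ \ Ioc (i * L) ((i + 1) * L)) ((a : ℝ) / q) ≤
      C * Real.exp (3 / 10 ^ 5) ^ r * (10 * 10 ^ r * (9000 + D)) := by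
    intro i _
    obtain ⟨A, hA⟩ : ∃ A : Finset ℕ, A = Icc 1 ℓ \ Ioc (i * L) ((i + 1) * L) := ⟨_, rfl⟩
    rw [← hA]
    have hAsub : A ⊆ Icc 1 ℓ := by rw [hA]; exact Finset.sdiff_subset
    have hAle : A.card ≤ ℓ := by
      have := Finset.card_le_card hAsub
      rwa [Nat.card_Icc, Nat.add_sub_cancel] at this
    have hAge : ℓ - L ≤ A.card := by
      have h4 := Finset.le_card_sdiff (Ioc (i * L) ((i + 1) * L)) (Icc 1 ℓ)
      have h5 : (Ioc (i * L) ((i + 1) * L)).card = L := by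
        rw [Nat.card_Ioc, add_mul, one_mul, Nat.add_sub_cancel_left]
      rw [Nat.card_Icc, h5, Nat.add_sub_cancel] at h4
      rw [hA]
      exact h4
    refine (hfm κ T ℓ (10 ^ (r + 1)) D A hκ hℓ hAsub (QT r) hS
      (fun n hn1 hn2 => (card_filter_dvd_le (QT r) n hn1).trans (hD n hn1 hn2))).trans ?_
    have h6 : Real.exp (1 / 10 ^ 5 * A.card) ≤ Real.exp (3 / 10 ^ 5) ^ r := by
      rw [← Real.exp_nat_mul]
      apply Real.exp_le_exp.mpr
      have h7 : (A.card : ℝ) ≤ 3 * r := by exact_mod_cast hAle.trans hℓ3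
      calc (1 : ℝ) / 10 ^ 5 * A.card ≤ 1 / 10 ^ 5 * (3 * r) :=
            mul_le_mul_of_nonneg_left h7 (by norm_num)
        _ = r * (3 / 10 ^ 5) := by ring
    have h8 : ((QT r).card : ℝ) * kap ^ A.card ≤ 9000 := by
      have h9 : ((QT r).card : ℝ) ≤ 9 * 10 ^ r := by exact_mod_cast QT_card r
      have h10 := kap_main r A.card (by omega)
      calc ((QT r).card : ℝ) * kap ^ A.card ≤ (9 * 10 ^ r) * kap ^ A.card :=
            mul_le_mul_of_nonneg_right h9 (by positivity)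
        _ = 9 * (10 ^ r * kap ^ A.card) := by ring
        _ ≤ 9 * 1000 := by linarith
        _ = 9000 := by norm_num
    have h11 : (((10 ^ (r + 1) : ℕ) : ℝ)) = 10 * 10 ^ r := by push_cast; ring
    rw [h11]
    apply mul_le_mul
    · exact mul_le_mul_of_nonneg_left h6 hC.le
    · apply mul_le_mul_of_nonneg_left _ (by positivity)
      linarith
    · positivity
    · positivity
  calc ∑ i ∈ range G, ∑ q ∈ QT r, ∑ a ∈ AA q,
        GF κ T (Icc 1 ℓ \ Ioc (i * L) ((i + 1) * L)) ((a : ℝ) / q)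
      ≤ ∑ i ∈ range G, (C * Real.exp (3 / 10 ^ 5) ^ r * (10 * 10 ^ r * (9000 + D)) : ℝ) :=
        Finset.sum_le_sum h2
    _ = G * (C * Real.exp (3 / 10 ^ 5) ^ r * (10 * 10 ^ r * (9000 + D))) := by
        rw [Finset.sum_const, Finset.card_range, nsmul_eq_mul]

/-- the fourth moment part -/
lemma part_two (κ T r L g : ℕ) (hκ : ∀ q : ℕ, q.Coprime 10 → q.Coprime κ) (hrT : r ≤ T)
    (hLr : g * L ≤ r) (hgL : r < g * (L + 1)) :
    (1 / (((89 : ℝ) / 100) ^ L) ^ (3 * g)) * ∑ q ∈ QT r, ∑ a ∈ AA q,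
        GF κ T (Icc 1 (g * L)) ((a : ℝ) / q) ^ 4 ≤ 1000 * 11 ^ g * (10 * (96 / 100)) ^ r := by
  have hS : ∀ q ∈ QT r, 0 < q ∧ q ≤ 10 ^ (r + 1) ∧ q.Coprime 10 := by
    intro q hq
    rw [mem_QT] at hq
    exact ⟨by omega, hq.1.2, hq.2⟩
  obtain ⟨l, hl⟩ : ∃ l : ℝ, l = ((89 : ℝ) / 100) ^ L := ⟨_, rfl⟩
  have hl0 : 0 < l := by rw [hl]; positivity
  rw [← hl]
  have h3 := LS4 κ T r (10 ^ (r + 1)) (18 * 10 ^ (2 * r + 1) + 1) (Icc 1 (g * L)) hκ hrT
    (Finset.Icc_subset_Icc_right hLr) (QT r) hS (Nat.one_le_pow _ _ (by norm_num)) (by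
      rw [← pow_mul, show (r + 1) * 2 = (2 * r + 1) + 1 by ring, pow_succ]
      have : 0 < 10 ^ (2 * r + 1) := by positivity
      omega) (le_refl _)
  rw [Nat.card_Icc, Nat.add_sub_cancel] at h3
  have e1 : l ^ (3 * g) = ((89 / 100 : ℝ) ^ 3) ^ (g * L) := by
    rw [hl, ← pow_mul, ← pow_mul]
    congr 1
    ring
  have e2 : (1 / l ^ (3 * g)) * (5 * ((18 * 10 ^ (2 * r + 1) + 1 : ℕ) : ℝ) *
      (67 / 1000) ^ (g * L)) = 5 * ((18 * 10 ^ (2 * r + 1) + 1 : ℕ) : ℝ) *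
      ((67 / 1000) / (89 / 100) ^ 3) ^ (g * L) := by
    rw [e1, div_pow (67 / 1000 : ℝ)]
    ring
  calc (1 / l ^ (3 * g)) * ∑ q ∈ QT r, ∑ a ∈ AA q, GF κ T (Icc 1 (g * L)) ((a : ℝ) / q) ^ 4
      ≤ (1 / l ^ (3 * g)) * (5 * ((18 * 10 ^ (2 * r + 1) + 1 : ℕ) : ℝ) *
      (67 / 1000) ^ (g * L)) := mul_le_mul_of_nonneg_left h3 (by positivity)
    _ = 5 * ((18 * 10 ^ (2 * r + 1) + 1 : ℕ) : ℝ) *
      ((67 / 1000) / (89 / 100) ^ 3) ^ (g * L) := e2
    _ ≤ 5 * ((18 * 10 ^ (2 * r + 1) + 1 : ℕ) : ℝ) * ((96 / 1000) ^ r * 11 ^ g) := by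
        apply mul_le_mul_of_nonneg_left _ (by positivity)
        calc ((67 / 1000 : ℝ) / (89 / 100) ^ 3) ^ (g * L) ≤ (96 / 1000) ^ (g * L) := by
              apply pow_le_pow_left₀ (by norm_num)
              norm_num
          _ ≤ (96 / 1000) ^ r * 11 ^ g := by
              have h8 : ((96 : ℝ) / 1000) ^ (g * L) * (96 / 1000) ^ g ≤ (96 / 1000) ^ r := by
                rw [← pow_add]
                apply pow_le_pow_of_le_one (by norm_num) (by norm_num)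
                have : g * (L + 1) = g * L + g := by ring
                omega
              have h9 : ((96 : ℝ) / 1000) ^ g * 11 ^ g = (1056 / 1000) ^ g := by
                rw [← mul_pow]
                norm_num
              have h10 : (1 : ℝ) ≤ (1056 / 1000) ^ g := one_le_pow₀ (by norm_num)
              have h11 : (0 : ℝ) < (96 / 1000) ^ (g * L) := by positivity
              calc ((96 : ℝ) / 1000) ^ (g * L) ≤ (96 / 1000) ^ (g * L) * (1056 / 1000) ^ g := by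
                    nlinarith
                _ = ((96 / 1000) ^ (g * L) * (96 / 1000) ^ g) * 11 ^ g := by rw [← h9]; ring
                _ ≤ (96 / 1000) ^ r * 11 ^ g :=
                    mul_le_mul_of_nonneg_right h8 (by positivity)
    _ ≤ (1000 * (10 ^ r * 10 ^ r)) * ((96 / 1000) ^ r * 11 ^ g) := by
        apply mul_le_mul_of_nonneg_right _ (by positivity)
        push_cast
        have h12 : (1 : ℝ) ≤ 10 ^ r := one_le_pow₀ (by norm_num)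
        have h13 : (10 : ℝ) ^ (2 * r + 1) = 10 * (10 ^ r * 10 ^ r) := by ring
        rw [h13]
        nlinarith [mul_self_nonneg ((10 : ℝ) ^ r)]
    _ = 1000 * 11 ^ g * (10 * (96 / 100)) ^ r := by
        have h14 : ((10 : ℝ) ^ r * 10 ^ r) * (96 / 1000) ^ r = (10 * (96 / 100)) ^ r := by
          rw [← mul_pow, ← mul_pow]
          norm_num
        rw [← h14]
        ring

/-- trivial bound -/
lemma trivial_le (κ T r : ℕ) :
    ∑ q ∈ QT r, ∑ a ∈ AA q, GF κ T (Icc 1 T) ((a : ℝ) / q) ≤ 10 ^ (2 * r + 2) := by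
  have hS : ∀ q ∈ QT r, 0 < q ∧ q ≤ 10 ^ (r + 1) ∧ q.Coprime 10 := by
    intro q hq
    rw [mem_QT] at hq
    exact ⟨by omega, hq.1.2, hq.2⟩
  calc ∑ q ∈ QT r, ∑ a ∈ AA q, GF κ T (Icc 1 T) ((a : ℝ) / q)
      ≤ ∑ q ∈ QT r, (10 : ℝ) ^ (r + 1) := by
        apply Finset.sum_le_sum
        intro q hq
        calc ∑ a ∈ AA q, GF κ T (Icc 1 T) ((a : ℝ) / q) ≤ ∑ a ∈ AA q, (1 : ℝ) :=
              Finset.sum_le_sum fun _ _ => GF_le_one _ _ _ _
          _ = (AA q).card := by simp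
          _ ≤ (q : ℝ) := by
              have : (AA q).card ≤ q := by
                unfold AA
                refine (Finset.card_filter_le _ _).trans ?_
                rw [Finset.card_range]
              exact_mod_cast this
          _ ≤ 10 ^ (r + 1) := by exact_mod_cast (hS q hq).2.1
    _ = (QT r).card * (10 : ℝ) ^ (r + 1) := by rw [Finset.sum_const, nsmul_eq_mul]
    _ ≤ (9 * 10 ^ r) * (10 : ℝ) ^ (r + 1) := by
        apply mul_le_mul_of_nonneg_right _ (by positivity)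
        exact_mod_cast QT_card r
    _ ≤ 10 ^ (2 * r + 2) := by
        have : (10 : ℝ) ^ (2 * r + 2) = 10 * 10 ^ r * 10 ^ (r + 1) := by ring
        rw [this]
        apply mul_le_mul_of_nonneg_right _ (by positivity)
        have : (0 : ℝ) < 10 ^ r := by positivity
        linarith

/-- **First moment over all moduli in a decimal block, level `5/14`.** -/
theorem S_all6 : ∃ C θ : ℝ, 0 < C ∧ 0 < θ ∧ θ < 1 ∧
    ∀ κ T r : ℕ, (∀ q : ℕ, q.Coprime 10 → q.Coprime κ) → 7 * r ≤ 5 * T + 20 →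
      ∑ q ∈ QT r, ∑ a ∈ AA q, GF κ T (Icc 1 T) ((a : ℝ) / q) ≤ C * (10 * θ) ^ r := by
  classical
  obtain ⟨σ, μ, θ, hσ0, hμ1, hθ0, hθ1, hσμ, hdec⟩ := decay6
  obtain ⟨C', hC'1, hτ⟩ := tau_le_pow μ hμ1
  obtain ⟨C, hC, hcompl⟩ := sum_compl6
  obtain ⟨g, hg⟩ : ∃ g : ℕ, g = 1500 := ⟨_, rfl⟩
  obtain ⟨E, hE⟩ : ∃ E : ℝ, E = Real.exp (3 / 10 ^ 5) := ⟨_, rfl⟩
  have hE0 : 0 < E := by rw [hE]; exact Real.exp_pos _
  obtain ⟨θ', hθ'⟩ : ∃ θ' : ℝ, θ' = max θ (96 / 100) := ⟨_, rfl⟩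
  have hθ'0 : 0 < θ' := by rw [hθ']; exact lt_max_of_lt_left hθ0
  have hθ'1 : θ' < 1 := by rw [hθ']; exact max_lt hθ1 (by norm_num)
  have hθle : θ ≤ θ' := by rw [hθ']; exact le_max_left _ _
  have hθle2 : 96 / 100 ≤ θ' := by rw [hθ']; exact le_max_right _ _
  have hμ0 : 0 < μ := by linarith
  obtain ⟨K1, hK1⟩ : ∃ K1 : ℝ, K1 = 2 * (g * (C * (10 * (9001 * (C' * μ))))) := ⟨_, rfl⟩
  have hK10 : 0 < K1 := by rw [hK1, hg]; positivity
  obtain ⟨K2, hK2⟩ : ∃ K2 : ℝ, K2 = 1000 * 11 ^ g := ⟨_, rfl⟩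
  have hK20 : 0 < K2 := by rw [hK2]; positivity
  obtain ⟨K3, hK3⟩ : ∃ K3 : ℝ, K3 = 10 ^ (2 * g + 2) := ⟨_, rfl⟩
  have hK30 : 0 < K3 := by rw [hK3]; positivity
  refine ⟨K1 + K2 + K3, θ', by positivity, hθ'0, hθ'1, ?_⟩
  intro κ T r hκ hT
  have hbig : (1 : ℝ) ≤ (10 * θ') ^ r := one_le_pow₀ (by linarith)
  rcases Nat.lt_or_ge r g with hrg | hrg
  · refine (trivial_le κ T r).trans ?_
    have h2 : (10 : ℝ) ^ (2 * r + 2) ≤ K3 := by
      rw [hK3]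
      apply pow_le_pow_right₀ (by norm_num)
      omega
    calc (10 : ℝ) ^ (2 * r + 2) ≤ K3 := h2
      _ ≤ K3 * (10 * θ') ^ r := le_mul_of_one_le_right hK30.le hbig
      _ ≤ (K1 + K2 + K3) * (10 * θ') ^ r := by
          apply mul_le_mul_of_nonneg_right _ (by positivity)
          linarith
  · obtain ⟨L, hL⟩ : ∃ L, L = r / 1500 := ⟨_, rfl⟩
    have hL1 : 1500 * L ≤ r := by omega
    have hL2 : r < 1500 * (L + 1) := by omega
    have hgL : r < g * (L + 1) := by rw [hg]; exact hL2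
    have hLr : g * L ≤ r := by rw [hg]; exact hL1
    have h1 := hdec r
    rw [← hL] at h1
    obtain ⟨ℓ, hℓ⟩ : ∃ ℓ, ℓ = min T (3 * r) := ⟨_, rfl⟩
    have hℓT : ℓ ≤ T := by omega
    have hℓ3 : ℓ ≤ 3 * r := by omega
    have hℓ5 : 7 * r ≤ 5 * ℓ + 20 := by omega
    have hrℓ : r ≤ ℓ := by omega
    obtain ⟨D, hDdef⟩ : ∃ D : ℕ, D = ⌊C' * μ ^ (r + 1)⌋₊ := ⟨_, rfl⟩
    have hμr : (1 : ℝ) ≤ μ ^ (r + 1) := one_le_pow₀ hμ1.le
    have hDle : (D : ℝ) ≤ C' * μ ^ (r + 1) := by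
      rw [hDdef]
      exact Nat.floor_le (by positivity)
    have hD : ∀ n : ℕ, 1 ≤ n → n ≤ 80 * 10 ^ (2 * ℓ + 1) → tau n ≤ D := by
      intro n hn1 hn2
      rw [hDdef]
      apply Nat.le_floor
      apply hτ (r + 1) n hn1
      refine hn2.trans ?_
      calc 80 * 10 ^ (2 * ℓ + 1) ≤ 80 * 10 ^ (6 * r + 1) :=
            Nat.mul_le_mul_left _ (Nat.pow_le_pow_right (by norm_num) (by omega))
        _ ≤ 18 * 10 ^ (6 * (r + 1) + 1) := by
            have : 10 ^ (6 * (r + 1) + 1) = 10 ^ 6 * 10 ^ (6 * r + 1) := by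
              rw [← pow_add]
              congr 1
              ring
            rw [this]
            have h0 : 0 < 10 ^ (6 * r + 1) := by positivity
            nlinarith
    have hGL : g * L ≤ ℓ := hLr.trans hrℓ
    obtain ⟨l, hl⟩ : ∃ l : ℝ, l = ((89 : ℝ) / 100) ^ L := ⟨_, rfl⟩
    have hl0 : 0 < l := by rw [hl]; positivity
    have hpt := fun α => pointwise κ T ℓ L g hℓT hGL l hl0 α
    have h2 := hcompl κ T ℓ L g D r hκ hℓT hℓ3 (by omega) (by omega) hD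
    rw [← hE] at h2
    have h4 : ∑ q ∈ QT r, ∑ a ∈ AA q, GF κ T (Icc 1 T) ((a : ℝ) / q) ≤
        l * ∑ q ∈ QT r, ∑ a ∈ AA q, ∑ i ∈ range g,
          GF κ T (Icc 1 ℓ \ Ioc (i * L) ((i + 1) * L)) ((a : ℝ) / q) +
        (1 / l ^ (3 * g)) * ∑ q ∈ QT r, ∑ a ∈ AA q, GF κ T (Icc 1 (g * L)) ((a : ℝ) / q) ^ 4 := by
      rw [Finset.mul_sum, Finset.mul_sum, ← Finset.sum_add_distrib]
      apply Finset.sum_le_sum
      intro q _
      rw [Finset.mul_sum, Finset.mul_sum, ← Finset.sum_add_distrib]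
      exact Finset.sum_le_sum fun a _ => hpt _
    have h5 : l * ∑ q ∈ QT r, ∑ a ∈ AA q, ∑ i ∈ range g,
          GF κ T (Icc 1 ℓ \ Ioc (i * L) ((i + 1) * L)) ((a : ℝ) / q) ≤ K1 * (10 * θ') ^ r := by
      have hX : 9000 + (D : ℝ) ≤ 9001 * (C' * μ) * μ ^ r := by
        have e : C' * μ ^ (r + 1) = (C' * μ) * μ ^ r := by rw [pow_succ]; ring
        have h6 : 1 ≤ (C' * μ) * μ ^ r := by
          rw [← e]
          nlinarith
        rw [e] at hDle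
        linarith
      have h7 : l ≤ 2 * σ ^ r := by rw [hl]; exact h1
      calc l * ∑ q ∈ QT r, ∑ a ∈ AA q, ∑ i ∈ range g,
          GF κ T (Icc 1 ℓ \ Ioc (i * L) ((i + 1) * L)) ((a : ℝ) / q)
          ≤ (2 * σ ^ r) * (g * (C * E ^ r * (10 * 10 ^ r * (9000 + D)))) := by
            apply mul_le_mul h7 h2 _ (by positivity)
            apply Finset.sum_nonneg
            intro q _
            apply Finset.sum_nonneg
            intro a _
            apply Finset.sum_nonneg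
            intro i _
            exact GF_nonneg _ _ _ _
        _ ≤ (2 * σ ^ r) * (g * (C * E ^ r * (10 * 10 ^ r * (9001 * (C' * μ) * μ ^ r)))) := by
            apply mul_le_mul_of_nonneg_left _ (by positivity)
            apply mul_le_mul_of_nonneg_left _ (by positivity)
            apply mul_le_mul_of_nonneg_left _ (by positivity)
            apply mul_le_mul_of_nonneg_left hX (by positivity)
        _ = K1 * (10 * (σ * E * μ)) ^ r := by
            rw [hK1, mul_pow, mul_pow, mul_pow]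
            ring
        _ ≤ K1 * (10 * θ') ^ r := by
            apply mul_le_mul_of_nonneg_left _ hK10.le
            apply pow_le_pow_left₀ (by positivity)
            rw [hE, hσμ]
            linarith
    have h6 : (1 / l ^ (3 * g)) * ∑ q ∈ QT r, ∑ a ∈ AA q,
        GF κ T (Icc 1 (g * L)) ((a : ℝ) / q) ^ 4 ≤ K2 * (10 * θ') ^ r := by
      have h := part_two κ T r L g hκ (hrℓ.trans hℓT) hLr hgL
      rw [← hl, ← hK2] at h
      refine h.trans ?_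
      apply mul_le_mul_of_nonneg_left _ hK20.le
      apply pow_le_pow_left₀ (by norm_num)
      linarith
    have h7 : 0 ≤ K3 * (10 * θ') ^ r := by positivity
    calc ∑ q ∈ QT r, ∑ a ∈ AA q, GF κ T (Icc 1 T) ((a : ℝ) / q)
        ≤ K1 * (10 * θ') ^ r + K2 * (10 * θ') ^ r := h4.trans (add_le_add h5 h6)
      _ ≤ (K1 + K2 + K3) * (10 * θ') ^ r := by
          have e : (K1 + K2 + K3) * (10 * θ') ^ r = K1 * (10 * θ') ^ r + K2 * (10 * θ') ^ r +
            K3 * (10 * θ') ^ r := by ring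
          rw [e]
          linarith

end Pool.Agent.Helper10.EN
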