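import Pool.Agent.Helper10.EN.Core
import Pool.Agent.Helper10.EN.MixDef

/-! ENT-B4 (MATHLIB ONLY): selection of the system and of the mixing parameter.

Proof. Put `G U = ∑ i, (∑ k, U k * φ k (x i) * s k) / ∑ k, U k * φ k (x i)` for `U : K → ℝ`. The denominators are
positive for `U = (1 - t) V j + t V (j+1)`, `0 ≤ t ≤ 1`, `j < J`, and for `U = V j`, `j ≤ J` (`≥ p (x i) > 0`).
Case 1: `0 ≤ G (V 0)`: `core` with `v i k = V 0 k * φ k (x i)`, `θ = 0` gives the first alternative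
(`exp (-(0 * _)) = 1`, `∏ i, κ / m (f i) = exp (∑ i, s (f i))`, `∏ i, ∑ k, v i k ≥ ∏ i, p (x i)`).
Case 2: `G (V J) ≤ 0`: `core` with `θ = 1`: `exp (-(∑ s)) = ∏ i, m (f i) / κ`, absorbed in the weights `wJ`.
Case 3: `G (V 0) < 0 < G (V J)`: the least `j` with `G (V (j+1)) ≥ 0` (`Nat.find`, `j < J`) has `G (V j) < 0`; the
function `t ↦ G ((1 - t) V j + t V (j+1))` is continuous on `[0,1]` (quotients with positive denominators), so it
vanishes at some `t` (`intermediate_value_Icc`). `core` with `g = 0`, `θ = θ j`; and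
`exp (-(θ ∑ i, s (f i))) = ∏ i, (m (f i) / κ) ^ θ` (`Real.rpow_def_of_pos`, `log (m/κ) = - s`). -/

namespace Pool.Agent.Helper10.EN

open Finset

variable {K : Type} [Fintype K] {p : ℝ → ℝ}

/-- the mean log likelihood -/
private noncomputable def sG {ι : Type} [Fintype ι] (M : Mix K p) (x : ι → ℝ) (U : K → ℝ) : ℝ :=
  ∑ i, (∑ k, U k * M.φ k (x i) * M.s k) / ∑ k, U k * M.φ k (x i)

private theorem sel_exp (M : Mix K p) {ι : Type} [Fintype ι] (f : ι → K) :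
    ∏ i, M.κ / M.m (f i) = Real.exp (∑ i, M.s (f i)) := by
  rw [Real.exp_sum]
  refine Finset.prod_congr rfl fun i _ => ?_
  rw [Mix.s, Real.exp_log (div_pos M.hκ (M.hm _))]

private theorem sel_rpow (M : Mix K p) {ι : Type} [Fintype ι] (f : ι → K) (θ : ℝ) :
    ∏ i, (M.m (f i) / M.κ) ^ θ = Real.exp (-(θ * ∑ i, M.s (f i))) := by
  rw [Finset.mul_sum, ← Finset.sum_neg_distrib, Real.exp_sum]
  refine Finset.prod_congr rfl fun i _ => ?_
  rw [Real.rpow_def_of_pos (div_pos (M.hm _) M.hκ), Mix.s]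
  congr 1
  rw [← inv_div, Real.log_inv]
  ring

private theorem sel_core (M : Mix K p) (L : ℝ) (hL : 0 < L) (hs : ∀ k, |M.s k| ≤ L) (η : ℝ)
    (hη : 0 < η) (hηL : η ≤ 2 * L) {ι : Type} [Fintype ι] [DecidableEq ι]
    (hn : 4 * Real.exp (-(Fintype.card ι * η ^ 2 / (4 * L ^ 2))) ≤ 1) (x : ι → ℝ)
    (hx : ∀ i, 0 < p (x i)) (U : K → ℝ) (hU : ∀ k, 0 ≤ U k)
    (hmaj : ∀ i, p (x i) ≤ ∑ k, U k * M.φ k (x i)) (θ : ℝ) (h0 : 0 ≤ θ) (h1 : θ ≤ 1)
    (hc : sG M x U = 0 ∨ (0 ≤ sG M x U ∧ θ = 0) ∨ (sG M x U ≤ 0 ∧ θ = 1)) :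
    (1 / 2) * Real.exp (-(η * Fintype.card ι)) * ∏ i, p (x i) ≤
      M.R (fun k => U k * (M.m k / M.κ) ^ θ) x := by
  have h2 := core (ι := ι) (fun i k => U k * M.φ k (x i)) (fun i k => mul_nonneg (hU k) (M.hφ k _))
    (fun i => (hx i).trans_le (hmaj i)) M.s L hL hs θ h0 h1 η hη hηL hn (sG M x U) rfl hc
  have h3 : ∏ i, p (x i) ≤ ∏ i, ∑ k, U k * M.φ k (x i) :=
    Finset.prod_le_prod (fun i _ => (hx i).le) fun i _ => hmaj i
  refine (mul_le_mul_of_nonneg_left h3 (by positivity)).trans (h2.trans (le_of_eq ?_))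
  unfold Mix.R
  refine Finset.sum_congr rfl fun f _ => ?_
  rw [sel_exp, ← sel_rpow, ← mul_assoc, ← Finset.prod_mul_distrib]
  congr 1
  refine Finset.prod_congr rfl fun i _ => ?_
  ring

theorem select (M : Mix K p) (L : ℝ) (hL : 0 < L) (hs : ∀ k, |M.s k| ≤ L) (η : ℝ) (hη : 0 < η)
    (hηL : η ≤ 2 * L) {ι : Type} [Fintype ι] [DecidableEq ι]
    (hn : 4 * Real.exp (-(Fintype.card ι * η ^ 2 / (4 * L ^ 2))) ≤ 1) (x : ι → ℝ)
    (hx : ∀ i, 0 < p (x i)) :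
    ((1 / 2) * Real.exp (-(η * Fintype.card ι)) * ∏ i, p (x i) ≤ M.R (M.V 0) x) ∨
    ((1 / 2) * Real.exp (-(η * Fintype.card ι)) * ∏ i, p (x i) ≤ M.R M.wJ x) ∨
    (∃ j < M.J, ∃ t : ℝ, 0 ≤ t ∧ t ≤ 1 ∧
      (1 / 2) * Real.exp (-(η * Fintype.card ι)) * ∏ i, p (x i) ≤ M.R (M.w j t) x) := by
  have hD : ∀ j < M.J, ∀ t : ℝ, 0 ≤ t → t ≤ 1 → ∀ i,
      p (x i) ≤ ∑ k, ((1 - t) * M.V j k + t * M.V (j + 1) k) * M.φ k (x i) := by
    intro j hj t ht0 ht1 i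
    have e : ∑ k, ((1 - t) * M.V j k + t * M.V (j + 1) k) * M.φ k (x i) =
        (1 - t) * ∑ k, M.V j k * M.φ k (x i) + t * ∑ k, M.V (j + 1) k * M.φ k (x i) := by
      rw [Finset.mul_sum, Finset.mul_sum, ← Finset.sum_add_distrib]
      refine Finset.sum_congr rfl fun k _ => ?_
      ring
    rw [e]
    have h1 := mul_le_mul_of_nonneg_left (M.maj j hj.le (x i)) (sub_nonneg.2 ht1)
    have h2 := mul_le_mul_of_nonneg_left (M.maj (j + 1) hj (x i)) ht0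
    linarith
  rcases le_or_gt 0 (sG M x (M.V 0)) with hG0 | hG0
  · left
    have h1 := sel_core M L hL hs η hη hηL hn x hx (M.V 0) (M.hV 0)
      (fun i => M.maj 0 (Nat.zero_le _) (x i)) 0 le_rfl zero_le_one (Or.inr (Or.inl ⟨hG0, rfl⟩))
    simpa only [Real.rpow_zero, mul_one] using h1
  rcases le_or_gt (sG M x (M.V M.J)) 0 with hGJ | hGJ
  · right; left
    have h1 := sel_core M L hL hs η hη hηL hn x hx (M.V M.J) (M.hV M.J)
      (fun i => M.maj M.J le_rfl (x i)) 1 zero_le_one le_rfl (Or.inr (Or.inr ⟨hGJ, rfl⟩))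
    simp only [Real.rpow_one] at h1
    exact h1
  right; right
  have hex : ∃ j, 0 ≤ sG M x (M.V j) := ⟨M.J, hGJ.le⟩
  classical
  obtain ⟨N, hN1, hN2, hN3⟩ : ∃ N, 0 ≤ sG M x (M.V N) ∧ N ≤ M.J ∧
      ∀ m < N, sG M x (M.V m) < 0 :=
    ⟨Nat.find hex, Nat.find_spec hex, Nat.find_min' hex hGJ.le,
      fun m hm => not_le.1 (Nat.find_min hex hm)⟩
  obtain ⟨j, rfl⟩ : ∃ j, N = j + 1 := by
    cases N with
    | zero => exact absurd hN1 (not_le.2 hG0)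
    | succ j => exact ⟨j, rfl⟩
  have hj : j < M.J := hN2
  have hGj := hN3 j (Nat.lt_succ_self j)
  obtain ⟨F, hF⟩ : ∃ F : ℝ → ℝ,
    F = fun t => sG M x (fun k => (1 - t) * M.V j k + t * M.V (j + 1) k) := ⟨_, rfl⟩
  have hcont : ContinuousOn F (Set.Icc 0 1) := by
    rw [hF]
    unfold sG
    refine continuousOn_finsetSum _ fun i _ => ContinuousOn.div ?_ ?_ ?_
    · fun_prop
    · fun_prop
    · intro t ht
      exact ((hx i).trans_le (hD j hj t ht.1 ht.2 i)).ne'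
  have h0 : F 0 ≤ 0 := by
    rw [hF]
    simp only [sub_zero, one_mul, zero_mul, add_zero]
    exact hGj.le
  have h1 : 0 ≤ F 1 := by
    rw [hF]
    simp only [sub_self, one_mul, zero_mul, zero_add]
    exact hN1
  obtain ⟨t, ht, hFt⟩ := intermediate_value_Icc zero_le_one hcont ⟨h0, h1⟩
  refine ⟨j, hj, t, ht.1, ht.2, ?_⟩
  refine sel_core M L hL hs η hη hηL hn x hx
    (fun k => (1 - t) * M.V j k + t * M.V (j + 1) k) (fun k => ?_) (hD j hj t ht.1 ht.2)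
    (M.θ j) (M.hθ j).1 (M.hθ j).2 (Or.inl ?_)
  · exact add_nonneg (mul_nonneg (sub_nonneg.2 ht.2) (M.hV j k)) (mul_nonneg ht.1 (M.hV _ k))
  · rw [hF] at hFt
    exact hFt

end Pool.Agent.Helper10.EN
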