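import Pool.Agent.Helper10.EN.Auto

/-! ENT-A2: soundness of the certificates.

Let `y = π x` and `T x = S.tc 0 + 2 ∑_{e=1}^{160} S.tc e cos (2 π (e (x/2)))` (so the cosines are `cos (e y)`).
(1) Unfolding `tc`: the even part is `5 ∑ v_i (ac P_i 0 + 2 ∑_k ac P_i k cos (2 π k x)) = 5 * 2^60 ∑ v_i φ_i x`
by `phiL_eq` (for even `e = 2 k`, `cos (2 π (2k (x/2))) = cos (2 π (k x))`), the constant gives `5 v0 2^60`, the odd
part gives `- 2 * 2^89 ∑_{e = 1,3,5,7,9} cos (e π x) = - 2^90 * ∑ …`. Hence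
`T x = 5 * 2^90 * (Ψ x - s x)` with `Ψ x` the right hand side of the theorem and `s x = (1/5) ∑_{e odd ≤ 9} cos (e π x)`.
(2) By `normsq_expand` at `x/2` with `n = 161` and `ac_eq` for `S.G`:
`T x - 5 * 2^10 * ‖∑ G_t ee (t (x/2))‖^2 = S.rc 0 + 2 ∑_{e=1}^{160} S.rc e cos (…) ≥ S.rc 0 - 2 S.sumAbs 160 ≥ 0`.
So `T x ≥ 0` for all real `x`, that is `s x ≤ Ψ x`.
(3) Apply (2) also at `x + 1`: `Ψ (x + 1) = Ψ x` (`ee (t (x + 1)) = ee (t x)`, `ee_add_int`), and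
`cos (e π (x + 1)) = - cos (e π x)` for odd `e`, so `- s x ≤ Ψ x`. With `ph_eq` (P4/Psi): `ph x = |s x| ≤ Ψ x`. -/

namespace Pool.Agent.Helper10.EN

open Finset Pool.Agent.Helper10 Pool.Agent.Helper10.P5 Pool.Agent.Helper10.P4

private lemma ensd_split (g : ℕ → ℝ) (n : ℕ) :
    ∑ e ∈ Ico 1 (2 * n + 1), g e =
      ∑ k ∈ Ico 1 (n + 1), g (2 * k) + ∑ k ∈ range n, g (2 * k + 1) := by
  induction n with
  | zero => simp
  | succ n ih =>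
    rw [show 2 * (n + 1) + 1 = 2 * n + 1 + 1 + 1 by ring, Finset.sum_Ico_succ_top (by omega),
      Finset.sum_Ico_succ_top (by omega), ih, Finset.sum_Ico_succ_top (by omega : 1 ≤ n + 1),
      Finset.sum_range_succ, show 2 * (n + 1) = 2 * n + 1 + 1 by ring]
    ring

private lemma ensd_sumAbs (S : Sys) (n : ℕ) :
    ((S.sumAbs n : ℤ) : ℝ) = ∑ e ∈ Ico 1 (n + 1), |((S.rc e : ℤ) : ℝ)| := by
  induction n with
  | zero => simp [Sys.sumAbs]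
  | succ n ih =>
    rw [Finset.sum_Ico_succ_top (by omega), ← ih, Sys.sumAbs]
    push_cast
    ring

private lemma ensd_tc_even (S : Sys) (k : ℕ) (hk : 1 ≤ k) :
    ((S.tc (2 * k) : ℤ) : ℝ) = 5 * ((S.v1 : ℝ) * ((ac S.P1 k : ℤ) : ℝ) +
      (S.v2 : ℝ) * ((ac S.P2 k : ℤ) : ℝ) + (S.v3 : ℝ) * ((ac S.P3 k : ℤ) : ℝ)) := by
  have h1 : (2 * k) % 2 = 0 := by omega
  have h2 : ¬ (2 * k = 0) := by omega
  have h3 : ¬ ((2 * k) % 2 = 1 ∧ 2 * k ≤ 9) := by omega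
  have h4 : 2 * k / 2 = k := by omega
  unfold Sys.tc
  rw [if_pos h1, if_neg h2, if_neg h3, h4]
  push_cast
  ring

private lemma ensd_tc_zero (S : Sys) :
    ((S.tc 0 : ℤ) : ℝ) = 5 * ((S.v1 : ℝ) * ((ac S.P1 0 : ℤ) : ℝ) +
      (S.v2 : ℝ) * ((ac S.P2 0 : ℤ) : ℝ) + (S.v3 : ℝ) * ((ac S.P3 0 : ℤ) : ℝ)) +
      5 * (S.v0 : ℝ) * 2 ^ 60 := by
  unfold Sys.tc
  rw [if_pos (by norm_num), if_pos rfl, if_neg (by norm_num)]
  push_cast
  ring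

private lemma ensd_tc_odd (S : Sys) (k : ℕ) :
    ((S.tc (2 * k + 1) : ℤ) : ℝ) = if k < 5 then -(2 ^ 89 : ℝ) else 0 := by
  have h1 : ¬ ((2 * k + 1) % 2 = 0) := by omega
  have h2 : ¬ (2 * k + 1 = 0) := by omega
  unfold Sys.tc
  rw [if_neg h1, if_neg h2]
  by_cases hk : k < 5
  · rw [if_pos (⟨by omega, by omega⟩ : (2 * k + 1) % 2 = 1 ∧ 2 * k + 1 ≤ 9), if_pos hk]
    push_cast
    ring
  · rw [if_neg (by omega : ¬ ((2 * k + 1) % 2 = 1 ∧ 2 * k + 1 ≤ 9)), if_neg hk]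
    push_cast
    ring

/-- the right hand side of the theorem -/
private noncomputable def ensd_Psi (S : Sys) (x : ℝ) : ℝ :=
  ((S.v1 : ℝ) * phiL S.P1 x + (S.v2 : ℝ) * phiL S.P2 x + (S.v3 : ℝ) * phiL S.P3 x +
      (S.v0 : ℝ)) / 2 ^ 30

private noncomputable def ensd_s (x : ℝ) : ℝ :=
  1 / 5 * (Real.cos (1 * (Real.pi * x)) + Real.cos (3 * (Real.pi * x)) +
    Real.cos (5 * (Real.pi * x)) + Real.cos (7 * (Real.pi * x)) + Real.cos (9 * (Real.pi * x)))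

private lemma ensd_T (S : Sys) (h1 : S.P1.length ≤ 81) (h2 : S.P2.length ≤ 81)
    (h3 : S.P3.length ≤ 81) (x : ℝ) :
    ((S.tc 0 : ℤ) : ℝ) + 2 * ∑ e ∈ Ico 1 161, ((S.tc e : ℤ) : ℝ) *
      Real.cos (2 * Real.pi * ((e : ℝ) * (x / 2))) = 5 * 2 ^ 90 * (ensd_Psi S x - ensd_s x) := by
  rw [show (161 : ℕ) = 2 * 80 + 1 by norm_num, ensd_split]
  have he : ∑ k ∈ Ico 1 (80 + 1), ((S.tc (2 * k) : ℤ) : ℝ) *
      Real.cos (2 * Real.pi * (((2 * k : ℕ) : ℝ) * (x / 2))) =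
      5 * ((S.v1 : ℝ) * ∑ k ∈ Ico 1 81, ((ac S.P1 k : ℤ) : ℝ) * Real.cos (2 * Real.pi * ((k : ℝ) * x)) +
        (S.v2 : ℝ) * ∑ k ∈ Ico 1 81, ((ac S.P2 k : ℤ) : ℝ) * Real.cos (2 * Real.pi * ((k : ℝ) * x)) +
        (S.v3 : ℝ) * ∑ k ∈ Ico 1 81, ((ac S.P3 k : ℤ) : ℝ) * Real.cos (2 * Real.pi * ((k : ℝ) * x))) := by
    rw [Finset.mul_sum, Finset.mul_sum, Finset.mul_sum, ← Finset.sum_add_distrib,
      ← Finset.sum_add_distrib, Finset.mul_sum]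
    refine Finset.sum_congr rfl fun k hk => ?_
    rw [Finset.mem_Ico] at hk
    rw [ensd_tc_even S k hk.1]
    have e : (((2 * k : ℕ) : ℝ) * (x / 2)) = (k : ℝ) * x := by
      push_cast
      ring
    rw [e]
    ring
  have ho : ∑ k ∈ range 80, ((S.tc (2 * k + 1) : ℤ) : ℝ) *
      Real.cos (2 * Real.pi * (((2 * k + 1 : ℕ) : ℝ) * (x / 2))) =
      -(2 ^ 89 : ℝ) * (5 * ensd_s x) := by
    have h5 : ∀ k ∈ range 80, ((S.tc (2 * k + 1) : ℤ) : ℝ) *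
        Real.cos (2 * Real.pi * (((2 * k + 1 : ℕ) : ℝ) * (x / 2))) =
        if k < 5 then -(2 ^ 89 : ℝ) * Real.cos ((2 * (k : ℝ) + 1) * (Real.pi * x)) else 0 := by
      intro k _
      rw [ensd_tc_odd]
      by_cases hk : k < 5
      · rw [if_pos hk, if_pos hk]
        congr 2
        push_cast
        ring
      · rw [if_neg hk, if_neg hk, zero_mul]
    rw [Finset.sum_congr rfl h5, ← Finset.sum_filter]
    have hf : (range 80).filter (fun k => k < 5) = range 5 := by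
      ext k
      simp only [Finset.mem_filter, Finset.mem_range]
      omega
    rw [hf]
    simp only [Finset.sum_range_succ, Finset.sum_range_zero, ensd_s]
    norm_num
    ring
  rw [he, ho, ensd_tc_zero, ensd_Psi, phiL_eq S.P1 h1 x, phiL_eq S.P2 h2 x, phiL_eq S.P3 h3 x]
  ring

private lemma ensd_T_nonneg (S : Sys) (hG : S.G.length ≤ 161)
    (hr : 2 * S.sumAbs 160 ≤ S.rc 0) (x : ℝ) :
    0 ≤ ((S.tc 0 : ℤ) : ℝ) + 2 * ∑ e ∈ Ico 1 161, ((S.tc e : ℤ) : ℝ) *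
      Real.cos (2 * Real.pi * ((e : ℝ) * (x / 2))) := by
  have hn := normsq_expand (rl S.G) 161 (x / 2)
  have hac : ∀ k, acf (rl S.G) 161 k = ((ac S.G k : ℤ) : ℝ) := fun k => (ac_eq S.G 161 hG k).symm
  simp only [hac] at hn
  have hpos : 0 ≤ ‖∑ t ∈ range 161, ((rl S.G t : ℝ) : ℂ) * ee ((t : ℝ) * (x / 2))‖ ^ 2 := by
    positivity
  rw [hn] at hpos
  have hrc : ∀ e, ((S.tc e : ℤ) : ℝ) = ((S.rc e : ℤ) : ℝ) + 5 * 2 ^ 10 * ((ac S.G e : ℤ) : ℝ) := by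
    intro e
    unfold Sys.rc
    push_cast
    ring
  have hsum : ∑ e ∈ Ico 1 161, ((S.tc e : ℤ) : ℝ) *
      Real.cos (2 * Real.pi * ((e : ℝ) * (x / 2))) =
      ∑ e ∈ Ico 1 161, ((S.rc e : ℤ) : ℝ) * Real.cos (2 * Real.pi * ((e : ℝ) * (x / 2))) +
      5 * 2 ^ 10 * ∑ e ∈ Ico 1 161, ((ac S.G e : ℤ) : ℝ) *
        Real.cos (2 * Real.pi * ((e : ℝ) * (x / 2))) := by
    rw [Finset.mul_sum, ← Finset.sum_add_distrib]
    refine Finset.sum_congr rfl fun e _ => ?_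
    rw [hrc e]
    ring
  have hlow : -((S.sumAbs 160 : ℤ) : ℝ) ≤
      ∑ e ∈ Ico 1 161, ((S.rc e : ℤ) : ℝ) * Real.cos (2 * Real.pi * ((e : ℝ) * (x / 2))) := by
    rw [ensd_sumAbs, ← Finset.sum_neg_distrib]
    refine Finset.sum_le_sum fun e _ => ?_
    have h1 : |((S.rc e : ℤ) : ℝ) * Real.cos (2 * Real.pi * ((e : ℝ) * (x / 2)))| ≤
        |((S.rc e : ℤ) : ℝ)| := by
      rw [abs_mul]
      exact mul_le_of_le_one_right (abs_nonneg _) (Real.abs_cos_le_one _)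
    exact (abs_le.mp h1).1
  have hr' : 2 * ((S.sumAbs 160 : ℤ) : ℝ) ≤ ((S.rc 0 : ℤ) : ℝ) := by exact_mod_cast hr
  rw [hsum, hrc 0]
  nlinarith [hpos, hlow, hr']

private lemma ensd_s_le (S : Sys) (h1 : S.P1.length ≤ 81) (h2 : S.P2.length ≤ 81)
    (h3 : S.P3.length ≤ 81) (hG : S.G.length ≤ 161)
    (hr : 2 * S.sumAbs 160 ≤ S.rc 0) (x : ℝ) : ensd_s x ≤ ensd_Psi S x := by
  have h := ensd_T_nonneg S hG hr x
  rw [ensd_T S h1 h2 h3 x] at h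
  have h5 : (0 : ℝ) < 5 * 2 ^ 90 := by positivity
  have := nonneg_of_mul_nonneg_right h h5
  linarith

private lemma ensd_phi_shift (P : List ℤ) (x : ℝ) : phiL P (x + 1) = phiL P x := by
  unfold phiL
  congr 3
  refine Finset.sum_congr rfl fun t _ => ?_
  have e : (t : ℝ) * (x + 1) = (t : ℝ) * x + ((t : ℤ) : ℝ) := by
    push_cast
    ring
  rw [e, ee_add_int]

private lemma ensd_cos_shift (j : ℕ) (x : ℝ) :
    Real.cos ((2 * (j : ℝ) + 1) * (Real.pi * (x + 1))) =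
      - Real.cos ((2 * (j : ℝ) + 1) * (Real.pi * x)) := by
  have e : (2 * (j : ℝ) + 1) * (Real.pi * (x + 1)) =
      ((2 * (j : ℝ) + 1) * (Real.pi * x) + Real.pi) + (j : ℕ) * (2 * Real.pi) := by
    ring
  rw [e, Real.cos_add_nat_mul_two_pi, Real.cos_add_pi]

private lemma ensd_s_shift (x : ℝ) : ensd_s (x + 1) = - ensd_s x := by
  have h0 := ensd_cos_shift 0 x
  have h1 := ensd_cos_shift 1 x
  have h2 := ensd_cos_shift 2 x
  have h3 := ensd_cos_shift 3 x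
  have h4 := ensd_cos_shift 4 x
  rw [show (2 * ((0 : ℕ) : ℝ) + 1) = 1 by norm_num] at h0
  rw [show (2 * ((1 : ℕ) : ℝ) + 1) = 3 by norm_num] at h1
  rw [show (2 * ((2 : ℕ) : ℝ) + 1) = 5 by norm_num] at h2
  rw [show (2 * ((3 : ℕ) : ℝ) + 1) = 7 by norm_num] at h3
  rw [show (2 * ((4 : ℕ) : ℝ) + 1) = 9 by norm_num] at h4
  unfold ensd_s
  rw [h0, h1, h2, h3, h4]
  ring

theorem sys_sound (S : Sys) (h : S.ok = true) (x : ℝ) :
    ph x ≤ ((S.v1 : ℝ) * phiL S.P1 x + (S.v2 : ℝ) * phiL S.P2 x + (S.v3 : ℝ) * phiL S.P3 x +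
      (S.v0 : ℝ)) / 2 ^ 30 := by
  unfold Sys.ok at h
  simp only [Bool.and_eq_true, decide_eq_true_eq] at h
  obtain ⟨⟨⟨⟨k1, k2⟩, k3⟩, hG⟩, hr⟩ := h
  have h1 := kerOk_length S.P1 k1
  have h2 := kerOk_length S.P2 k2
  have h3 := kerOk_length S.P3 k3
  have ha := ensd_s_le S h1 h2 h3 hG hr x
  have hb := ensd_s_le S h1 h2 h3 hG hr (x + 1)
  rw [ensd_s_shift] at hb
  have hP : ensd_Psi S (x + 1) = ensd_Psi S x := by
    unfold ensd_Psi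
    rw [ensd_phi_shift, ensd_phi_shift, ensd_phi_shift]
  rw [hP] at hb
  rw [ph_eq]
  change |ensd_s x| ≤ ensd_Psi S x
  rw [abs_le]
  constructor <;> linarith

end Pool.Agent.Helper10.EN
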