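import Pool.Agent.Helper10.EN.Fam
import Pool.Agent.Helper10.EN.MixDef

/-! ENT-A4: the scalar conditions, and the mixture data.

All sums have four terms (`sum_VK`). `mu P = ac P 0 / 2^60` and the integer `ac P 0` is computed by
`by decide +kernel`. The power `x ^ (a/b : ℝ)` is at most `r` if `0 ≤ x ≤ X`, `0 ≤ r` and `X ^ a ≤ r ^ b`
(write `x ^ (a/b) = (x ^ a) ^ (1/b)`, `Real.pow_rpow_inv_natCast`, or take `b`-th powers). `1 + 2/10^6 ≤ exp (2/10^6)`.
Table (`m = mK (j, i)`, `κ = kap = 1929/10000`, `i = 3` is the constant kernel, `m = 1`; total = the sum of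
`v / 2^30 * r`, an upper bound for `∑ k, VK j k * (mK k / kap) ^ theta`):
j=0 theta=0 total=1.000001520
   i=0 ac0=129992101317234407  X<=0.58450065  r=100000000/10^8 v=723390523
   i=1 ac0=288230543317493452  X<=1.29600905  r=100000000/10^8 v=155946682
   i=2 ac0=587990068914787471  X<=2.64385738  r=100000000/10^8 v=92101433
   i=3 ac0=1152921504606846976  X<=5.18403318  r=100000000/10^8 v=102304818
j=0 theta=2/7 total=1.000000506
   i=0 ac0=129992101317234407  X<=0.58450065  r=85776268/10^8 v=723390523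
   i=1 ac0=288230543317493452  X<=1.29600905  r=107689591/10^8 v=155946682
   i=2 ac0=587990068914787471  X<=2.64385738  r=132019911/10^8 v=92101433
   i=3 ac0=1152921504606846976  X<=5.18403318  r=160026090/10^8 v=102304818
j=1 theta=2/7 total=0.999898150
   i=0 ac0=120964999125086951  X<=0.5439109  r=84030415/10^8 v=881912350
   i=1 ac0=412919067738588971  X<=1.85666253  r=119338576/10^8 v=87760083
   i=2 ac0=576460855848316297  X<=2.59201706  r=131275066/10^8 v=53080390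
   i=3 ac0=1152921504606846976  X<=5.18403318  r=160026090/10^8 v=98824451
j=1 theta=3/7 total=0.999898953
   i=0 ac0=120964999125086951  X<=0.5439109  r=77029088/10^8 v=881912350
   i=1 ac0=412919067738588971  X<=1.85666253  r=130368082/10^8 v=87760083
   i=2 ac0=576460855848316297  X<=2.59201706  r=150408842/10^8 v=53080390
   i=3 ac0=1152921504606846976  X<=5.18403318  r=202435274/10^8 v=98824451
j=2 theta=3/7 total=0.998487107
   i=0 ac0=115385104401622835  X<=0.51882128  r=75485714/10^8 v=871368762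
   i=1 ac0=322011145640583648  X<=1.44790123  r=117189343/10^8 v=118584783
   i=2 ac0=575008175965700395  X<=2.58548518  r=150246284/10^8 v=120511481
   i=3 ac0=1152921504606846976  X<=5.18403318  r=202435274/10^8 v=46595479
j=2 theta=4/7 total=0.998488117
   i=0 ac0=115385104401622835  X<=0.51882128  r=68731057/10^8 v=871368762
   i=1 ac0=322011145640583648  X<=1.44790123  r=123552297/10^8 v=118584783
   i=2 ac0=575008175965700395  X<=2.58548518  r=172083138/10^8 v=120511481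
   i=3 ac0=1152921504606846976  X<=5.18403318  r=256083493/10^8 v=46595479
j=3 theta=4/7 total=0.999868656
   i=0 ac0=119454472423812030  X<=0.53711892  r=70105896/10^8 v=983217565
   i=1 ac0=301224261397495066  X<=1.35443442  r=118929687/10^8 v=93464040
   i=2 ac0=576460856734081343  X<=2.59201706  r=172331429/10^8 v=119955165
   i=3 ac0=1152921504606846976  X<=5.18403318  r=256083493/10^8 v=25940903
j=3 theta=5/6 total=0.999870566
   i=0 ac0=119454472423812030  X<=0.53711892  r=59574268/10^8 v=983217565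
   i=1 ac0=301224261397495066  X<=1.35443442  r=128765145/10^8 v=93464040
   i=2 ac0=576460856734081343  X<=2.59201706  r=221155739/10^8 v=119955165
   i=3 ac0=1152921504606846976  X<=5.18403318  r=394054669/10^8 v=25940903
j=4 theta=5/6 total=0.999637322
   i=0 ac0=125199257466468206  X<=0.56294996  r=61952404/10^8 v=1096227731
   i=1 ac0=323125849428961145  X<=1.45291342  r=136521101/10^8 v=66414689
   i=2 ac0=576642143174933054  X<=2.59283221  r=221213696/10^8 v=124591590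
   i=3 ac0=1152921504606846976  X<=5.18403318  r=394054669/10^8 v=7087657
j=4 theta=1 total=0.999685272
   i=0 ac0=125199257466468206  X<=0.56294996  r=56294996/10^8 v=1096227731
   i=1 ac0=323125849428961145  X<=1.45291342  r=145291342/10^8 v=66414689
   i=2 ac0=576642143174933054  X<=2.59283221  r=259283221/10^8 v=124591590
   i=3 ac0=1152921504606846976  X<=5.18403318  r=518403318/10^8 v=7087657
-/

namespace Pool.Agent.Helper10.EN

open Finset Pool.Agent.Helper10 Pool.Agent.Helper10.P5 Pool.Agent.Helper10.P4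

private lemma zk_pow {x X r θ : ℝ} {a b : ℕ} (hb : b ≠ 0) (hθ : θ * b = a) (hx : 0 ≤ x)
    (hX : x ≤ X) (hr : 0 ≤ r) (h : X ^ a ≤ r ^ b) : x ^ θ ≤ r := by
  rw [← pow_le_pow_iff_left₀ (Real.rpow_nonneg hx θ) hr hb, ← Real.rpow_mul_natCast hx, hθ,
    Real.rpow_natCast]
  exact (pow_le_pow_left₀ hx hX a).trans h

private lemma zk_m0 (j : Fin 5) {c : ℤ} (h : ac (sysT j).P1 0 = c) :
    mK (j, 0) = (c : ℝ) / 2 ^ 60 := by
  unfold mK lstK mu
  simp [h]

private lemma zk_m1 (j : Fin 5) {c : ℤ} (h : ac (sysT j).P2 0 = c) :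
    mK (j, 1) = (c : ℝ) / 2 ^ 60 := by
  unfold mK lstK mu
  simp [h]

private lemma zk_m2 (j : Fin 5) {c : ℤ} (h : ac (sysT j).P3 0 = c) :
    mK (j, 2) = (c : ℝ) / 2 ^ 60 := by
  unfold mK lstK mu
  simp [h]

private lemma zk_m3 (j : Fin 5) : mK (j, 3) = 1 := by
  unfold mK
  simp

private lemma zk_exp {s : ℝ} (h : s ≤ 1 + 2 / 10 ^ 6) : s ≤ Real.exp (2 / 10 ^ 6) := by
  have h1 := Real.add_one_le_exp (2 / 10 ^ 6 : ℝ)
  linarith

private lemma zk_kap : 0 < kap := by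
  unfold kap
  norm_num

private lemma zk_sum (j : Fin 5) {θ : ℝ} {a b : ℕ} (hb : b ≠ 0) (hθ : θ * b = a) {c1 c2 c3 : ℤ}
    (h1 : ac (sysT j).P1 0 = c1) (h2 : ac (sysT j).P2 0 = c2) (h3 : ac (sysT j).P3 0 = c3)
    {X1 X2 X3 X0 r1 r2 r3 r0 : ℝ} (hX1 : (c1 : ℝ) / 2 ^ 60 / (1929 / 10000) ≤ X1)
    (hX2 : (c2 : ℝ) / 2 ^ 60 / (1929 / 10000) ≤ X2) (hX3 : (c3 : ℝ) / 2 ^ 60 / (1929 / 10000) ≤ X3)
    (hX0 : (1 : ℝ) / (1929 / 10000) ≤ X0) (hr1 : 0 ≤ r1) (hr2 : 0 ≤ r2) (hr3 : 0 ≤ r3)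
    (hr0 : 0 ≤ r0) (hp1 : X1 ^ a ≤ r1 ^ b) (hp2 : X2 ^ a ≤ r2 ^ b) (hp3 : X3 ^ a ≤ r3 ^ b)
    (hp0 : X0 ^ a ≤ r0 ^ b) {v1 v2 v3 v0 : ℕ} (hv1 : (sysT j).v1 = v1) (hv2 : (sysT j).v2 = v2)
    (hv3 : (sysT j).v3 = v3) (hv0 : (sysT j).v0 = v0)
    (hs : (v1 : ℝ) / 2 ^ 30 * r1 + (v2 : ℝ) / 2 ^ 30 * r2 + (v3 : ℝ) / 2 ^ 30 * r3 +
      (v0 : ℝ) / 2 ^ 30 * r0 ≤ 1 + 2 / 10 ^ 6) :
    ∑ k, VK j k * (mK k / kap) ^ θ ≤ Real.exp (2 / 10 ^ 6) := by
  apply zk_exp
  rw [sum_VK j (fun k => (mK k / kap) ^ θ)]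
  have hk : ∀ k, 0 ≤ mK k / kap := fun k => div_nonneg (mK_pos k).le zk_kap.le
  have e1 : (mK (j, 0) / kap) ^ θ ≤ r1 :=
    zk_pow hb hθ (hk _) (by rw [zk_m0 j h1]; exact hX1) hr1 hp1
  have e2 : (mK (j, 1) / kap) ^ θ ≤ r2 :=
    zk_pow hb hθ (hk _) (by rw [zk_m1 j h2]; exact hX2) hr2 hp2
  have e3 : (mK (j, 2) / kap) ^ θ ≤ r3 :=
    zk_pow hb hθ (hk _) (by rw [zk_m2 j h3]; exact hX3) hr3 hp3
  have e0 : (mK (j, 3) / kap) ^ θ ≤ r0 :=
    zk_pow hb hθ (hk _) (by rw [zk_m3 j]; exact hX0) hr0 hp0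
  rw [hv1, hv2, hv3, hv0]
  refine le_trans ?_ hs
  gcongr

private lemma zk_0_27 : ∑ k, VK (0 : Fin 5) k * (mK k / kap) ^ (2 / 7 : ℝ) ≤
    Real.exp (2 / 10 ^ 6) := by
  refine zk_sum 0 (a := 2) (b := 7) (c1 := 129992101317234407) (c2 := 288230543317493452)
    (c3 := 587990068914787471) (X1 := 0.58450065) (X2 := 1.29600905) (X3 := 2.64385738) (X0 := 5.18403318)
    (r1 := 85776268 / 10 ^ 8) (r2 := 107689591 / 10 ^ 8) (r3 := 132019911 / 10 ^ 8) (r0 := 160026090 / 10 ^ 8)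
    (v1 := 723390523) (v2 := 155946682) (v3 := 92101433) (v0 := 102304818)
    (by norm_num) (by norm_num) (by decide +kernel) (by decide +kernel) (by decide +kernel)
    ?_ ?_ ?_ ?_ ?_ ?_ ?_ ?_ ?_ ?_ ?_ ?_ rfl rfl rfl rfl ?_ <;> norm_num

private lemma zk_1_27 : ∑ k, VK (1 : Fin 5) k * (mK k / kap) ^ (2 / 7 : ℝ) ≤
    Real.exp (2 / 10 ^ 6) := by
  refine zk_sum 1 (a := 2) (b := 7) (c1 := 120964999125086951) (c2 := 412919067738588971)
    (c3 := 576460855848316297) (X1 := 0.5439109) (X2 := 1.85666253) (X3 := 2.59201706) (X0 := 5.18403318)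
    (r1 := 84030415 / 10 ^ 8) (r2 := 119338576 / 10 ^ 8) (r3 := 131275066 / 10 ^ 8) (r0 := 160026090 / 10 ^ 8)
    (v1 := 881912350) (v2 := 87760083) (v3 := 53080390) (v0 := 98824451)
    (by norm_num) (by norm_num) (by decide +kernel) (by decide +kernel) (by decide +kernel)
    ?_ ?_ ?_ ?_ ?_ ?_ ?_ ?_ ?_ ?_ ?_ ?_ rfl rfl rfl rfl ?_ <;> norm_num

private lemma zk_1_37 : ∑ k, VK (1 : Fin 5) k * (mK k / kap) ^ (3 / 7 : ℝ) ≤
    Real.exp (2 / 10 ^ 6) := by
  refine zk_sum 1 (a := 3) (b := 7) (c1 := 120964999125086951) (c2 := 412919067738588971)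
    (c3 := 576460855848316297) (X1 := 0.5439109) (X2 := 1.85666253) (X3 := 2.59201706) (X0 := 5.18403318)
    (r1 := 77029088 / 10 ^ 8) (r2 := 130368082 / 10 ^ 8) (r3 := 150408842 / 10 ^ 8) (r0 := 202435274 / 10 ^ 8)
    (v1 := 881912350) (v2 := 87760083) (v3 := 53080390) (v0 := 98824451)
    (by norm_num) (by norm_num) (by decide +kernel) (by decide +kernel) (by decide +kernel)
    ?_ ?_ ?_ ?_ ?_ ?_ ?_ ?_ ?_ ?_ ?_ ?_ rfl rfl rfl rfl ?_ <;> norm_num

private lemma zk_2_37 : ∑ k, VK (2 : Fin 5) k * (mK k / kap) ^ (3 / 7 : ℝ) ≤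
    Real.exp (2 / 10 ^ 6) := by
  refine zk_sum 2 (a := 3) (b := 7) (c1 := 115385104401622835) (c2 := 322011145640583648)
    (c3 := 575008175965700395) (X1 := 0.51882128) (X2 := 1.44790123) (X3 := 2.58548518) (X0 := 5.18403318)
    (r1 := 75485714 / 10 ^ 8) (r2 := 117189343 / 10 ^ 8) (r3 := 150246284 / 10 ^ 8) (r0 := 202435274 / 10 ^ 8)
    (v1 := 871368762) (v2 := 118584783) (v3 := 120511481) (v0 := 46595479)
    (by norm_num) (by norm_num) (by decide +kernel) (by decide +kernel) (by decide +kernel)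
    ?_ ?_ ?_ ?_ ?_ ?_ ?_ ?_ ?_ ?_ ?_ ?_ rfl rfl rfl rfl ?_ <;> norm_num

private lemma zk_2_47 : ∑ k, VK (2 : Fin 5) k * (mK k / kap) ^ (4 / 7 : ℝ) ≤
    Real.exp (2 / 10 ^ 6) := by
  refine zk_sum 2 (a := 4) (b := 7) (c1 := 115385104401622835) (c2 := 322011145640583648)
    (c3 := 575008175965700395) (X1 := 0.51882128) (X2 := 1.44790123) (X3 := 2.58548518) (X0 := 5.18403318)
    (r1 := 68731057 / 10 ^ 8) (r2 := 123552297 / 10 ^ 8) (r3 := 172083138 / 10 ^ 8) (r0 := 256083493 / 10 ^ 8)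
    (v1 := 871368762) (v2 := 118584783) (v3 := 120511481) (v0 := 46595479)
    (by norm_num) (by norm_num) (by decide +kernel) (by decide +kernel) (by decide +kernel)
    ?_ ?_ ?_ ?_ ?_ ?_ ?_ ?_ ?_ ?_ ?_ ?_ rfl rfl rfl rfl ?_ <;> norm_num

private lemma zk_3_47 : ∑ k, VK (3 : Fin 5) k * (mK k / kap) ^ (4 / 7 : ℝ) ≤
    Real.exp (2 / 10 ^ 6) := by
  refine zk_sum 3 (a := 4) (b := 7) (c1 := 119454472423812030) (c2 := 301224261397495066)
    (c3 := 576460856734081343) (X1 := 0.53711892) (X2 := 1.35443442) (X3 := 2.59201706) (X0 := 5.18403318)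
    (r1 := 70105896 / 10 ^ 8) (r2 := 118929687 / 10 ^ 8) (r3 := 172331429 / 10 ^ 8) (r0 := 256083493 / 10 ^ 8)
    (v1 := 983217565) (v2 := 93464040) (v3 := 119955165) (v0 := 25940903)
    (by norm_num) (by norm_num) (by decide +kernel) (by decide +kernel) (by decide +kernel)
    ?_ ?_ ?_ ?_ ?_ ?_ ?_ ?_ ?_ ?_ ?_ ?_ rfl rfl rfl rfl ?_ <;> norm_num

private lemma zk_3_56 : ∑ k, VK (3 : Fin 5) k * (mK k / kap) ^ (5 / 6 : ℝ) ≤
    Real.exp (2 / 10 ^ 6) := by
  refine zk_sum 3 (a := 5) (b := 6) (c1 := 119454472423812030) (c2 := 301224261397495066)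
    (c3 := 576460856734081343) (X1 := 0.53711892) (X2 := 1.35443442) (X3 := 2.59201706) (X0 := 5.18403318)
    (r1 := 59574268 / 10 ^ 8) (r2 := 128765145 / 10 ^ 8) (r3 := 221155739 / 10 ^ 8) (r0 := 394054669 / 10 ^ 8)
    (v1 := 983217565) (v2 := 93464040) (v3 := 119955165) (v0 := 25940903)
    (by norm_num) (by norm_num) (by decide +kernel) (by decide +kernel) (by decide +kernel)
    ?_ ?_ ?_ ?_ ?_ ?_ ?_ ?_ ?_ ?_ ?_ ?_ rfl rfl rfl rfl ?_ <;> norm_num

private lemma zk_4_56 : ∑ k, VK (4 : Fin 5) k * (mK k / kap) ^ (5 / 6 : ℝ) ≤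
    Real.exp (2 / 10 ^ 6) := by
  refine zk_sum 4 (a := 5) (b := 6) (c1 := 125199257466468206) (c2 := 323125849428961145)
    (c3 := 576642143174933054) (X1 := 0.56294996) (X2 := 1.45291342) (X3 := 2.59283221) (X0 := 5.18403318)
    (r1 := 61952404 / 10 ^ 8) (r2 := 136521101 / 10 ^ 8) (r3 := 221213696 / 10 ^ 8) (r0 := 394054669 / 10 ^ 8)
    (v1 := 1096227731) (v2 := 66414689) (v3 := 124591590) (v0 := 7087657)
    (by norm_num) (by norm_num) (by decide +kernel) (by decide +kernel) (by decide +kernel)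
    ?_ ?_ ?_ ?_ ?_ ?_ ?_ ?_ ?_ ?_ ?_ ?_ rfl rfl rfl rfl ?_ <;> norm_num

theorem ZK_first : ∑ k, VK 0 k ≤ Real.exp (2 / 10 ^ 6) := by
  apply zk_exp
  have h := sum_VK 0 (fun _ => 1)
  simp only [mul_one] at h
  have h1 : ∑ k, VK 0 k = ∑ k, VK ((0 : Fin 5) : ℕ) k := rfl
  have e1 : (sysT 0).v1 = 723390523 := rfl
  have e2 : (sysT 0).v2 = 155946682 := rfl
  have e3 : (sysT 0).v3 = 92101433 := rfl
  have e0 : (sysT 0).v0 = 102304818 := rfl
  rw [h1, h, e1, e2, e3, e0]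
  norm_num

theorem ZK_last : ∑ k, VK 4 k * (mK k / kap) ≤ Real.exp (2 / 10 ^ 6) := by
  apply zk_exp
  have h1 : ∑ k, VK 4 k * (mK k / kap) = ∑ k, VK ((4 : Fin 5) : ℕ) k * (mK k / kap) := rfl
  have e1 : (sysT 4).v1 = 1096227731 := rfl
  have e2 : (sysT 4).v2 = 66414689 := rfl
  have e3 : (sysT 4).v3 = 124591590 := rfl
  have e0 : (sysT 4).v0 = 7087657 := rfl
  have a1 : ac (sysT 4).P1 0 = 125199257466468206 := by decide +kernel
  have a2 : ac (sysT 4).P2 0 = 323125849428961145 := by decide +kernel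
  have a3 : ac (sysT 4).P3 0 = 576642143174933054 := by decide +kernel
  rw [h1, sum_VK 4 (fun k => mK k / kap)]
  rw [zk_m0 4 a1, zk_m1 4 a2, zk_m2 4 a3, zk_m3, e1, e2, e3, e0]
  unfold kap
  norm_num

theorem ZK_left (j : ℕ) (hj : j < 4) : ∑ k, VK j k * (mK k / kap) ^ thK j ≤ Real.exp (2 / 10 ^ 6) := by
  have t0 : thK 0 = 2 / 7 := by unfold thK; norm_num
  have t1 : thK 1 = 3 / 7 := by unfold thK; norm_num
  have t2 : thK 2 = 4 / 7 := by unfold thK; norm_num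
  have t3 : thK 3 = 5 / 6 := by unfold thK; norm_num
  interval_cases j
  · rw [t0]
    exact zk_0_27
  · rw [t1]
    exact zk_1_37
  · rw [t2]
    exact zk_2_47
  · rw [t3]
    exact zk_3_56

theorem ZK_right (j : ℕ) (hj : j < 4) :
    ∑ k, VK (j + 1) k * (mK k / kap) ^ thK j ≤ Real.exp (2 / 10 ^ 6) := by
  have t0 : thK 0 = 2 / 7 := by unfold thK; norm_num
  have t1 : thK 1 = 3 / 7 := by unfold thK; norm_num
  have t2 : thK 2 = 4 / 7 := by unfold thK; norm_num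
  have t3 : thK 3 = 5 / 6 := by unfold thK; norm_num
  interval_cases j
  · rw [t0]
    exact zk_1_27
  · rw [t1]
    exact zk_2_37
  · rw [t2]
    exact zk_3_47
  · rw [t3]
    exact zk_4_56

/-- the mixture data of the palindromes -/
noncomputable def mixK : Mix (Fin 5 × Fin 4) ph where
  φ := phK
  m := mK
  κ := kap
  δ := 2 / 10 ^ 6
  J := 4
  V := VK
  θ := thK
  hp := ph_nonneg
  hφ := phK_nonneg
  hm := mK_pos
  hκ := by unfold kap; norm_num
  hV := VK_nonneg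
  hθ := by
    intro j
    unfold thK
    split_ifs <;> norm_num
  maj := maj
  Z0 := ZK_first
  ZJ := ZK_last
  Zl := ZK_left
  Zr := ZK_right

end Pool.Agent.Helper10.EN
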